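import Mathlib

/-!
# Integral operators with bounded measurable kernels on finite measure spaces are compact
(chunk B)
-/

open MeasureTheory
open scoped ENNReal

namespace Pool.Agent.Lib.Maass

variable {X : Type*} [MeasurableSpace X]

/-- `T` is the integral operator with kernel `K`. -/
def IsKernelOp (μ : Measure X) (K : X → X → ℝ) (T : Lp ℂ 2 μ →L[ℂ] Lp ℂ 2 μ) : Prop :=
  ∀ g : Lp ℂ 2 μ, T g =ᵐ[μ] fun x => ∫ y, (K x y : ℂ) * g y ∂μ

/-- The kernel is bounded and measurable. -/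
structure IsBK (K : X → X → ℝ) : Prop where
  meas : Measurable (Function.uncurry K)
  bdd : ∃ C : ℝ, ∀ x y, |K x y| ≤ C

lemma IsBK.add {K L : X → X → ℝ} (hK : IsBK K) (hL : IsBK L) : IsBK fun x y => K x y + L x y := by
  obtain ⟨C, hC⟩ := hK.bdd
  obtain ⟨D, hD⟩ := hL.bdd
  exact ⟨hK.meas.add hL.meas, C + D, fun x y => (abs_add_le _ _).trans (add_le_add (hC x y) (hD x y))⟩

lemma IsBK.sub {K L : X → X → ℝ} (hK : IsBK K) (hL : IsBK L) : IsBK fun x y => K x y - L x y := by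
  obtain ⟨C, hC⟩ := hK.bdd
  obtain ⟨D, hD⟩ := hL.bdd
  exact ⟨hK.meas.sub hL.meas, C + D, fun x y => (abs_sub _ _).trans (add_le_add (hC x y) (hD x y))⟩

lemma IsBK.measurable_right {K : X → X → ℝ} (hK : IsBK K) (x : X) : Measurable (K x) :=
  hK.meas.comp measurable_prodMk_left

lemma IsBK.integrable_mul {K : X → X → ℝ} (hK : IsBK K) {μ : Measure X} [IsFiniteMeasure μ] (x : X)
    {g : X → ℂ} (hg : Integrable g μ) : Integrable (fun y => (K x y : ℂ) * g y) μ := by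
  obtain ⟨C, hC⟩ := hK.bdd
  refine hg.bdd_mul (c := C) ?_ (Filter.Eventually.of_forall fun y => ?_)
  · exact (Complex.measurable_ofReal.comp (hK.measurable_right x)).aestronglyMeasurable
  · rw [Complex.norm_real]; exact hC x y

lemma integrable_Lp {μ : Measure X} [IsFiniteMeasure μ] (g : Lp ℂ 2 μ) : Integrable g μ :=
  (Lp.memLp g).integrable (by norm_num)

/-- The Hilbert–Schmidt bound. -/
lemma eLpNorm_kernel_le {K : X → X → ℝ} (hK : IsBK K) (μ : Measure X) [IsFiniteMeasure μ]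
    {g : X → ℂ} (hg : AEStronglyMeasurable g μ) :
    eLpNorm (fun x => ∫ y, (K x y : ℂ) * g y ∂μ) 2 μ ≤
      (∫⁻ z, ‖K z.1 z.2‖ₑ ^ (2 : ℝ) ∂(μ.prod μ)) ^ (1 / 2 : ℝ) * eLpNorm g 2 μ := by
  have h2 : (2 : ℝ≥0∞) ≠ 0 := by norm_num
  have h2' : (2 : ℝ≥0∞) ≠ ⊤ := by norm_num
  rw [eLpNorm_eq_lintegral_rpow_enorm_toReal h2 h2', eLpNorm_eq_lintegral_rpow_enorm_toReal h2 h2']
  rw [ENNReal.toReal_ofNat, ← ENNReal.mul_rpow_of_nonneg _ _ (by norm_num)]
  apply ENNReal.rpow_le_rpow _ (by norm_num)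
  have hpt : ∀ x, ‖∫ y, (K x y : ℂ) * g y ∂μ‖ₑ ^ (2 : ℝ) ≤
      (∫⁻ y, ‖K x y‖ₑ ^ (2 : ℝ) ∂μ) * ∫⁻ y, ‖g y‖ₑ ^ (2 : ℝ) ∂μ := by
    intro x
    have h1 : ‖∫ y, (K x y : ℂ) * g y ∂μ‖ₑ ≤
        (∫⁻ y, ‖K x y‖ₑ ^ (2 : ℝ) ∂μ) ^ (1 / 2 : ℝ) * (∫⁻ y, ‖g y‖ₑ ^ (2 : ℝ) ∂μ) ^ (1 / 2 : ℝ) := by
      refine (enorm_integral_le_lintegral_enorm _).trans ?_
      have h3 := ENNReal.lintegral_mul_le_Lp_mul_Lq μ (p := 2) (q := 2)
        (Real.HolderConjugate.two_two) (f := fun y => ‖K x y‖ₑ) (g := fun y => ‖g y‖ₑ)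
        (hK.measurable_right x).enorm.aemeasurable hg.enorm
      refine le_trans (le_of_eq ?_) h3
      apply lintegral_congr
      intro y
      rw [enorm_mul, Pi.mul_apply]
      congr 1
      rw [← ofReal_norm, ← ofReal_norm, Complex.norm_real]
    calc ‖∫ y, (K x y : ℂ) * g y ∂μ‖ₑ ^ (2 : ℝ) ≤ ((∫⁻ y, ‖K x y‖ₑ ^ (2 : ℝ) ∂μ) ^ (1 / 2 : ℝ) *
          (∫⁻ y, ‖g y‖ₑ ^ (2 : ℝ) ∂μ) ^ (1 / 2 : ℝ)) ^ (2 : ℝ) :=
          ENNReal.rpow_le_rpow h1 (by norm_num)
      _ = _ := by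
          rw [ENNReal.mul_rpow_of_nonneg _ _ (by norm_num), ← ENNReal.rpow_mul, ← ENNReal.rpow_mul]
          norm_num
  calc ∫⁻ x, ‖∫ y, (K x y : ℂ) * g y ∂μ‖ₑ ^ (2 : ℝ) ∂μ ≤
      ∫⁻ x, (∫⁻ y, ‖K x y‖ₑ ^ (2 : ℝ) ∂μ) * ∫⁻ y, ‖g y‖ₑ ^ (2 : ℝ) ∂μ ∂μ := lintegral_mono hpt
    _ = (∫⁻ x, (∫⁻ y, ‖K x y‖ₑ ^ (2 : ℝ) ∂μ) ∂μ) * ∫⁻ y, ‖g y‖ₑ ^ (2 : ℝ) ∂μ := by
        apply lintegral_mul_const
        have : Measurable (fun z : X × X => ‖K z.1 z.2‖ₑ ^ (2 : ℝ)) :=
          (hK.meas.enorm).pow_const _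
        exact this.lintegral_prod_right
    _ = _ := by
        congr 1
        rw [lintegral_prod]
        exact ((hK.meas.enorm).pow_const _).aemeasurable

/-- The Hilbert–Schmidt norm (squared) of a bounded kernel is finite. -/
lemma hs_lt_top {K : X → X → ℝ} (hK : IsBK K) (μ : Measure X) [IsFiniteMeasure μ] :
    ∫⁻ z, ‖K z.1 z.2‖ₑ ^ (2 : ℝ) ∂(μ.prod μ) < ⊤ := by
  obtain ⟨C, hC⟩ := hK.bdd
  calc ∫⁻ z, ‖K z.1 z.2‖ₑ ^ (2 : ℝ) ∂(μ.prod μ) ≤ ∫⁻ _z, (ENNReal.ofReal C) ^ (2 : ℝ) ∂(μ.prod μ) := by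
        apply lintegral_mono
        intro z
        apply ENNReal.rpow_le_rpow _ (by norm_num)
        rw [← ofReal_norm]
        exact ENNReal.ofReal_le_ofReal (hC _ _)
    _ < ⊤ := by
        rw [lintegral_const]
        exact ENNReal.mul_lt_top (ENNReal.rpow_lt_top_of_nonneg (by norm_num) ENNReal.ofReal_ne_top)
          (measure_lt_top _ _)

lemma memLp_kernel {K : X → X → ℝ} (hK : IsBK K) (μ : Measure X) [IsFiniteMeasure μ]
    (g : Lp ℂ 2 μ) : MemLp (fun x => ∫ y, (K x y : ℂ) * g y ∂μ) 2 μ := by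
  refine ⟨?_, ?_⟩
  · have h1 : StronglyMeasurable (Function.uncurry fun x y => (K x y : ℂ) * g y) := by
      apply StronglyMeasurable.mul
      · exact (Complex.measurable_ofReal.comp hK.meas).stronglyMeasurable
      · exact (Lp.stronglyMeasurable g).comp_measurable measurable_snd
    exact h1.integral_prod_right.aestronglyMeasurable
  · refine (eLpNorm_kernel_le hK μ (Lp.aestronglyMeasurable g)).trans_lt ?_
    exact ENNReal.mul_lt_top (ENNReal.rpow_lt_top_of_nonneg (by norm_num) (hs_lt_top hK μ).ne)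
      (Lp.memLp g).2

/-- Existence of the kernel operator, with the Hilbert–Schmidt bound. -/
lemma exists_isKernelOp {K : X → X → ℝ} (hK : IsBK K) (μ : Measure X) [IsFiniteMeasure μ] :
    ∃ T : Lp ℂ 2 μ →L[ℂ] Lp ℂ 2 μ, IsKernelOp μ K T ∧
      ‖T‖ ≤ ((∫⁻ z, ‖K z.1 z.2‖ₑ ^ (2 : ℝ) ∂(μ.prod μ)) ^ (1 / 2 : ℝ)).toReal := by
  let L : Lp ℂ 2 μ →ₗ[ℂ] Lp ℂ 2 μ :=
    { toFun := fun g => (memLp_kernel hK μ g).toLp _
      map_add' := by
        intro f g
        rw [← MemLp.toLp_add]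
        apply (MemLp.toLp_eq_toLp_iff _ _).2
        apply Filter.Eventually.of_forall
        intro x
        show ∫ y, (K x y : ℂ) * (f + g : Lp ℂ 2 μ) y ∂μ = _ + _
        rw [← integral_add (hK.integrable_mul x (integrable_Lp f))
          (hK.integrable_mul x (integrable_Lp g))]
        apply integral_congr_ae
        filter_upwards [Lp.coeFn_add f g] with y hy
        rw [hy, Pi.add_apply]; ring
      map_smul' := by
        intro c g
        rw [RingHom.id_apply, ← MemLp.toLp_const_smul]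
        apply (MemLp.toLp_eq_toLp_iff _ _).2
        apply Filter.Eventually.of_forall
        intro x
        show ∫ y, (K x y : ℂ) * (c • g : Lp ℂ 2 μ) y ∂μ = c • ∫ y, (K x y : ℂ) * g y ∂μ
        rw [← integral_smul]
        apply integral_congr_ae
        filter_upwards [Lp.coeFn_smul c g] with y hy
        rw [hy, Pi.smul_apply, smul_eq_mul, smul_eq_mul]; ring }
  have hb : ∀ g, ‖L g‖ ≤ ((∫⁻ z, ‖K z.1 z.2‖ₑ ^ (2 : ℝ) ∂(μ.prod μ)) ^ (1 / 2 : ℝ)).toReal * ‖g‖ := by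
    intro g
    show ‖(memLp_kernel hK μ g).toLp _‖ ≤ _
    rw [Lp.norm_toLp, Lp.norm_def, ← ENNReal.toReal_mul]
    apply ENNReal.toReal_mono
    · exact (ENNReal.mul_lt_top (ENNReal.rpow_lt_top_of_nonneg (by norm_num) (hs_lt_top hK μ).ne)
        (Lp.memLp g).2).ne
    · exact eLpNorm_kernel_le hK μ (Lp.aestronglyMeasurable g)
  refine ⟨L.mkContinuous _ hb, ?_, ?_⟩
  · intro g
    exact (memLp_kernel hK μ g).coeFn_toLp
  · exact L.mkContinuous_norm_le ENNReal.toReal_nonneg hb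

lemma IsKernelOp.unique {K : X → X → ℝ} {μ : Measure X} {T S : Lp ℂ 2 μ →L[ℂ] Lp ℂ 2 μ}
    (hT : IsKernelOp μ K T) (hS : IsKernelOp μ K S) : T = S := by
  ext1 g
  apply Lp.ext
  exact (hT g).trans (hS g).symm

lemma IsKernelOp.add {K L : X → X → ℝ} {μ : Measure X} [IsFiniteMeasure μ]
    {T S : Lp ℂ 2 μ →L[ℂ] Lp ℂ 2 μ} (hK : IsBK K) (hL : IsBK L)
    (hT : IsKernelOp μ K T) (hS : IsKernelOp μ L S) :
    IsKernelOp μ (fun x y => K x y + L x y) (T + S) := by
  intro g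
  rw [add_apply]
  filter_upwards [Lp.coeFn_add (T g) (S g), hT g, hS g] with x h1 h2 h3
  rw [h1, Pi.add_apply, h2, h3, ← integral_add (hK.integrable_mul x (integrable_Lp g))
          (hL.integrable_mul x (integrable_Lp g))]
  congr 1
  ext y
  push_cast; ring

lemma IsKernelOp.sub {K L : X → X → ℝ} {μ : Measure X} [IsFiniteMeasure μ]
    {T S : Lp ℂ 2 μ →L[ℂ] Lp ℂ 2 μ} (hK : IsBK K) (hL : IsBK L)
    (hT : IsKernelOp μ K T) (hS : IsKernelOp μ L S) :
    IsKernelOp μ (fun x y => K x y - L x y) (T - S) := by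
  intro g
  rw [sub_apply]
  filter_upwards [Lp.coeFn_sub (T g) (S g), hT g, hS g] with x h1 h2 h3
  rw [h1, Pi.sub_apply, h2, h3, ← integral_sub (hK.integrable_mul x (integrable_Lp g))
          (hL.integrable_mul x (integrable_Lp g))]
  congr 1
  ext y
  push_cast; ring

lemma norm_le_hs {K : X → X → ℝ} {μ : Measure X} [IsFiniteMeasure μ]
    {T : Lp ℂ 2 μ →L[ℂ] Lp ℂ 2 μ} (hK : IsBK K) (hT : IsKernelOp μ K T) :
    ‖T‖ ≤ ((∫⁻ z, ‖K z.1 z.2‖ₑ ^ (2 : ℝ) ∂(μ.prod μ)) ^ (1 / 2 : ℝ)).toReal := by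
  obtain ⟨S, hS, hn⟩ := exists_isKernelOp hK μ
  rwa [hT.unique hS]

/-- The kernel gives a compact operator. -/
def IsCK (μ : Measure X) (K : X → X → ℝ) : Prop :=
  IsBK K ∧ ∃ T : Lp ℂ 2 μ →L[ℂ] Lp ℂ 2 μ, IsKernelOp μ K T ∧ IsCompactOperator T

lemma IsCK.add {K L : X → X → ℝ} {μ : Measure X} [IsFiniteMeasure μ] (hK : IsCK μ K)
    (hL : IsCK μ L) : IsCK μ fun x y => K x y + L x y := by
  obtain ⟨hK, T, hT, hTc⟩ := hK
  obtain ⟨hL, S, hS, hSc⟩ := hL
  exact ⟨hK.add hL, T + S, hT.add hK hL hS, hTc.add hSc⟩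

lemma IsCK.sub {K L : X → X → ℝ} {μ : Measure X} [IsFiniteMeasure μ] (hK : IsCK μ K)
    (hL : IsCK μ L) : IsCK μ fun x y => K x y - L x y := by
  obtain ⟨hK, T, hT, hTc⟩ := hK
  obtain ⟨hL, S, hS, hSc⟩ := hL
  exact ⟨hK.sub hL, T - S, hT.sub hK hL hS, hTc.sub hSc⟩

/-- Closure under bounded pointwise limits. -/
lemma IsCK.of_tendsto {K : X → X → ℝ} {μ : Measure X} [IsFiniteMeasure μ] {L : ℕ → X → X → ℝ}
    (hL : ∀ n, IsCK μ (L n)) (hK : Measurable (Function.uncurry K)) {C : ℝ}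
    (hC : ∀ n x y, |L n x y| ≤ C)
    (hlim : ∀ x y, Filter.Tendsto (fun n => L n x y) Filter.atTop (nhds (K x y))) : IsCK μ K := by
  have hKC : ∀ x y, |K x y| ≤ C := fun x y =>
    le_of_tendsto (hlim x y).abs (Filter.Eventually.of_forall fun n => hC n x y)
  have hKb : IsBK K := ⟨hK, C, hKC⟩
  refine ⟨hKb, ?_⟩
  obtain ⟨T, hT, -⟩ := exists_isKernelOp hKb μ
  refine ⟨T, hT, ?_⟩
  choose hLb S hS hSc using hL
  refine isCompactOperator_of_tendsto (F := S) (l := Filter.atTop) ?_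
    (Filter.Eventually.of_forall hSc)
  rw [tendsto_iff_norm_sub_tendsto_zero]
  have hbound : ∀ n, ‖S n - T‖ ≤
      ((∫⁻ z, ‖L n z.1 z.2 - K z.1 z.2‖ₑ ^ (2 : ℝ) ∂(μ.prod μ)) ^ (1 / 2 : ℝ)).toReal := fun n =>
    norm_le_hs ((hLb n).sub hKb) ((hS n).sub (hLb n) hKb hT)
  refine squeeze_zero (fun n => norm_nonneg _) hbound ?_
  have h1 : Filter.Tendsto (fun n => ∫⁻ z, ‖L n z.1 z.2 - K z.1 z.2‖ₑ ^ (2 : ℝ) ∂(μ.prod μ))
      Filter.atTop (nhds (∫⁻ _z, 0 ∂(μ.prod μ))) := by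
    apply tendsto_lintegral_of_dominated_convergence (fun _ => (ENNReal.ofReal (C + C)) ^ (2 : ℝ))
    · intro n
      exact (((hLb n).meas.sub hK).enorm).pow_const _
    · intro n
      apply Filter.Eventually.of_forall
      intro z
      apply ENNReal.rpow_le_rpow _ (by norm_num)
      rw [← ofReal_norm]
      apply ENNReal.ofReal_le_ofReal
      exact (abs_sub _ _).trans (add_le_add (hC _ _ _) (hKC _ _))
    · rw [lintegral_const]
      exact (ENNReal.mul_lt_top (ENNReal.rpow_lt_top_of_nonneg (by norm_num) ENNReal.ofReal_ne_top)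
          (measure_lt_top _ _)).ne
    · apply Filter.Eventually.of_forall
      intro z
      have h2 : Filter.Tendsto (fun n => L n z.1 z.2 - K z.1 z.2) Filter.atTop (nhds 0) := by
        have := (hlim z.1 z.2).sub_const (K z.1 z.2)
        rwa [sub_self] at this
      have h3 : Filter.Tendsto (fun n => ‖L n z.1 z.2 - K z.1 z.2‖ₑ) Filter.atTop (nhds 0) := by
        have := (continuous_enorm.tendsto (0 : ℝ)).comp h2
        rwa [enorm_zero] at this
      have h4 := (ENNReal.continuous_rpow_const (y := 2)).tendsto 0 |>.comp h3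
      rwa [ENNReal.zero_rpow_of_pos (by norm_num)] at h4
  rw [lintegral_zero] at h1
  have h2 := (ENNReal.continuous_rpow_const (y := 1 / 2)).tendsto 0 |>.comp h1
  rw [ENNReal.zero_rpow_of_pos (by norm_num)] at h2
  have h3 := (ENNReal.tendsto_toReal ENNReal.zero_ne_top).comp h2
  exact h3

/-- Rank-one kernels. -/
lemma isCK_rectangle (μ : Measure X) [IsFiniteMeasure μ] {A B : Set X} (hA : MeasurableSet A)
    (hB : MeasurableSet B) :
    IsCK μ fun x y => (A ×ˢ B).indicator (fun _ => (1 : ℝ)) (x, y) := by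
  have hBK : IsBK fun x y => (A ×ˢ B).indicator (fun _ => (1 : ℝ)) (x, y) := by
    refine ⟨?_, 1, ?_⟩
    · exact measurable_const.indicator (hA.prod hB)
    · intro x y
      by_cases h : (x, y) ∈ A ×ˢ B
      · rw [Set.indicator_of_mem h]; simp
      · rw [Set.indicator_of_notMem h]; simp
  refine ⟨hBK, ?_⟩
  obtain ⟨T, hT, -⟩ := exists_isKernelOp hBK μ
  refine ⟨T, hT, ?_⟩
  -- the vector and the functional
  let v : Lp ℂ 2 μ := indicatorConstLp 2 hA (measure_ne_top μ A) (1 : ℂ)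
  let w : Lp ℂ 2 μ := indicatorConstLp 2 hB (measure_ne_top μ B) (1 : ℂ)
  let φ : Lp ℂ 2 μ →L[ℂ] ℂ := innerSL ℂ w
  have hTeq : T = (ContinuousLinearMap.toSpanSingleton ℂ v).comp φ := by
    ext1 g
    apply Lp.ext
    have h1 : φ g = ∫ y in B, g y ∂μ := by
      show inner ℂ w g = _
      rw [L2.inner_indicatorConstLp_one hB (measure_ne_top μ B)]
    have h2 : (ContinuousLinearMap.toSpanSingleton ℂ v).comp φ g = (φ g) • v := rfl
    rw [h2]
    filter_upwards [hT g, Lp.coeFn_smul (φ g) v, indicatorConstLp_coeFn (p := 2) (hs := hA)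
      (hμs := measure_ne_top μ A) (c := (1 : ℂ))] with x hx1 hx2 hx3
    rw [hx1, hx2, Pi.smul_apply, hx3, h1, smul_eq_mul]
    by_cases hxA : x ∈ A
    · rw [Set.indicator_of_mem hxA, mul_one, ← integral_indicator hB]
      congr 1
      ext y
      by_cases hyB : y ∈ B
      · simp [hxA, hyB]
      · simp [hyB]
    · rw [Set.indicator_of_notMem hxA, mul_zero]
      have : ∀ y, (((A ×ˢ B).indicator (fun _ => (1 : ℝ)) (x, y) : ℝ) : ℂ) * g y = 0 := by
        intro y; simp [hxA]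
      simp only [this, integral_zero]
  rw [hTeq]
  have hc : IsCompactOperator φ := isCompactOperator_of_locallyCompactSpace_dom φ
  exact hc.clm_comp (ContinuousLinearMap.toSpanSingleton ℂ v)

lemma isCK_indicator (μ : Measure X) [IsFiniteMeasure μ] {E : Set (X × X)} (hE : MeasurableSet E) :
    IsCK μ fun x y => E.indicator (fun _ => (1 : ℝ)) (x, y) := by
  refine MeasurableSpace.induction_on_inter
    (C := fun E _ => IsCK μ fun x y => E.indicator (fun _ => (1 : ℝ)) (x, y))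
    generateFrom_prod.symm isPiSystem_prod ?_ ?_ ?_ ?_ E hE
  · have := isCK_rectangle μ (MeasurableSet.empty (α := X)) (MeasurableSet.empty (α := X))
    rwa [Set.empty_prod] at this
  · rintro t ⟨A, hA, B, hB, rfl⟩
    exact isCK_rectangle μ hA hB
  · intro t ht h
    have h1 := isCK_rectangle μ (MeasurableSet.univ (α := X)) (MeasurableSet.univ (α := X))
    rw [Set.univ_prod_univ] at h1
    have h2 := h1.sub h
    convert h2 using 3 with x y
    by_cases h : (x, y) ∈ t <;> simp [h]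
  · intro f hd hf h
    refine IsCK.of_tendsto (L := fun n x y => (⋃ i ∈ Finset.range n, f i).indicator
      (fun _ => (1 : ℝ)) (x, y)) ?_ ?_ (C := 1) ?_ ?_
    · intro n
      induction n with
      | zero =>
        have := isCK_rectangle μ (MeasurableSet.empty (α := X)) (MeasurableSet.empty (α := X))
        rw [Set.empty_prod] at this
        simpa using this
      | succ n ih =>
        have h2 := ih.add (h n)
        convert h2 using 3 with x y
        have hu : (⋃ i ∈ Finset.range (n + 1), f i) = (⋃ i ∈ Finset.range n, f i) ∪ f n := by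
          rw [Finset.range_add_one, Finset.set_biUnion_insert, Set.union_comm]
        have hdis : Disjoint (⋃ i ∈ Finset.range n, f i) (f n) := by
          rw [Set.disjoint_iUnion₂_left]
          intro i hi
          exact hd (Finset.mem_range.1 hi).ne
        rw [hu, Set.indicator_union_of_disjoint hdis]
    · exact measurable_const.indicator (MeasurableSet.iUnion hf)
    · intro n x y
      by_cases h : (x, y) ∈ ⋃ i ∈ Finset.range n, f i
      · rw [Set.indicator_of_mem h]; simp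
      · rw [Set.indicator_of_notMem h]; simp
    · intro x y
      apply tendsto_const_nhds.congr'
      by_cases hxy : (x, y) ∈ ⋃ i, f i
      · obtain ⟨i, hi⟩ := Set.mem_iUnion.1 hxy
        filter_upwards [Filter.eventually_gt_atTop i] with n hn
        rw [Set.indicator_of_mem hxy, Set.indicator_of_mem]
        exact Set.mem_biUnion (Finset.mem_coe.2 (Finset.mem_range.2 hn)) hi
      · apply Filter.Eventually.of_forall
        intro n
        beta_reduce
        rw [Set.indicator_of_notMem hxy, Set.indicator_of_notMem]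
        intro h
        apply hxy
        obtain ⟨i, -, hi⟩ := Set.mem_iUnion₂.1 h
        exact Set.mem_iUnion.2 ⟨i, hi⟩

lemma IsCK.const_mul {K : X → X → ℝ} {μ : Measure X} [IsFiniteMeasure μ] (hK : IsCK μ K) (c : ℝ) :
    IsCK μ fun x y => c * K x y := by
  obtain ⟨hK, T, hT, hTc⟩ := hK
  obtain ⟨C, hC⟩ := hK.bdd
  refine ⟨⟨hK.meas.const_mul c, |c| * C, fun x y => ?_⟩, (c : ℂ) • T, ?_, hTc.smul (c : ℂ)⟩
  · rw [abs_mul]; exact mul_le_mul_of_nonneg_left (hC x y) (abs_nonneg c)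
  · intro g
    rw [smul_apply]
    filter_upwards [Lp.coeFn_smul (c : ℂ) (T g), hT g] with x h1 h2
    rw [h1, Pi.smul_apply, h2, ← integral_smul]
    congr 1
    ext y
    rw [smul_eq_mul]; push_cast; ring

lemma isCK_simpleFunc (μ : Measure X) [IsFiniteMeasure μ] (s : SimpleFunc (X × X) ℝ) :
    IsCK μ fun x y => s (x, y) := by
  induction s using SimpleFunc.induction with
  | const c hs =>
    have := (isCK_indicator μ hs).const_mul c
    convert this using 3 with x y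
    rename_i s
    by_cases h : (x, y) ∈ s <;> simp [h]
  | add _ hf hg => exact hf.add hg

theorem isCK_of_isBK (μ : Measure X) [IsFiniteMeasure μ] {K : X → X → ℝ} (hK : IsBK K) :
    IsCK μ K := by
  obtain ⟨C, hC⟩ := hK.bdd
  refine IsCK.of_tendsto (L := fun n x y => SimpleFunc.approxOn (Function.uncurry K) hK.meas
    Set.univ 0 trivial n (x, y)) (fun n => isCK_simpleFunc μ _) hK.meas (C := C + C) ?_ ?_
  · intro n x y
    have := SimpleFunc.norm_approxOn_zero_le hK.meas (s := Set.univ) trivial (x, y) n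
    refine this.trans ?_
    exact add_le_add (hC x y) (hC x y)
  · intro x y
    exact SimpleFunc.tendsto_approxOn hK.meas (s := Set.univ) trivial (by simp)

lemma IsKernelOp.isSymmetric {μ : Measure X} [IsFiniteMeasure μ] {K : X → X → ℝ} (hK : IsBK K)
    (hsymm : ∀ x y, K x y = K y x) {T : Lp ℂ 2 μ →L[ℂ] Lp ℂ 2 μ} (hT : IsKernelOp μ K T) :
    (T : Lp ℂ 2 μ →ₗ[ℂ] Lp ℂ 2 μ).IsSymmetric := by
  intro f g
  show inner ℂ (T f) g = inner ℂ f (T g)
  rw [L2.inner_def, L2.inner_def]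
  obtain ⟨C, hC⟩ := hK.bdd
  -- the integrand on the product
  let F : X × X → ℂ := fun z => (K z.1 z.2 : ℂ) * (starRingEnd ℂ (f z.2) * g z.1)
  have hF : Integrable F (μ.prod μ) := by
    have h1 : Integrable (fun z : X × X => g z.1 * starRingEnd ℂ (f z.2)) (μ.prod μ) := by
      have h0 : Integrable (fun y => starRingEnd ℂ (f y)) μ := by
        have := (Complex.conjCLE : ℂ →L[ℝ] ℂ).integrable_comp (integrable_Lp f)
        exact this
      exact Integrable.mul_prod (integrable_Lp g) h0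
    have h2 : Integrable (fun z : X × X => (K z.1 z.2 : ℂ) * (g z.1 * starRingEnd ℂ (f z.2)))
        (μ.prod μ) := by
      refine h1.bdd_mul (c := C) ?_ (Filter.Eventually.of_forall fun y => ?_)
      · exact (Complex.measurable_ofReal.comp hK.meas).aestronglyMeasurable
      · rw [Complex.norm_real]; exact hC _ _
    refine h2.congr (Filter.Eventually.of_forall fun z => ?_)
    simp only [F]; ring
  have hl : ∫ x, inner ℂ (T f x) (g x) ∂μ = ∫ x, ∫ y, F (x, y) ∂μ ∂μ := by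
    apply integral_congr_ae
    filter_upwards [hT f] with x hx
    rw [hx]
    show g x * starRingEnd ℂ (∫ y, (K x y : ℂ) * f y ∂μ) = _
    rw [← integral_conj, ← integral_const_mul]
    congr 1
    ext y
    simp only [F, map_mul, Complex.conj_ofReal]; ring
  have hr : ∫ y, inner ℂ (f y) (T g y) ∂μ = ∫ y, ∫ x, F (x, y) ∂μ ∂μ := by
    apply integral_congr_ae
    filter_upwards [hT g] with y hy
    rw [hy]
    show (∫ x, (K y x : ℂ) * g x ∂μ) * starRingEnd ℂ (f y) = _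
    rw [← integral_mul_const]
    congr 1
    ext x
    simp only [F]
    rw [hsymm y x]; ring
  rw [hl, hr]
  exact integral_integral_swap hF

/-- The integral operator with a bounded measurable real kernel on a finite measure space is a
compact operator on `L²`, and it is symmetric if the kernel is. -/
theorem exists_kernel_operator (μ : Measure X) [IsFiniteMeasure μ] (K : X → X → ℝ)
    (hK : Measurable (Function.uncurry K)) (C : ℝ) (hC : ∀ x y, |K x y| ≤ C) :
    ∃ T : Lp ℂ 2 μ →L[ℂ] Lp ℂ 2 μ, IsCompactOperator T ∧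
      (∀ g : Lp ℂ 2 μ, T g =ᵐ[μ] fun x => ∫ y, (K x y : ℂ) * g y ∂μ) ∧
      ((∀ x y, K x y = K y x) → (T : Lp ℂ 2 μ →ₗ[ℂ] Lp ℂ 2 μ).IsSymmetric) := by
  have hBK : IsBK K := ⟨hK, C, hC⟩
  obtain ⟨-, T, hT, hTc⟩ := isCK_of_isBK μ hBK
  exact ⟨T, hTc, hT, fun hs => hT.isSymmetric hBK hs⟩

/-- Spectral consequence: if the symmetric kernel operator is nonzero, it has an eigenfunction
with nonzero eigenvalue, and all eigenspaces for nonzero eigenvalues are finite-dimensional. -/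
theorem exists_eigenfunction_of_kernel (μ : Measure X) [IsFiniteMeasure μ] (K : X → X → ℝ)
    (hK : Measurable (Function.uncurry K)) (C : ℝ) (hC : ∀ x y, |K x y| ≤ C)
    (hsymm : ∀ x y, K x y = K y x)
    (hne : ∃ A : Set X, MeasurableSet A ∧ ¬ (∀ᵐ x ∂μ, ∫ y in A, K x y ∂μ = 0)) :
    ∃ T : Lp ℂ 2 μ →L[ℂ] Lp ℂ 2 μ,
      (∀ g : Lp ℂ 2 μ, T g =ᵐ[μ] fun x => ∫ y, (K x y : ℂ) * g y ∂μ) ∧
      ∃ c : ℂ, c ≠ 0 ∧ (∃ g : Lp ℂ 2 μ, g ≠ 0 ∧ T g = c • g) ∧
        FiniteDimensional ℂ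
          (Module.End.eigenspace (T : Lp ℂ 2 μ →ₗ[ℂ] Lp ℂ 2 μ) c) := by
  obtain ⟨T, hTc, hT, hTs⟩ := exists_kernel_operator μ K hK C hC
  refine ⟨T, hT, ?_⟩
  have hT0 : T ≠ 0 := by
    intro h0
    obtain ⟨A, hA, hne⟩ := hne
    apply hne
    have h1 := hT (indicatorConstLp 2 hA (measure_ne_top μ A) (1 : ℂ))
    rw [h0] at h1
    have h2 : (0 : Lp ℂ 2 μ →L[ℂ] Lp ℂ 2 μ) (indicatorConstLp 2 hA (measure_ne_top μ A) (1 : ℂ)) =
        (0 : Lp ℂ 2 μ) := rfl
    rw [h2] at h1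
    filter_upwards [h1, Lp.coeFn_zero ℂ 2 μ] with x hx1 hx2
    rw [hx2, Pi.zero_apply] at hx1
    have h3 : ∫ y, (K x y : ℂ) * (indicatorConstLp 2 hA (measure_ne_top μ A) (1 : ℂ) : Lp ℂ 2 μ) y ∂μ =
        ∫ y, ((A.indicator (K x) y : ℝ) : ℂ) ∂μ := by
      apply integral_congr_ae
      filter_upwards [indicatorConstLp_coeFn (p := 2) (hs := hA)
        (hμs := measure_ne_top μ A) (c := (1 : ℂ))] with y hy
      rw [hy]
      by_cases h : y ∈ A <;> simp [h]
    rw [h3, integral_complex_ofReal, integral_indicator hA] at hx1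
    exact_mod_cast hx1.symm
  have h1 := mt (ContinuousLinearMap.eq_zero_of_forall_hasEigenvalue_eq_zero hTc (hTs hsymm)).1 hT0
  push Not at h1
  obtain ⟨c, hc, hc0⟩ := h1
  refine ⟨c, hc0, ?_, ContinuousLinearMap.finite_dimensional_eigenspace hTc c hc0⟩
  obtain ⟨g, hg⟩ := hc.exists_hasEigenvector
  exact ⟨g, hg.2, hg.apply_eq_smul⟩

end Pool.Agent.Lib.Maass
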