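import Pool.Agent.Lib.Maass.Defs

/-!
# The counting frame: quadratic extensions of `ℚ` ordered by discriminant, and uniqueness of the
twisted `L`-function (chunk CNT)
-/

open Filter Topology

namespace Pool.Agent.Lib.Maass

noncomputable section

/-- The set `X` of quadratic extensions of `ℚ`, realised inside a fixed algebraic closure. -/
def QuadExt : Type :=
  {E : IntermediateField ℚ (AlgebraicClosure ℚ) // Module.finrank ℚ E = 2}

instance (E : QuadExt) : NumberField E.1 where
  to_charZero := inferInstance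
  to_finiteDimensional := Module.finite_of_finrank_pos (by rw [E.2]; norm_num)

/-- The discriminant of a quadratic extension. -/
def QuadExt.disc (E : QuadExt) : ℤ := NumberField.discr E.1

/-- There are finitely many quadratic extensions of bounded discriminant. -/
theorem QuadExt.finite_disc_lt (x : ℝ) : {E : QuadExt | |(E.disc : ℝ)| < x}.Finite := by
  obtain ⟨N, hN⟩ := exists_nat_ge x
  have h := NumberField.finite_of_discr_bdd (AlgebraicClosure ℚ) N
  let ι : QuadExt → {F : IntermediateField ℚ (AlgebraicClosure ℚ) // FiniteDimensional ℚ F} :=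
    fun E => ⟨E.1, Module.finite_of_finrank_pos (by rw [E.2]; norm_num)⟩
  have hι : Function.Injective ι := by
    intro E E' hEE'
    apply Subtype.ext
    have h1 : (ι E).1 = (ι E').1 := by rw [hEE']
    exact h1
  refine (h.preimage hι.injOn).subset ?_
  intro E hE
  have h1 : |(E.disc : ℝ)| ≤ (N : ℝ) := (le_of_lt hE).trans hN
  have h2 : |E.disc| ≤ (N : ℤ) := by exact_mod_cast h1
  exact h2

/-- A square root of a natural number in the algebraic closure of `ℚ`. -/
def sqrtAC (n : ℕ) : AlgebraicClosure ℚ :=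
  (IsAlgClosed.exists_pow_nat_eq (n : AlgebraicClosure ℚ) (n := 2) (by norm_num)).choose

lemma sqrtAC_sq (n : ℕ) : sqrtAC n ^ 2 = n :=
  (IsAlgClosed.exists_pow_nat_eq (n : AlgebraicClosure ℚ) (n := 2) (by norm_num)).choose_spec

lemma not_sq_of_prime {p : ℕ} (hp : p.Prime) (b : ℚ) : b ^ 2 ≠ p := by
  intro h
  have h1 : IsSquare (p : ℚ) := ⟨b, by rw [← h]; ring⟩
  rw [Rat.isSquare_natCast_iff] at h1
  exact hp.prime.irreducible.not_isSquare h1

lemma not_sq_of_two_primes {p q : ℕ} (hp : p.Prime) (hq : q.Prime) (hpq : p ≠ q) (b : ℚ) :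
    b ^ 2 ≠ p * q := by
  intro h
  have h1 : IsSquare ((p * q : ℕ) : ℚ) := ⟨b, by push_cast; rw [← h]; ring⟩
  rw [Rat.isSquare_natCast_iff] at h1
  obtain ⟨r, hr⟩ := h1
  have h2 : p ∣ r * r := ⟨q, hr.symm⟩
  have h3 : p ∣ r := (hp.dvd_mul.mp h2).elim id id
  obtain ⟨c, rfl⟩ := h3
  have h4 : q = p * (c * c) := by
    have : p * q = p * (p * (c * c)) := by rw [hr]; ring
    exact Nat.eq_of_mul_eq_mul_left hp.pos this
  exact hpq ((Nat.prime_dvd_prime_iff_eq hp hq).mp ⟨_, h4⟩)

lemma minpoly_sqrtAC {p : ℕ} (hp : p.Prime) :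
    minpoly ℚ (sqrtAC p) = Polynomial.X ^ 2 - Polynomial.C (p : ℚ) := by
  symm
  apply minpoly.eq_of_irreducible_of_monic
  · exact X_pow_sub_C_irreducible_of_prime Nat.prime_two (not_sq_of_prime hp)
  · simp [sqrtAC_sq]
  · exact Polynomial.monic_X_pow_sub_C _ (by norm_num)

lemma finrank_adjoin_sqrtAC {p : ℕ} (hp : p.Prime) :
    Module.finrank ℚ (IntermediateField.adjoin ℚ {sqrtAC p}) = 2 := by
  have hint : IsIntegral ℚ (sqrtAC p) :=
    ⟨Polynomial.X ^ 2 - Polynomial.C (p : ℚ), Polynomial.monic_X_pow_sub_C _ (by norm_num),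
      by simp [sqrtAC_sq]⟩
  rw [IntermediateField.adjoin.finrank hint, minpoly_sqrtAC hp,
    Polynomial.natDegree_X_pow_sub_C]

/-- `ℚ(√p)`. -/
def quadP (p : Nat.Primes) : QuadExt :=
  ⟨IntermediateField.adjoin ℚ {sqrtAC p}, finrank_adjoin_sqrtAC p.2⟩

lemma sqrtAC_not_rat {p : ℕ} (hp : p.Prime) (a : ℚ) :
    algebraMap ℚ (AlgebraicClosure ℚ) a ≠ sqrtAC p := by
  intro h
  apply not_sq_of_prime hp a
  have h1 : algebraMap ℚ (AlgebraicClosure ℚ) (a ^ 2) = algebraMap ℚ (AlgebraicClosure ℚ) p := by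
    rw [map_pow, h, sqrtAC_sq]; simp
  exact (algebraMap ℚ (AlgebraicClosure ℚ)).injective h1

lemma quadP_injective : Function.Injective quadP := by
  intro p q h
  by_contra hpq
  have hpq' : (p : ℕ) ≠ q := fun h' => hpq (Subtype.ext h')
  have hE : IntermediateField.adjoin ℚ {sqrtAC p} = IntermediateField.adjoin ℚ {sqrtAC q} :=
    congrArg Subtype.val h
  set E := IntermediateField.adjoin ℚ {sqrtAC p} with hEdef
  have hfin : Module.finrank ℚ E = 2 := finrank_adjoin_sqrtAC p.2
  have : FiniteDimensional ℚ E := Module.finite_of_finrank_pos (by rw [hfin]; norm_num)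
  have hp : sqrtAC p ∈ E := IntermediateField.mem_adjoin_simple_self ℚ _
  have hq : sqrtAC q ∈ E := by rw [hE]; exact IntermediateField.mem_adjoin_simple_self ℚ _
  let v : Fin 3 → E := ![1, ⟨sqrtAC p, hp⟩, ⟨sqrtAC q, hq⟩]
  have hv : ¬ LinearIndependent ℚ v := by
    intro hli
    have := hli.fintype_card_le_finrank
    rw [hfin] at this
    simp at this
  rw [Fintype.not_linearIndependent_iff] at hv
  obtain ⟨g, hg, i, hi⟩ := hv
  have hg' : (g 0 : ℚ) • (1 : AlgebraicClosure ℚ) + g 1 • sqrtAC p + g 2 • sqrtAC q = 0 := by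
    have := congrArg (fun x : E => (x : AlgebraicClosure ℚ)) hg
    simpa [Fin.sum_univ_three, v] using this
  simp only [Algebra.smul_def, mul_one] at hg'
  set x := g 0 with hx
  set y := g 1 with hy
  set w := g 2 with hw
  set A := algebraMap ℚ (AlgebraicClosure ℚ) with hA
  have hAinj : Function.Injective A := A.injective
  have hsp := sqrtAC_sq p
  have hsq := sqrtAC_sq q
  have key : A (2 * x * w) * sqrtAC q = A (y ^ 2 * p - x ^ 2 - w ^ 2 * q) := by
    have h1 : A y * sqrtAC p = -(A x + A w * sqrtAC q) := by linear_combination hg'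
    have h2 : (A y * sqrtAC p) ^ 2 = (A x + A w * sqrtAC q) ^ 2 := by rw [h1]; ring
    have h3 : A (p : ℚ) = (p : AlgebraicClosure ℚ) := by simp
    have h4 : A (q : ℚ) = (q : AlgebraicClosure ℚ) := by simp
    simp only [map_sub, map_mul, map_pow, map_ofNat, h3, h4]
    linear_combination (-1 : AlgebraicClosure ℚ) * h2 + (A y) ^ 2 * hsp - (A w) ^ 2 * hsq
  have hxw : x * w = 0 := by
    by_contra hne
    have h2 : (2 * x * w : ℚ) ≠ 0 := by
      intro h0; apply hne; linarith
    have h3 : A (2 * x * w) ≠ 0 := by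
      rw [map_ne_zero]; exact h2
    apply sqrtAC_not_rat q.2 ((y ^ 2 * p - x ^ 2 - w ^ 2 * q) / (2 * x * w))
    rw [map_div₀, div_eq_iff (by simpa using h3), ← hA, ← key]
    ring
  rcases mul_eq_zero.mp hxw with h0 | h0
  · -- `x = 0`
    rw [h0] at hg'
    by_cases hw0 : w = 0
    · rw [hw0] at hg'
      simp only [map_zero, zero_mul, add_zero, zero_add, mul_eq_zero] at hg'
      have hsp0 : sqrtAC p ≠ 0 := by
        intro h1
        exact sqrtAC_not_rat p.2 0 (by rw [map_zero, h1])
      have hy0 : y = 0 := by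
        rcases hg' with h1 | h1
        · exact hAinj (by rw [h1, map_zero])
        · exact absurd h1 hsp0
      fin_cases i
      · exact hi h0
      · exact hi hy0
      · exact hi hw0
    · have h1 : A y * sqrtAC p = -(A w * sqrtAC q) := by
        simp only [map_zero, zero_add] at hg'
        linear_combination hg'
      have h2 : A (y ^ 2 * p) = A (w ^ 2 * q) := by
        have h3 : (A y * sqrtAC p) ^ 2 = (A w * sqrtAC q) ^ 2 := by rw [h1]; ring
        have h5 : A (p : ℚ) = (p : AlgebraicClosure ℚ) := by simp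
        have h4 : A (q : ℚ) = (q : AlgebraicClosure ℚ) := by simp
        simp only [map_mul, map_pow, h5, h4]
        linear_combination h3 - (A y) ^ 2 * hsp + (A w) ^ 2 * hsq
      have h3 : y ^ 2 * p = w ^ 2 * q := hAinj h2
      apply not_sq_of_two_primes p.2 q.2 hpq' (y * p / w)
      rw [div_pow, div_eq_iff (by positivity)]
      linear_combination (p : ℚ) * h3
  · -- `w = 0`
    rw [h0] at hg'
    by_cases hy0 : y = 0
    · rw [hy0] at hg'
      simp only [map_zero, zero_mul, add_zero] at hg'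
      have hx0 : x = 0 := hAinj (by rw [hg', map_zero])
      fin_cases i
      · exact hi hx0
      · exact hi hy0
      · exact hi h0
    · apply sqrtAC_not_rat p.2 (-x / y)
      have hAy : A y ≠ 0 := by rw [map_ne_zero]; exact hy0
      rw [map_div₀, div_eq_iff (by simpa using hAy), map_neg]
      simp only [map_zero, zero_mul, add_zero] at hg'
      linear_combination -hg'

instance : Infinite QuadExt :=
  have : Infinite Nat.Primes := Nat.infinite_setOfPred_prime.to_subtype
  Infinite.of_injective quadP quadP_injective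

/-- The number of quadratic extensions with `|Δ_E| < x` tends to infinity with `x`. -/
theorem QuadExt.tendsto_card_disc_lt :
    Tendsto (fun x : ℝ => (Nat.card {E : QuadExt // |(E.disc : ℝ)| < x} : ℝ)) atTop atTop := by
  apply tendsto_natCast_atTop_atTop.comp
  rw [tendsto_atTop]
  intro n
  obtain ⟨s, hs⟩ := Infinite.exists_subset_card_eq QuadExt n
  obtain ⟨M, hM⟩ : ∃ M : ℝ, ∀ E ∈ s, |(E.disc : ℝ)| < M := by
    refine ⟨∑ E ∈ s, |(E.disc : ℝ)| + 1, fun E hE => ?_⟩
    have := Finset.single_le_sum (f := fun E : QuadExt => |(E.disc : ℝ)|)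
      (fun _ _ => abs_nonneg _) hE
    linarith
  filter_upwards [eventually_ge_atTop M] with x hx
  have hfin : Finite {E : QuadExt // |(E.disc : ℝ)| < x} := (QuadExt.finite_disc_lt x).to_subtype
  let g : s → {E : QuadExt // |(E.disc : ℝ)| < x} := fun E => ⟨E.1, (hM E.1 E.2).trans_le hx⟩
  have hg : Function.Injective g := by
    intro a b hab
    apply Subtype.ext
    have h1 : (g a).1 = (g b).1 := by rw [hab]
    exact h1
  have h1 := Nat.card_le_card_of_injective g hg
  rw [Nat.card_eq_fintype_card, Fintype.card_coe, hs] at h1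
  exact h1

/-- Entire functions with the same Euler product in a half-plane are equal. -/
theorem eq_of_hasProd {ι : Type*} {f : ℂ → ι → ℂ} {c : ℝ} {L₁ L₂ : ℂ → ℂ}
    (h₁ : Differentiable ℂ L₁) (h₂ : Differentiable ℂ L₂)
    (hf₁ : ∀ s : ℂ, c < s.re → HasProd (f s) (L₁ s))
    (hf₂ : ∀ s : ℂ, c < s.re → HasProd (f s) (L₂ s)) : L₁ = L₂ := by
  have ha : AnalyticOnNhd ℂ L₁ Set.univ := h₁.differentiableOn.analyticOnNhd isOpen_univ
  have hb : AnalyticOnNhd ℂ L₂ Set.univ := h₂.differentiableOn.analyticOnNhd isOpen_univ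
  have hev : L₁ =ᶠ[𝓝 ((c + 1 : ℝ) : ℂ)] L₂ := by
    have hopen : IsOpen {s : ℂ | c < s.re} := isOpen_lt continuous_const Complex.continuous_re
    have hmem : ((c + 1 : ℝ) : ℂ) ∈ {s : ℂ | c < s.re} := by
      simp only [Set.mem_ofPred_eq, Complex.ofReal_re]
      linarith
    filter_upwards [hopen.mem_nhds hmem] with s hs
    exact (hf₁ s hs).unique (hf₂ s hs)
  exact ha.eq_of_eventuallyEq hb hev

/-- There is at most one twisted `L`-function. -/
theorem HeckeMaassForm.IsTwistedLFunction.unique {F : HeckeMaassForm} {q : ℕ}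
    {χ : DirichletCharacter ℂ q} {L₁ L₂ : ℂ → ℂ} (h₁ : F.IsTwistedLFunction χ L₁)
    (h₂ : F.IsTwistedLFunction χ L₂) : L₁ = L₂ :=
  eq_of_hasProd h₁.1 h₂.1 h₁.2 h₂.2

end

end Pool.Agent.Lib.Maass
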