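import Pool.Agent.Lib.Maass.QuadChar

/-!
# Quadratic fields and their characters (chunk Q)
-/

open scoped NumberTheorySymbols
open NumberField

namespace Pool.Agent.Lib.Maass

/-! ### Quadratic orders -/

/-- A presentation `O = ℤ ⊕ ℤ ω` with `ω ^ 2 = t ω - n`. -/
structure QData (O : Type*) [CommRing O] where
  ω : O
  t : ℤ
  n : ℤ
  span : ∀ x : O, ∃ m k : ℤ, x = m + k * ω
  indep : ∀ m k : ℤ, (m : O) + k * ω = 0 → m = 0 ∧ k = 0
  sq : ω ^ 2 = t * ω - n

namespace QData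

variable {O : Type*} [CommRing O] (q : QData O)

lemma inj {m k m' k' : ℤ} (h : (m : O) + k * q.ω = m' + k' * q.ω) : m = m' ∧ k = k' := by
  have := q.indep (m - m') (k - k') (by push_cast; linear_combination h)
  omega

lemma prime_int {P : Ideal O} (hP : P ≠ ⊤) {p : ℕ} (hp : p.Prime) (hpP : (p : O) ∈ P) {m : ℤ}
    (hm : (m : O) ∈ P) : (p : ℤ) ∣ m := by
  by_contra hcon
  have hcop : IsCoprime (p : ℤ) m := (Int.isCoprime_iff_gcd_eq_one).mpr
    ((Int.isCoprime_iff_gcd_eq_one).mp (by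
      rw [Prime.coprime_iff_not_dvd (Nat.prime_iff_prime_int.mp hp)]
      exact hcon))
  obtain ⟨u, v, huv⟩ := hcop
  apply hP
  rw [Ideal.eq_top_iff_one]
  have : (1 : O) = (u : O) * (p : O) + (v : O) * (m : O) := by
    have := congrArg (fun z : ℤ => (z : O)) huv
    push_cast at this
    exact this.symm
  rw [this]
  exact P.add_mem (P.mul_mem_left _ hpP) (P.mul_mem_left _ hm)

/-- The ideal `(p, ω - r)`. -/
def idl (p : ℕ) (r : ℤ) (hr : (p : ℤ) ∣ r ^ 2 - q.t * r + q.n) : Ideal O where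
  carrier := {x | ∃ m k : ℤ, x = m + k * q.ω ∧ (p : ℤ) ∣ m + k * r}
  zero_mem' := ⟨0, 0, by simp, by simp⟩
  add_mem' := by
    rintro x y ⟨m, k, rfl, h1⟩ ⟨m', k', rfl, h2⟩
    refine ⟨m + m', k + k', by push_cast; ring, ?_⟩
    have e : m + m' + (k + k') * r = m + k * r + (m' + k' * r) := by ring
    rw [e]
    exact dvd_add h1 h2
  smul_mem' := by
    rintro c x ⟨m, k, rfl, h1⟩
    obtain ⟨m', k', rfl⟩ := q.span c
    refine ⟨m' * m - k' * k * q.n, m' * k + k' * m + k' * k * q.t, ?_, ?_⟩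
    · rw [smul_eq_mul]
      push_cast
      linear_combination ((k' : O) * k) * q.sq
    · have e1 : m' * m - k' * k * q.n + (m' * k + k' * m + k' * k * q.t) * r =
          (m' + k' * r) * (m + k * r) - k' * k * (r ^ 2 - q.t * r + q.n) := by ring
      rw [e1]
      exact dvd_sub (Dvd.dvd.mul_left h1 _) (Dvd.dvd.mul_left hr _)

variable {q}

lemma mem_idl {p : ℕ} {r : ℤ} {hr : (p : ℤ) ∣ r ^ 2 - q.t * r + q.n} {m k : ℤ} :
    (m : O) + k * q.ω ∈ q.idl p r hr ↔ (p : ℤ) ∣ m + k * r := by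
  constructor
  · rintro ⟨m', k', h1, h2⟩
    obtain ⟨rfl, rfl⟩ := q.inj h1
    exact h2
  · intro h
    exact ⟨m, k, rfl, h⟩

lemma int_mem_idl {p : ℕ} {r : ℤ} {hr : (p : ℤ) ∣ r ^ 2 - q.t * r + q.n} {m : ℤ} :
    (m : O) ∈ q.idl p r hr ↔ (p : ℤ) ∣ m := by
  have := mem_idl (q := q) (hr := hr) (m := m) (k := 0)
  simpa using this

lemma idl_isPrime {p : ℕ} (hp : p.Prime) {r : ℤ} {hr : (p : ℤ) ∣ r ^ 2 - q.t * r + q.n} :
    (q.idl p r hr).IsPrime := by
  have hpp : Prime (p : ℤ) := Nat.prime_iff_prime_int.mp hp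
  constructor
  · rw [Ne, Ideal.eq_top_iff_one]
    intro h
    have h1 : ((1 : ℤ) : O) ∈ q.idl p r hr := by simpa using h
    rw [int_mem_idl] at h1
    exact hpp.not_isUnit (isUnit_of_dvd_one h1)
  · intro x y hxy
    obtain ⟨m, k, rfl⟩ := q.span x
    obtain ⟨m', k', rfl⟩ := q.span y
    have e : ((m : O) + k * q.ω) * (m' + k' * q.ω) =
        ((m * m' - k * k' * q.n : ℤ) : O) + ((m * k' + k * m' + k * k' * q.t : ℤ) : O) * q.ω := by
      push_cast
      linear_combination ((k : O) * k') * q.sq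
    rw [e, mem_idl] at hxy
    rw [mem_idl, mem_idl]
    apply hpp.dvd_or_dvd
    have e1 : (m + k * r) * (m' + k' * r) = m * m' - k * k' * q.n +
        (m * k' + k * m' + k * k' * q.t) * r + k * k' * (r ^ 2 - q.t * r + q.n) := by ring
    rw [e1]
    exact dvd_add hxy (Dvd.dvd.mul_left hr _)

/-- A prime ideal containing `p` and `ω - r` is `(p, ω - r)`. -/
lemma eq_idl {P : Ideal O} (hP : P.IsPrime) {p : ℕ} (hp : p.Prime) (hpP : (p : O) ∈ P) {r : ℤ}
    (hr : (p : ℤ) ∣ r ^ 2 - q.t * r + q.n) (h : q.ω - r ∈ P) : P = q.idl p r hr := by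
  apply le_antisymm
  · intro x hx
    obtain ⟨m, k, rfl⟩ := q.span x
    rw [mem_idl]
    apply prime_int hP.ne_top hp hpP
    have : ((m + k * r : ℤ) : O) = (m + k * q.ω) - k * (q.ω - r) := by push_cast; ring
    rw [this]
    exact P.sub_mem hx (P.mul_mem_left _ h)
  · intro x hx
    obtain ⟨m, k, rfl⟩ := q.span x
    rw [mem_idl] at hx
    obtain ⟨l, hl⟩ := hx
    have : (m : O) + k * q.ω = l * p + k * (q.ω - r) := by
      have h1 := congrArg (fun z : ℤ => (z : O)) hl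
      push_cast at h1
      linear_combination h1
    rw [this]
    exact P.add_mem (P.mul_mem_left _ hpP) (P.mul_mem_left _ h)

lemma root_of_mem {P : Ideal O} (hP : P.IsPrime) {p : ℕ} (hp : p.Prime) (hpP : (p : O) ∈ P)
    {r : ℤ} (h : q.ω - r ∈ P) : (p : ℤ) ∣ r ^ 2 - q.t * r + q.n := by
  apply prime_int hP.ne_top hp hpP
  have : ((r ^ 2 - q.t * r + q.n : ℤ) : O) = -((q.ω - (q.t - r : ℤ)) * (q.ω - r)) := by
    push_cast
    linear_combination q.sq
  rw [this]
  exact P.neg_mem (P.mul_mem_left _ h)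

/-- Splitting of `p` when the polynomial has a root modulo `p`. -/
theorem card_of_root {p : ℕ} (hp : p.Prime) (hD : ¬ (p : ℤ) ∣ q.t ^ 2 - 4 * q.n) {r : ℤ}
    (hr : (p : ℤ) ∣ r ^ 2 - q.t * r + q.n) :
    Nat.card {P : Ideal O // P.IsPrime ∧ (p : O) ∈ P} = 2 := by
  have hs : (p : ℤ) ∣ (q.t - r) ^ 2 - q.t * (q.t - r) + q.n := by
    convert hr using 1
    ring
  have hpmem : ∀ (r : ℤ) (hr : (p : ℤ) ∣ r ^ 2 - q.t * r + q.n), (p : O) ∈ q.idl p r hr := by
    intro r hr
    have := (int_mem_idl (q := q) (hr := hr) (m := (p : ℤ))).mpr dvd_rfl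
    simpa using this
  rw [Nat.card_eq_two_iff]
  refine ⟨⟨q.idl p r hr, idl_isPrime hp, hpmem _ _⟩,
    ⟨q.idl p (q.t - r) hs, idl_isPrime hp, hpmem _ _⟩, ?_, ?_⟩
  · intro heq
    have h1 : q.idl p r hr = q.idl p (q.t - r) hs := congrArg Subtype.val heq
    have h2 : ((-r : ℤ) : O) + ((1 : ℤ) : O) * q.ω ∈ q.idl p r hr := by
      rw [mem_idl]; simp
    rw [h1, mem_idl] at h2
    apply hD
    have h3 : q.t ^ 2 - 4 * q.n = (-r + 1 * (q.t - r)) * (-r + 1 * (q.t - r)) -
        4 * (r ^ 2 - q.t * r + q.n) + 0 := by ring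
    rw [h3]
    exact dvd_add (dvd_sub (Dvd.dvd.mul_left h2 _) (Dvd.dvd.mul_left hr _)) (dvd_zero _)
  · rw [Set.eq_univ_iff_forall]
    rintro ⟨P, hP, hpP⟩
    have h1 : (q.ω - r) * (q.ω - (q.t - r : ℤ)) ∈ P := by
      obtain ⟨l, hl⟩ := hr
      have : (q.ω - r) * (q.ω - (q.t - r : ℤ)) = (-l : O) * (p : O) := by
        have h1 := congrArg (fun z : ℤ => (z : O)) hl
        push_cast at h1 ⊢
        linear_combination q.sq - h1
      rw [this]
      exact P.mul_mem_left _ hpP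
    rcases hP.mem_or_mem h1 with h | h
    · left
      exact Subtype.ext (eq_idl hP hp hpP hr h)
    · right
      exact Subtype.ext (eq_idl hP hp hpP hs h)

/-- Inert primes. -/
theorem card_of_no_root {p : ℕ} (hp : p.Prime)
    (hr : ¬ ∃ r : ℤ, (p : ℤ) ∣ r ^ 2 - q.t * r + q.n) :
    Nat.card {P : Ideal O // P.IsPrime ∧ (p : O) ∈ P} ≠ 2 := by
  have hpp : Prime (p : ℤ) := Nat.prime_iff_prime_int.mp hp
  have key : ∀ P : Ideal O, P.IsPrime → (p : O) ∈ P → ∀ m k : ℤ,
      ((m : O) + k * q.ω ∈ P ↔ (p : ℤ) ∣ m ∧ (p : ℤ) ∣ k) := by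
    intro P hP hpP m k
    constructor
    · intro hx
      have hk : (p : ℤ) ∣ k := by
        by_contra hcon
        have hcop : IsCoprime (p : ℤ) k := (Prime.coprime_iff_not_dvd hpp).mpr hcon
        obtain ⟨u, v, huv⟩ := hcop
        apply hr
        refine ⟨-(v * m), root_of_mem hP hp hpP (r := -(v * m)) ?_⟩
        have : q.ω - ((-(v * m) : ℤ) : O) = (v : O) * (m + k * q.ω) + (u : O) * q.ω * (p : O) := by
          have h1 := congrArg (fun z : ℤ => (z : O)) huv
          push_cast at h1 ⊢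
          linear_combination (-q.ω) * h1
        rw [this]
        exact P.add_mem (P.mul_mem_left _ hx) (P.mul_mem_left _ hpP)
      refine ⟨?_, hk⟩
      obtain ⟨l, hl⟩ := hk
      apply prime_int hP.ne_top hp hpP
      have : (m : O) = (m + k * q.ω) - (l : O) * q.ω * (p : O) := by
        rw [hl]; push_cast; ring
      rw [this]
      exact P.sub_mem hx (P.mul_mem_left _ hpP)
    · rintro ⟨⟨a, ha⟩, ⟨b, hb⟩⟩
      have : (m : O) + k * q.ω = ((a : O) + b * q.ω) * (p : O) := by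
        rw [ha, hb]; push_cast; ring
      rw [this]
      exact P.mul_mem_left _ hpP
  rw [Ne, Nat.card_eq_two_iff]
  rintro ⟨⟨P, hP, hpP⟩, ⟨Q, hQ, hpQ⟩, hne, -⟩
  apply hne
  apply Subtype.ext
  show P = Q
  ext x
  obtain ⟨m, k, rfl⟩ := q.span x
  rw [key P hP hpP, key Q hQ hpQ]

end QData

/-! ### The ring of integers of a quadratic field -/

variable (E : Type*) [Field E] [NumberField E]

/-- The ring of integers of a quadratic field is a quadratic order with the right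
discriminant. -/
theorem exists_qdata (hE : Module.finrank ℚ E = 2) :
    ∃ q : QData (𝓞 E), discr E = q.t ^ 2 - 4 * q.n := by
  have hrank : Module.finrank ℤ (𝓞 E) = 2 := by rw [RingOfIntegers.rank, hE]
  let b : Module.Basis (Fin 2) ℤ (𝓞 E) := Module.finBasisOfFinrankEq ℤ (𝓞 E) hrank
  set a0 := b.repr 1 0 with ha0
  set a1 := b.repr 1 1 with ha1
  have hone : (1 : 𝓞 E) = a0 • b 0 + a1 • b 1 := by
    have := b.sum_repr 1
    rw [Fin.sum_univ_two] at this
    exact this.symm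
  -- coprimality
  have hcop : IsCoprime a0 a1 := by
    rw [Int.isCoprime_iff_gcd_eq_one]
    obtain ⟨c0, hc0⟩ := Int.gcd_dvd_left a0 a1
    obtain ⟨c1, hc1⟩ := Int.gcd_dvd_right a0 a1
    set g : ℤ := (Int.gcd a0 a1 : ℤ) with hg
    have h1 : (1 : 𝓞 E) = algebraMap ℤ (𝓞 E) g * (c0 • b 0 + c1 • b 1) := by
      rw [hone, hc0, hc1]
      simp only [zsmul_eq_mul, algebraMap_int_eq, eq_intCast, Int.cast_mul]
      ring
    have h2 := congrArg (Algebra.norm ℤ) h1
    rw [map_one, map_mul, Algebra.norm_algebraMap_of_basis b, Fintype.card_fin] at h2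
    have h3 : IsUnit g := isUnit_of_dvd_one
      ⟨g * (Algebra.norm ℤ) (c0 • b 0 + c1 • b 1), by rw [← mul_assoc, ← sq]; exact h2⟩
    rcases Int.isUnit_iff.mp h3 with h | h
    · omega
    · have : (0 : ℤ) ≤ g := Int.natCast_nonneg _
      omega
  obtain ⟨u, v, huv⟩ := hcop
  let ω : 𝓞 E := -(v • b 0) + u • b 1
  have hb0 : b 0 = (u : 𝓞 E) + ((-a1 : ℤ) : 𝓞 E) * ω := by
    have h1 : (u : 𝓞 E) = u • (1 : 𝓞 E) := by simp
    rw [h1, hone]
    have h2 := congrArg (fun z : ℤ => (z : 𝓞 E)) huv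
    simp only [ω, zsmul_eq_mul]
    push_cast at h2 ⊢
    linear_combination (-b 0) * h2
  have hb1 : b 1 = (v : 𝓞 E) + ((a0 : ℤ) : 𝓞 E) * ω := by
    have h1 : (v : 𝓞 E) = v • (1 : 𝓞 E) := by simp
    rw [h1, hone]
    have h2 := congrArg (fun z : ℤ => (z : 𝓞 E)) huv
    simp only [ω, zsmul_eq_mul]
    push_cast at h2 ⊢
    linear_combination (-b 1) * h2
  have hspan : ∀ x : 𝓞 E, ∃ m k : ℤ, x = m + k * ω := by
    intro x
    have hx := b.sum_repr x
    rw [Fin.sum_univ_two] at hx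
    refine ⟨b.repr x 0 * u + b.repr x 1 * v, b.repr x 0 * (-a1) + b.repr x 1 * a0, ?_⟩
    rw [zsmul_eq_mul, zsmul_eq_mul] at hx
    push_cast at hb0 hb1 ⊢
    linear_combination (-1 : 𝓞 E) * hx + ((b.repr x 0 : ℤ) : 𝓞 E) * hb0 +
      ((b.repr x 1 : ℤ) : 𝓞 E) * hb1
  have hindep : ∀ m k : ℤ, (m : 𝓞 E) + k * ω = 0 → m = 0 ∧ k = 0 := by
    intro m k h
    have h1 : (m * a0 - k * v) • b 0 + (m * a1 + k * u) • b 1 = 0 := by
      have h2 : (m : 𝓞 E) = m • (1 : 𝓞 E) := by simp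
      rw [h2, hone] at h
      simp only [ω, zsmul_eq_mul] at h ⊢
      push_cast at h ⊢
      linear_combination h
    have h3 := b.linearIndependent
    rw [Fintype.linearIndependent_iff] at h3
    have h4 := h3 ![m * a0 - k * v, m * a1 + k * u] (by
      rw [Fin.sum_univ_two]; exact h1)
    have h5 : m * a0 - k * v = 0 := h4 0
    have h6 : m * a1 + k * u = 0 := h4 1
    constructor
    · linear_combination (-m) * huv + u * h5 + v * h6
    · linear_combination (-k) * huv - a1 * h5 + a0 * h6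
  obtain ⟨n', t, hsq⟩ := hspan (ω ^ 2)
  let q : QData (𝓞 E) := ⟨ω, t, -n', hspan, hindep, by rw [hsq]; push_cast; ring⟩
  refine ⟨q, ?_⟩
  -- the basis `1, ω`
  have hli : LinearIndependent ℤ (![1, ω] : Fin 2 → 𝓞 E) := by
    rw [LinearIndependent.pair_iff]
    intro m k h
    apply hindep m k
    simpa [zsmul_eq_mul] using h
  have hsp : ⊤ ≤ Submodule.span ℤ (Set.range (![1, ω] : Fin 2 → 𝓞 E)) := by
    intro x _
    obtain ⟨m, k, rfl⟩ := hspan x
    have h1 : (m : 𝓞 E) + k * ω = m • (1 : 𝓞 E) + k • ω := by simp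
    rw [h1]
    apply Submodule.add_mem
    · exact Submodule.smul_mem _ _ (Submodule.subset_span ⟨0, rfl⟩)
    · exact Submodule.smul_mem _ _ (Submodule.subset_span ⟨1, rfl⟩)
  let B : Module.Basis (Fin 2) ℤ (𝓞 E) := Module.Basis.mk hli hsp
  have hB0 : B 0 = 1 := by simp [B]
  have hB1 : B 1 = ω := by simp [B]
  have hrepr : ∀ m k : ℤ, B.repr ((m : 𝓞 E) + k * ω) 0 = m ∧ B.repr ((m : 𝓞 E) + k * ω) 1 = k := by
    intro m k
    have h1 : (m : 𝓞 E) + k * ω = m • B 0 + k • B 1 := by rw [hB0, hB1]; simp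
    rw [h1, map_add, map_zsmul, map_zsmul, B.repr_self, B.repr_self]
    simp
  have htr : ∀ m k : ℤ, Algebra.trace ℤ (𝓞 E) ((m : 𝓞 E) + k * ω) = 2 * m + k * t := by
    intro m k
    rw [Algebra.trace_eq_matrix_trace B, Matrix.trace_fin_two, Algebra.leftMulMatrix_eq_repr_mul,
      Algebra.leftMulMatrix_eq_repr_mul, hB0, hB1, mul_one, (hrepr m k).1]
    have h1 : ((m : 𝓞 E) + k * ω) * ω = ((k * n' : ℤ) : 𝓞 E) + ((m + k * t : ℤ) : 𝓞 E) * ω := by
      push_cast
      linear_combination (k : 𝓞 E) * hsq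
    rw [h1, (hrepr _ _).2]
    ring
  rw [← discr_eq_discr E B, Algebra.discr_def, Matrix.det_fin_two]
  simp only [Algebra.traceMatrix_apply, Algebra.traceForm_apply, hB0, hB1]
  have e1 : Algebra.trace ℤ (𝓞 E) (1 * 1) = 2 := by
    have := htr 1 0
    simpa using this
  have e2 : Algebra.trace ℤ (𝓞 E) (1 * ω) = t := by
    have := htr 0 1
    simpa using this
  have e3 : Algebra.trace ℤ (𝓞 E) (ω * 1) = t := by
    have := htr 0 1
    simpa using this
  have e4 : Algebra.trace ℤ (𝓞 E) (ω * ω) = 2 * n' + t * t := by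
    rw [← sq, hsq]
    exact htr n' t
  rw [e1, e2, e3, e4]
  simp only [q]
  ring

/-- The discriminant of a quadratic field is fundamental. -/
theorem isFund_discr (hE : Module.finrank ℚ E = 2) : IsFund (discr E) := by
  obtain ⟨q, hq⟩ := exists_qdata E hE
  have hy : ((2 : ℤ) * q.ω - q.t) ^ 2 = ((discr E : ℤ) : 𝓞 E) := by
    rw [hq]
    push_cast
    linear_combination 4 * q.sq
  have htwo : ∀ a : ℤ, (2 : ℤ) * q.ω - q.t = (a : 𝓞 E) → False := by
    intro a ha
    have h1 := q.indep (-q.t - a) 2 (by push_cast at ha ⊢; linear_combination ha)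
    omega
  refine ⟨?_, ?_, ?_⟩
  · rw [hq]
    have h1 : q.t % 4 = 0 ∨ q.t % 4 = 1 ∨ q.t % 4 = 2 ∨ q.t % 4 = 3 := by omega
    have h2 : q.t ^ 2 % 4 = 0 ∨ q.t ^ 2 % 4 = 1 := by
      rw [sq, Int.mul_emod]
      rcases h1 with h | h | h | h <;> rw [h] <;> norm_num
    omega
  · intro h1
    rw [h1, Int.cast_one, sq_eq_one_iff] at hy
    rcases hy with h | h
    · exact htwo 1 (by rw [h]; simp)
    · exact htwo (-1) (by rw [h]; simp)
  · intro m D' hD hD'
    have hm0 : m ≠ 0 := by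
      rintro rfl
      rw [hD] at hy
      have : (2 : ℤ) * q.ω - q.t = (0 : 𝓞 E) := by
        apply pow_eq_zero_iff (two_ne_zero) |>.mp
        rw [hy]; simp
      exact htwo 0 (by rw [this]; simp)
    -- the element `z`
    obtain ⟨t', n', htn⟩ : ∃ t' n' : ℤ, D' = t' ^ 2 - 4 * n' := by
      rcases hD' with h | h
      · exact ⟨0, -(D' / 4), by omega⟩
      · exact ⟨1, -(D' / 4), by omega⟩
    obtain ⟨y, hydef⟩ : ∃ y : E, algebraMap (𝓞 E) E ((2 : ℤ) * q.ω - q.t) = y := ⟨_, rfl⟩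
    have hyE : y ^ 2 = (m : E) ^ 2 * D' := by
      have h1 := congrArg (algebraMap (𝓞 E) E) hy
      rw [map_pow, hydef, map_intCast, hD] at h1
      rw [h1]; push_cast; ring
    have hmE : (m : E) ≠ 0 := by exact_mod_cast hm0
    let z : E := (t' + y / m) / 2
    have hz : z ^ 2 - t' * z + n' = 0 := by
      have h2 : (y / m) ^ 2 = D' := by
        rw [div_pow, hyE]; field_simp
      have h3 : z ^ 2 - t' * z + n' = ((y / m) ^ 2 - t' ^ 2 + 4 * n') / 4 := by
        simp only [z]; ring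
      rw [h3, h2, htn]
      push_cast
      ring
    have hint : IsIntegral ℤ z := by
      refine ⟨Polynomial.X ^ 2 + (Polynomial.C (-t') * Polynomial.X + Polynomial.C n'), ?_, ?_⟩
      · apply Polynomial.monic_X_pow_add
        exact lt_of_le_of_lt Polynomial.degree_linear_le (by norm_num)
      · simp only [Polynomial.eval₂_add, Polynomial.eval₂_pow, Polynomial.eval₂_X,
          Polynomial.eval₂_mul, Polynomial.eval₂_C]
        simp only [algebraMap_int_eq, eq_intCast]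
        push_cast
        linear_combination hz
    obtain ⟨Z, hZ⟩ : ∃ Z : 𝓞 E, algebraMap (𝓞 E) E Z = z := ⟨⟨z, hint⟩, rfl⟩
    obtain ⟨a, b, hab⟩ := q.span Z
    have h6 : (((2 : ℤ) : 𝓞 E) * m * Z : 𝓞 E) = (m * t' + ((2 : ℤ) * q.ω - q.t) : 𝓞 E) := by
      apply FaithfulSMul.algebraMap_injective (𝓞 E) E
      rw [map_add, map_mul, map_mul, map_mul, map_intCast, map_intCast, map_intCast, hydef, hZ]
      simp only [z]
      push_cast
      field_simp
    rw [hab] at h6
    have h7 := q.inj (m := 2 * m * a) (k := 2 * m * b) (m' := m * t' - q.t) (k' := 2) (by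
      push_cast at h6 ⊢
      linear_combination h6)
    have h8 : m * b = 1 := by
      have := h7.2
      linarith
    exact Int.isUnit_iff.mp (IsUnit.of_mul_eq_one b h8)

/-- The value at `p` of the quadratic character of a quadratic field `E`: `0` if `p` ramifies,
and `1` or `-1` according as `p` splits into two primes or is inert. -/
noncomputable def etaQ (E : Type*) [Field E] [NumberField E] (p : ℕ) : ℤ :=
  open Classical in
  if (p : ℤ) ∣ discr E then 0
  else if Nat.card {P : Ideal (𝓞 E) // P.IsPrime ∧ (p : 𝓞 E) ∈ P} = 2 then 1 else -1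

theorem etaQ_eq_kron (hE : Module.finrank ℚ E = 2) {p : ℕ} (hp : p.Prime) :
    etaQ E p = kron (discr E) p := by
  obtain ⟨q, hq⟩ := exists_qdata E hE
  unfold etaQ kron
  by_cases hpD : (p : ℤ) ∣ discr E
  · rw [if_pos hpD, if_pos hpD]
  rw [if_neg hpD, if_neg hpD]
  have hpD' : ¬ (p : ℤ) ∣ q.t ^ 2 - 4 * q.n := by rwa [← hq]
  have hsplit : Nat.card {P : Ideal (𝓞 E) // P.IsPrime ∧ (p : 𝓞 E) ∈ P} = 2 ↔
      ∃ r : ℤ, (p : ℤ) ∣ r ^ 2 - q.t * r + q.n := by
    constructor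
    · intro h
      by_contra hcon
      exact QData.card_of_no_root hp hcon h
    · rintro ⟨r, hr⟩
      exact QData.card_of_root hp hpD' hr
  by_cases hp2 : p = 2
  · subst hp2
    rw [if_pos rfl]
    have ht : q.t % 2 = 1 := by
      by_contra hcon
      apply hpD'
      have h0 : q.t % 2 = 0 := by omega
      have h1 : (2 : ℤ) ∣ q.t ^ 2 := Dvd.dvd.pow (Int.dvd_of_emod_eq_zero h0) (by norm_num)
      push_cast
      omega
    have ht2 : q.t ^ 2 % 8 = 1 := by
      have h1 : q.t % 8 = 1 ∨ q.t % 8 = 3 ∨ q.t % 8 = 5 ∨ q.t % 8 = 7 := by omega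
      rw [sq, Int.mul_emod]
      rcases h1 with h | h | h | h <;> rw [h] <;> norm_num
    have hroot : (∃ r : ℤ, ((2 : ℕ) : ℤ) ∣ r ^ 2 - q.t * r + q.n) ↔ q.n % 2 = 0 := by
      constructor
      · rintro ⟨r, hr⟩
        have h1 : (r ^ 2 - q.t * r) % 2 = 0 := by
          have : r ^ 2 - q.t * r = r * (r - q.t) := by ring
          rw [this, Int.mul_emod]
          have : r % 2 = 0 ∨ r % 2 = 1 := by omega
          rcases this with h | h
          · rw [h]; simp
          · have : (r - q.t) % 2 = 0 := by omega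
            rw [this]; simp
        push_cast at hr
        omega
      · intro h
        exact ⟨0, by push_cast; simp; omega⟩
    by_cases hn : q.n % 2 = 0
    · rw [if_pos (hsplit.mpr (hroot.mpr hn)), if_pos (by rw [hq]; omega)]
    · rw [if_neg (fun h => hn (hroot.mp (hsplit.mp h))), if_neg (by rw [hq]; omega)]
  · rw [if_neg hp2]
    have : Fact p.Prime := ⟨hp⟩
    have hpp : Prime (p : ℤ) := Nat.prime_iff_prime_int.mp hp
    have hDne : ((discr E : ℤ) : ZMod p) ≠ 0 := by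
      rw [Ne, ZMod.intCast_zmod_eq_zero_iff_dvd]
      exact hpD
    have hp2' : ¬ (p : ℤ) ∣ 2 := by
      intro h
      have h1 : p ∣ 2 := by exact_mod_cast h
      exact hp2 ((Nat.prime_dvd_prime_iff_eq hp Nat.prime_two).mp h1)
    have hroot : (∃ r : ℤ, (p : ℤ) ∣ r ^ 2 - q.t * r + q.n) ↔
        IsSquare ((discr E : ℤ) : ZMod p) := by
      constructor
      · rintro ⟨r, hr⟩
        refine ⟨((2 * r - q.t : ℤ) : ZMod p), ?_⟩
        rw [← Int.cast_mul, ZMod.intCast_eq_intCast_iff, Int.modEq_iff_dvd, hq]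
        have : (2 * r - q.t) * (2 * r - q.t) - (q.t ^ 2 - 4 * q.n) =
            4 * (r ^ 2 - q.t * r + q.n) := by ring
        rw [this]
        exact Dvd.dvd.mul_left hr _
      · rintro ⟨y, hy⟩
        obtain ⟨y, rfl⟩ := ZMod.intCast_surjective y
        rw [← Int.cast_mul, ZMod.intCast_eq_intCast_iff, Int.modEq_iff_dvd, hq] at hy
        have hcop : IsCoprime (p : ℤ) 2 := (Prime.coprime_iff_not_dvd hpp).mpr hp2'
        obtain ⟨u, v, huv⟩ := hcop
        refine ⟨(q.t + y) * v, ?_⟩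
        have h4 : (p : ℤ) ∣ 2 * 2 * (((q.t + y) * v) ^ 2 - q.t * ((q.t + y) * v) + q.n) := by
          obtain ⟨w, hw⟩ := hy
          refine ⟨w - (q.t + y) * u * (2 * ((q.t + y) * v) - q.t + y), ?_⟩
          linear_combination hw + (q.t + y) * (2 * ((q.t + y) * v) - q.t + y) * huv
        rcases hpp.dvd_or_dvd h4 with h5 | h5
        · rcases hpp.dvd_or_dvd h5 with h6 | h6 <;> exact absurd h6 hp2'
        · exact h5
    rw [← jacobiSym.legendreSym.to_jacobiSym]
    by_cases hsq : IsSquare ((discr E : ℤ) : ZMod p)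
    · rw [if_pos (hsplit.mpr (hroot.mpr hsq)), (legendreSym.eq_one_iff p hDne).mpr hsq]
    · rw [if_neg (fun h => hsq (hroot.mp (hsplit.mp h))), (legendreSym.eq_neg_one_iff p).mpr hsq]

/-- The primitive quadratic Dirichlet character attached to a quadratic field. -/
theorem exists_quadratic_character (hE : Module.finrank ℚ E = 2) :
    ∃ χ : DirichletCharacter ℂ (discr E).natAbs, χ.IsPrimitive ∧ χ ≠ 1 ∧ χ ^ 2 = 1 ∧
      ∀ p : ℕ, p.Prime → χ (p : ZMod (discr E).natAbs) = ((etaQ E p : ℤ) : ℂ) := by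
  obtain ⟨χ, h1, h2, h3, h4⟩ := exists_char_of_isFund (isFund_discr E hE)
  refine ⟨χ, h1, h2, h3, fun p hp => ?_⟩
  rw [h4 p hp, etaQ_eq_kron E hE hp]

end Pool.Agent.Lib.Maass
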