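import Pool.Agent.Lib.Maass.Bessel

/-!
# Analytic continuation and vanishing at the centre from the functional equation (chunk L)
-/

open Complex MeasureTheory Set Filter
open scoped Real Topology Nat

namespace Pool.Agent.Lib.Maass

/-- The basic function `t^δ Φ_ν(t)`. -/
noncomputable def lpsi (ν : ℂ) (δ : ℕ) (t : ℝ) : ℂ := (t : ℂ) ^ δ * besselPhi ν t

theorem pow_le_factorial_mul_exp {t : ℝ} (ht : 0 ≤ t) (δ : ℕ) :
    t ^ δ ≤ δ ! * Real.exp t := by
  have h := Real.pow_div_factorial_le_exp t ht δ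
  have hk : (0 : ℝ) < δ ! := by exact_mod_cast Nat.factorial_pos δ
  rw [div_le_iff₀ hk] at h
  linarith

/-- uniform bound on `[c, ∞)` -/
theorem lpsi_bound (ν : ℂ) (δ : ℕ) {c : ℝ} (hc : 0 < c) : ∃ K : ℝ, 0 ≤ K ∧ ∀ t : ℝ, c ≤ t →
    ‖lpsi ν δ t‖ ≤ K * Real.exp (-(4 * t)) := by
  obtain ⟨C, A, hA, h⟩ := besselPhi_bound ν
  have hC : 0 ≤ C := by
    have h1 := (norm_nonneg _).trans (h 1 one_pos)
    rw [Real.one_rpow, mul_one] at h1
    exact nonneg_of_mul_nonneg_left h1 (Real.exp_pos _)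
  refine ⟨C * c ^ (-A) * δ !, by positivity, fun t ht => ?_⟩
  have ht0 : 0 < t := hc.trans_le ht
  have h1 := h t ht0
  have h2 : t ^ (-A) ≤ c ^ (-A) := Real.rpow_le_rpow_of_nonpos hc ht (by linarith)
  have h3 := pow_le_factorial_mul_exp ht0.le δ
  have h4 : Real.exp t * Real.exp (-(5 * t)) = Real.exp (-(4 * t)) := by
    rw [← Real.exp_add]; congr 1; ring
  rw [lpsi, norm_mul, norm_pow, Complex.norm_real, Real.norm_of_nonneg ht0.le]
  calc t ^ δ * ‖besselPhi ν t‖ ≤ (δ ! * Real.exp t) * (C * t ^ (-A) * Real.exp (-(5 * t))) := by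
        gcongr
    _ ≤ (δ ! * Real.exp t) * (C * c ^ (-A) * Real.exp (-(5 * t))) := by gcongr
    _ = C * c ^ (-A) * δ ! * (Real.exp t * Real.exp (-(5 * t))) := by ring
    _ = _ := by rw [h4]

theorem lpsi_continuousOn (ν : ℂ) (δ : ℕ) : ContinuousOn (lpsi ν δ) (Ioi 0) := by
  unfold lpsi
  exact ((Complex.continuous_ofReal.pow δ).continuousOn).mul (besselPhi_continuousOn ν)

theorem lpsi_hasMellin (ν : ℂ) (δ : ℕ) (s : ℂ) (hs : |ν.re| < (s + δ).re) :
    HasMellin (lpsi ν δ) s (1 / 2 * (π : ℂ) ^ (-(s + δ)) * Complex.Gamma ((s + δ + ν) / 2) *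
      Complex.Gamma ((s + δ - ν) / 2)) := by
  have h := besselPhi_mellin ν (s + δ) hs
  have e : lpsi ν δ = fun t : ℝ => (t : ℂ) ^ (δ : ℂ) • besselPhi ν t := by
    funext t
    rw [lpsi, Complex.cpow_natCast, smul_eq_mul]
  rw [e]
  refine ⟨MellinConvergent.cpow_smul.mpr h.1, ?_⟩
  rw [mellin_cpow_smul, h.2]

/-- The theta-type series. -/
noncomputable def ltheta (b : ℕ → ℂ) (ν : ℂ) (δ : ℕ) (y : ℝ) : ℂ :=
  ∑' n : ℕ, b n * lpsi ν δ (n * y)

section

variable {b : ℕ → ℂ} {C : ℝ} (hC : ∀ n : ℕ, ‖b n‖ ≤ C * Real.sqrt n)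

include hC

theorem b_zero : b 0 = 0 := by
  have := hC 0
  simpa using this

theorem const_nonneg : 0 ≤ C := by
  have := (norm_nonneg _).trans (hC 1)
  simpa using this

theorem norm_b_le (n : ℕ) : ‖b n‖ ≤ C * n := by
  refine (hC n).trans ?_
  have h0 := const_nonneg hC
  gcongr
  rcases Nat.eq_zero_or_pos n with rfl | hn
  · simp
  · have h1 : (1 : ℝ) ≤ n := by exact_mod_cast hn
    rw [Real.sqrt_le_left (by positivity)]
    nlinarith

theorem term_bound (ν : ℂ) (δ : ℕ) {c : ℝ} (hc : 0 < c) : ∃ K : ℝ, 0 ≤ K ∧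
    ∀ (n : ℕ) (y : ℝ), c ≤ y →
      ‖b n * lpsi ν δ (n * y)‖ ≤ K * ((n : ℝ) ^ 1 * Real.exp (-(2 * c) * n)) * Real.exp (-(2 * y)) := by
  obtain ⟨K, hK0, hK⟩ := lpsi_bound ν δ hc
  have hC0 := const_nonneg hC
  refine ⟨C * K, by positivity, fun n y hy => ?_⟩
  rcases Nat.eq_zero_or_pos n with rfl | hn
  · rw [b_zero hC]; simp
  have hn1 : (1 : ℝ) ≤ n := by exact_mod_cast hn
  have hy0 : 0 < y := hc.trans_le hy
  have hny : c ≤ n * y := hy.trans (by nlinarith)
  have h1 := hK (n * y) hny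
  have h2 : Real.exp (-(4 * (n * y))) ≤ Real.exp (-(2 * c) * n) * Real.exp (-(2 * y)) := by
    rw [← Real.exp_add]
    apply Real.exp_le_exp.mpr
    have h3 : (n : ℝ) * c ≤ n * y := by gcongr
    have h4 : y ≤ n * y := by nlinarith
    linarith
  rw [norm_mul]
  calc ‖b n‖ * ‖lpsi ν δ (n * y)‖ ≤ (C * n) * (K * Real.exp (-(4 * (n * y)))) := by
        gcongr
        exact norm_b_le hC n
    _ ≤ (C * n) * (K * (Real.exp (-(2 * c) * n) * Real.exp (-(2 * y)))) := by gcongr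
    _ = _ := by ring

theorem summable_term (ν : ℂ) (δ : ℕ) {y : ℝ} (hy : 0 < y) :
    Summable (fun n : ℕ => b n * lpsi ν δ (n * y)) := by
  obtain ⟨K, hK0, hK⟩ := term_bound hC ν δ hy
  refine Summable.of_norm_bounded ?_ (fun n => hK n y le_rfl)
  exact ((Real.summable_pow_mul_exp_neg_nat_mul 1 (by positivity : 0 < 2 * y)).mul_left K).mul_right _

theorem ltheta_continuousOn (ν : ℂ) (δ : ℕ) : ContinuousOn (ltheta b ν δ) (Ioi 0) := by
  have key : ∀ c : ℝ, 0 < c → ContinuousOn (ltheta b ν δ) (Ioi c) := by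
    intro c hc
    obtain ⟨K, hK0, hK⟩ := term_bound hC ν δ hc
    unfold ltheta
    refine continuousOn_tsum (u := fun n : ℕ => K * ((n : ℝ) ^ 1 * Real.exp (-(2 * c) * n))) ?_ ?_ ?_
    · intro n
      rcases Nat.eq_zero_or_pos n with rfl | hn
      · rw [b_zero hC]; simp only [zero_mul]; exact continuousOn_const
      · have hn0 : (0 : ℝ) < n := by exact_mod_cast hn
        refine continuousOn_const.mul ((lpsi_continuousOn ν δ).comp (by fun_prop) ?_)
        intro y hy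
        have : 0 < y := hc.trans hy
        exact mul_pos hn0 this
    · exact (Real.summable_pow_mul_exp_neg_nat_mul 1 (by positivity : 0 < 2 * c)).mul_left K
    · intro n y hy
      refine (hK n y (le_of_lt hy)).trans ?_
      have : 0 < y := hc.trans hy
      have h1 : Real.exp (-(2 * y)) ≤ 1 := Real.exp_le_one_iff.mpr (by linarith)
      calc K * ((n : ℝ) ^ 1 * Real.exp (-(2 * c) * n)) * Real.exp (-(2 * y))
          ≤ K * ((n : ℝ) ^ 1 * Real.exp (-(2 * c) * n)) * 1 := by gcongr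
        _ = _ := by ring
  intro y hy
  have hy' : 0 < y := hy
  exact ((key (y / 2) (by positivity)).continuousAt (Ioi_mem_nhds (by linarith))).continuousWithinAt

theorem ltheta_decay (ν : ℂ) (δ : ℕ) : ∃ K : ℝ, ∀ y : ℝ, 1 ≤ y →
    ‖ltheta b ν δ y‖ ≤ K * Real.exp (-(2 * y)) := by
  obtain ⟨K, hK0, hK⟩ := term_bound hC ν δ one_pos
  have hs : Summable (fun n : ℕ => K * ((n : ℝ) ^ 1 * Real.exp (-(2 * 1) * n))) :=
    (Real.summable_pow_mul_exp_neg_nat_mul 1 (by norm_num : (0 : ℝ) < 2 * 1)).mul_left K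
  refine ⟨∑' n : ℕ, K * ((n : ℝ) ^ 1 * Real.exp (-(2 * 1) * n)), fun y hy => ?_⟩
  rw [← tsum_mul_right]
  exact tsum_of_norm_bounded (hs.mul_right _).hasSum (fun n => hK n y hy)

/-- The Mellin transform of the theta-type series. -/
theorem ltheta_mellin (ν : ℂ) (δ : ℕ) {s : ℂ} (hs : 3 / 2 < s.re) (hs' : |ν.re| < s.re) :
    mellin (ltheta b ν δ) s = LSeries b s * mellin (lpsi ν δ) s := by
  have hs2 : |ν.re| < (s + δ).re := by
    rw [Complex.add_re, Complex.natCast_re]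
    have : (0 : ℝ) ≤ δ := by positivity
    linarith
  have hM := (lpsi_hasMellin ν δ s hs2).1
  set F : ℕ → ℝ → ℂ := fun n y => (y : ℂ) ^ (s - 1) • (b n * lpsi ν δ (n * y)) with hF
  have hF0 : F 0 = fun _ => 0 := by
    funext y; simp [hF, b_zero hC]
  have hcomp : ∀ n : ℕ, 0 < n → MellinConvergent (fun y => lpsi ν δ (n * y)) s := by
    intro n hn
    exact (MellinConvergent.comp_mul_left (by exact_mod_cast hn)).mpr hM
  have hFe : ∀ n : ℕ, F n = fun y : ℝ => b n * ((y : ℂ) ^ (s - 1) • lpsi ν δ (n * y)) := by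
    intro n; funext y; simp only [hF, smul_eq_mul]; ring
  have hFint : ∀ n : ℕ, Integrable (F n) (volume.restrict (Ioi 0)) := by
    intro n
    rcases Nat.eq_zero_or_pos n with rfl | hn
    · rw [hF0]; exact integrable_zero _ _ _
    · rw [hFe]
      exact (hcomp n hn).const_mul _
  set I : ℝ := ∫ t in Ioi (0 : ℝ), ‖(t : ℂ) ^ (s - 1) • lpsi ν δ t‖ with hI
  have hnormint : ∀ n : ℕ, 0 < n → ∫ y in Ioi (0 : ℝ), ‖F n y‖ = ‖b n‖ * ((n : ℝ) ^ (-s.re) * I) := by
    intro n hn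
    have hn0 : (0 : ℝ) < n := by exact_mod_cast hn
    have h1 : ∀ y ∈ Ioi (0 : ℝ), ‖F n y‖ = ‖b n‖ * ((n : ℝ) ^ (1 - s.re) *
        (fun t : ℝ => ‖(t : ℂ) ^ (s - 1) • lpsi ν δ t‖) (n * y)) := by
      intro y hy
      have hy0 : 0 < y := hy
      rw [hFe]
      simp only
      rw [norm_mul, norm_smul, norm_smul, Complex.norm_cpow_eq_rpow_re_of_pos hy0,
        Complex.norm_cpow_eq_rpow_re_of_pos (mul_pos hn0 hy0), Complex.sub_re, Complex.one_re,
        Real.mul_rpow hn0.le hy0.le]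
      have h2 : (n : ℝ) ^ (1 - s.re) * (n : ℝ) ^ (s.re - 1) = 1 := by
        rw [← Real.rpow_add hn0]; norm_num
      linear_combination (-(‖b n‖ * (y ^ (s.re - 1) * ‖lpsi ν δ (n * y)‖))) * h2
    rw [setIntegral_congr_fun measurableSet_Ioi h1, integral_const_mul, integral_const_mul,
      integral_comp_mul_left_Ioi (fun t : ℝ => ‖(t : ℂ) ^ (s - 1) • lpsi ν δ t‖) 0 hn0, mul_zero,
      ← hI, smul_eq_mul]
    have h3 : (n : ℝ) ^ (1 - s.re) * (n : ℝ)⁻¹ = (n : ℝ) ^ (-s.re) := by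
      rw [← Real.rpow_neg_one, ← Real.rpow_add hn0]; congr 1; ring
    rw [← h3]; ring
  have hI0 : 0 ≤ I := integral_nonneg fun _ => norm_nonneg _
  have hC0 := const_nonneg hC
  have hsumb : LSeriesSummable b s := by
    refine LSeriesSummable_of_le_const_mul_rpow (x := 3 / 2) hs ⟨C, fun n _ => ?_⟩
    have h4 : ((n : ℝ)) ^ ((3 : ℝ) / 2 - 1) = Real.sqrt n := by
      rw [Real.sqrt_eq_rpow]; norm_num
    rw [h4]; exact hC n
  have hterm : ∀ n : ℕ, ‖LSeries.term b s n‖ = ‖b n‖ * (n : ℝ) ^ (-s.re) := by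
    intro n
    rw [LSeries.norm_term_eq]
    split_ifs with h
    · rw [h, b_zero hC]; simp
    · rw [Real.rpow_neg (by positivity), div_eq_mul_inv]
  have hFsum : Summable fun n => ∫ y in Ioi (0 : ℝ), ‖F n y‖ := by
    refine (hsumb.norm.mul_right I).congr fun n => ?_
    rcases Nat.eq_zero_or_pos n with rfl | hn
    · rw [hF0]; simp
    · rw [hnormint n hn, hterm]; ring
  have hmain := hasSum_integral_of_summable_integral_norm hFint hFsum
  have hlhs : ∫ y in Ioi (0 : ℝ), ∑' n, F n y = mellin (ltheta b ν δ) s := by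
    rw [mellin]
    refine integral_congr_ae (ae_of_all _ fun y => ?_)
    simp only [hF, ltheta, smul_eq_mul]
    rw [tsum_mul_left]
  have hrhs : ∀ n, ∫ y in Ioi (0 : ℝ), F n y = LSeries.term b s n * mellin (lpsi ν δ) s := by
    intro n
    rcases Nat.eq_zero_or_pos n with rfl | hn
    · rw [hF0]; simp
    · have hn0 : (0 : ℝ) < n := by exact_mod_cast hn
      have h5 := mellin_comp_mul_left (lpsi ν δ) s hn0
      rw [mellin] at h5
      rw [hFe, integral_const_mul, h5, LSeries.term_of_ne_zero hn.ne', Complex.cpow_neg,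
        smul_eq_mul]
      push_cast
      ring
  rw [hlhs] at hmain
  simp_rw [hrhs] at hmain
  rw [← hmain.tsum_eq, tsum_mul_right]
  rfl

end

/-- Let `b n` have at most square-root growth (in particular `b 0 = 0`) and let
`H(y) = √y ∑_{n ≥ 1} b n (n y)^δ Φ_ν(n y)`, `δ ∈ {0, 1}`. If `H(1/(q² y)) = - H(y)` for all
`y > 0`, then the Dirichlet series `∑ b n n^{-s}` extends to an entire function vanishing at
`1/2`. -/
theorem entire_of_functional_equation {b : ℕ → ℂ} (hb : ∃ C : ℝ, ∀ n : ℕ, ‖b n‖ ≤ C * Real.sqrt n)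
    (ν : ℂ) (δ : ℕ) (q : ℝ) (hq : 0 < q)
    (hfe : ∀ y : ℝ, 0 < y →
      (Real.sqrt (1 / (q ^ 2 * y)) : ℝ) *
          ∑' n : ℕ, b n * ((n * (1 / (q ^ 2 * y)) : ℝ) : ℂ) ^ δ *
            besselPhi ν (n * (1 / (q ^ 2 * y))) =
        - ((Real.sqrt y : ℝ) * ∑' n : ℕ, b n * ((n * y : ℝ) : ℂ) ^ δ * besselPhi ν (n * y))) :
    ∃ L : ℂ → ℂ, Differentiable ℂ L ∧ L (1 / 2) = 0 ∧
      ∀ s : ℂ, 3 / 2 < s.re → L s = LSeries b s := by
  obtain ⟨C, hC⟩ := hb
  -- functional equation for `ltheta`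
  have hfe' : ∀ y : ℝ, 0 < y → ((Real.sqrt (1 / (q ^ 2 * y)) : ℝ) : ℂ) *
      ltheta b ν δ (1 / (q ^ 2 * y)) = - (((Real.sqrt y : ℝ) : ℂ) * ltheta b ν δ y) := by
    intro y hy
    have h := hfe y hy
    simp only [ltheta, lpsi, ← mul_assoc]
    exact h
  set f : ℝ → ℂ := fun x => ltheta b ν δ (q⁻¹ * x) with hf
  have hqi : 0 < q⁻¹ := inv_pos.mpr hq
  have hfcont : ContinuousOn f (Ioi 0) := by
    refine (ltheta_continuousOn hC ν δ).comp (by fun_prop) ?_
    intro x hx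
    exact mul_pos hqi hx
  have hfint : LocallyIntegrableOn f (Ioi 0) := hfcont.locallyIntegrableOn measurableSet_Ioi
  have hffe : ∀ x ∈ Ioi (0 : ℝ), f (1 / x) = ((-1 : ℂ) * ((x ^ (1 : ℝ) : ℝ) : ℂ)) • f x := by
    intro x hx
    have hx0 : 0 < x := hx
    have h1 := hfe' (q⁻¹ * x) (mul_pos hqi hx0)
    have e1 : 1 / (q ^ 2 * (q⁻¹ * x)) = q⁻¹ * (1 / x) := by field_simp
    rw [e1] at h1
    have e2 : Real.sqrt (q⁻¹ * x) = Real.sqrt (q⁻¹ * (1 / x)) * x := by
      rw [← Real.sqrt_sq hx0.le, ← Real.sqrt_mul (by positivity), Real.sqrt_sq hx0.le]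
      congr 1
      field_simp
    rw [e2] at h1
    have h2 : ((Real.sqrt (q⁻¹ * (1 / x)) : ℝ) : ℂ) ≠ 0 := by
      have : 0 < Real.sqrt (q⁻¹ * (1 / x)) := Real.sqrt_pos.mpr (by positivity)
      exact_mod_cast this.ne'
    rw [Real.rpow_one, smul_eq_mul]
    apply mul_left_cancel₀ h2
    rw [hf]
    simp only
    rw [h1]
    push_cast
    ring
  have hftop : ∀ r : ℝ, (fun x => f x - 0) =O[atTop] (fun x : ℝ => x ^ r) := by
    intro r
    simp only [sub_zero]
    obtain ⟨K, hK⟩ := ltheta_decay hC ν δ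
    have h1 : f =O[atTop] (fun x : ℝ => Real.exp (-(2 * q⁻¹) * x)) := by
      refine Asymptotics.IsBigO.of_bound K ?_
      filter_upwards [eventually_ge_atTop q] with x hx
      have hx1 : 1 ≤ q⁻¹ * x := by
        rw [inv_mul_eq_div, le_div_iff₀ hq]; linarith
      rw [Real.norm_of_nonneg (Real.exp_pos _).le]
      refine (hK _ hx1).trans (le_of_eq ?_)
      congr 2
      ring
    exact h1.trans (isLittleO_exp_neg_mul_rpow_atTop (by positivity) r).isBigO
  let P : WeakFEPair ℂ :=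
    { f := f, g := f, k := 1, ε := -1, f₀ := 0, g₀ := 0, hf_int := hfint, hg_int := hfint,
      hk := one_pos, hε := by norm_num, h_feq := hffe, hf_top := hftop, hg_top := hftop }
  have hP : IsStrongFEPair P := ⟨rfl, rfl⟩
  have hΛ : ∀ s, P.Λ s = mellin f s := fun s => congrFun hP.Λ_eq s
  have hΛd : Differentiable ℂ P.Λ := hP.differentiable_Λ
  have hΛ0 : P.Λ (1 / 2) = 0 := by
    have h1 := P.functional_equation (1 / 2)
    have h2 : P.symm.Λ (1 / 2) = P.Λ (1 / 2) := by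
      rw [hP.symm_Λ_eq, hΛ]
    rw [h2] at h1
    have e1 : ((P.k : ℝ) : ℂ) - 1 / 2 = 1 / 2 := by
      simp only [P, Complex.ofReal_one]; norm_num
    rw [e1] at h1
    have e2 : P.ε = -1 := rfl
    rw [e2, smul_eq_mul] at h1
    have : (2 : ℂ) * P.Λ (1 / 2) = 0 := by linear_combination h1
    simpa using this
  have hπ : (π : ℂ) ≠ 0 := by exact_mod_cast Real.pi_ne_zero
  have hqc : (q : ℂ) ≠ 0 := by exact_mod_cast hq.ne'
  have hGd : Differentiable ℂ (fun s : ℂ => (Complex.Gamma s)⁻¹) := Complex.differentiable_one_div_Gamma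
  set L : ℂ → ℂ := fun s => P.Λ s * (q : ℂ) ^ (-s) * (2 * (π : ℂ) ^ (s + δ)) *
    (Complex.Gamma ((s + δ + ν) / 2))⁻¹ * (Complex.Gamma ((s + δ - ν) / 2))⁻¹ with hL
  have hLd : Differentiable ℂ L := by
    rw [hL]
    refine Differentiable.mul (Differentiable.mul (Differentiable.mul (Differentiable.mul hΛd ?_)
      ?_) ?_) ?_
    · exact Differentiable.const_cpow differentiable_neg (Or.inl hqc)
    · exact (Differentiable.const_cpow (by fun_prop) (Or.inl hπ)).const_mul 2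
    · exact hGd.comp (by fun_prop : Differentiable ℂ fun s : ℂ => (s + δ + ν) / 2)
    · exact hGd.comp (by fun_prop : Differentiable ℂ fun s : ℂ => (s + δ - ν) / 2)
  have hLbig : ∀ s : ℂ, 3 / 2 < s.re → |ν.re| < s.re → L s = LSeries b s := by
    intro s hs hs'
    have hs2 : |ν.re| < (s + δ).re := by
      rw [Complex.add_re, Complex.natCast_re]
      have : (0 : ℝ) ≤ δ := by positivity
      linarith
    have h1 : P.Λ s = (q : ℂ) ^ s * (LSeries b s * (1 / 2 * (π : ℂ) ^ (-(s + δ)) *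
        Complex.Gamma ((s + δ + ν) / 2) * Complex.Gamma ((s + δ - ν) / 2))) := by
      rw [hΛ, hf, mellin_comp_mul_left (ltheta b ν δ) s hqi, ltheta_mellin hC ν δ hs hs',
        (lpsi_hasMellin ν δ s hs2).2, smul_eq_mul]
      congr 1
      rw [Complex.ofReal_inv, Complex.inv_cpow _ _ (by rw [Complex.arg_ofReal_of_nonneg hq.le]; exact Real.pi_pos.ne),
        Complex.cpow_neg, inv_inv]
    have hg1 : Complex.Gamma ((s + δ + ν) / 2) ≠ 0 := by
      apply Complex.Gamma_ne_zero_of_re_pos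
      simp only [Complex.div_ofNat_re, Complex.add_re] at hs2 ⊢
      linarith [neg_abs_le ν.re]
    have hg2 : Complex.Gamma ((s + δ - ν) / 2) ≠ 0 := by
      apply Complex.Gamma_ne_zero_of_re_pos
      simp only [Complex.div_ofNat_re, Complex.add_re, Complex.sub_re] at hs2 ⊢
      linarith [le_abs_self ν.re]
    rw [hL]
    simp only
    rw [h1, Complex.cpow_neg, Complex.cpow_neg]
    have hq1 : (q : ℂ) ^ s ≠ 0 := by
      rw [Ne, Complex.cpow_eq_zero_iff]; tauto
    have hp1 : (π : ℂ) ^ (s + δ) ≠ 0 := by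
      rw [Ne, Complex.cpow_eq_zero_iff]; tauto
    field_simp
  refine ⟨L, hLd, ?_, ?_⟩
  · rw [hL]; simp only; rw [hΛ0]; ring
  · -- identity theorem
    have habs : LSeries.abscissaOfAbsConv b ≤ ((1 / 2 : ℝ) : EReal) + 1 := by
      refine LSeries.abscissaOfAbsConv_le_of_le_const_mul_rpow ⟨C, fun n _ => ?_⟩
      rw [← Real.sqrt_eq_rpow]; exact hC n
    have hU : {s : ℂ | (3 / 2 : ℝ) < s.re} ⊆ {s : ℂ | LSeries.abscissaOfAbsConv b < s.re} := by
      intro s hs
      have hs' : (3 / 2 : ℝ) < s.re := hs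
      have h2 : ((1 / 2 : ℝ) : EReal) + 1 = ((3 / 2 : ℝ) : EReal) := by
        rw [← EReal.coe_one, ← EReal.coe_add]; norm_num
      rw [h2] at habs
      exact lt_of_le_of_lt habs (by exact_mod_cast hs')
    have han1 : AnalyticOnNhd ℂ (LSeries b) {s : ℂ | (3 / 2 : ℝ) < s.re} :=
      (LSeries_analyticOnNhd b).mono hU
    have han2 : AnalyticOnNhd ℂ L {s : ℂ | (3 / 2 : ℝ) < s.re} := fun s _ => hLd.analyticAt s
    have hpre : IsPreconnected {s : ℂ | (3 / 2 : ℝ) < s.re} :=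
      (convex_halfSpace_re_gt (3 / 2)).isPreconnected
    set s₀ : ℂ := ((max (3 / 2) |ν.re| + 1 : ℝ) : ℂ) with hs₀
    have hs₀re : s₀.re = max (3 / 2) |ν.re| + 1 := by rw [hs₀, Complex.ofReal_re]
    have hs₀mem : s₀ ∈ {s : ℂ | (3 / 2 : ℝ) < s.re} := by
      show (3 / 2 : ℝ) < s₀.re
      rw [hs₀re]
      have := le_max_left (3 / 2 : ℝ) |ν.re|
      linarith
    have hev : L =ᶠ[𝓝 s₀] LSeries b := by
      have hopen : IsOpen {s : ℂ | max (3 / 2) |ν.re| < s.re} :=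
        isOpen_lt continuous_const Complex.continuous_re
      have hmem : s₀ ∈ {s : ℂ | max (3 / 2) |ν.re| < s.re} := by
        show max (3 / 2) |ν.re| < s₀.re
        rw [hs₀re]; linarith
      filter_upwards [hopen.mem_nhds hmem] with s hs
      have hs' : max (3 / 2) |ν.re| < s.re := hs
      exact hLbig s (lt_of_le_of_lt (le_max_left _ _) hs') (lt_of_le_of_lt (le_max_right _ _) hs')
    have := han2.eqOn_of_preconnected_of_eventuallyEq han1 hpre hs₀mem hev
    intro s hs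
    exact this hs

end Pool.Agent.Lib.Maass
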