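import Pool.Agent.Lib.Maass.Fourier
import Pool.Agent.Lib.Maass.LFun
import Pool.Agent.Lib.Maass.EulerProd

/-!
# Quadratic twists of odd forms (chunk T)
-/

open UpperHalfPlane Complex MeasureTheory
open scoped MatrixGroups Real

namespace Pool.Agent.Lib.Maass

noncomputable section

/-- The twisted form `f_χ(z) = ∑_{b mod q} χ(b) f(z + b/q)` satisfies
`f_χ(-1/(q² z)) = χ(-1) f_χ(z)` for every real Dirichlet character `χ mod q`. -/
def twist (f : ℍ → ℂ) {q : ℕ} [NeZero q] (χ : DirichletCharacter ℂ q) (z : ℍ) : ℂ :=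
  ∑ b : ZMod q, χ b * f (((b.val : ℝ) / q) +ᵥ z)

lemma fricke_im_pos {q : ℕ} [NeZero q] (z : ℍ) : 0 < (-1 / ((q : ℂ) ^ 2 * z)).im := by
  have hq : (0 : ℝ) < q := by exact_mod_cast Nat.pos_of_ne_zero (NeZero.ne q)
  have hz : 0 < Complex.normSq (z : ℂ) := Complex.normSq_pos.mpr (UpperHalfPlane.ne_zero z)
  have e : (-1 / ((q : ℂ) ^ 2 * z)) = ((1 / (q : ℝ) ^ 2 : ℝ) : ℂ) * (-(z : ℂ)⁻¹) := by
    push_cast
    field_simp
  rw [e, Complex.re_ofReal_mul |> fun _ => Complex.im_ofReal_mul, Complex.neg_im, Complex.inv_im]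
  have := z.im_pos
  have h2 : (z : ℂ).im = z.im := rfl
  rw [h2, neg_div, neg_neg]
  positivity

lemma fricke_aux {f : ℍ → ℂ} (hf : ∀ (γ : SL(2, ℤ)) (z : ℍ), f (γ • z) = f z)
    {q : ℕ} [NeZero q] {a b : ZMod q} (hab : a * b = -1) (z : ℍ) :
    f (((b.val : ℝ) / q) +ᵥ ofComplex (-1 / ((q : ℂ) ^ 2 * z))) =
      f (((a.val : ℝ) / q) +ᵥ z) := by
  have hq : (q : ℂ) ≠ 0 := by exact_mod_cast NeZero.ne q
  obtain ⟨k, hk⟩ : ∃ k : ℤ, (a.val * b.val + 1 : ℤ) = q * k := by
    have h : (((a.val * b.val + 1 : ℤ)) : ZMod q) = 0 := by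
      push_cast
      simp [hab]
    exact (ZMod.intCast_zmod_eq_zero_iff_dvd _ _).mp h
  have hdet : Matrix.det !![(b.val : ℤ), -k; (q : ℤ), -(a.val : ℤ)] = 1 := by
    rw [Matrix.det_fin_two_of]
    linarith
  obtain ⟨γ, hγ⟩ : ∃ γ : SL(2, ℤ),
      (γ : Matrix (Fin 2) (Fin 2) ℤ) = !![(b.val : ℤ), -k; (q : ℤ), -(a.val : ℤ)] :=
    ⟨⟨_, hdet⟩, rfl⟩
  rw [← hf γ (((a.val : ℝ) / q) +ᵥ z)]
  congr 1
  apply UpperHalfPlane.ext
  rw [coe_specialLinearGroup_apply, coe_vadd, coe_vadd,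
    ofComplex_apply_of_im_pos (fricke_im_pos z)]
  have hz : (z : ℂ) ≠ 0 := UpperHalfPlane.ne_zero z
  have hkC : ((a.val : ℂ) * b.val + 1) = q * k := by exact_mod_cast hk
  simp only [hγ, Matrix.of_apply, Matrix.cons_val', Matrix.cons_val_zero, Matrix.cons_val_one,
    algebraMap_int_eq, Int.coe_castRingHom]
  push_cast
  have h1 : (q : ℂ) * ((a.val : ℂ) / q + z) + -(a.val : ℂ) = q * z := by
    field_simp
    ring
  rw [h1]
  field_simp
  linear_combination -hkC

lemma sum_eq_sum_units {q : ℕ} [NeZero q] (g : ZMod q → ℂ) (hg : ∀ b, ¬ IsUnit b → g b = 0) :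
    ∑ b : ZMod q, g b = ∑ u : (ZMod q)ˣ, g u := by
  symm
  apply Fintype.sum_of_injective (fun u : (ZMod q)ˣ => (u : ZMod q)) Units.val_injective
  · intro i hi
    apply hg
    rintro ⟨u, rfl⟩
    exact hi ⟨u, rfl⟩
  · intro i; rfl

lemma inv_eq_self_of_sq {q : ℕ} {χ : DirichletCharacter ℂ q} (hχ : χ ^ 2 = 1) : χ⁻¹ = χ := by
  rw [pow_two] at hχ
  exact inv_eq_of_mul_eq_one_left hχ

lemma twist_fricke {f : ℍ → ℂ} (hf : ∀ (γ : SL(2, ℤ)) (z : ℍ), f (γ • z) = f z)
    {q : ℕ} [NeZero q] (χ : DirichletCharacter ℂ q) (hχ : χ ^ 2 = 1) (z : ℍ) :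
    twist f χ (ofComplex (-1 / ((q : ℂ) ^ 2 * z))) = χ (-1) * twist f χ z := by
  unfold twist
  rw [sum_eq_sum_units _ (fun b hb => by rw [MulChar.map_nonunit _ hb, zero_mul]),
    sum_eq_sum_units _ (fun b hb => by rw [MulChar.map_nonunit _ hb, zero_mul]), Finset.mul_sum]
  refine Fintype.sum_equiv ((Equiv.inv _).trans (Equiv.neg _)) _ _ fun u => ?_
  have h1 : ((-u⁻¹ : (ZMod q)ˣ) : ZMod q) * (u : ZMod q) = -1 := by simp
  have h2 := fricke_aux hf h1 z
  simp only [Equiv.trans_apply, Equiv.inv_apply, Equiv.neg_apply]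
  rw [h2, ← mul_assoc]
  congr 1
  have h3 : χ ((-u⁻¹ : (ZMod q)ˣ) : ZMod q) = χ (-1) * χ⁻¹ (u : ZMod q) := by
    rw [MulChar.inv_apply, Ring.inverse_unit, ← map_mul]
    congr 1
    simp
  rw [h3, inv_eq_self_of_sq hχ, ← mul_assoc, ← map_mul]
  simp

/-- Gauss sum of a primitive character is nonzero. -/
lemma gaussSum_ne_zero {q : ℕ} [NeZero q] {χ : DirichletCharacter ℂ q} (hprim : χ.IsPrimitive) :
    gaussSum χ (ZMod.stdAddChar (N := q)) ≠ 0 := by
  intro h
  have h1 : ZMod.dft (χ : ZMod q → ℂ) = 0 := by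
    funext k
    rw [hprim.fourierTransform_eq_inv_mul_gaussSum, h, mul_zero]
    rfl
  have h2 : (χ : ZMod q → ℂ) = 0 := (LinearEquiv.map_eq_zero_iff _).mp h1
  have h3 := congrFun h2 1
  simp at h3

lemma sum_sin_shift {q : ℕ} [NeZero q] {χ : DirichletCharacter ℂ q} (hprim : χ.IsPrimitive)
    (hχ : χ ^ 2 = 1) (n : ℕ) (x : ℝ) :
    ∑ b : ZMod q, χ b * ((Real.sin (2 * π * n * (x + (b.val : ℝ) / q)) : ℝ) : ℂ) =
      gaussSum χ (ZMod.stdAddChar (N := q)) / (2 * Complex.I) * χ n *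
        (cexp (2 * π * Complex.I * n * x) - χ (-1) * cexp (-(2 * π * Complex.I * n * x))) := by
  have hq : (q : ℂ) ≠ 0 := by exact_mod_cast NeZero.ne q
  set g := gaussSum χ (ZMod.stdAddChar (N := q)) with hg
  have key : ∀ m : ZMod q, ∑ b : ZMod q, χ b * ZMod.stdAddChar (m * b) = χ m * g := by
    intro m
    have h := gaussSum_mulShift_of_isPrimitive (ZMod.stdAddChar (N := q)) hprim m
    rw [inv_eq_self_of_sq hχ] at h
    rw [hg, ← h]
    simp only [gaussSum, AddChar.mulShift_apply]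
  have hb : ∀ b : ZMod q, ∀ k : ℤ, ZMod.stdAddChar ((k : ZMod q) * b) =
      cexp (2 * π * Complex.I * k * b.val / q) := by
    intro b k
    have : ((k : ZMod q) * b) = ((k * (b.val : ℤ) : ℤ) : ZMod q) := by
      push_cast
      rw [ZMod.natCast_val, ZMod.cast_id', id_eq]
    rw [this, ZMod.stdAddChar_coe]
    congr 1
    push_cast
    ring
  have e : ∀ b : ZMod q, χ b * ((Real.sin (2 * π * n * (x + (b.val : ℝ) / q)) : ℝ) : ℂ) =
      (1 / (2 * Complex.I)) * cexp (2 * π * Complex.I * n * x) * (χ b * ZMod.stdAddChar ((n : ZMod q) * b)) -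
      (1 / (2 * Complex.I)) * cexp (-(2 * π * Complex.I * n * x)) *
        (χ b * ZMod.stdAddChar ((-n : ZMod q) * b)) := by
    intro b
    have h1 := hb b n
    have h2 := hb b (-n)
    push_cast at h1 h2
    rw [h1, h2]
    push_cast
    rw [Complex.sin]
    have e1 : cexp (-(2 * π * n * (x + b.val / q)) * Complex.I) =
        cexp (-(2 * π * Complex.I * n * x)) * cexp (2 * π * Complex.I * (-n) * b.val / q) := by
      rw [← Complex.exp_add]
      congr 1
      field_simp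
      ring
    have e2 : cexp (2 * π * n * (x + b.val / q) * Complex.I) =
        cexp (2 * π * Complex.I * n * x) * cexp (2 * π * Complex.I * n * b.val / q) := by
      rw [← Complex.exp_add]
      congr 1
      field_simp
    rw [e1, e2]
    have hI : (1 : ℂ) / (2 * Complex.I) = - Complex.I / 2 := by
      field_simp
      rw [Complex.I_sq]; ring
    rw [hI]
    ring
  simp_rw [e]
  rw [Finset.sum_sub_distrib, ← Finset.mul_sum, ← Finset.mul_sum, key, key]
  have : χ (-(n : ZMod q)) = χ (-1) * χ n := by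
    rw [← map_mul]; simp
  rw [this]
  ring

/-- Fourier expansion of the twisted form. -/
lemma hasSum_twist {f : ℍ → ℂ} {a : ℕ → ℂ} {c ν : ℂ}
    (hexp : ∀ x y : ℝ, 0 < y →
        HasSum (fun n : ℕ => c * (Real.sqrt y : ℝ) * a n * besselPhi ν (n * y) *
          (Real.sin (2 * π * n * x) : ℝ)) (f (ofComplex (x + y * Complex.I))))
    {q : ℕ} [NeZero q] {χ : DirichletCharacter ℂ q} (hprim : χ.IsPrimitive) (hχ : χ ^ 2 = 1)
    (x y : ℝ) (hy : 0 < y) :
    HasSum (fun n : ℕ => c * (Real.sqrt y : ℝ) * a n * besselPhi ν (n * y) *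
      (gaussSum χ (ZMod.stdAddChar (N := q)) / (2 * Complex.I) * χ n *
        (cexp (2 * π * Complex.I * n * x) - χ (-1) * cexp (-(2 * π * Complex.I * n * x)))))
      (twist f χ (ofComplex (x + y * Complex.I))) := by
  have h : ∀ b ∈ (Finset.univ : Finset (ZMod q)),
      HasSum (fun n : ℕ => χ b * (c * (Real.sqrt y : ℝ) * a n * besselPhi ν (n * y) *
        (Real.sin (2 * π * n * (x + (b.val : ℝ) / q)) : ℝ)))
        (χ b * f (((b.val : ℝ) / q) +ᵥ ofComplex (x + y * Complex.I))) := by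
    intro b _
    have h1 := (hexp (x + (b.val : ℝ) / q) y hy).mul_left (χ b)
    have h2 : ofComplex (((x + (b.val : ℝ) / q : ℝ) : ℂ) + y * Complex.I) =
        ((b.val : ℝ) / q) +ᵥ ofComplex (x + y * Complex.I) := by
      apply UpperHalfPlane.ext
      rw [coe_vadd, ofComplex_apply_of_im_pos (by simpa using hy),
        ofComplex_apply_of_im_pos (by simpa using hy)]
      push_cast
      ring
    rw [h2] at h1
    exact h1
  have h3 := hasSum_sum h
  unfold twist
  refine h3.congr_fun ?_ |> fun h => h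
  intro n
  rw [← sum_sin_shift hprim hχ n x, Finset.mul_sum]
  refine Finset.sum_congr rfl fun b _ => ?_
  ring

lemma ofComplex_fricke_coe {q : ℕ} [NeZero q] (z : ℍ) :
    ((ofComplex (-1 / ((q : ℂ) ^ 2 * z)) : ℍ) : ℂ) = -1 / ((q : ℂ) ^ 2 * z) := by
  rw [ofComplex_apply_of_im_pos (fricke_im_pos z)]

lemma coe_ofComplex_add (x y : ℝ) (hy : 0 < y) :
    ((ofComplex (x + y * Complex.I) : ℍ) : ℂ) = x + y * Complex.I := by
  rw [ofComplex_apply_of_im_pos (by simpa using hy)]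

lemma fricke_I {q : ℕ} [NeZero q] (y : ℝ) (hy : 0 < y) :
    -1 / ((q : ℂ) ^ 2 * ((ofComplex (((0 : ℝ) : ℂ) + y * Complex.I) : ℍ) : ℂ)) =
      ((0 : ℝ) : ℂ) + ((1 / ((q : ℝ) ^ 2 * y) : ℝ) : ℂ) * Complex.I := by
  have hq : (q : ℂ) ≠ 0 := by exact_mod_cast NeZero.ne q
  have hy' : (y : ℂ) ≠ 0 := by exact_mod_cast hy.ne'
  rw [coe_ofComplex_add 0 y hy]
  push_cast
  rw [zero_add, zero_add]
  field_simp
  rw [Complex.I_sq]

lemma twist_differentiableAt (F : HeckeMaassForm) {q : ℕ} [NeZero q] (χ : DirichletCharacter ℂ q)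
    (w : ℂ) (hw : 0 < w.im) :
    DifferentiableAt ℝ (fun w : ℂ => twist F.toFun χ (ofComplex w)) w := by
  have hopen : IsOpen {z : ℂ | 0 < z.im} := isOpen_upperHalfPlaneSet
  have h0 : ∀ w : ℂ, 0 < w.im → DifferentiableAt ℝ (F.toFun ∘ ofComplex) w := fun w hw =>
    (F.smooth'.contDiffAt (hopen.mem_nhds hw)).differentiableAt (by simp)
  have h1 : (fun w : ℂ => twist F.toFun χ (ofComplex w)) =ᶠ[nhds w]
      fun w : ℂ => ∑ b : ZMod q, χ b *
        (F.toFun ∘ ofComplex) ((((b.val : ℝ) / q : ℝ) : ℂ) + w) := by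
    filter_upwards [hopen.mem_nhds hw] with z hz
    unfold twist
    refine Finset.sum_congr rfl fun b _ => ?_
    congr 2
    apply UpperHalfPlane.ext
    have hz' : 0 < ((((b.val : ℝ) / q : ℝ) : ℂ) + z).im := by
      rw [Complex.add_im, Complex.ofReal_im, zero_add]; exact hz
    rw [coe_vadd, ofComplex_apply_of_im_pos hz, ofComplex_apply_of_im_pos hz']
  refine DifferentiableAt.congr_of_eventuallyEq ?_ h1
  refine DifferentiableAt.fun_sum fun b _ => DifferentiableAt.const_mul ?_ _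
  have hw' : 0 < ((((b.val : ℝ) / q : ℝ) : ℂ) + w).im := by
    rw [Complex.add_im, Complex.ofReal_im, zero_add]; exact hw
  exact (h0 _ hw').comp w ((differentiableAt_const _).add differentiableAt_id)

lemma clm_ofReal (L : ℂ →L[ℝ] ℂ) (r : ℝ) : L (r : ℂ) = (r : ℂ) * L 1 := by
  have e : (r : ℂ) = r • (1 : ℂ) := by simp
  rw [e, L.map_smul]
  simp

lemma deriv_series_eq (a x : ℕ → ℂ) (c g ν : ℂ) {y : ℝ} (hy : 0 < y) :
    ∑' n : ℕ, c * (Real.sqrt y : ℝ) * a n * besselPhi ν (n * y) *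
      (g * x n) * ((2 * π * n : ℝ) : ℂ) = (2 * π * c * g / y) *
        ((Real.sqrt y : ℝ) * ∑' n : ℕ, (a n * x n) * ((n * y : ℝ) : ℂ) ^ 1 *
            besselPhi ν (n * y)) := by
  have hyC : (y : ℂ) ≠ 0 := by exact_mod_cast hy.ne'
  rw [← mul_assoc, ← tsum_mul_left]
  refine tsum_congr fun n => ?_
  push_cast
  field_simp

/-- Summability of the dominating series. -/
lemma summable_deriv_bound {a : ℕ → ℂ} (ha : ∃ C : ℝ, ∀ n : ℕ, ‖a n‖ ≤ C * Real.sqrt n)
    (ν : ℂ) {y : ℝ} (hy : 0 < y) :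
    Summable fun n : ℕ => (n : ℝ) * (‖a n‖ * ‖besselPhi ν (n * y)‖) := by
  obtain ⟨C, hC⟩ := ha
  obtain ⟨D, A, hA, hD⟩ := besselPhi_bound ν
  have hC0 : 0 ≤ C := by
    have := (norm_nonneg _).trans (hC 1)
    simpa using this
  have hD0 : 0 ≤ D := by
    have h := (norm_nonneg _).trans (hD 1 one_pos)
    rw [Real.one_rpow, mul_one] at h
    exact nonneg_of_mul_nonneg_left h (Real.exp_pos _)
  have hs := (Real.summable_pow_mul_exp_neg_nat_mul 2 (r := 5 * y) (by positivity)).mul_left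
    (C * (D * y ^ (-A)))
  refine Summable.of_nonneg_of_le (fun n => by positivity) (fun n => ?_) hs
  rcases Nat.eq_zero_or_pos n with rfl | hn
  · simp
  have hn1 : (1 : ℝ) ≤ n := by exact_mod_cast hn
  have hny : 0 < n * y := by positivity
  have h1 : ‖a n‖ ≤ C * n := by
    refine (hC n).trans (mul_le_mul_of_nonneg_left ?_ hC0)
    rw [Real.sqrt_le_left (by linarith)]
    nlinarith
  have h2 : ‖besselPhi ν (n * y)‖ ≤ D * y ^ (-A) * Real.exp (-(5 * (n * y))) := by
    refine (hD _ hny).trans ?_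
    refine mul_le_mul_of_nonneg_right (mul_le_mul_of_nonneg_left ?_ hD0) (Real.exp_pos _).le
    exact Real.rpow_le_rpow_of_nonpos hy (le_mul_of_one_le_left hy.le hn1) (by linarith)
  have hexp : Real.exp (-(5 * (n * y))) = Real.exp (-(5 * y) * n) := by congr 1; ring
  calc (n : ℝ) * (‖a n‖ * ‖besselPhi ν (n * y)‖)
      ≤ n * ((C * n) * (D * y ^ (-A) * Real.exp (-(5 * (n * y))))) := by gcongr
    _ = C * (D * y ^ (-A)) * ((n : ℝ) ^ 2 * Real.exp (-(5 * y) * n)) := by rw [hexp]; ring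

/-- The functional equation of the theta-type series attached to an odd form and a primitive
quadratic character, with sign `-1` for both parities of `χ`
(`δ = 0` for odd `χ` and `δ = 1` for even `χ`). -/
theorem odd_form_functional_equation (F : HeckeMaassForm) (hF : F.parity = -1)
    {a : ℕ → ℂ} {c ν : ℂ} (hc : c ≠ 0)
    (ha : ∃ C : ℝ, ∀ n : ℕ, ‖a n‖ ≤ C * Real.sqrt n)
    (hexp : ∀ x y : ℝ, 0 < y →
        HasSum (fun n : ℕ => c * (Real.sqrt y : ℝ) * a n * besselPhi ν (n * y) *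
          (Real.sin (2 * π * n * x) : ℝ)) (F.toFun (ofComplex (x + y * Complex.I))))
    {q : ℕ} [NeZero q] (χ : DirichletCharacter ℂ q) (hprim : χ.IsPrimitive) (hχ : χ ^ 2 = 1) :
    ∃ δ : ℕ, ∀ y : ℝ, 0 < y →
      (Real.sqrt (1 / ((q : ℝ) ^ 2 * y)) : ℝ) *
          ∑' n : ℕ, (a n * χ n) * ((n * (1 / ((q : ℝ) ^ 2 * y)) : ℝ) : ℂ) ^ δ *
            besselPhi ν (n * (1 / ((q : ℝ) ^ 2 * y))) =
        - ((Real.sqrt y : ℝ) * ∑' n : ℕ, (a n * χ n) * ((n * y : ℝ) : ℂ) ^ δ *
            besselPhi ν (n * y)) := by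
  have hqR : (0 : ℝ) < q := by exact_mod_cast Nat.pos_of_ne_zero (NeZero.ne q)
  have hq : (q : ℂ) ≠ 0 := by exact_mod_cast NeZero.ne q
  have hg := gaussSum_ne_zero hprim
  set g := gaussSum χ (ZMod.stdAddChar (N := q)) with hgdef
  have hinv : ∀ y : ℝ, 0 < y → 0 < 1 / ((q : ℝ) ^ 2 * y) := fun y hy => by positivity
  rcases χ.even_or_odd with hev | hodd
  · -- even character, `δ = 1`
    refine ⟨1, fun y hy => ?_⟩
    have hev' : χ (-1) = 1 := hev
    -- the derivative in `x` at `0`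
    have hD : ∀ y : ℝ, 0 < y → HasDerivAt
        (fun t : ℝ => twist F.toFun χ (ofComplex (t + y * Complex.I)))
        (∑' n : ℕ, c * (Real.sqrt y : ℝ) * a n * besselPhi ν (n * y) *
          (g * χ n) * ((2 * π * n : ℝ) : ℂ)) 0 := by
      intro y hy
      have hs := summable_deriv_bound ha ν hy
      have h1 : ∀ t : ℝ, twist F.toFun χ (ofComplex (t + y * Complex.I)) =
          ∑' n : ℕ, c * (Real.sqrt y : ℝ) * a n * besselPhi ν (n * y) *
            (g * χ n) * ((Real.sin (2 * π * n * t) : ℝ) : ℂ) := by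
        intro t
        rw [← (hasSum_twist hexp hprim hχ t y hy).tsum_eq]
        congr 1
        funext n
        rw [hev', ← hgdef]
        have e2 : ((Real.sin (2 * π * n * t) : ℝ) : ℂ) =
            (cexp (2 * π * Complex.I * n * t) - 1 * cexp (-(2 * π * Complex.I * n * t))) /
              (2 * Complex.I) := by
          push_cast
          rw [Complex.sin]
          have e3 : (-(2 * π * n * t : ℂ)) * Complex.I = -(2 * π * Complex.I * n * t) := by ring
          have e4 : (2 * π * n * t : ℂ) * Complex.I = 2 * π * Complex.I * n * t := by ring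
          rw [e3, e4]
          field_simp
          rw [Complex.I_sq]
          ring
        rw [e2]
        ring
      have h2 : (fun t : ℝ => twist F.toFun χ (ofComplex (t + y * Complex.I))) =
          fun t : ℝ => ∑' n : ℕ, c * (Real.sqrt y : ℝ) * a n * besselPhi ν (n * y) *
            (g * χ n) * ((Real.sin (2 * π * n * t) : ℝ) : ℂ) := funext h1
      rw [h2]
      have hu : Summable fun n : ℕ => (‖c‖ * Real.sqrt y * (2 * π) * ‖g‖) *
          ((n : ℝ) * (‖a n‖ * ‖besselPhi ν (n * y)‖)) := hs.mul_left _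
      have h3 := hasDerivAt_tsum (𝕜 := ℝ)
        (g := fun (n : ℕ) (t : ℝ) => c * (Real.sqrt y : ℝ) * a n * besselPhi ν (n * y) *
            (g * χ n) * ((Real.sin (2 * π * n * t) : ℝ) : ℂ))
        (g' := fun (n : ℕ) (t : ℝ) => c * (Real.sqrt y : ℝ) * a n * besselPhi ν (n * y) *
            (g * χ n) * ((Real.cos (2 * π * n * t) * (2 * π * n) : ℝ) : ℂ))
        (y₀ := 0) hu ?_ ?_ ?_ 0
      · refine h3.congr_deriv ?_
        congr 1
        funext n
        simp
      · intro n t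
        refine HasDerivAt.const_mul _ ?_
        have h4 : HasDerivAt (fun t : ℝ => 2 * π * n * t) (2 * π * n) t := by
          simpa using (hasDerivAt_id t).const_mul (2 * π * n)
        exact (h4.sin).ofReal_comp
      · intro n t
        simp only [norm_mul, Complex.norm_real]
        have hcos : ‖Real.cos (2 * π * n * t)‖ ≤ 1 := by
          rw [Real.norm_eq_abs]; exact Real.abs_cos_le_one _
        have hchi : ‖χ n‖ ≤ 1 := χ.norm_le_one _
        have hpi : ‖(π : ℝ)‖ = π := Real.norm_of_nonneg Real.pi_pos.le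
        have hn : ‖(n : ℝ)‖ = n := Real.norm_of_nonneg (Nat.cast_nonneg _)
        have h2n : ‖(2 : ℝ)‖ = 2 := by norm_num
        have hsq : ‖Real.sqrt y‖ = Real.sqrt y := Real.norm_of_nonneg (Real.sqrt_nonneg _)
        rw [hpi, hn, h2n, hsq]
        have hpi0 := Real.pi_pos
        calc ‖c‖ * Real.sqrt y * ‖a n‖ * ‖besselPhi ν (n * y)‖ * (‖g‖ * ‖χ n‖) *
              (‖Real.cos (2 * π * n * t)‖ * (2 * π * n))
            ≤ ‖c‖ * Real.sqrt y * ‖a n‖ * ‖besselPhi ν (n * y)‖ * (‖g‖ * 1) *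
              (1 * (2 * π * n)) := by gcongr
          _ = _ := by ring
      · have : (fun n : ℕ => c * (Real.sqrt y : ℝ) * a n * besselPhi ν (n * y) *
            (g * χ n) * ((Real.sin (2 * π * n * 0) : ℝ) : ℂ)) = fun _ => 0 := by
          funext n; simp
        rw [this]
        exact summable_zero
    set D : ℝ → ℂ := fun y => ∑' n : ℕ, c * (Real.sqrt y : ℝ) * a n * besselPhi ν (n * y) *
          (g * χ n) * ((2 * π * n : ℝ) : ℂ) with hDdef
    set G : ℂ → ℂ := fun w => twist F.toFun χ (ofComplex w) with hG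
    have hGdiff : ∀ w : ℂ, 0 < w.im → DifferentiableAt ℝ G w := twist_differentiableAt F χ
    set y' : ℝ := 1 / ((q : ℝ) ^ 2 * y) with hy'def
    have hy' : 0 < y' := hinv y hy
    have hyC : (y : ℂ) ≠ 0 := by exact_mod_cast hy.ne'
    -- derivative of the path `t ↦ t + y' i`
    have hp1 : HasDerivAt (fun t : ℝ => (t : ℂ) + y' * Complex.I) 1 0 := by
      simpa using (Complex.ofRealCLM.hasDerivAt (x := (0 : ℝ))).add_const ((y' : ℂ) * Complex.I)
    have hG1 : HasFDerivAt G (fderiv ℝ G (((0 : ℝ) : ℂ) + y' * Complex.I))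
        (((0 : ℝ) : ℂ) + y' * Complex.I) := (hGdiff _ (by simpa using hy')).hasFDerivAt
    have hG2 := hG1.comp_hasDerivAt (0 : ℝ) hp1
    have hL1 : (fderiv ℝ G (((0 : ℝ) : ℂ) + y' * Complex.I)) 1 = D y' :=
      hG2.unique (hD y' hy')
    -- derivative of the path `t ↦ -1/(q² (t + y i))`
    have hp2 : HasDerivAt (fun t : ℝ => (-1 : ℂ) / ((q : ℂ) ^ 2 * ((t : ℂ) + y * Complex.I)))
        ((-(1 / ((q : ℝ) ^ 2 * y ^ 2)) : ℝ) : ℂ) 0 := by
      have hb1 : HasDerivAt (fun t : ℝ => (t : ℂ) + y * Complex.I) 1 0 := by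
        simpa using (Complex.ofRealCLM.hasDerivAt (x := (0 : ℝ))).add_const ((y : ℂ) * Complex.I)
      have hb2 := hb1.const_mul ((q : ℂ) ^ 2)
      have hne : (q : ℂ) ^ 2 * (((0 : ℝ) : ℂ) + y * Complex.I) ≠ 0 := by
        simp [hq, hyC]
      have hb3 := (hasDerivAt_const (0 : ℝ) (-1 : ℂ)).div hb2 hne
      refine hb3.congr_deriv ?_
      push_cast
      rw [zero_add]
      field_simp
      rw [Complex.I_sq]
      ring
    have hpt : (-1 : ℂ) / ((q : ℂ) ^ 2 * (((0 : ℝ) : ℂ) + y * Complex.I)) =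
        ((0 : ℝ) : ℂ) + y' * Complex.I := by
      have := fricke_I (q := q) y hy
      rwa [coe_ofComplex_add 0 y hy] at this
    have hG1' : HasFDerivAt G (fderiv ℝ G (((0 : ℝ) : ℂ) + y' * Complex.I))
        ((-1 : ℂ) / ((q : ℂ) ^ 2 * (((0 : ℝ) : ℂ) + y * Complex.I))) := by
      rw [hpt]; exact hG1
    have hG3 := hG1'.comp_hasDerivAt (0 : ℝ) hp2
    have hfun : (G ∘ fun t : ℝ => (-1 : ℂ) / ((q : ℂ) ^ 2 * ((t : ℂ) + y * Complex.I))) =
        fun t : ℝ => twist F.toFun χ (ofComplex (t + y * Complex.I)) := by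
      funext t
      have h := twist_fricke F.map_smul' χ hχ (ofComplex (t + y * Complex.I))
      rw [coe_ofComplex_add t y hy, hev', one_mul] at h
      exact h
    rw [hfun] at hG3
    have hL2 : (fderiv ℝ G (((0 : ℝ) : ℂ) + y' * Complex.I))
        ((-(1 / ((q : ℝ) ^ 2 * y ^ 2)) : ℝ) : ℂ) = D y := hG3.unique (hD y hy)
    rw [clm_ofReal, hL1] at hL2
    -- express `D` through the theta-type series
    have hDH : ∀ y : ℝ, 0 < y → D y = (2 * π * c * g / y) *
        ((Real.sqrt y : ℝ) * ∑' n : ℕ, (a n * χ n) * ((n * y : ℝ) : ℂ) ^ 1 *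
            besselPhi ν (n * y)) := fun y hy => deriv_series_eq a (fun n => χ n) c g ν hy
    rw [hDH y hy, hDH y' hy'] at hL2
    have hpiC : (π : ℂ) ≠ 0 := by exact_mod_cast Real.pi_ne_zero
    have hne : 2 * (π : ℂ) * c * g / y ≠ 0 :=
      div_ne_zero (mul_ne_zero (mul_ne_zero (mul_ne_zero two_ne_zero hpiC) hc) hg) hyC
    apply mul_left_cancel₀ hne
    rw [mul_neg, ← hL2]
    have e5 : ((-(1 / ((q : ℝ) ^ 2 * y ^ 2)) : ℝ) : ℂ) * (2 * π * c * g / (y' : ℂ)) =
        -(2 * π * c * g / y) := by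
      rw [hy'def]
      push_cast
      field_simp
    linear_combination ((Real.sqrt y' : ℝ) * ∑' n : ℕ, (a n * χ n) * ((n * y' : ℝ) : ℂ) ^ 1 *
            besselPhi ν (n * y')) * e5
  · -- odd character, `δ = 0`
    refine ⟨0, fun y hy => ?_⟩
    have hodd' : χ (-1) = -1 := hodd
    have h1 : ∀ y : ℝ, 0 < y → twist F.toFun χ (ofComplex (((0 : ℝ) : ℂ) + y * Complex.I)) =
        (c * g / Complex.I) * ((Real.sqrt y : ℝ) * ∑' n : ℕ, (a n * χ n) *
          ((n * y : ℝ) : ℂ) ^ 0 * besselPhi ν (n * y)) := by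
      intro y hy
      rw [← (hasSum_twist hexp hprim hχ 0 y hy).tsum_eq, ← mul_assoc, ← tsum_mul_left]
      congr 1
      funext n
      rw [hodd', ← hgdef]
      simp only [ofReal_zero, mul_zero, neg_zero, Complex.exp_zero, pow_zero]
      field_simp
      ring
    have h2 := twist_fricke F.map_smul' χ hχ (ofComplex (((0 : ℝ) : ℂ) + y * Complex.I))
    rw [fricke_I y hy, h1 _ (hinv y hy), h1 y hy, hodd'] at h2
    have hne : c * g / Complex.I ≠ 0 := div_ne_zero (mul_ne_zero hc hg) Complex.I_ne_zero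
    have h3 := mul_left_cancel₀ hne (h2.trans (by ring :
      (-1 : ℂ) * ((c * g / Complex.I) * ((Real.sqrt y : ℝ) * ∑' n : ℕ, (a n * χ n) *
          ((n * y : ℝ) : ℂ) ^ 0 * besselPhi ν (n * y))) =
        (c * g / Complex.I) * -((Real.sqrt y : ℝ) * ∑' n : ℕ, (a n * χ n) *
          ((n * y : ℝ) : ℂ) ^ 0 * besselPhi ν (n * y))))
    exact h3

/-- Every primitive quadratic twist of an odd Hecke–Maass form of level one has an entire
`L`-function which vanishes at the centre. -/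
theorem exists_twisted_LFunction (F : HeckeMaassForm) (hF : F.parity = -1)
    {q : ℕ} [NeZero q] (χ : DirichletCharacter ℂ q) (hprim : χ.IsPrimitive) (hχ : χ ^ 2 = 1) :
    ∃ L : ℂ → ℂ, F.IsTwistedLFunction χ L ∧ L (1 / 2) = 0 := by
  obtain ⟨a, c, ν, hc, ha1, hrec, hb, hexp⟩ := fourier_expansion F hF
  obtain ⟨δ, hδ⟩ := odd_form_functional_equation F hF hc hb hexp χ hprim hχ
  have hqR : (0 : ℝ) < q := by exact_mod_cast Nat.pos_of_ne_zero (NeZero.ne q)
  have hb' : ∃ C : ℝ, ∀ n : ℕ, ‖a n * χ n‖ ≤ C * Real.sqrt n := by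
    obtain ⟨C, hC⟩ := hb
    refine ⟨C, fun n => ?_⟩
    rw [norm_mul]
    exact (mul_le_of_le_one_right (norm_nonneg _) (χ.norm_le_one _)).trans (hC n)
  obtain ⟨L, hL1, hL2, hL3⟩ := entire_of_functional_equation (b := fun n => a n * χ n) hb' ν δ q
    hqR hδ
  refine ⟨L, ⟨hL1, fun s hs => ?_⟩, hL2⟩
  rw [hL3 s hs]
  exact (twisted_euler_product ha1 hrec hb χ s hs).2

end

end Pool.Agent.Lib.Maass
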