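import Mathlib

/-!
# The quadratic character attached to a fundamental discriminant (chunk Q, part 1)
-/

open scoped NumberTheorySymbols

namespace Pool.Agent.Lib.Maass

section mk

variable (N : ℕ) [NeZero N] (F : ℤ → ℤ)

lemma coe_val_modEq (a : ℤ) : (((a : ZMod N).val : ℕ) : ℤ) ≡ a [ZMOD N] := by
  rw [← ZMod.intCast_eq_intCast_iff]
  simp

/-- A Dirichlet character from a periodic completely multiplicative function on the integers. -/
noncomputable def mkChar (h1 : F 1 = 1) (hmul : ∀ a b, F (a * b) = F a * F b)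
    (hper : ∀ a b : ℤ, a ≡ b [ZMOD N] → F a = F b) (h0 : ∀ a : ℤ, ¬ IsCoprime a N → F a = 0) :
    DirichletCharacter ℂ N where
  toFun a := ((F ((a.val : ℕ) : ℤ) : ℤ) : ℂ)
  map_one' := by
    have : F (((1 : ZMod N).val : ℕ) : ℤ) = F 1 := by
      apply hper
      rw [← ZMod.intCast_eq_intCast_iff]
      simp
    rw [this, h1]; simp
  map_mul' a b := by
    have : F (((a * b).val : ℕ) : ℤ) = F (((a.val : ℕ) : ℤ) * ((b.val : ℕ) : ℤ)) := by
      apply hper
      rw [← ZMod.intCast_eq_intCast_iff]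
      simp
    rw [this, hmul]; push_cast; ring
  map_nonunit' a ha := by
    have : ¬ IsCoprime ((a.val : ℕ) : ℤ) (N : ℤ) := by
      intro h
      apply ha
      have h2 : IsUnit (((a.val : ℕ) : ZMod N)) := by
        rw [ZMod.isUnit_iff_coprime]
        exact Nat.isCoprime_iff_coprime.mp h
      simpa using h2
    show ((F ((a.val : ℕ) : ℤ) : ℤ) : ℂ) = 0
    rw [h0 _ this]; simp

variable {N F}

lemma mkChar_apply (h1 : F 1 = 1) (hmul : ∀ a b, F (a * b) = F a * F b)
    (hper : ∀ a b : ℤ, a ≡ b [ZMOD N] → F a = F b) (h0 : ∀ a : ℤ, ¬ IsCoprime a N → F a = 0)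
    (a : ℤ) : mkChar N F h1 hmul hper h0 (a : ZMod N) = ((F a : ℤ) : ℂ) := by
  show ((F (((a : ZMod N).val : ℕ) : ℤ) : ℤ) : ℂ) = _
  rw [hper _ _ (coe_val_modEq N a)]

/-- A criterion for primitivity. -/
lemma isPrimitive_of {N : ℕ} [NeZero N] (χ : DirichletCharacter ℂ N)
    (h : ∀ q : ℕ, q.Prime → q ∣ N → ∃ a : ℤ, IsCoprime a N ∧ a ≡ 1 [ZMOD ((N / q : ℕ) : ℤ)] ∧
      χ (a : ZMod N) ≠ 1) : χ.IsPrimitive := by
  rw [DirichletCharacter.isPrimitive_def]
  by_contra hne
  have hdvd := χ.conductor_dvd_level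
  obtain ⟨k, hk⟩ := hdvd
  have hk1 : k ≠ 1 := by
    rintro rfl
    rw [mul_one] at hk
    exact hne hk.symm
  obtain ⟨q, hq, hqk⟩ := Nat.exists_prime_and_dvd hk1
  have hqN : q ∣ N := hk ▸ Dvd.dvd.mul_left hqk _
  obtain ⟨a, ha, ha1, hχ⟩ := h q hq hqN
  have hcd : χ.conductor ∣ N / q := by
    obtain ⟨l, hl⟩ := hqk
    refine ⟨l, ?_⟩
    apply Nat.div_eq_of_eq_mul_left hq.pos
    calc N = χ.conductor * k := hk
      _ = χ.conductor * (q * l) := by rw [← hl]
      _ = _ := by ring
  have hft := χ.factorsThrough_conductor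
  apply hχ
  have h1 := hft.eq_changeLevel
  have h2 := DirichletCharacter.changeLevel_eq_cast_of_dvd' hft.χ₀ hft.dvd ha
  rw [← h1] at h2
  rw [h2]
  have h3 : (a : ZMod χ.conductor) = 1 := by
    have h4 : a ≡ 1 [ZMOD (χ.conductor : ℤ)] := ha1.of_dvd (by exact_mod_cast hcd)
    have h5 := (ZMod.intCast_eq_intCast_iff a 1 χ.conductor).mpr h4
    simpa using h5
  rw [h3, map_one]

end mk

lemma int_crt {m n : ℤ} (h : IsCoprime m n) (a b : ℤ) :
    ∃ x, x ≡ a [ZMOD m] ∧ x ≡ b [ZMOD n] := by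
  obtain ⟨u, v, huv⟩ := h
  refine ⟨a * (v * n) + b * (u * m), ?_, ?_⟩
  · rw [Int.modEq_iff_dvd]
    exact ⟨u * (a - b), by linear_combination (-a) * huv⟩
  · rw [Int.modEq_iff_dvd]
    exact ⟨v * (b - a), by linear_combination (-b) * huv⟩

lemma isCoprime_of_modEq {a b n : ℤ} (h : a ≡ b [ZMOD n]) (hb : IsCoprime b n) :
    IsCoprime a n := by
  obtain ⟨k, hk⟩ := (Int.modEq_iff_dvd.mp h)
  have : a = b + n * (-k) := by linarith
  rw [this]
  exact IsCoprime.add_mul_left_left hb _

/-- Existence of primitive quadratic characters modulo `c m`, `m` odd squarefree. -/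
theorem exists_primitive_char (c m : ℕ) (hc : c ≠ 0) (hm : Squarefree m) (hmo : Odd m)
    (hcop : c.Coprime m) (ψ : MulChar (ZMod c) ℤ) (hψ : ∀ a, ψ a = 0 ∨ ψ a = 1 ∨ ψ a = -1)
    (h2 : ∀ q : ℕ, q.Prime → q ∣ c → ∃ a : ℤ, IsCoprime a c ∧ a ≡ 1 [ZMOD ((c / q : ℕ) : ℤ)] ∧
      ψ (a : ZMod c) = -1) :
    ∃ χ : DirichletCharacter ℂ (c * m), χ.IsPrimitive ∧ χ ^ 2 = 1 ∧
      ∀ a : ℤ, χ (a : ZMod (c * m)) = ((ψ (a : ZMod c) * J(a | m) : ℤ) : ℂ) := by
  have hm0 : m ≠ 0 := hm.ne_zero
  have : NeZero m := ⟨hm0⟩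
  have : NeZero c := ⟨hc⟩
  have hcm : c * m ≠ 0 := mul_ne_zero hc hm0
  have : NeZero (c * m) := ⟨hcm⟩
  let F : ℤ → ℤ := fun a => ψ (a : ZMod c) * J(a | m)
  have h1 : F 1 = 1 := by simp [F, jacobiSym.one_left]
  have hmul : ∀ a b, F (a * b) = F a * F b := by
    intro a b
    simp only [F]
    rw [jacobiSym.mul_left]
    push_cast
    rw [map_mul]
    ring
  have hper : ∀ a b : ℤ, a ≡ b [ZMOD ((c * m : ℕ) : ℤ)] → F a = F b := by
    intro a b hab
    simp only [F]
    have e1 : a ≡ b [ZMOD (c : ℤ)] := hab.of_dvd (by push_cast; exact Dvd.intro _ rfl)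
    have e2 : a ≡ b [ZMOD (m : ℤ)] := hab.of_dvd (by push_cast; exact Dvd.intro_left _ rfl)
    rw [(ZMod.intCast_eq_intCast_iff a b c).mpr e1, jacobiSym.mod_left' e2]
  have h0 : ∀ a : ℤ, ¬ IsCoprime a ((c * m : ℕ) : ℤ) → F a = 0 := by
    intro a ha
    simp only [F]
    by_cases hac : IsCoprime a (c : ℤ)
    · have ham : ¬ IsCoprime a (m : ℤ) := by
        intro h
        apply ha
        push_cast
        exact IsCoprime.mul_right hac h
      have : J(a | m) = 0 := by
        rw [jacobiSym.eq_zero_iff_not_coprime]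
        intro h
        exact ham (Int.isCoprime_iff_gcd_eq_one.mpr h)
      rw [this, mul_zero]
    · have : ψ (a : ZMod c) = 0 := by
        apply MulChar.map_nonunit
        intro h
        apply hac
        rwa [ZMod.coe_int_isUnit_iff_isCoprime, isCoprime_comm] at h
      rw [this, zero_mul]
  have hJ : ∀ a : ℤ, F a = 0 ∨ F a = 1 ∨ F a = -1 := by
    intro a
    simp only [F]
    rcases hψ (a : ZMod c) with h | h | h <;> rcases jacobiSym.trichotomy a m with h' | h' | h' <;>
      simp [h, h']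
  let χ := mkChar (c * m) F h1 hmul hper h0
  have hχ : ∀ a : ℤ, χ (a : ZMod (c * m)) = ((F a : ℤ) : ℂ) := mkChar_apply h1 hmul hper h0
  refine ⟨χ, ?_, ?_, hχ⟩
  · apply isPrimitive_of
    intro q hq hqN
    have hcopI : IsCoprime (c : ℤ) (m : ℤ) := Nat.isCoprime_iff_coprime.mpr hcop
    rcases (hq.dvd_mul).mp hqN with hqc | hqm
    · -- the part at `c`
      obtain ⟨a0, ha0, ha1, ha2⟩ := h2 q hq hqc
      obtain ⟨a, hac, ham⟩ := int_crt hcopI a0 1
      have hcopa : IsCoprime a (c : ℤ) := isCoprime_of_modEq hac ha0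
      have hcopm : IsCoprime a (m : ℤ) := isCoprime_of_modEq ham isCoprime_one_left
      refine ⟨a, ?_, ?_, ?_⟩
      · push_cast
        exact IsCoprime.mul_right hcopa hcopm
      · have e1 : c * m / q = c / q * m := by
          obtain ⟨l, hl⟩ := hqc
          rw [hl, mul_assoc, Nat.mul_div_cancel_left _ hq.pos, Nat.mul_div_cancel_left _ hq.pos]
        have hdc : c / q ∣ c := Nat.div_dvd_of_dvd hqc
        rw [e1, Nat.cast_mul, ← Int.modEq_and_modEq_iff_modEq_mul]
        · exact ⟨(hac.of_dvd (by exact_mod_cast hdc)).trans ha1, ham⟩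
        · rw [Int.natAbs_natCast, Int.natAbs_natCast]
          exact Nat.Coprime.coprime_dvd_left hdc hcop
      · rw [hχ]
        have : F a = -1 := by
          simp only [F]
          rw [(ZMod.intCast_eq_intCast_iff a a0 c).mpr hac, ha2, jacobiSym.mod_left' ham,
            jacobiSym.one_left, mul_one]
        rw [this]
        norm_num
    · -- the part at `m`
      obtain ⟨m', hm'⟩ := hqm
      have hqodd : q ≠ 2 := by
        rintro rfl
        rw [hm'] at hmo
        exact absurd hmo (by rw [Nat.not_odd_iff_even]; exact even_two_mul m')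
      have hqm' : q.Coprime m' := by
        rw [hq.coprime_iff_not_dvd]
        rintro ⟨l, hl⟩
        have : q * q ∣ m := ⟨l, by rw [hm', hl]; ring⟩
        exact hq.one_lt.ne' (Nat.isUnit_iff.mp (hm q this))
      have hm'm : m' ∣ m := ⟨q, by rw [hm']; ring⟩
      have hqc : q.Coprime c := Nat.Coprime.coprime_dvd_left ⟨m', hm'⟩ hcop.symm
      have : Fact q.Prime := ⟨hq⟩
      obtain ⟨b, hb⟩ : ∃ b : ℤ, J(b | q) = -1 := by
        obtain ⟨x, hx⟩ := FiniteField.exists_nonsquare (F := ZMod q) (by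
          rw [ZMod.ringChar_zmod_n]; exact hqodd)
        refine ⟨x.val, ?_⟩
        rw [← jacobiSym.legendreSym.to_jacobiSym, legendreSym.eq_neg_one_iff]
        simpa using hx
      have hqcm : IsCoprime (q : ℤ) ((c * m' : ℕ) : ℤ) := by
        rw [Nat.isCoprime_iff_coprime]
        exact Nat.Coprime.mul_right hqc hqm'
      obtain ⟨a, haq, ham⟩ := int_crt hqcm b 1
      have hbq : IsCoprime b (q : ℤ) := by
        rw [Int.isCoprime_iff_gcd_eq_one]
        by_contra hne
        rw [jacobiSym.eq_zero_iff_not_coprime.mpr hne] at hb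
        norm_num at hb
      have hcopq : IsCoprime a (q : ℤ) := isCoprime_of_modEq haq hbq
      have hcopm : IsCoprime a ((c * m' : ℕ) : ℤ) := isCoprime_of_modEq ham isCoprime_one_left
      refine ⟨a, ?_, ?_, ?_⟩
      · have : ((c * m : ℕ) : ℤ) = (q : ℤ) * ((c * m' : ℕ) : ℤ) := by rw [hm']; push_cast; ring
        rw [this]
        exact IsCoprime.mul_right hcopq hcopm
      · have e1 : c * m / q = c * m' := by
          rw [hm', ← mul_assoc, mul_comm c q, mul_assoc, Nat.mul_div_cancel_left _ hq.pos]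
        rw [e1]
        exact ham
      · rw [hχ]
        have hm'0 : m' ≠ 0 := by
          rintro rfl
          rw [mul_zero] at hm'
          exact hm0 hm'
        have : F a = -1 := by
          simp only [F]
          have e1 : a ≡ 1 [ZMOD (c : ℤ)] := ham.of_dvd (by push_cast; exact Dvd.intro _ rfl)
          have e2 : a ≡ 1 [ZMOD (m' : ℤ)] := ham.of_dvd (by push_cast; exact Dvd.intro_left _ rfl)
          rw [(ZMod.intCast_eq_intCast_iff a 1 c).mpr e1, hm',
            jacobiSym.mul_right' a hq.ne_zero hm'0, jacobiSym.mod_left' haq, hb,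
            jacobiSym.mod_left' e2, jacobiSym.one_left]
          simp
        rw [this]
        norm_num
  · ext a
    rw [MulChar.pow_apply_coe]
    have e1 : (a : ZMod (c * m)) = (((a : ZMod (c * m)).val : ℤ) : ZMod (c * m)) := by simp
    have e2 : χ (a : ZMod (c * m)) ≠ 0 := (MulChar.apply_ne_zero_iff).mpr a.isUnit
    rw [e1, hχ] at e2 ⊢
    rw [← e1, MulChar.one_apply_coe]
    rcases hJ ((a : ZMod (c * m)).val : ℤ) with h | h | h
    · rw [h] at e2
      simp at e2
    · rw [h]; norm_num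
    · rw [h]; norm_num

/-- The Kronecker symbol `(D / p)` at a prime `p`, for a discriminant `D`. -/
def kron (D : ℤ) (p : ℕ) : ℤ :=
  if (p : ℤ) ∣ D then 0 else if p = 2 then (if D % 8 = 1 then 1 else -1) else J(D | p)

/-- Fundamental discriminants (different from `1`). -/
def IsFund (D : ℤ) : Prop :=
  (D % 4 = 0 ∨ D % 4 = 1) ∧ D ≠ 1 ∧
    ∀ m D' : ℤ, D = m ^ 2 * D' → (D' % 4 = 0 ∨ D' % 4 = 1) → m = 1 ∨ m = -1

lemma recip {d : ℤ} (hd : d % 4 = 1) {b : ℕ} (hb : Odd b) : J(d | b) = J(b | d.natAbs) := by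
  rcases Int.natAbs_eq d with h | h
  · have h1 : d.natAbs % 4 = 1 := by omega
    conv_lhs => rw [h]
    exact jacobiSym.quadratic_reciprocity_one_mod_four h1 hb
  · have h1 : d.natAbs % 4 = 3 := by omega
    conv_lhs => rw [h]
    rw [jacobiSym.neg _ hb]
    have hb' : b % 4 = 1 ∨ b % 4 = 3 := by
      obtain ⟨k, hk⟩ := hb
      omega
    rcases hb' with h2 | h2
    · rw [ZMod.χ₄_nat_one_mod_four h2, one_mul]
      exact jacobiSym.quadratic_reciprocity_one_mod_four' (Nat.odd_iff.mpr (by omega)) h2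
    · rw [ZMod.χ₄_nat_three_mod_four h2, jacobiSym.quadratic_reciprocity_three_mod_four h1 h2]
      ring

lemma not_sq_dvd {D : ℤ} (h : IsFund D) {q : ℕ} (hq : q.Prime) (hq2 : q ≠ 2) :
    ¬ ((q : ℤ) * q ∣ D) := by
  rintro ⟨D', hD'⟩
  have hodd : (q : ℤ) % 2 = 1 := by
    have := hq.eq_two_or_odd
    omega
  have h1 : (q : ℤ) * q % 4 = 1 := by
    have : (q : ℤ) % 4 = 1 ∨ (q : ℤ) % 4 = 3 := by omega
    rcases this with h | h <;> rw [Int.mul_emod, h] <;> rfl
  have h2 : D % 4 = D' % 4 := by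
    rw [hD', Int.mul_emod, h1, one_mul]
    omega
  have h3 := h.2.2 q D' (by rw [hD']; ring) (by rw [← h2]; exact h.1)
  have := hq.two_le
  omega

lemma squarefree_of {D : ℤ} (h : IsFund D) {m : ℕ} (hm : (m : ℤ) ∣ D) (hmo : Odd m) :
    Squarefree m := by
  rw [Nat.squarefree_iff_prime_squarefree]
  intro q hq hqm
  refine not_sq_dvd h hq ?_ (dvd_trans (by exact_mod_cast hqm) hm)
  rintro rfl
  rw [Nat.odd_iff] at hmo
  omega

lemma isFund_ne_zero {D : ℤ} (h : IsFund D) : D ≠ 0 := by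
  rintro rfl
  have := h.2.2 2 0 (by norm_num) (by norm_num)
  omega

lemma kron_of_dvd {D : ℤ} {p : ℕ} (h : (p : ℤ) ∣ D) : kron D p = 0 := if_pos h

/-- The quadratic character attached to a fundamental discriminant. -/
theorem exists_char_of_isFund {D : ℤ} (h : IsFund D) :
    ∃ χ : DirichletCharacter ℂ D.natAbs, χ.IsPrimitive ∧ χ ≠ 1 ∧ χ ^ 2 = 1 ∧
      ∀ p : ℕ, p.Prime → χ (p : ZMod D.natAbs) = ((kron D p : ℤ) : ℂ) := by
  have hD0 := isFund_ne_zero h
  have hN0 : D.natAbs ≠ 0 := Int.natAbs_ne_zero.mpr hD0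
  have : NeZero D.natAbs := ⟨hN0⟩
  -- it suffices to treat the function
  suffices key : ∃ (c m : ℕ) (ψ : MulChar (ZMod c) ℤ), D.natAbs = c * m ∧ c ≠ 0 ∧ Odd m ∧
      c.Coprime m ∧ (∀ a, ψ a = 0 ∨ ψ a = 1 ∨ ψ a = -1) ∧
      (∀ q : ℕ, q.Prime → q ∣ c → ∃ a : ℤ, IsCoprime a c ∧ a ≡ 1 [ZMOD ((c / q : ℕ) : ℤ)] ∧
        ψ (a : ZMod c) = -1) ∧
      (∀ p : ℕ, p.Prime → ¬ (p : ℤ) ∣ D → ψ ((p : ℤ) : ZMod c) * J(p | m) = kron D p) by
    obtain ⟨c, m, ψ, hN, hc, hmo, hcop, hψ, h2, hp⟩ := key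
    have hsq : Squarefree m := by
      apply squarefree_of h _ hmo
      have : (m : ℤ) ∣ (D.natAbs : ℤ) := by
        rw [hN]; push_cast; exact Dvd.intro_left _ rfl
      exact Int.dvd_natAbs.mp this
    have hgen : ∀ N : ℕ, N = c * m → ∃ χ : DirichletCharacter ℂ N, χ.IsPrimitive ∧ χ ^ 2 = 1 ∧
        ∀ a : ℤ, χ (a : ZMod N) = ((ψ (a : ZMod c) * J(a | m) : ℤ) : ℂ) := by
      intro N hN
      subst hN
      exact exists_primitive_char c m hc hsq hmo hcop ψ hψ h2
    obtain ⟨χ, hχ1, hχ2, hχ3⟩ := hgen _ hN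
    refine ⟨χ, hχ1, ?_, hχ2, ?_⟩
    · intro h1
      rw [DirichletCharacter.isPrimitive_def, h1, DirichletCharacter.conductor_one] at hχ1
      have h3 := h.1
      have h4 := h.2.1
      omega
    · intro p hpp
      by_cases hpD : (p : ℤ) ∣ D
      · rw [kron_of_dvd hpD]
        have : ¬ IsUnit (p : ZMod D.natAbs) := by
          rw [ZMod.isUnit_iff_coprime, hpp.coprime_iff_not_dvd]
          intro hcon
          exact hcon (Int.natCast_dvd.mp hpD)
        rw [MulChar.map_nonunit _ this]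
        simp
      · rw [← hp p hpp hpD, ← hχ3]
        simp
  -- the construction
  have hpodd : ∀ p : ℕ, p.Prime → p ≠ 2 → Odd p := fun p hp h => hp.odd_of_ne_two h
  rcases h.1 with h0 | h1
  · obtain ⟨d, hd⟩ : ∃ d, D = 4 * d := ⟨D / 4, by omega⟩
    have hd4 : d % 4 = 2 ∨ d % 4 = 3 := by
      by_contra hcon
      have := h.2.2 2 d (by rw [hd]; ring) (by omega)
      omega
    rcases hd4 with hd4 | hd4
    · obtain ⟨e, he⟩ : ∃ e, d = 2 * e := ⟨d / 2, by omega⟩
      have heo : e % 4 = 1 ∨ e % 4 = 3 := by omega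
      have hcop : (8 : ℕ).Coprime e.natAbs := by
        have : Odd e.natAbs := Nat.odd_iff.mpr (by omega)
        have h8 : (8 : ℕ) = 2 ^ 3 := by norm_num
        rw [h8]
        exact Nat.Coprime.pow_left _ (Nat.coprime_two_left.mpr this)
      have hq2 : ∀ q : ℕ, q.Prime → q ∣ 8 → q = 2 := by
        intro q hq hq8
        have h8 : (8 : ℕ) = 2 ^ 3 := by norm_num
        rw [h8] at hq8
        exact (Nat.prime_dvd_prime_iff_eq hq Nat.prime_two).mp (hq.dvd_of_dvd_pow hq8)
      rcases heo with heo | heo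
      · refine ⟨8, e.natAbs, ZMod.χ₈, by omega, by norm_num, Nat.odd_iff.mpr (by omega), hcop,
          by decide, ?_, ?_⟩
        · intro q hq hq8
          obtain rfl := hq2 q hq hq8
          refine ⟨5, by norm_num, by decide, by decide⟩
        · intro p hp hpD
          have hp2 : p ≠ 2 := by
            rintro rfl
            exact hpD ⟨2 * d, by rw [hd]; ring⟩
          have hpo := hpodd p hp hp2
          rw [kron, if_neg hpD, if_neg hp2, ← recip heo hpo]
          have e1 : D = 4 * (2 * e) := by rw [hd, he]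
          rw [e1, jacobiSym.mul_left, jacobiSym.at_four hpo, one_mul, jacobiSym.mul_left,
            jacobiSym.at_two hpo]
          simp
      · refine ⟨8, e.natAbs, ZMod.χ₈', by omega, by norm_num, Nat.odd_iff.mpr (by omega), hcop,
          by decide, ?_, ?_⟩
        · intro q hq hq8
          obtain rfl := hq2 q hq hq8
          refine ⟨5, by norm_num, by decide, by decide⟩
        · intro p hp hpD
          have hp2 : p ≠ 2 := by
            rintro rfl
            exact hpD ⟨2 * d, by rw [hd]; ring⟩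
          have hpo := hpodd p hp hp2
          rw [kron, if_neg hpD, if_neg hp2, ← Int.natAbs_neg e, ← recip (by omega) hpo]
          have e1 : D = 4 * ((-2) * (-e)) := by rw [hd, he]; ring
          rw [e1, jacobiSym.mul_left, jacobiSym.at_four hpo, one_mul, jacobiSym.mul_left,
            jacobiSym.at_neg_two hpo]
          simp
    · have hcop : (4 : ℕ).Coprime d.natAbs := by
        have : Odd d.natAbs := Nat.odd_iff.mpr (by omega)
        have h8 : (4 : ℕ) = 2 ^ 2 := by norm_num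
        rw [h8]
        exact Nat.Coprime.pow_left _ (Nat.coprime_two_left.mpr this)
      have hq2 : ∀ q : ℕ, q.Prime → q ∣ 4 → q = 2 := by
        intro q hq hq8
        have h8 : (4 : ℕ) = 2 ^ 2 := by norm_num
        rw [h8] at hq8
        exact (Nat.prime_dvd_prime_iff_eq hq Nat.prime_two).mp (hq.dvd_of_dvd_pow hq8)
      refine ⟨4, d.natAbs, ZMod.χ₄, by omega, by norm_num, Nat.odd_iff.mpr (by omega), hcop,
          by decide, ?_, ?_⟩
      · intro q hq hq8
        obtain rfl := hq2 q hq hq8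
        refine ⟨3, by norm_num, by decide, by decide⟩
      · intro p hp hpD
        have hp2 : p ≠ 2 := by
          rintro rfl
          exact hpD ⟨2 * d, by rw [hd]; ring⟩
        have hpo := hpodd p hp hp2
        rw [kron, if_neg hpD, if_neg hp2, ← Int.natAbs_neg d, ← recip (by omega) hpo]
        have e1 : D = 4 * ((-1) * (-d)) := by rw [hd]; ring
        rw [e1, jacobiSym.mul_left, jacobiSym.at_four hpo, one_mul, jacobiSym.mul_left,
          jacobiSym.at_neg_one hpo]
        simp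
  · refine ⟨1, D.natAbs, 1, by omega, by norm_num, Nat.odd_iff.mpr (by omega),
      Nat.coprime_one_left _, ?_, ?_, ?_⟩
    · intro a
      right; left
      rw [Subsingleton.elim a 1, map_one]
    · intro q hq hq1
      exact absurd (Nat.dvd_one.mp hq1) hq.ne_one
    · intro p hp hpD
      rw [Subsingleton.elim (((p : ℤ) : ZMod 1)) 1, map_one, one_mul]
      by_cases hp2 : p = 2
      · subst hp2
        have ho : Odd D.natAbs := Nat.odd_iff.mpr (by omega)
        rw [kron, if_neg hpD, if_pos rfl]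
        rw [Nat.cast_ofNat, jacobiSym.at_two ho, ZMod.χ₈_nat_eq_if_mod_eight]
        split_ifs <;> omega
      · rw [kron, if_neg hpD, if_neg hp2, recip h1 (hpodd p hp hp2)]

end Pool.Agent.Lib.Maass
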