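import Mathlib

/-!
# Unfolding over the standard fundamental domain of `SL(2, ℤ)` (chunk D)
-/

open UpperHalfPlane Complex MeasureTheory ModularGroup Set
open scoped MatrixGroups Modular ENNReal

namespace Pool.Agent.Lib.Maass

lemma measurableSet_fd : MeasurableSet (𝒟 : Set ℍ) := isClosed_fd.measurableSet

/-- `𝒟` is stable under the reflection `J : z ↦ -conj z`. -/
lemma J_smul_mem_fd_iff (z : ℍ) : J • z ∈ 𝒟 ↔ z ∈ 𝒟 := by
  have h1 : ((J • z : ℍ) : ℂ) = -(starRingEnd ℂ) (z : ℂ) := coe_J_smul z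
  have h2 : (J • z).re = -z.re := by
    have := congrArg Complex.re h1
    simpa using this
  have h3 : normSq ((J • z : ℍ) : ℂ) = normSq (z : ℂ) := by
    rw [h1]; simp
  show (1 ≤ normSq ((J • z : ℍ) : ℂ) ∧ |(J • z).re| ≤ (1 : ℝ) / 2) ↔
    (1 ≤ normSq (z : ℂ) ∧ |z.re| ≤ (1 : ℝ) / 2)
  rw [h2, h3, abs_neg]

lemma half_lt_im_of_mem_fd {z : ℍ} (hz : z ∈ 𝒟) : 1 / 2 < z.im := by
  have h := three_le_four_mul_im_sq_of_mem_fd hz
  have h2 := z.im_pos
  nlinarith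

lemma volume_fd_lt_top : (volume : Measure ℍ) 𝒟 < ⊤ := by
  rw [volume_eq_lintegral]
  have hsub : ((↑) '' 𝒟 : Set ℂ) ⊆
      measurableEquivRealProd ⁻¹' (Icc (-(1 / 2) : ℝ) (1 / 2) ×ˢ Ioi (1 / 2 : ℝ)) := by
    rintro _ ⟨z, hz, rfl⟩
    refine ⟨?_, half_lt_im_of_mem_fd hz⟩
    exact abs_le.mp hz.2
  have hm : Measurable fun p : ℝ × ℝ => (((1 / ‖p.2‖₊) ^ 2 : NNReal) : ℝ≥0∞) := by
    fun_prop
  calc ∫⁻ z : ℂ in ((↑) '' 𝒟 : Set ℂ), ↑((1 / ‖z.im‖₊) ^ 2 : NNReal)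
      ≤ ∫⁻ z : ℂ in measurableEquivRealProd ⁻¹' (Icc (-(1 / 2) : ℝ) (1 / 2) ×ˢ Ioi (1 / 2 : ℝ)),
          ↑((1 / ‖z.im‖₊) ^ 2 : NNReal) := lintegral_mono_set hsub
    _ = ∫⁻ p : ℝ × ℝ in Icc (-(1 / 2) : ℝ) (1 / 2) ×ˢ Ioi (1 / 2 : ℝ),
          ↑((1 / ‖p.2‖₊) ^ 2 : NNReal) := by
        have := volume_preserving_equiv_real_prod.setLIntegral_comp_preimage_emb
          measurableEquivRealProd.measurableEmbedding
          (fun p : ℝ × ℝ => (((1 / ‖p.2‖₊) ^ 2 : NNReal) : ℝ≥0∞))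
          (Icc (-(1 / 2) : ℝ) (1 / 2) ×ˢ Ioi (1 / 2 : ℝ))
        exact this
    _ = ∫⁻ x in Icc (-(1 / 2) : ℝ) (1 / 2), ∫⁻ y in Ioi (1 / 2 : ℝ),
          ↑((1 / ‖y‖₊) ^ 2 : NNReal) := by
        rw [Measure.volume_eq_prod, ← Measure.prod_restrict, lintegral_prod _ hm.aemeasurable]
    _ < ⊤ := by
        rw [setLIntegral_const]
        refine ENNReal.mul_lt_top ?_ (by simp)
        have h1 : IntegrableOn (fun y : ℝ => y ^ (-2 : ℝ)) (Ioi (1 / 2)) :=
          integrableOn_Ioi_rpow_of_lt (by norm_num) (by norm_num)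
        have h2 := h1.2
        refine lt_of_le_of_lt (le_of_eq ?_) h2
        refine setLIntegral_congr_fun measurableSet_Ioi ?_
        intro y hy
        have hy0 : (0 : ℝ) < y := lt_trans (by norm_num) hy
        show (((1 / ‖y‖₊) ^ 2 : NNReal) : ℝ≥0∞) = (‖y ^ (-2 : ℝ)‖₊ : ℝ≥0∞)
        congr 1
        rw [Real.rpow_neg hy0.le, nnnorm_inv, one_div, inv_pow]
        congr 1
        rw [← nnnorm_pow]
        congr 1
        norm_cast

/-- Sets whose image in `ℂ` is Lebesgue null are null. -/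
lemma volume_eq_zero_of_coe {s : Set ℍ} (hs : volume ((↑) '' s : Set ℂ) = 0) :
    (volume : Measure ℍ) s = 0 := by
  rw [volume_eq_lintegral]
  exact setLIntegral_measure_zero _ _ hs

lemma volume_re_eq (c : ℝ) : (volume : Measure ℂ) {z | z.re = c} = 0 := by
  have h : {z : ℂ | z.re = c} = measurableEquivRealProd ⁻¹' ({c} ×ˢ (univ : Set ℝ)) := by
    ext z
    simp
  rw [h, volume_preserving_equiv_real_prod.measure_preimage
    ((measurableSet_singleton c).prod MeasurableSet.univ).nullMeasurableSet,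
    Measure.volume_eq_prod, Measure.prod_prod]
  simp

lemma volume_fd_diff_fdo : (volume : Measure ℍ) (𝒟 \ 𝒟ᵒ) = 0 := by
  apply volume_eq_zero_of_coe
  have hsub : ((↑) '' (𝒟 \ 𝒟ᵒ) : Set ℂ) ⊆
      Metric.sphere (0 : ℂ) 1 ∪ ({z | z.re = 1 / 2} ∪ {z | z.re = -(1 / 2)}) := by
    rintro _ ⟨z, ⟨hz1, hz2⟩, rfl⟩
    have h1 : 1 ≤ normSq (z : ℂ) := hz1.1
    have h2 : |z.re| ≤ (1 : ℝ) / 2 := hz1.2
    by_cases h3 : 1 < normSq (z : ℂ)
    · right
      have h4 : ¬ |z.re| < (1 : ℝ) / 2 := fun h => hz2 ⟨h3, h⟩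
      have h5 : |z.re| = (1 : ℝ) / 2 := le_antisymm h2 (not_lt.mp h4)
      rcases eq_or_eq_neg_of_abs_eq h5 with h | h
      · left; exact h
      · right; exact h
    · left
      have h4 : normSq (z : ℂ) = 1 := le_antisymm (not_lt.mp h3) h1
      rw [mem_sphere_zero_iff_norm]
      rw [Complex.normSq_eq_norm_sq] at h4
      nlinarith [norm_nonneg (z : ℂ)]
  refine measure_mono_null hsub ?_
  rw [measure_union_null_iff, measure_union_null_iff]
  refine ⟨Measure.addHaar_sphere _ _ _, volume_re_eq _, volume_re_eq _⟩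

lemma measurePreserving_SL_smul (γ : SL(2, ℤ)) :
    MeasurePreserving (fun z : ℍ => γ • z) volume volume :=
  measurePreserving_smul (Matrix.SpecialLinearGroup.mapGL ℝ γ) (volume : Measure ℍ)

/-- The homeomorphism given by the action of `γ`. -/
lemma measurableEmbedding_SL_smul (γ : SL(2, ℤ)) :
    MeasurableEmbedding (fun z : ℍ => γ • z) :=
  (Homeomorph.smul (Matrix.SpecialLinearGroup.mapGL ℝ γ) : ℍ ≃ₜ ℍ).measurableEmbedding

/-- The translate `γ 𝒟`, described as the set of `z` with `γ⁻¹ z ∈ 𝒟`. -/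
def fdT (γ : SL(2, ℤ)) : Set ℍ := {z | γ⁻¹ • z ∈ 𝒟}

lemma measurableSet_fdT (γ : SL(2, ℤ)) : MeasurableSet (fdT γ) :=
  (measurePreserving_SL_smul γ⁻¹).measurable measurableSet_fd

lemma preimage_fdT (γ : SL(2, ℤ)) : (fun z : ℍ => γ • z) ⁻¹' (fdT γ) = 𝒟 := by
  ext z
  simp [fdT]

lemma setLIntegral_fd_eq (γ : SL(2, ℤ)) (f : ℍ → ℝ≥0∞) :
    ∫⁻ w in 𝒟, f (γ • w) = ∫⁻ z in fdT γ, f z := by
  have := (measurePreserving_SL_smul γ).setLIntegral_comp_preimage_emb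
    (measurableEmbedding_SL_smul γ) f (fdT γ)
  rw [preimage_fdT] at this
  exact this

lemma setIntegral_fd_eq {E : Type*} [NormedAddCommGroup E] [NormedSpace ℝ E]
    (γ : SL(2, ℤ)) (f : ℍ → E) :
    ∫ w in 𝒟, f (γ • w) = ∫ z in fdT γ, f z := by
  have := (measurePreserving_SL_smul γ).setIntegral_preimage_emb
    (measurableEmbedding_SL_smul γ) f (fdT γ)
  rw [preimage_fdT] at this
  exact this

instance countable_SL2Z : Countable SL(2, ℤ) := by
  have : Countable (Matrix (Fin 2) (Fin 2) ℤ) := inferInstanceAs (Countable (Fin 2 → Fin 2 → ℤ))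
  exact Subtype.countable

/-- Almost every point lies in exactly two translates of `𝒟`, namely by `γ` and `-γ`. -/
lemma ae_exists_fdT : ∀ᵐ z : ℍ, ∃ g : SL(2, ℤ), ∀ γ : SL(2, ℤ), z ∈ fdT γ ↔ γ = g ∨ γ = -g := by
  have h1 : ∀ g : SL(2, ℤ), ∀ᵐ z : ℍ, g • z ∉ 𝒟 \ 𝒟ᵒ := by
    intro g
    have := (measurePreserving_SL_smul g).measure_preimage
      (measurableSet_fd.diff isOpen_fdo.measurableSet).nullMeasurableSet
    rw [volume_fd_diff_fdo] at this
    exact measure_eq_zero_iff_ae_notMem.mp this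
  have h2 := ae_all_iff.mpr h1
  filter_upwards [h2] with z hz
  obtain ⟨g, hg⟩ := exists_smul_mem_fd z
  have hgo : g • z ∈ 𝒟ᵒ := by
    by_contra hcon
    exact hz g ⟨hg, hcon⟩
  refine ⟨g⁻¹, fun γ => ⟨fun hγ => ?_, fun hγ => ?_⟩⟩
  · have hγ' : γ⁻¹ • z ∈ 𝒟 := hγ
    have h3 : (γ⁻¹ * g⁻¹) • (g • z) ∈ 𝒟 := by
      rw [mul_smul, inv_smul_smul]; exact hγ'
    rcases eq_one_or_neg_one_of_mem_fdo_mem_fd hgo h3 with h | h
    · left
      exact (eq_of_inv_mul_eq_one h).symm ▸ rfl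
    · right
      have h4 : g⁻¹ = γ * (-1) := by rw [← h]; simp
      rw [h4]; simp
  · show γ⁻¹ • z ∈ 𝒟
    rcases hγ with h | h
    · rw [h, inv_inv]; exact hg
    · rw [h]
      have : (-g⁻¹)⁻¹ = -g := by
        rw [inv_neg, inv_inv]
      rw [this, ModularGroup.SL_neg_smul]
      exact hg

lemma tsum_indicator_fdT {z : ℍ} {g : SL(2, ℤ)} (hg : ∀ γ : SL(2, ℤ), z ∈ fdT γ ↔ γ = g ∨ γ = -g)
    {E : Type*} [AddCommMonoid E] [TopologicalSpace E] [T2Space E] (f : ℍ → E) :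
    ∑' γ : SL(2, ℤ), (fdT γ).indicator f z = f z + f z := by
  have hne : g ≠ -g := by
    intro h
    have h1 := congrArg (fun m : SL(2, ℤ) => (m 0 0, m 0 1)) h
    have h2 := g.det_coe
    rw [Matrix.det_fin_two] at h2
    simp only [Matrix.SpecialLinearGroup.coe_neg, Matrix.neg_apply, Prod.mk.injEq] at h1
    have h3 : (g 0 0 : ℤ) = 0 := by omega
    have h4 : (g 0 1 : ℤ) = 0 := by omega
    rw [h3, h4] at h2
    simp at h2
  rw [tsum_eq_sum (s := {g, -g})]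
  · rw [Finset.sum_pair hne, Set.indicator_of_mem ((hg g).mpr (Or.inl rfl)),
      Set.indicator_of_mem ((hg (-g)).mpr (Or.inr rfl))]
  · intro γ hγ
    apply Set.indicator_of_notMem
    rw [hg γ]
    simpa using hγ

lemma tsum_lintegral_fd {f : ℍ → ℝ≥0∞} (hf : AEMeasurable f) :
    ∑' γ : SL(2, ℤ), ∫⁻ w in 𝒟, f (γ • w) = ∫⁻ z, (f z + f z) := by
  simp_rw [setLIntegral_fd_eq, ← lintegral_indicator (measurableSet_fdT _)]
  rw [← lintegral_tsum fun γ => hf.indicator (measurableSet_fdT γ)]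
  apply lintegral_congr_ae
  filter_upwards [ae_exists_fdT] with z ⟨g, hg⟩
  exact tsum_indicator_fdT hg f

lemma summable_integral_norm_fd {F : ℍ → ℂ} (hF : Integrable F) :
    Summable (fun γ : SL(2, ℤ) => ∫ w in 𝒟, ‖F (γ • w)‖) := by
  have h1 : ∀ γ : SL(2, ℤ), ∫ w in 𝒟, ‖F (γ • w)‖ = (∫⁻ w in 𝒟, ‖F (γ • w)‖ₑ).toReal := by
    intro γ
    have hm : AEStronglyMeasurable (fun w => F (γ • w)) (volume.restrict 𝒟) :=
      ((hF.1.comp_measurePreserving (measurePreserving_SL_smul γ))).restrict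
    rw [integral_norm_eq_lintegral_enorm hm]
  simp_rw [h1]
  apply ENNReal.summable_toReal
  rw [tsum_lintegral_fd (f := fun z => ‖F z‖ₑ) hF.1.enorm]
  rw [lintegral_add_left' hF.1.enorm]
  exact ENNReal.add_ne_top.mpr ⟨hF.2.ne, hF.2.ne⟩

/-- Unfolding; the factor `2` comes from `±1`, which act trivially. -/
lemma hasSum_integral_fd {F : ℍ → ℂ} (hF : Integrable F) :
    HasSum (fun γ : SL(2, ℤ) => ∫ w in 𝒟, F (γ • w)) (2 * ∫ z : ℍ, F z) := by
  have h1 := summable_integral_norm_fd hF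
  have h2 : ∀ γ : SL(2, ℤ), ∫ w in 𝒟, F (γ • w) = ∫ z, (fdT γ).indicator F z := by
    intro γ
    rw [setIntegral_fd_eq, integral_indicator (measurableSet_fdT γ)]
  have h3 : ∀ γ : SL(2, ℤ), ∫ w in 𝒟, ‖F (γ • w)‖ = ∫ z, ‖(fdT γ).indicator F z‖ := by
    intro γ
    rw [setIntegral_fd_eq γ (fun z => ‖F z‖), ← integral_indicator (measurableSet_fdT γ)]
    congr 1
    ext z
    rw [norm_indicator_eq_indicator_norm]
  simp_rw [h2]
  simp_rw [h3] at h1
  have h4 := hasSum_integral_of_summable_integral_norm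
    (fun γ => hF.indicator (measurableSet_fdT γ)) h1
  have h5 : 2 * ∫ z : ℍ, F z = ∫ z, ∑' γ : SL(2, ℤ), (fdT γ).indicator F z := by
    rw [← integral_const_mul]
    apply integral_congr_ae
    filter_upwards [ae_exists_fdT] with z ⟨g, hg⟩
    rw [tsum_indicator_fdT hg F, two_mul]
  rw [h5]
  exact h4

end Pool.Agent.Lib.Maass
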