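import Pool.Agent.Lib.Maass.PointPair
import Pool.Agent.Lib.Maass.FundDom

/-!
# The odd automorphic kernel for `SL(2, ℤ)` (chunk K)
-/

open UpperHalfPlane Complex MeasureTheory ModularGroup Filter
open scoped MatrixGroups Modular ContDiff Topology

namespace Pool.Agent.Lib.Maass

noncomputable section

/-- The odd automorphic kernel
`K(z, w) = ∑_{γ ∈ SL(2, ℤ)} (φ (u(z, γ w)) - φ (u(z, γ J w)))`, `J w = - conj w`. -/
def autK (φ : ℝ → ℝ) (z w : ℍ) : ℝ :=
  ∑' γ : SL(2, ℤ), (φ (upt z (γ • w)) - φ (upt z (γ • (J • w))))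

/-- Local finiteness. -/
lemma finite_upt_lt {A B : Set ℍ} (hA : IsCompact A) (hB : IsCompact B) :
    {γ : SL(2, ℤ) | ∃ z ∈ A, ∃ w ∈ B, upt z (γ • w) < 1}.Finite := by
  have hA' : IsCompact (Metric.cthickening R0 A) := hA.cthickening
  have hfin := finite_disjoint_inter_image (Γ := (Matrix.SpecialLinearGroup.mapGL ℝ :
    SL(2, ℤ) →* GL (Fin 2) ℝ).range) (T := ℍ) hB hA'
  have hinj : Function.Injective (fun γ : SL(2, ℤ) =>
      (⟨Matrix.SpecialLinearGroup.mapGL ℝ γ, ⟨γ, rfl⟩⟩ :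
        (Matrix.SpecialLinearGroup.mapGL ℝ : SL(2, ℤ) →* GL (Fin 2) ℝ).range)) := by
    intro a b hab
    exact Matrix.SpecialLinearGroup.mapGL_injective (Subtype.ext_iff.mp hab)
  refine (hfin.preimage hinj.injOn).subset ?_
  rintro γ ⟨z, hz, w, hw, h⟩
  refine ⟨γ • w, ⟨w, hw, rfl⟩, ?_⟩
  exact Metric.mem_cthickening_of_dist_le _ z _ _ hz (by
    rw [dist_comm]; exact upt_lt_one_dist h)

lemma finite_support_upt {φ : ℝ → ℝ} (hφ : IsTest φ) (z w : ℍ) :
    (Function.support fun γ : SL(2, ℤ) => φ (upt z (γ • w))).Finite := by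
  refine (finite_upt_lt (isCompact_singleton (x := z)) (isCompact_singleton (x := w))).subset ?_
  intro γ hγ
  refine ⟨z, rfl, w, rfl, ?_⟩
  by_contra h
  exact hγ (hφ.supp _ (not_lt.mp h))

/-- The automorphic kernel without sign. -/
def autS (φ : ℝ → ℝ) (z w : ℍ) : ℝ := ∑' γ : SL(2, ℤ), φ (upt z (γ • w))

lemma summable_upt {φ : ℝ → ℝ} (hφ : IsTest φ) (z w : ℍ) :
    Summable fun γ : SL(2, ℤ) => φ (upt z (γ • w)) :=
  summable_of_hasFiniteSupport (finite_support_upt hφ z w)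

lemma autK_eq {φ : ℝ → ℝ} (hφ : IsTest φ) (z w : ℍ) :
    autK φ z w = autS φ z w - autS φ z (J • w) :=
  (summable_upt hφ z w).tsum_sub (summable_upt hφ z (J • w))

lemma upt_smul_SL (γ : SL(2, ℤ)) (z w : ℍ) : upt (γ • z) (γ • w) = upt z w :=
  upt_smul (Matrix.SpecialLinearGroup.mapGL ℝ γ) z w

lemma autS_symm (φ : ℝ → ℝ) (z w : ℍ) : autS φ z w = autS φ w z := by
  unfold autS
  rw [← (Equiv.inv SL(2, ℤ)).tsum_eq]
  congr 1
  ext γ
  have := upt_smul_SL γ z (γ⁻¹ • w)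
  rw [smul_inv_smul] at this
  simp only [Equiv.inv_apply]
  rw [← this, upt_symm]

lemma autS_smul_left (φ : ℝ → ℝ) (δ : SL(2, ℤ)) (z w : ℍ) :
    autS φ (δ • z) w = autS φ z w := by
  unfold autS
  rw [← (Equiv.mulLeft δ).tsum_eq]
  congr 1
  ext γ
  simp only [Equiv.coe_mulLeft]
  rw [mul_smul, upt_smul_SL]

/-- Conjugation by `J` on `SL(2, ℤ)`. -/
def conjJ (γ : SL(2, ℤ)) : SL(2, ℤ) :=
  ⟨!![γ 0 0, -(γ 0 1); -(γ 1 0), γ 1 1], by
    have := γ.det_coe
    rw [Matrix.det_fin_two] at this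
    rw [Matrix.det_fin_two_of]
    linarith⟩

lemma conjJ_conjJ (γ : SL(2, ℤ)) : conjJ (conjJ γ) = γ := by
  ext i j
  fin_cases i <;> fin_cases j <;> simp [conjJ]

def conjJEquiv : SL(2, ℤ) ≃ SL(2, ℤ) := ⟨conjJ, conjJ, conjJ_conjJ, conjJ_conjJ⟩

lemma J_smul_J_smul (z : ℍ) : J • J • z = z := by
  rw [← mul_smul, ← sq, J_sq, one_smul]

lemma conjJ_00 (γ : SL(2, ℤ)) : conjJ γ 0 0 = γ 0 0 := rfl
lemma conjJ_01 (γ : SL(2, ℤ)) : conjJ γ 0 1 = -(γ 0 1) := rfl
lemma conjJ_10 (γ : SL(2, ℤ)) : conjJ γ 1 0 = -(γ 1 0) := rfl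
lemma conjJ_11 (γ : SL(2, ℤ)) : conjJ γ 1 1 = γ 1 1 := rfl

lemma J_conj (γ : SL(2, ℤ)) (w : ℍ) : J • (γ • w) = conjJ γ • (J • w) := by
  have h : J * (Matrix.SpecialLinearGroup.mapGL ℝ γ) =
      (Matrix.SpecialLinearGroup.mapGL ℝ (conjJ γ)) * J := by
    ext i j
    fin_cases i <;> fin_cases j <;> simp [Matrix.mul_apply, Fin.sum_univ_two, conjJ_00, conjJ_01, conjJ_10, conjJ_11]
  change J • ((Matrix.SpecialLinearGroup.mapGL ℝ γ) • w) =
    (Matrix.SpecialLinearGroup.mapGL ℝ (conjJ γ)) • (J • w)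
  rw [← mul_smul, h, mul_smul]

lemma autS_J_J (φ : ℝ → ℝ) (z w : ℍ) : autS φ (J • z) (J • w) = autS φ z w := by
  unfold autS
  rw [← conjJEquiv.tsum_eq]
  congr 1
  ext γ
  change φ (upt (J • z) (conjJ γ • J • w)) = _
  rw [← J_conj, upt_smul]

lemma autS_J_left (φ : ℝ → ℝ) (z w : ℍ) : autS φ (J • z) w = autS φ z (J • w) := by
  rw [← autS_J_J φ (J • z) w, J_smul_J_smul]

lemma autK_symm {φ : ℝ → ℝ} (hφ : IsTest φ) (z w : ℍ) : autK φ z w = autK φ w z := by
  rw [autK_eq hφ, autK_eq hφ, autS_symm φ z w, autS_symm φ z (J • w), autS_J_left]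

lemma autK_smul_left {φ : ℝ → ℝ} (hφ : IsTest φ) (γ : SL(2, ℤ)) (z w : ℍ) :
    autK φ (γ • z) w = autK φ z w := by
  rw [autK_eq hφ, autK_eq hφ, autS_smul_left, autS_smul_left]

lemma autK_J_left {φ : ℝ → ℝ} (hφ : IsTest φ) (z w : ℍ) :
    autK φ (J • z) w = - autK φ z w := by
  rw [autK_eq hφ, autK_eq hφ, autS_J_left, autS_J_J]
  ring

lemma autS_continuous {φ : ℝ → ℝ} (hφ : IsTest φ) :
    Continuous (Function.uncurry (autS φ)) := by
  have h : (Function.uncurry (autS φ)) =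
      fun p : ℍ × ℍ => ∑ᶠ γ : SL(2, ℤ), φ (upt p.1 (γ • p.2)) := by
    ext p
    exact tsum_eq_finsum (finite_support_upt hφ p.1 p.2)
  rw [h]
  refine continuous_finsum (fun γ => ?_) ?_
  · have h1 : Continuous (fun p : ℍ × ℍ => (p.1, γ • p.2)) :=
      continuous_fst.prodMk ((continuous_const_smul
        (Matrix.SpecialLinearGroup.mapGL ℝ γ)).comp continuous_snd)
    exact (continuous_test_upt hφ).comp h1
  · intro p
    refine ⟨Metric.closedBall p.1 1 ×ˢ Metric.closedBall p.2 1,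
      prod_mem_nhds (Metric.closedBall_mem_nhds _ one_pos)
        (Metric.closedBall_mem_nhds _ one_pos), ?_⟩
    refine (finite_upt_lt (isCompact_closedBall p.1 1) (isCompact_closedBall p.2 1)).subset ?_
    rintro γ ⟨q, hq, hq'⟩
    refine ⟨q.1, hq'.1, q.2, hq'.2, ?_⟩
    by_contra h
    exact hq (hφ.supp _ (not_lt.mp h))

lemma autK_continuous {φ : ℝ → ℝ} (hφ : IsTest φ) :
    Continuous (Function.uncurry (autK φ)) := by
  have h : (Function.uncurry (autK φ)) =
      fun p : ℍ × ℍ => (Function.uncurry (autS φ)) p -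
        (Function.uncurry (autS φ)) (p.1, J • p.2) := by
    ext p
    exact autK_eq hφ p.1 p.2
  rw [h]
  refine (autS_continuous hφ).sub ((autS_continuous hφ).comp ?_)
  exact continuous_fst.prodMk ((continuous_const_smul J).comp continuous_snd)

lemma J_smul_re (w : ℍ) : (J • w).re = - w.re := by
  have := congrArg Complex.re (coe_J_smul w)
  simpa using this

lemma J_smul_im (w : ℍ) : (J • w).im = w.im := by
  have := congrArg Complex.im (coe_J_smul w)
  simpa using this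

/-- Formula for `u` in coordinates. -/
lemma upt_coord (z w : ℍ) :
    upt z w = ((z.re - w.re) ^ 2 + (z.im - w.im) ^ 2) / (4 * (z.im * w.im)) := by
  unfold upt
  rw [Complex.normSq_apply]
  simp
  ring

/-- If `u(z, w) < 1` then `Im z < 6 Im w`. -/
lemma im_lt_of_upt_lt {z w : ℍ} (h : upt z w < 1) : z.im < 6 * w.im := by
  have hz := z.im_pos
  have hw := w.im_pos
  rw [upt_coord, div_lt_one (by positivity)] at h
  by_contra hcon
  push Not at hcon
  nlinarith [sq_nonneg (z.re - w.re)]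

/-- For `γ` with nonzero lower left entry, `Im (γ w) Im w ≤ 1`. -/
lemma im_smul_mul_im_le {γ : SL(2, ℤ)} (hc : γ 1 0 ≠ 0) (w : ℍ) : (γ • w).im * w.im ≤ 1 := by
  have h1 : (γ • w).im =
      w.im / Complex.normSq (denom (Matrix.SpecialLinearGroup.mapGL ℝ γ) w) := by
    have := im_smul_eq_div_normSq (Matrix.SpecialLinearGroup.mapGL ℝ γ) w
    rw [Matrix.SpecialLinearGroup.det_mapGL] at this
    simp only [Units.val_one, abs_one, one_mul] at this
    exact this
  have h2 := c_mul_im_sq_le_normSq_denom (Matrix.SpecialLinearGroup.mapGL ℝ γ) w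
  have h3 : (1 : ℝ) ≤ ((γ 1 0 : ℤ) : ℝ) ^ 2 := by
    have : (1 : ℤ) ≤ (γ 1 0) ^ 2 := by
      have := sq_pos_of_ne_zero hc
      omega
    exact_mod_cast this
  have h4 : w.im ^ 2 ≤ Complex.normSq (denom (Matrix.SpecialLinearGroup.mapGL ℝ γ) w) := by
    refine le_trans ?_ h2
    simp only [mul_pow]
    have h5 : ((Matrix.SpecialLinearGroup.mapGL ℝ γ) 1 0 : ℝ) = ((γ 1 0 : ℤ) : ℝ) := by simp
    rw [h5]
    nlinarith [sq_nonneg w.im]
  have h5 : 0 < w.im := w.im_pos
  have h6 : 0 < Complex.normSq (denom (Matrix.SpecialLinearGroup.mapGL ℝ γ) w) :=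
    normSq_denom_pos _ w.im_ne_zero
  rw [h1, div_mul_eq_mul_div, div_le_one h6]
  nlinarith

lemma fd_im_gt {z : ℍ} (hz : z ∈ 𝒟) : 4 / 5 < z.im := by
  have h := three_le_four_mul_im_sq_of_mem_fd hz
  have := z.im_pos
  nlinarith

/-- Coordinates of `γ • w` when the lower left entry vanishes. -/
lemma smul_coord_of_c_eq_zero {γ : SL(2, ℤ)} (hc : γ 1 0 = 0) (w : ℍ) :
    (γ 0 0 = 1 ∨ γ 0 0 = -1) ∧ (γ • w).re = w.re + ((γ 0 0 * γ 0 1 : ℤ) : ℝ) ∧
      (γ • w).im = w.im := by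
  have had := γ.det_coe
  rw [Matrix.det_fin_two, hc] at had
  have had' : γ 0 0 * γ 1 1 = 1 := by linarith
  have h00 : (γ 0 0 = 1 ∧ γ 1 1 = 1) ∨ (γ 0 0 = -1 ∧ γ 1 1 = -1) :=
    Int.eq_one_or_neg_one_of_mul_eq_one' had'
  have hcoe := coe_specialLinearGroup_apply γ w
  have key : ((γ • w : ℍ) : ℂ) = w + (((γ 0 0 * γ 0 1 : ℤ) : ℝ) : ℂ) := by
    rcases h00 with ⟨ha, hd⟩ | ⟨ha, hd⟩ <;>
    · rw [hcoe]
      simp [ha, hc, hd]
      try ring
  refine ⟨h00.imp And.left And.left, ?_, ?_⟩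
  · have := congrArg Complex.re key
    rw [Complex.add_re, Complex.ofReal_re] at this
    exact this
  · have := congrArg Complex.im key
    rw [Complex.add_im, Complex.ofReal_im, add_zero] at this
    exact this

/-- A test function is Lipschitz on `[0, ∞)`. -/
lemma IsTest.lipschitz {φ : ℝ → ℝ} (hφ : IsTest φ) :
    ∃ L : ℝ, 0 ≤ L ∧ ∀ u v : ℝ, 0 ≤ u → 0 ≤ v → |φ u - φ v| ≤ L * |u - v| := by
  have hd : Differentiable ℝ φ := hφ.smooth.differentiable (by simp)
  have hcd : Continuous (deriv φ) := hφ.smooth.continuous_deriv (by simp)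
  obtain ⟨M, hM⟩ := isCompact_Icc.exists_bound_of_continuousOn
    (s := Set.Icc (0 : ℝ) 1) hcd.continuousOn
  refine ⟨max M 0, le_max_right _ _, fun u v hu hv => ?_⟩
  have hbound : ∀ x ∈ Set.Ici (0 : ℝ), ‖deriv φ x‖ ≤ max M 0 := by
    intro x hx
    by_cases h : x ≤ 1
    · exact (hM x ⟨hx, h⟩).trans (le_max_left _ _)
    · have : deriv φ x = 0 := by
        have hev : φ =ᶠ[nhds x] fun _ => 0 := by
          filter_upwards [lt_mem_nhds (not_le.mp h)] with y hy
          exact hφ.supp y hy.le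
        rw [hev.deriv_eq]
        simp
      rw [this]
      simp
  have := (convex_Ici (0 : ℝ)).norm_image_sub_le_of_norm_deriv_le (f := φ) (C := max M 0)
    (fun x _ => hd x) hbound (x := v) (y := u) hv hu
  simpa [Real.norm_eq_abs] using this

lemma abs_autK_le_sum {φ : ℝ → ℝ} (z w : ℍ) (S : Finset SL(2, ℤ))
    (hS : ∀ γ : SL(2, ℤ), γ ∉ S → φ (upt z (γ • w)) - φ (upt z (γ • (J • w))) = 0) :
    |autK φ z w| ≤ ∑ γ ∈ S, |φ (upt z (γ • w)) - φ (upt z (γ • (J • w)))| := by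
  unfold autK
  rw [tsum_eq_sum (s := S) (fun γ hγ => hS γ hγ)]
  exact Finset.abs_sum_le_sum_abs _ _

lemma finite_support_diff {φ : ℝ → ℝ} (hφ : IsTest φ) (z w : ℍ) :
    {γ : SL(2, ℤ) | φ (upt z (γ • w)) - φ (upt z (γ • (J • w))) ≠ 0}.Finite := by
  refine ((finite_support_upt hφ z w).union (finite_support_upt hφ z (J • w))).subset ?_
  intro γ hγ
  by_contra hcon
  simp only [Set.mem_union, Function.mem_support, not_or, not_not] at hcon
  exact hγ (by rw [hcon.1, hcon.2, sub_zero])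

lemma upt_lt_one_or {φ : ℝ → ℝ} (hφ : IsTest φ) {z w : ℍ} {γ : SL(2, ℤ)}
    (h : φ (upt z (γ • w)) - φ (upt z (γ • (J • w))) ≠ 0) :
    upt z (γ • w) < 1 ∨ upt z (γ • (J • w)) < 1 := by
  by_contra hcon
  push Not at hcon
  exact h (by rw [hφ.supp _ hcon.1, hφ.supp _ hcon.2, sub_zero])

/-- The bound for one term coming from a translation. -/
lemma autKer_term_bound {φ : ℝ → ℝ} {L : ℝ} (hL0 : 0 ≤ L)
    (hL : ∀ u v : ℝ, 0 ≤ u → 0 ≤ v → |φ u - φ v| ≤ L * |u - v|) {z w : ℍ} (hz : z ∈ 𝒟)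
    (hw : w ∈ 𝒟) {γ : SL(2, ℤ)} (hc : γ 1 0 = 0)
    (hlt : upt z (γ • w) < 1 ∨ upt z (γ • (J • w)) < 1) {s : ℝ} (hs : 4 / 5 ≤ s)
    (hs2 : s ^ 2 = z.im * w.im) :
    |((γ 0 0 * γ 0 1 : ℤ) : ℝ)| ≤ 2 * s + 1 ∧
    |φ (upt z (γ • w)) - φ (upt z (γ • (J • w)))| ≤ 3 / 2 * L / s := by
  obtain ⟨-, hre, him⟩ := smul_coord_of_c_eq_zero hc w
  obtain ⟨-, hre', him'⟩ := smul_coord_of_c_eq_zero hc (J • w)
  rw [J_smul_re] at hre'
  rw [J_smul_im] at him'
  set n : ℝ := ((γ 0 0 * γ 0 1 : ℤ) : ℝ) with hn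
  have hzre : |z.re| ≤ 1 / 2 := hz.2
  have hwre : |w.re| ≤ 1 / 2 := hw.2
  have hspos : 0 < s := by linarith
  have hP : 0 < 4 * (z.im * w.im) := by rw [← hs2]; positivity
  have e1 : upt z (γ • w) = ((z.re - n - w.re) ^ 2 + (z.im - w.im) ^ 2) / (4 * s ^ 2) := by
    rw [upt_coord, hre, him, hs2]; ring_nf
  have e2 : upt z (γ • (J • w)) = ((z.re - n + w.re) ^ 2 + (z.im - w.im) ^ 2) / (4 * s ^ 2) := by
    rw [upt_coord, hre', him', hs2]; ring_nf
  rw [abs_le] at hzre hwre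
  have ha : |z.re - n| ≤ 2 * s + 1 / 2 := by
    rcases hlt with h | h
    · rw [e1, div_lt_one (by positivity)] at h
      have : |z.re - n - w.re| < 2 * s := by
        rw [← abs_of_pos (show 0 < 2 * s by positivity), ← sq_lt_sq]
        nlinarith [sq_nonneg (z.im - w.im)]
      rw [abs_lt] at this
      rw [abs_le]
      constructor <;> linarith
    · rw [e2, div_lt_one (by positivity)] at h
      have : |z.re - n + w.re| < 2 * s := by
        rw [← abs_of_pos (show 0 < 2 * s by positivity), ← sq_lt_sq]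
        nlinarith [sq_nonneg (z.im - w.im)]
      rw [abs_lt] at this
      rw [abs_le]
      constructor <;> linarith
  constructor
  · rw [abs_le] at ha ⊢
    constructor <;> linarith
  · refine (hL _ _ (upt_nonneg _ _) (upt_nonneg _ _)).trans ?_
    have hdiff : upt z (γ • w) - upt z (γ • (J • w)) = -((z.re - n) * w.re) / s ^ 2 := by
      rw [e1, e2]; field_simp; ring
    rw [hdiff, abs_div, abs_neg, abs_mul, abs_of_pos (show 0 < s ^ 2 by positivity)]
    have hw2 : |w.re| ≤ 1 / 2 := hw.2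
    have h1 : |z.re - n| * |w.re| ≤ (2 * s + 1 / 2) * (1 / 2) :=
      mul_le_mul ha hw2 (abs_nonneg _) (by positivity)
    have h2 : |z.re - n| * |w.re| / s ^ 2 ≤ 3 / 2 / s := by
      rw [div_le_div_iff₀ (by positivity) hspos]
      nlinarith
    calc L * (|z.re - n| * |w.re| / s ^ 2) ≤ L * (3 / 2 / s) := mul_le_mul_of_nonneg_left h2 hL0
      _ = 3 / 2 * L / s := by ring

lemma autK_bounded_fd {φ : ℝ → ℝ} (hφ : IsTest φ) :
    ∃ C : ℝ, ∀ z ∈ (𝒟 : Set ℍ), ∀ w ∈ (𝒟 : Set ℍ), |autK φ z w| ≤ C := by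
  obtain ⟨M, hM0, hM⟩ := hφ.bdd
  obtain ⟨L, hL0, hL⟩ := hφ.lipschitz
  have hcomp := isCompact_truncatedFundamentalDomain 8
  have hfin := finite_upt_lt hcomp hcomp
  set S0 : Finset SL(2, ℤ) := hfin.toFinset with hS0
  refine ⟨max (S0.card * (2 * M)) (24 * L), fun z hz w hw => ?_⟩
  have hz5 := fd_im_gt hz
  have hw5 := fd_im_gt hw
  have hJw : J • w ∈ (𝒟 : Set ℍ) := (J_smul_mem_fd_iff w).mpr hw
  by_cases hcase : z.im ≤ 8 ∧ w.im ≤ 8
  · refine le_trans ?_ (le_max_left _ _)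
    have hzT : z ∈ truncatedFundamentalDomain 8 := ⟨hz, hcase.1⟩
    have hwT : w ∈ truncatedFundamentalDomain 8 := ⟨hw, hcase.2⟩
    have hJwT : J • w ∈ truncatedFundamentalDomain 8 := ⟨hJw, by rw [J_smul_im]; exact hcase.2⟩
    refine (abs_autK_le_sum z w S0 ?_).trans ?_
    · intro γ hγ
      by_contra hne
      apply hγ
      rw [hS0, Set.Finite.mem_toFinset]
      rcases upt_lt_one_or hφ hne with h | h
      · exact ⟨z, hzT, w, hwT, h⟩
      · exact ⟨z, hzT, J • w, hJwT, h⟩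
    · rw [← nsmul_eq_mul]
      apply Finset.sum_le_card_nsmul
      intro γ _
      calc |φ (upt z (γ • w)) - φ (upt z (γ • (J • w)))|
          ≤ |φ (upt z (γ • w))| + |φ (upt z (γ • (J • w)))| := abs_sub _ _
        _ ≤ M + M := add_le_add (hM _ (upt_nonneg _ _)) (hM _ (upt_nonneg _ _))
        _ = 2 * M := by ring
  · refine le_trans ?_ (le_max_right _ _)
    set S : Finset SL(2, ℤ) := (finite_support_diff hφ z w).toFinset with hS
    have hmem : ∀ γ ∈ S, φ (upt z (γ • w)) - φ (upt z (γ • (J • w))) ≠ 0 := by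
      intro γ hγ
      rw [hS, Set.Finite.mem_toFinset] at hγ
      exact hγ
    have hc0 : ∀ γ ∈ S, γ 1 0 = 0 := by
      intro γ hγ
      by_contra hc
      have hprod : z.im * w.im < 6 := by
        rcases upt_lt_one_or hφ (hmem γ hγ) with h | h
        · have h1 := im_lt_of_upt_lt h
          have h2 := im_smul_mul_im_le hc w
          nlinarith [w.im_pos]
        · have h1 := im_lt_of_upt_lt h
          have h2 := im_smul_mul_im_le hc (J • w)
          rw [J_smul_im] at h2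
          nlinarith [w.im_pos]
      apply hcase
      constructor <;> nlinarith
    obtain ⟨s, hs⟩ : ∃ s : ℝ, s = Real.sqrt (z.im * w.im) := ⟨_, rfl⟩
    have hs2 : s ^ 2 = z.im * w.im := by
      rw [hs, Real.sq_sqrt (mul_pos z.im_pos w.im_pos).le]
    have hs0 : 0 ≤ s := by rw [hs]; exact Real.sqrt_nonneg _
    have hs45 : 4 / 5 ≤ s := by nlinarith
    have hspos : 0 < s := by linarith
    have hcard : (S.card : ℝ) ≤ 16 * s := by
      set N : ℤ := ⌊2 * s + 1⌋ with hN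
      have hN0 : 0 ≤ N := Int.floor_nonneg.mpr (by positivity)
      have hle : S.card ≤ (({1, -1} : Finset ℤ) ×ˢ Finset.Icc (-N) N).card := by
        refine Finset.card_le_card_of_injOn (fun γ : SL(2, ℤ) => (γ 0 0, γ 0 1)) ?_ ?_
        · intro γ hγ
          have hc := hc0 γ hγ
          obtain ⟨h1, -⟩ := autKer_term_bound hL0 hL hz hw hc (upt_lt_one_or hφ (hmem γ hγ)) hs45 hs2
          obtain ⟨h00, -, -⟩ := smul_coord_of_c_eq_zero hc w
          have h2 : |(γ 0 1 : ℤ)| ≤ N := by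
            rw [hN, Int.le_floor]
            refine le_trans (le_of_eq ?_) h1
            rcases h00 with h | h <;> simp [h]
          rw [abs_le] at h2
          simp only [Finset.coe_product, Set.mem_prod, Finset.mem_coe, Finset.mem_Icc]
          exact ⟨by rcases h00 with h | h <;> simp [h], h2⟩
        · intro γ hγ δ hδ heq
          simp only [Prod.mk.injEq] at heq
          have hcγ := hc0 γ hγ
          have hcδ := hc0 δ hδ
          have hdet := γ.det_coe
          have hdet' := δ.det_coe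
          rw [Matrix.det_fin_two, hcγ] at hdet
          rw [Matrix.det_fin_two, hcδ] at hdet'
          have h11 : γ 1 1 = δ 1 1 := by
            obtain ⟨h00, -, -⟩ := smul_coord_of_c_eq_zero hcγ w
            rw [← heq.1] at hdet'
            rcases h00 with h | h <;> rw [h] at hdet hdet' <;> linarith
          ext i j
          fin_cases i <;> fin_cases j
          · exact heq.1
          · exact heq.2
          · exact hcγ.trans hcδ.symm
          · exact h11
      have hcardprod : (({1, -1} : Finset ℤ) ×ˢ Finset.Icc (-N) N).card = 2 * (2 * N + 1).toNat := by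
        rw [Finset.card_product, Int.card_Icc]
        congr 2
        ring
      rw [hcardprod] at hle
      have h3 : ((2 * (2 * N + 1).toNat : ℕ) : ℝ) = 2 * (2 * N + 1) := by
        push_cast
        congr 1
        have : (((2 * N + 1).toNat : ℤ) : ℝ) = ((2 * N + 1 : ℤ) : ℝ) := by
          rw [Int.toNat_of_nonneg (by linarith)]
        rw [Int.cast_natCast] at this
        rw [this]
        push_cast
        ring
      have h4 : (S.card : ℝ) ≤ 2 * (2 * N + 1) := by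
        rw [← h3]
        exact_mod_cast hle
      have h5 : (N : ℝ) ≤ 2 * s + 1 := Int.floor_le _
      linarith
    refine (abs_autK_le_sum z w S ?_).trans ?_
    · intro γ hγ
      by_contra hne
      exact hγ (by rw [hS, Set.Finite.mem_toFinset]; exact hne)
    · refine (Finset.sum_le_card_nsmul S _ (3 / 2 * L / s) ?_).trans ?_
      · intro γ hγ
        exact (autKer_term_bound hL0 hL hz hw (hc0 γ hγ) (upt_lt_one_or hφ (hmem γ hγ)) hs45 hs2).2
      · rw [nsmul_eq_mul]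
        calc (S.card : ℝ) * (3 / 2 * L / s) ≤ (16 * s) * (3 / 2 * L / s) :=
              mul_le_mul_of_nonneg_right hcard (by positivity)
          _ = 24 * L := by field_simp; ring

/-- The key bound: because of the oddness the kernel is bounded, even in the cusp. -/
lemma autK_bounded {φ : ℝ → ℝ} (hφ : IsTest φ) : ∃ C : ℝ, ∀ z w : ℍ, |autK φ z w| ≤ C := by
  obtain ⟨C, hC⟩ := autK_bounded_fd hφ
  refine ⟨C, fun z w => ?_⟩
  obtain ⟨γ, hγ⟩ := exists_smul_mem_fd z
  obtain ⟨δ, hδ⟩ := exists_smul_mem_fd w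
  have h := hC (γ • z) hγ (δ • w) hδ
  rwa [autK_smul_left hφ, autK_symm hφ, autK_smul_left hφ, autK_symm hφ] at h

lemma integral_fd_J (H : ℍ → ℂ) : ∫ w in (𝒟 : Set ℍ), H (J • w) = ∫ w in (𝒟 : Set ℍ), H w := by
  have h := (measurePreserving_smul J (volume : Measure ℍ)).setIntegral_preimage_emb
    (measurableEmbedding_const_smul J) H 𝒟
  have hpre : (fun w : ℍ => J • w) ⁻¹' (𝒟 : Set ℍ) = 𝒟 := by
    ext w
    exact J_smul_mem_fd_iff w
  rw [hpre] at h
  exact h

lemma integral_fd_J_real (H : ℍ → ℝ) :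
    ∫ w in (𝒟 : Set ℍ), H (J • w) = ∫ w in (𝒟 : Set ℍ), H w := by
  have h := (measurePreserving_smul J (volume : Measure ℍ)).setIntegral_preimage_emb
    (measurableEmbedding_const_smul J) H 𝒟
  have hpre : (fun w : ℍ => J • w) ⁻¹' (𝒟 : Set ℍ) = 𝒟 := by
    ext w
    exact J_smul_mem_fd_iff w
  rw [hpre] at h
  exact h

lemma integrable_comp_smul {G : ℍ → ℂ} (hG : Integrable G) (g : GL (Fin 2) ℝ) :
    Integrable (fun w => G (g • w)) :=
  (measurePreserving_smul g (volume : Measure ℍ)).integrable_comp_of_integrable hG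

lemma hasSum_unfold_J {G : ℍ → ℂ} (hG : Integrable G) :
    HasSum (fun γ : SL(2, ℤ) => ∫ w in 𝒟, (G (γ • w) + G (γ • (J • w))))
      (4 * ∫ z : ℍ, G z) := by
  have h1 := (hasSum_integral_fd hG).mul_left 2
  have h2 : (fun γ : SL(2, ℤ) => ∫ w in 𝒟, (G (γ • w) + G (γ • (J • w)))) =
      fun γ : SL(2, ℤ) => 2 * ∫ w in 𝒟, G (γ • w) := by
    ext γ
    have i1 : Integrable (fun w : ℍ => G (γ • w)) :=
      integrable_comp_smul hG (Matrix.SpecialLinearGroup.mapGL ℝ γ)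
    have i2 : Integrable (fun w : ℍ => G (γ • (J • w))) := integrable_comp_smul i1 J
    rw [integral_add i1.integrableOn i2.integrableOn,
      integral_fd_J (fun w => G (γ • w))]
    ring
  rw [h2, show (4 : ℂ) * ∫ z : ℍ, G z = 2 * (2 * ∫ z : ℍ, G z) by ring]
  exact h1

lemma summable_norm_unfold_J {G : ℍ → ℂ} (hG : Integrable G) :
    Summable (fun γ : SL(2, ℤ) => ∫ w in 𝒟, ‖G (γ • w) + G (γ • (J • w))‖) := by
  have h1 := (summable_integral_norm_fd hG).mul_left 2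
  refine Summable.of_nonneg_of_le (fun γ => integral_nonneg fun w => norm_nonneg _)
    (fun γ => ?_) h1
  have i1 : Integrable (fun w : ℍ => G (γ • w)) :=
    integrable_comp_smul hG (Matrix.SpecialLinearGroup.mapGL ℝ γ)
  have i2 : Integrable (fun w : ℍ => G (γ • (J • w))) := integrable_comp_smul i1 J
  calc ∫ w in 𝒟, ‖G (γ • w) + G (γ • (J • w))‖
      ≤ ∫ w in 𝒟, (‖G (γ • w)‖ + ‖G (γ • (J • w))‖) := by
        refine integral_mono (i1.add i2).norm.integrableOn
          (i1.norm.add i2.norm).integrableOn fun w => norm_add_le _ _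
    _ = 2 * ∫ w in 𝒟, ‖G (γ • w)‖ := by
        rw [integral_add i1.norm.integrableOn i2.norm.integrableOn,
          integral_fd_J_real (fun w => ‖G (γ • w)‖)]
        ring

/-- Unfolding for odd automorphic functions. -/
lemma integral_autK_mul {φ : ℝ → ℝ} (hφ : IsTest φ) {f : ℍ → ℂ} (hf : IsBM f)
    (hinv : ∀ (γ : SL(2, ℤ)) (z : ℍ), f (γ • z) = f z) (hodd : ∀ z : ℍ, f (J • z) = - f z)
    (z : ℍ) : ∫ w in 𝒟, (autK φ z w : ℂ) * f w = 4 * pp φ f z := by
  obtain ⟨G, hG⟩ : ∃ G : ℍ → ℂ, G = fun w => (φ (upt z w) : ℂ) * f w := ⟨_, rfl⟩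
  have hGint : Integrable G := by rw [hG]; exact pp_integrable hφ hf z
  have := countable_SL2Z
  have h1 := hasSum_integral_of_summable_integral_norm
    (μ := volume.restrict (𝒟 : Set ℍ))
    (F := fun (γ : SL(2, ℤ)) (w : ℍ) => G (γ • w) + G (γ • (J • w)))
    (fun γ => by
      have i1 : Integrable (fun w : ℍ => G (γ • w)) :=
        integrable_comp_smul hGint (Matrix.SpecialLinearGroup.mapGL ℝ γ)
      exact (i1.add (integrable_comp_smul i1 J)).integrableOn)
    (summable_norm_unfold_J hGint)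
  have h2 := h1.unique (hasSum_unfold_J hGint)
  have h3 : pp φ f z = ∫ w : ℍ, G w := by rw [hG]; rfl
  rw [h3, ← h2]
  refine integral_congr_ae (Filter.Eventually.of_forall fun w => ?_)
  simp only [hG, hinv, hodd]
  rw [autK, Complex.ofReal_tsum, ← tsum_mul_right]
  congr 1
  ext γ
  push_cast
  ring

lemma volume_pos_of_isOpen {U : Set ℍ} (hU : IsOpen U) (hne : U.Nonempty) :
    0 < (volume : Measure ℍ) U := by
  rw [volume_eq_lintegral]
  have hopen : IsOpen (UpperHalfPlane.coe '' U) := isOpenEmbedding_coe.isOpenMap _ hU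
  have hpos : 0 < volume (UpperHalfPlane.coe '' U) := hopen.measure_pos _ (hne.image _)
  rw [lintegral_pos_iff_support]
  · refine lt_of_lt_of_le hpos ?_
    rw [Measure.restrict_apply']
    · refine measure_mono ?_
      rintro _ ⟨w, hw, rfl⟩
      refine ⟨?_, ⟨w, hw, rfl⟩⟩
      simp [w.im_ne_zero]
    · exact hopen.measurableSet
  · fun_prop

lemma upt_pos {z w : ℍ} (h : z ≠ w) : 0 < upt z w := by
  unfold upt
  have := z.im_pos
  have := w.im_pos
  have h2 : 0 < Complex.normSq ((z : ℂ) - w) := by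
    rw [Complex.normSq_pos, sub_ne_zero]
    exact fun h' => h (UpperHalfPlane.ext h')
  positivity

lemma upt_self (z : ℍ) : upt z z = 0 := by
  unfold upt
  simp

def z0 : ℍ := ⟨⟨1 / 4, 2⟩, by norm_num⟩

lemma z0_mem : z0 ∈ (𝒟ᵒ : Set ℍ) := by
  constructor
  · simp [z0, Complex.normSq_apply]
    norm_num
  · change |(1 / 4 : ℝ)| < 1 / 2
    rw [abs_of_pos] <;> norm_num

lemma J_z0_mem : J • z0 ∈ (𝒟ᵒ : Set ℍ) := by
  constructor
  · rw [coe_J_smul]
    simp [z0, Complex.normSq_apply]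
    norm_num
  · rw [J_smul_re, abs_neg]
    exact z0_mem.2

lemma smul_z0_ne {γ : SL(2, ℤ)} (h1 : γ ≠ 1) (h2 : γ ≠ -1) : z0 ≠ γ • z0 := by
  intro h
  rcases eq_one_or_neg_one_of_mem_fdo_mem_fdo z0_mem (g := γ) (by rw [← h]; exact z0_mem)
    with h' | h'
  · exact h1 h'
  · exact h2 h'

lemma smul_J_z0_ne (γ : SL(2, ℤ)) : z0 ≠ γ • (J • z0) := by
  intro h
  have h3 : γ • (J • z0) = J • z0 := by
    rcases eq_one_or_neg_one_of_mem_fdo_mem_fdo J_z0_mem (g := γ) (by rw [← h]; exact z0_mem)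
      with h' | h'
    · rw [h', one_smul]
    · rw [h', SL_neg_smul, one_smul]
  rw [h3] at h
  have := congrArg UpperHalfPlane.re h
  rw [J_smul_re] at this
  change (1 / 4 : ℝ) = -(1 / 4) at this
  norm_num at this

lemma exists_pos_le_of_finite {ι : Type*} {S : Set ι} (hS : S.Finite) (f : ι → ℝ)
    (hf : ∀ i ∈ S, 0 < f i) : ∃ δ : ℝ, 0 < δ ∧ ∀ i ∈ S, δ ≤ f i := by
  induction S, hS using Set.Finite.induction_on with
  | empty => exact ⟨1, one_pos, by simp⟩
  | @insert a s _ _ ih =>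
    obtain ⟨δ, hδ, h⟩ := ih (fun i hi => hf i (Set.mem_insert_of_mem _ hi))
    refine ⟨min δ (f a), lt_min hδ (hf a (Set.mem_insert _ _)), ?_⟩
    intro i hi
    rcases hi with rfl | hi
    · exact min_le_right _ _
    · exact (min_le_left _ _).trans (h i hi)

lemma continuous_upt_smul (γ : SL(2, ℤ)) : Continuous (fun p : ℍ × ℍ => upt p.1 (γ • p.2)) :=
  continuous_upt.comp (continuous_fst.prodMk ((continuous_const_smul
        (Matrix.SpecialLinearGroup.mapGL ℝ γ)).comp continuous_snd))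

lemma continuous_upt_smul_J (γ : SL(2, ℤ)) :
    Continuous (fun p : ℍ × ℍ => upt p.1 (γ • (J • p.2))) :=
  (continuous_upt_smul γ).comp (continuous_fst.prodMk ((continuous_const_smul J).comp
    continuous_snd))

lemma exists_delta : ∃ δ : ℝ, 0 < δ ∧ δ < 1 ∧ ∀ᶠ p : ℍ × ℍ in 𝓝 (z0, z0), ∀ γ : SL(2, ℤ),
    (γ ≠ 1 → γ ≠ -1 → δ ≤ upt p.1 (γ • p.2)) ∧ δ ≤ upt p.1 (γ • (J • p.2)) := by
  set B := Metric.closedBall z0 1 with hB
  have hBc : IsCompact B := isCompact_closedBall _ _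
  have hBJ : IsCompact ((fun w : ℍ => J • w) '' B) := hBc.image (continuous_const_smul J)
  have hS := (finite_upt_lt hBc hBc).union (finite_upt_lt hBc hBJ)
  set S := {γ : SL(2, ℤ) | ∃ z ∈ B, ∃ w ∈ B, upt z (γ • w) < 1} ∪
    {γ : SL(2, ℤ) | ∃ z ∈ B, ∃ w ∈ ((fun w : ℍ => J • w) '' B), upt z (γ • w) < 1} with hSdef
  have hS' : (S ∩ {γ | γ ≠ 1 ∧ γ ≠ -1}).Finite := hS.subset Set.inter_subset_left
  obtain ⟨δ1, hδ1, h1⟩ := exists_pos_le_of_finite hS' (fun γ => upt z0 (γ • z0))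
    (fun γ hγ => upt_pos (smul_z0_ne hγ.2.1 hγ.2.2))
  obtain ⟨δ2, hδ2, h2⟩ := exists_pos_le_of_finite hS (fun γ => upt z0 (γ • (J • z0)))
    (fun γ _ => upt_pos (smul_J_z0_ne γ))
  set δ := min (min δ1 δ2) 1 / 2 with hδ
  have hδpos : 0 < δ := by positivity
  have hlt1 : δ < δ1 := by
    have : min (min δ1 δ2) 1 ≤ δ1 := (min_le_left _ _).trans (min_le_left _ _)
    rw [hδ]; linarith
  have hlt2 : δ < δ2 := by
    have : min (min δ1 δ2) 1 ≤ δ2 := (min_le_left _ _).trans (min_le_right _ _)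
    rw [hδ]; linarith
  have hlt3 : δ < 1 := by
    have : min (min δ1 δ2) 1 ≤ 1 := min_le_right _ _
    rw [hδ]; linarith
  refine ⟨δ, hδpos, hlt3, ?_⟩
  have hev1 : ∀ᶠ p : ℍ × ℍ in 𝓝 (z0, z0), ∀ γ ∈ S ∩ {γ | γ ≠ 1 ∧ γ ≠ -1},
      δ < upt p.1 (γ • p.2) := by
    rw [Filter.eventually_all_finite hS']
    intro γ hγ
    exact ((continuous_upt_smul γ).tendsto (z0, z0)).eventually
      (lt_mem_nhds (lt_of_lt_of_le hlt1 (h1 γ hγ)))
  have hev2 : ∀ᶠ p : ℍ × ℍ in 𝓝 (z0, z0), ∀ γ ∈ S, δ < upt p.1 (γ • (J • p.2)) := by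
    rw [Filter.eventually_all_finite hS]
    intro γ hγ
    exact ((continuous_upt_smul_J γ).tendsto (z0, z0)).eventually
      (lt_mem_nhds (lt_of_lt_of_le hlt2 (h2 γ hγ)))
  have hev3 : ∀ᶠ p : ℍ × ℍ in 𝓝 (z0, z0), p ∈ B ×ˢ B :=
    prod_mem_nhds (Metric.closedBall_mem_nhds _ one_pos) (Metric.closedBall_mem_nhds _ one_pos)
  filter_upwards [hev1, hev2, hev3] with p hp1 hp2 hp3 γ
  constructor
  · intro hne1 hne2
    by_cases hγ : γ ∈ S
    · exact (hp1 γ ⟨hγ, hne1, hne2⟩).le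
    · by_contra hcon
      push Not at hcon
      exact hγ (Or.inl ⟨p.1, hp3.1, p.2, hp3.2, hcon.trans hlt3⟩)
  · by_cases hγ : γ ∈ S
    · exact (hp2 γ hγ).le
    · by_contra hcon
      push Not at hcon
      exact hγ (Or.inr ⟨p.1, hp3.1, J • p.2, ⟨p.2, hp3.2, rfl⟩, hcon.trans hlt3⟩)

lemma exists_test_pos : ∃ φ : ℝ → ℝ, IsTest φ ∧
    ∃ U : Set ℍ, IsOpen U ∧ z0 ∈ U ∧ ∀ z ∈ U, ∀ w ∈ U, 0 < autK φ z w := by
  obtain ⟨δ, hδ0, hδ1, hev⟩ := exists_delta
  set φ : ℝ → ℝ := fun u => Real.smoothTransition (1 - u / δ) with hφ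
  have hφ0 : ∀ u, δ ≤ u → φ u = 0 := by
    intro u hu
    apply Real.smoothTransition.zero_of_nonpos
    have : 1 ≤ u / δ := (one_le_div hδ0).mpr hu
    linarith
  have hφpos : ∀ u, u < δ → 0 < φ u := by
    intro u hu
    apply Real.smoothTransition.pos_of_pos
    have : u / δ < 1 := (div_lt_one hδ0).mpr hu
    linarith
  have hev2 : ∀ᶠ p : ℍ × ℍ in 𝓝 (z0, z0), upt p.1 p.2 < δ := by
    refine (continuous_upt.tendsto (z0, z0)).eventually (gt_mem_nhds ?_)
    simpa [upt_self] using hδ0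
  have hev3 := hev.and hev2
  rw [nhds_prod_eq] at hev3
  obtain ⟨t, ht, ht'⟩ := Filter.mem_prod_self_iff.mp hev3
  obtain ⟨U, hUt, hUo, hz0U⟩ := mem_nhds_iff.mp ht
  refine ⟨φ, ⟨?_, fun u hu => hφ0 u (hδ1.le.trans hu)⟩, U, hUo, hz0U, ?_⟩
  · exact Real.smoothTransition.contDiff.comp (contDiff_const.sub (contDiff_id.div_const δ))
  · intro z hz w hw
    obtain ⟨hA, hB⟩ := ht' (Set.mk_mem_prod (hUt hz) (hUt hw))
    have hne : (1 : SL(2, ℤ)) ≠ -1 := by
      intro h
      have := congrArg (fun g : SL(2, ℤ) => g 0 0) h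
      simp at this
    have hsum : autK φ z w = 2 * φ (upt z w) := by
      unfold autK
      rw [tsum_eq_sum (s := {1, -1})]
      · rw [Finset.sum_pair hne]
        rw [hφ0 _ (hA 1).2, hφ0 _ (hA (-1)).2, one_smul, SL_neg_smul, one_smul]
        ring
      · intro γ hγ
        simp only [Finset.mem_insert, Finset.mem_singleton, not_or] at hγ
        rw [hφ0 _ ((hA γ).1 hγ.1 hγ.2), hφ0 _ (hA γ).2, sub_zero]
    rw [hsum]
    have := hφpos _ hB
    positivity

/-- For a suitable test function the kernel operator is nonzero. -/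
lemma exists_test_autK_ne_zero : ∃ φ : ℝ → ℝ, IsTest φ ∧
    ∃ A : Set ℍ, MeasurableSet A ∧
      ¬ (∀ᵐ z ∂(volume.restrict (𝒟 : Set ℍ)), ∫ w in A, autK φ z w ∂(volume.restrict 𝒟) = 0) := by
  obtain ⟨φ, hφ, U, hUo, hz0U, hpos⟩ := exists_test_pos
  obtain ⟨C, hC⟩ := autK_bounded hφ
  set A : Set ℍ := U ∩ 𝒟ᵒ with hA
  have hAo : IsOpen A := hUo.inter isOpen_fdo
  have hAne : A.Nonempty := ⟨z0, hz0U, z0_mem⟩
  have hAsub : A ⊆ (𝒟 : Set ℍ) := fun w hw => fdo_subset_fd hw.2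
  have hAμ : 0 < (volume.restrict (𝒟 : Set ℍ)) A := by
    rw [Measure.restrict_apply hAo.measurableSet, Set.inter_eq_left.mpr hAsub]
    exact volume_pos_of_isOpen hAo hAne
  refine ⟨φ, hφ, A, hAo.measurableSet, fun hae => ?_⟩
  have hmeas : ∀ᵐ z ∂(volume.restrict (𝒟 : Set ℍ)), z ∉ A := by
    filter_upwards [hae] with z hz hzA
    have hcont : Continuous (fun w => autK φ z w) :=
      (autK_continuous hφ).comp (Continuous.prodMk_right z)
    have hfin : (volume.restrict (𝒟 : Set ℍ)) A < ⊤ :=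
      (measure_mono (Set.subset_univ A)).trans_lt (by
        rw [Measure.restrict_apply_univ]; exact volume_fd_lt_top)
    have hint : IntegrableOn (fun w => autK φ z w) A (volume.restrict (𝒟 : Set ℍ)) := by
      refine Measure.integrableOn_of_bounded (M := C) hfin.ne
        hcont.aestronglyMeasurable (Eventually.of_forall fun w => ?_)
      rw [Real.norm_eq_abs]
      exact hC z w
    have := (setIntegral_pos_iff_support_of_nonneg_ae (μ := volume.restrict (𝒟 : Set ℍ))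
      (f := fun w => autK φ z w) (s := A)
      ((ae_restrict_iff' hAo.measurableSet).mpr
        (Eventually.of_forall fun w hw => (hpos z hzA.1 w hw.1).le)) hint).mpr (by
        refine lt_of_lt_of_le hAμ (measure_mono fun w hw => ⟨?_, hw⟩)
        exact (hpos z hzA.1 w hw.1).ne')
    exact this.ne' hz
  have : (volume.restrict (𝒟 : Set ℍ)) A = 0 := by
    rw [ae_iff] at hmeas
    convert hmeas using 2
    ext z
    simp
  exact hAμ.ne' this

end

end Pool.Agent.Lib.Maass
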