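import Mathlib

/-!
# The K-Bessel function through its integral representation (chunk Bes)

`besselPhi ν y = ∫_ℝ exp (-2 π y cosh u) exp (ν u) du = 2 K_ν(2 π y)`.
-/

open Complex MeasureTheory Set Filter
open scoped Real Topology Nat

namespace Pool.Agent.Lib.Maass

noncomputable section

/-- `Φ_ν(y) = ∫_ℝ exp (-2 π y cosh u) exp (ν u) du = 2 K_ν(2 π y)`. -/
def besselPhi (ν : ℂ) (y : ℝ) : ℂ :=
  ∫ u : ℝ, ((Real.exp (-(2 * π * y * Real.cosh u)) : ℝ) : ℂ) * cexp (ν * u)

theorem integrable_cosh_rpow_mul_exp {σ a : ℝ} (h : |a| < σ) :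
    Integrable (fun u : ℝ => (Real.cosh u) ^ (-σ) * Real.exp (a * u)) := by
  have hσ : 0 < σ := lt_of_le_of_lt (abs_nonneg a) h
  have h1 : a - σ < 0 := by linarith [le_abs_self a]
  have h2 : 0 < a + σ := by linarith [neg_abs_le a]
  have hcont : Continuous (fun u : ℝ => (Real.cosh u) ^ (-σ) * Real.exp (a * u)) := by
    refine Continuous.mul (Real.continuous_cosh.rpow_const
      fun x => Or.inl (Real.cosh_pos x).ne') (by fun_prop)
  have key : ∀ u v : ℝ, Real.exp v / 2 ≤ Real.cosh u →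
      (Real.cosh u) ^ (-σ) ≤ 2 ^ σ * Real.exp (-σ * v) := by
    intro u v hv
    have h3 : (Real.cosh u) ^ (-σ) ≤ (Real.exp v / 2) ^ (-σ) :=
      Real.rpow_le_rpow_of_nonpos (by positivity) hv (by linarith)
    refine h3.trans (le_of_eq ?_)
    rw [Real.div_rpow (Real.exp_pos _).le (by norm_num), ← Real.exp_mul, Real.rpow_neg (by norm_num)]
    rw [div_inv_eq_mul, mul_comm]
    congr 2
    ring
  rw [← integrableOn_univ, ← Iic_union_Ioi (a := (0:ℝ))]
  refine IntegrableOn.union ?_ ?_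
  · refine Integrable.mono' ((integrableOn_exp_mul_Iic h2 0).const_mul (2 ^ σ))
      hcont.aestronglyMeasurable.restrict (ae_of_all _ fun u => ?_)
    rw [Real.norm_of_nonneg (by positivity)]
    have h3 := key u (-u) (by rw [Real.cosh_eq]; linarith [Real.exp_pos u])
    calc (Real.cosh u) ^ (-σ) * Real.exp (a * u)
        ≤ (2 ^ σ * Real.exp (-σ * (-u))) * Real.exp (a * u) := by gcongr
      _ = 2 ^ σ * Real.exp ((a + σ) * u) := by
        rw [mul_assoc, ← Real.exp_add]; congr 2; ring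
  · refine Integrable.mono' ((integrableOn_exp_mul_Ioi h1 0).const_mul (2 ^ σ))
      hcont.aestronglyMeasurable.restrict (ae_of_all _ fun u => ?_)
    rw [Real.norm_of_nonneg (by positivity)]
    have h3 := key u u (by rw [Real.cosh_eq]; linarith [Real.exp_pos (-u)])
    calc (Real.cosh u) ^ (-σ) * Real.exp (a * u)
        ≤ (2 ^ σ * Real.exp (-σ * u)) * Real.exp (a * u) := by gcongr
      _ = 2 ^ σ * Real.exp ((a - σ) * u) := by
        rw [mul_assoc, ← Real.exp_add]; congr 2; ring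

theorem pow_mul_exp_neg_le {c t : ℝ} (hc : 0 < c) (ht : 0 ≤ t) (k : ℕ) :
    t ^ k * Real.exp (-(c * t)) ≤ k ! / c ^ k := by
  have h1 := Real.pow_div_factorial_le_exp (c * t) (by positivity) k
  have hk : (0 : ℝ) < k ! := by exact_mod_cast Nat.factorial_pos k
  rw [div_le_iff₀ hk, mul_pow] at h1
  rw [Real.exp_neg, ← div_eq_mul_inv, div_le_div_iff₀ (Real.exp_pos _) (by positivity)]
  linarith

theorem cosh_pow_mul_exp_neg_le {c : ℝ} (hc : 0 < c) (k m : ℕ) (u : ℝ) :
    Real.cosh u ^ k * Real.exp (-(c * Real.cosh u)) ≤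
      ((k + m) ! / c ^ (k + m)) * (Real.cosh u) ^ (-(m : ℝ)) := by
  have hp := Real.cosh_pos u
  have h1 := pow_mul_exp_neg_le hc hp.le (k + m)
  rw [Real.rpow_neg hp.le, Real.rpow_natCast, ← div_eq_mul_inv, le_div_iff₀ (by positivity)]
  calc Real.cosh u ^ k * Real.exp (-(c * Real.cosh u)) * Real.cosh u ^ m
      = Real.cosh u ^ (k + m) * Real.exp (-(c * Real.cosh u)) := by rw [pow_add]; ring
    _ ≤ _ := h1

theorem integrable_cosh_pow_mul (k : ℕ) {c : ℝ} (hc : 0 < c) (a : ℝ) :
    Integrable (fun u : ℝ =>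
      Real.cosh u ^ k * Real.exp (-(c * Real.cosh u)) * Real.exp (a * u)) := by
  obtain ⟨m, hm⟩ := exists_nat_gt |a|
  have hcont : Continuous (fun u : ℝ =>
      Real.cosh u ^ k * Real.exp (-(c * Real.cosh u)) * Real.exp (a * u)) := by fun_prop
  refine ((integrable_cosh_rpow_mul_exp hm).const_mul ((k + m) ! / c ^ (k + m))).mono'
    hcont.aestronglyMeasurable (ae_of_all _ fun u => ?_)
  rw [Real.norm_of_nonneg (by positivity), ← mul_assoc]
  exact mul_le_mul_of_nonneg_right (cosh_pow_mul_exp_neg_le hc k m u) (Real.exp_pos _).le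

/-- Auxiliary integrals with powers of `cosh`. -/
def besselJ (k : ℕ) (ν : ℂ) (y : ℝ) : ℂ :=
  ∫ u : ℝ, ((Real.cosh u ^ k * Real.exp (-(2 * π * y * Real.cosh u)) : ℝ) : ℂ) * cexp (ν * u)

theorem besselPhi_eq (ν : ℂ) : besselPhi ν = besselJ 0 ν := by
  funext y
  simp [besselPhi, besselJ]

theorem norm_integrand (k : ℕ) (ν : ℂ) (c u : ℝ) :
    ‖((Real.cosh u ^ k * Real.exp (-(c * Real.cosh u)) : ℝ) : ℂ) * cexp (ν * u)‖ =
      Real.cosh u ^ k * Real.exp (-(c * Real.cosh u)) * Real.exp (ν.re * u) := by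
  have hp := Real.cosh_pos u
  rw [norm_mul, Complex.norm_real, Real.norm_of_nonneg (by positivity), Complex.norm_exp]
  simp

theorem continuous_integrand (k : ℕ) (ν : ℂ) (c : ℝ) :
    Continuous (fun u : ℝ =>
      ((Real.cosh u ^ k * Real.exp (-(c * Real.cosh u)) : ℝ) : ℂ) * cexp (ν * u)) := by
  refine Continuous.mul (Complex.continuous_ofReal.comp (by fun_prop)) (by fun_prop)

theorem integrable_integrand (k : ℕ) (ν : ℂ) {c : ℝ} (hc : 0 < c) :
    Integrable (fun u : ℝ =>
      ((Real.cosh u ^ k * Real.exp (-(c * Real.cosh u)) : ℝ) : ℂ) * cexp (ν * u)) := by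
  refine (integrable_cosh_pow_mul k hc ν.re).mono' (continuous_integrand k ν c).aestronglyMeasurable
    (ae_of_all _ fun u => ?_)
  rw [norm_integrand]

theorem hasDerivAt_besselJ (k : ℕ) (ν : ℂ) {y : ℝ} (hy : 0 < y) :
    HasDerivAt (besselJ k ν) (-(2 * π) * besselJ (k + 1) ν y) y := by
  have hpi := Real.pi_pos
  have hs : Ioi (y / 2) ∈ 𝓝 y := Ioi_mem_nhds (by linarith)
  have h := hasDerivAt_integral_of_dominated_loc_of_deriv_le (μ := volume) (x₀ := y)
    (s := Ioi (y / 2))
    (F := fun (y : ℝ) (u : ℝ) =>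
      ((Real.cosh u ^ k * Real.exp (-(2 * π * y * Real.cosh u)) : ℝ) : ℂ) * cexp (ν * u))
    (F' := fun (y : ℝ) (u : ℝ) => -(2 * π : ℂ) *
      (((Real.cosh u ^ (k + 1) * Real.exp (-(2 * π * y * Real.cosh u)) : ℝ) : ℂ) * cexp (ν * u)))
    (bound := fun u => 2 * π *
      (Real.cosh u ^ (k + 1) * Real.exp (-((π * y) * Real.cosh u)) * Real.exp (ν.re * u)))
    hs ?_ ?_ ?_ ?_ ?_ ?_
  · have h2 := h.2
    simp only [integral_const_mul] at h2
    exact h2
  · exact Eventually.of_forall fun z => (continuous_integrand k ν _).aestronglyMeasurable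
  · exact integrable_integrand k ν (by positivity)
  · exact (continuous_const.mul (continuous_integrand (k + 1) ν _)).aestronglyMeasurable
  · refine ae_of_all _ fun u z hz => ?_
    rw [norm_mul, norm_integrand]
    have e : ‖-(2 * π : ℂ)‖ = 2 * π := by
      rw [norm_neg, norm_mul, Complex.norm_real, Real.norm_of_nonneg hpi.le]; simp
    rw [e]
    have hp := Real.cosh_pos u
    have hz' : y / 2 ≤ z := le_of_lt hz
    have : Real.exp (-(2 * π * z * Real.cosh u)) ≤ Real.exp (-(π * y * Real.cosh u)) := by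
      apply Real.exp_le_exp.mpr
      have : π * y * Real.cosh u ≤ 2 * π * z * Real.cosh u := by
        apply mul_le_mul_of_nonneg_right _ hp.le
        nlinarith
      linarith
    gcongr
  · exact (integrable_cosh_pow_mul (k + 1) (by positivity) ν.re).const_mul _
  · refine ae_of_all _ fun u z hz => ?_
    have h1 : HasDerivAt (fun z : ℝ => Real.exp (-(2 * π * z * Real.cosh u)))
        (Real.exp (-(2 * π * z * Real.cosh u)) * (-(2 * π * 1 * Real.cosh u))) z := by
      apply HasDerivAt.exp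
      apply HasDerivAt.neg
      exact ((hasDerivAt_id z).const_mul (2 * π)).mul_const _
    have h2 := ((h1.const_mul (Real.cosh u ^ k)).ofReal_comp).mul_const (cexp (ν * u))
    refine HasDerivAt.congr_deriv h2 ?_
    push_cast
    ring

theorem hasDerivAt_besselPhi (ν : ℂ) {y : ℝ} (hy : 0 < y) :
    HasDerivAt (besselPhi ν) (-(2 * π) * besselJ 1 ν y) y := by
  rw [besselPhi_eq]
  exact hasDerivAt_besselJ 0 ν hy

/-- Integration by parts. -/
theorem besselJ_rec (ν : ℂ) {y : ℝ} (hy : 0 < y) :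
    4 * (π : ℂ) ^ 2 * (y : ℂ) ^ 2 * (besselJ 2 ν y - besselJ 0 ν y) - 2 * π * y * besselJ 1 ν y =
      ν ^ 2 * besselJ 0 ν y := by
  have hpi := Real.pi_pos
  have hc : 0 < 2 * π * y := by positivity
  set c : ℝ := 2 * π * y with hcdef
  have hI := fun k => integrable_integrand k ν hc
  -- the antiderivative
  set E : ℝ → ℂ := fun u => ((Real.exp (-(c * Real.cosh u)) : ℝ) : ℂ) * cexp (ν * u) with hE
  set S : ℝ → ℂ := fun u =>
    ((Real.sinh u * Real.exp (-(c * Real.cosh u)) : ℝ) : ℂ) * cexp (ν * u) with hS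
  have hEint : Integrable E := by simpa [hE] using hI 0
  have hSint : Integrable S := by
    refine (integrable_cosh_pow_mul 1 hc ν.re).mono'
      (Continuous.aestronglyMeasurable ?_) (ae_of_all _ fun u => ?_)
    · refine Continuous.mul (Complex.continuous_ofReal.comp (by fun_prop)) (by fun_prop)
    · have hp := Real.cosh_pos u
      rw [hS, norm_mul, Complex.norm_real, norm_mul, Complex.norm_exp, Real.norm_eq_abs,
        Real.norm_of_nonneg (Real.exp_pos _).le]
      have h1 : |Real.sinh u| ≤ Real.cosh u := by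
        rw [abs_le]
        rw [Real.sinh_eq, Real.cosh_eq]
        constructor <;> linarith [Real.exp_pos u, Real.exp_pos (-u)]
      have h2 : (ν * (u : ℂ)).re = ν.re * u := by simp
      rw [h2, pow_one]
      gcongr
  have hderiv : ∀ u : ℝ, HasDerivAt (fun u => -(c : ℂ) * S u - ν * E u)
      (((c : ℂ) ^ 2 * (((Real.cosh u ^ 2 * Real.exp (-(c * Real.cosh u)) : ℝ) : ℂ) * cexp (ν * u))
        - (c : ℂ) ^ 2 * (((Real.cosh u ^ 0 * Real.exp (-(c * Real.cosh u)) : ℝ) : ℂ) * cexp (ν * u)))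
        - (c : ℂ) * (((Real.cosh u ^ 1 * Real.exp (-(c * Real.cosh u)) : ℝ) : ℂ) * cexp (ν * u))
        - ν ^ 2 * (((Real.cosh u ^ 0 * Real.exp (-(c * Real.cosh u)) : ℝ) : ℂ) * cexp (ν * u))) u := by
    intro u
    have h1 : HasDerivAt (fun u : ℝ => Real.exp (-(c * Real.cosh u)))
        (Real.exp (-(c * Real.cosh u)) * (-(c * Real.sinh u))) u := by
      apply HasDerivAt.exp
      apply HasDerivAt.neg
      exact (Real.hasDerivAt_cosh u).const_mul c
    have h2 : HasDerivAt (fun u : ℝ => cexp (ν * u)) (cexp (ν * u) * (ν * 1)) u := by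
      apply HasDerivAt.cexp
      exact (hasDerivAt_id u).ofReal_comp.const_mul ν
    have h3 : HasDerivAt (fun u : ℝ => Real.sinh u * Real.exp (-(c * Real.cosh u)))
        (Real.cosh u * Real.exp (-(c * Real.cosh u)) +
          Real.sinh u * (Real.exp (-(c * Real.cosh u)) * (-(c * Real.sinh u)))) u :=
      (Real.hasDerivAt_sinh u).mul h1
    have h4 := ((h3.ofReal_comp.mul h2).const_mul (-(c : ℂ))).sub
      ((h1.ofReal_comp.mul h2).const_mul ν)
    refine HasDerivAt.congr_deriv h4 ?_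
    have h5 : ((Real.cosh u : ℝ) : ℂ) ^ 2 = ((Real.sinh u : ℝ) : ℂ) ^ 2 + 1 := by
      exact_mod_cast Real.cosh_sq u
    push_cast at h5 ⊢
    linear_combination (-((c : ℂ) ^ 2 * (cexp (-(c * Complex.cosh u)) * cexp (ν * u)))) * h5
  have i2 := (hI 2).const_mul ((c : ℂ) ^ 2)
  have i0 := (hI 0).const_mul ((c : ℂ) ^ 2)
  have i1 := (hI 1).const_mul (c : ℂ)
  have i0' := (hI 0).const_mul (ν ^ 2)
  have i20 := i2.sub i0
  have i201 := i20.sub i1
  have hzero := integral_eq_zero_of_hasDerivAt_of_integrable hderiv (i201.sub i0')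
    ((hSint.const_mul _).sub (hEint.const_mul _))
  rw [integral_sub (f := fun u : ℝ => _ - _) i201 i0',
    integral_sub (f := fun u : ℝ => _ - _) i20 i1, integral_sub i2 i0] at hzero
  simp only [integral_const_mul] at hzero
  have e : ∀ k, ∫ u : ℝ, ((Real.cosh u ^ k * Real.exp (-(c * Real.cosh u)) : ℝ) : ℂ) *
      cexp (ν * u) = besselJ k ν y := fun k => rfl
  rw [e 2, e 1, e 0] at hzero
  rw [hcdef] at hzero
  push_cast at hzero
  linear_combination hzero

/-- Decay of the auxiliary integrals. -/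
theorem norm_besselJ_le (k : ℕ) (ν : ℂ) : ∃ C A : ℝ, 0 ≤ C ∧ 0 ≤ A ∧ ∀ y : ℝ, 0 < y →
    ‖besselJ k ν y‖ ≤ C * y ^ (-A) * Real.exp (-(5 * y)) := by
  have hpi : 5 < 2 * π := by linarith [Real.pi_gt_three]
  set c : ℝ := 2 * π - 5 with hc
  have hc0 : 0 < c := by linarith
  obtain ⟨m, hm⟩ := exists_nat_gt |ν.re|
  have hint := integrable_cosh_rpow_mul_exp hm
  set I : ℝ := ∫ u : ℝ, (Real.cosh u) ^ (-(m : ℝ)) * Real.exp (ν.re * u) with hI
  have hI0 : 0 ≤ I := integral_nonneg fun u => by positivity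
  refine ⟨((k + m) ! / c ^ (k + m)) * I, (k + m : ℕ), by positivity, by positivity,
    fun y hy => ?_⟩
  have hbd : ∀ u : ℝ, ‖((Real.cosh u ^ k * Real.exp (-(2 * π * y * Real.cosh u)) : ℝ) : ℂ) *
      cexp (ν * u)‖ ≤ (Real.exp (-(5 * y)) * ((k + m) ! / (c * y) ^ (k + m))) *
        ((Real.cosh u) ^ (-(m : ℝ)) * Real.exp (ν.re * u)) := by
    intro u
    rw [norm_integrand]
    have h1 := cosh_pow_mul_exp_neg_le (mul_pos hc0 hy) k m u
    have h2 : Real.exp (-(2 * π * y * Real.cosh u)) ≤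
        Real.exp (-(5 * y)) * Real.exp (-(c * y * Real.cosh u)) := by
      rw [← Real.exp_add]
      apply Real.exp_le_exp.mpr
      have h3 := Real.one_le_cosh u
      have : 5 * y * 1 ≤ 5 * y * Real.cosh u := by gcongr
      rw [hc]
      nlinarith
    have hp := Real.cosh_pos u
    calc Real.cosh u ^ k * Real.exp (-(2 * π * y * Real.cosh u)) * Real.exp (ν.re * u)
        ≤ Real.cosh u ^ k * (Real.exp (-(5 * y)) * Real.exp (-(c * y * Real.cosh u))) *
          Real.exp (ν.re * u) := by gcongr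
      _ = Real.exp (-(5 * y)) * (Real.cosh u ^ k * Real.exp (-(c * y * Real.cosh u))) *
          Real.exp (ν.re * u) := by ring
      _ ≤ Real.exp (-(5 * y)) * (((k + m) ! / (c * y) ^ (k + m)) *
          (Real.cosh u) ^ (-(m : ℝ))) * Real.exp (ν.re * u) := by gcongr
      _ = _ := by ring
  have h := norm_integral_le_of_norm_le (hint.const_mul _) (ae_of_all _ hbd)
  unfold besselJ
  refine h.trans (le_of_eq ?_)
  rw [integral_const_mul, ← hI, Real.rpow_neg hy.le, Real.rpow_natCast, mul_pow]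
  field_simp

/-- The differential equation `y² Φ'' + y Φ' = (4 π² y² + ν²) Φ`. -/
theorem besselPhi_ode (ν : ℂ) : ∃ Φ1 Φ2 : ℝ → ℂ,
    (∀ y : ℝ, 0 < y → HasDerivAt (besselPhi ν) (Φ1 y) y) ∧
    (∀ y : ℝ, 0 < y → HasDerivAt Φ1 (Φ2 y) y) ∧
    (∀ y : ℝ, 0 < y →
      (y : ℂ) ^ 2 * Φ2 y + y * Φ1 y = (4 * (π : ℂ) ^ 2 * (y : ℂ) ^ 2 + ν ^ 2) * besselPhi ν y) ∧
    (∃ C : ℝ, ∀ y : ℝ, 1 ≤ y → ‖Φ1 y‖ ≤ C * Real.exp (-(5 * y))) := by
  have hpi := Real.pi_pos
  refine ⟨fun y => -(2 * π) * besselJ 1 ν y, fun y => -(2 * π) * (-(2 * π) * besselJ 2 ν y),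
    fun y hy => hasDerivAt_besselPhi ν hy, fun y hy => (hasDerivAt_besselJ 1 ν hy).const_mul _,
    fun y hy => ?_, ?_⟩
  · rw [besselPhi_eq]
    have h := besselJ_rec ν hy
    linear_combination h
  · obtain ⟨C, A, hC, hA, h⟩ := norm_besselJ_le 1 ν
    refine ⟨2 * π * C, fun y hy => ?_⟩
    have h1 := h y (by linarith)
    have e : ‖-(2 * π : ℂ)‖ = 2 * π := by
      rw [norm_neg, norm_mul, Complex.norm_real, Real.norm_of_nonneg hpi.le]; simp
    have h2 : y ^ (-A) ≤ 1 := Real.rpow_le_one_of_one_le_of_nonpos hy (by linarith)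
    have h3 : C * y ^ (-A) ≤ C * 1 := by gcongr
    rw [mul_one] at h3
    rw [norm_mul, e, mul_assoc (2 * π) C]
    refine mul_le_mul_of_nonneg_left (h1.trans ?_) (by positivity)
    exact mul_le_mul_of_nonneg_right h3 (Real.exp_pos _).le

/-- Polynomial growth at `0` (and exponential decay at `∞`), in one bound. -/
theorem besselPhi_bound (ν : ℂ) : ∃ C A : ℝ, 0 ≤ A ∧ ∀ y : ℝ, 0 < y →
    ‖besselPhi ν y‖ ≤ C * y ^ (-A) * Real.exp (-(5 * y)) := by
  rw [besselPhi_eq]
  obtain ⟨C, A, hC, hA, h⟩ := norm_besselJ_le 0 ν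
  exact ⟨C, A, hA, h⟩

/-- Exponential decay (note `5 < 2 π`). -/
theorem besselPhi_decay (ν : ℂ) :
    ∃ C : ℝ, ∀ y : ℝ, 1 ≤ y → ‖besselPhi ν y‖ ≤ C * Real.exp (-(5 * y)) := by
  rw [besselPhi_eq]
  obtain ⟨C, A, hC, hA, h⟩ := norm_besselJ_le 0 ν
  refine ⟨C, fun y hy => (h y (by linarith)).trans ?_⟩
  have h2 : y ^ (-A) ≤ 1 := Real.rpow_le_one_of_one_le_of_nonpos hy (by linarith)
  have : C * y ^ (-A) ≤ C * 1 := by gcongr
  rw [mul_one] at this
  gcongr

theorem besselPhi_continuousOn (ν : ℂ) : ContinuousOn (besselPhi ν) (Ioi 0) :=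
  fun _ hy => (hasDerivAt_besselPhi ν hy).continuousAt.continuousWithinAt

theorem cpow_ofReal_eq {x : ℝ} (hx : 0 < x) (a : ℂ) :
    (x : ℂ) ^ a = cexp (a * (Real.log x : ℝ)) := by
  rw [Complex.cpow_def_of_ne_zero (by exact_mod_cast hx.ne'), Complex.ofReal_log hx.le, mul_comm]

theorem sigmoid_two_mul (u : ℝ) : Real.sigmoid (2 * u) = Real.exp u / (2 * Real.cosh u) := by
  rw [Real.sigmoid_def, Real.cosh_eq]
  have h1 : Real.exp (-(2 * u)) = Real.exp (-u) / Real.exp u := by
    rw [← Real.exp_sub]; congr 1; ring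
  rw [h1]
  have := Real.exp_pos u
  have := Real.exp_pos (-u)
  field_simp

theorem one_sub_sigmoid_two_mul (u : ℝ) :
    1 - Real.sigmoid (2 * u) = Real.exp (-u) / (2 * Real.cosh u) := by
  rw [← Real.sigmoid_neg, ← mul_neg, sigmoid_two_mul, Real.cosh_neg]

theorem betaIntegral_eq (a b : ℂ) :
    Complex.betaIntegral a b =
      2 * ∫ u : ℝ, ((2 * Real.cosh u : ℝ) : ℂ) ^ (-(a + b)) * cexp ((a - b) * u) := by
  have h1 : Complex.betaIntegral a b =
      ∫ v : ℝ, ((Real.sigmoid v : ℝ) : ℂ) ^ a * ((1 - Real.sigmoid v : ℝ) : ℂ) ^ b := by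
    rw [Complex.betaIntegral, intervalIntegral.integral_of_le zero_le_one,
      integral_Ioc_eq_integral_Ioo, ← Real.range_sigmoid, ← image_univ,
      integral_image_eq_integral_abs_deriv_smul MeasurableSet.univ
        (fun x _ => (Real.hasDerivAt_sigmoid x).hasDerivWithinAt) (Real.sigmoid_injective.injOn),
      setIntegral_univ]
    refine integral_congr_ae (ae_of_all _ fun v => ?_)
    have hp := Real.sigmoid_pos v
    have hq : 0 < 1 - Real.sigmoid v := by linarith [Real.sigmoid_lt_one v]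
    have hp' : ((Real.sigmoid v : ℝ) : ℂ) ≠ 0 := by exact_mod_cast hp.ne'
    have hq' : ((1 - Real.sigmoid v : ℝ) : ℂ) ≠ 0 := by exact_mod_cast hq.ne'
    simp only
    rw [abs_of_pos (mul_pos hp hq)]
    rw [← Complex.ofReal_one, ← Complex.ofReal_sub, Complex.ofReal_one,
      Complex.cpow_sub _ _ hp', Complex.cpow_sub _ _ hq', Complex.cpow_one, Complex.cpow_one,
      Complex.real_smul]
    push_cast at hp' hq' ⊢
    field_simp
  have h2 := MeasureTheory.Measure.integral_comp_mul_left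
    (fun v : ℝ => ((Real.sigmoid v : ℝ) : ℂ) ^ a * ((1 - Real.sigmoid v : ℝ) : ℂ) ^ b) 2
  have h3 : ∫ v : ℝ, ((Real.sigmoid v : ℝ) : ℂ) ^ a * ((1 - Real.sigmoid v : ℝ) : ℂ) ^ b =
      2 * ∫ u : ℝ, ((Real.sigmoid (2 * u) : ℝ) : ℂ) ^ a *
        ((1 - Real.sigmoid (2 * u) : ℝ) : ℂ) ^ b := by
    rw [h2, abs_of_pos (by norm_num), Complex.real_smul]
    push_cast
    ring
  rw [h1, h3]
  congr 1
  refine integral_congr_ae (ae_of_all _ fun u => ?_)
  have hc := Real.cosh_pos u
  simp only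
  rw [one_sub_sigmoid_two_mul, sigmoid_two_mul, cpow_ofReal_eq (by positivity),
    cpow_ofReal_eq (by positivity), cpow_ofReal_eq (by positivity),
    Real.log_div (Real.exp_pos _).ne' (by positivity),
    Real.log_div (Real.exp_pos _).ne' (by positivity), Real.log_exp, Real.log_exp,
    ← Complex.exp_add, ← Complex.exp_add]
  congr 1
  push_cast
  ring

/-- The Mellin transform. -/
theorem besselPhi_mellin (ν s : ℂ) (hs : |ν.re| < s.re) :
    HasMellin (besselPhi ν) s
      (1 / 2 * (π : ℂ) ^ (-s) * Complex.Gamma ((s + ν) / 2) * Complex.Gamma ((s - ν) / 2)) := by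
  have hpi := Real.pi_pos
  have hs0 : 0 < s.re := lt_of_le_of_lt (abs_nonneg _) hs
  have ha : 0 < ((s + ν) / 2).re := by
    simp only [Complex.div_ofNat_re, Complex.add_re]
    linarith [neg_abs_le ν.re]
  have hb : 0 < ((s - ν) / 2).re := by
    simp only [Complex.div_ofNat_re, Complex.sub_re]
    linarith [le_abs_self ν.re]
  set G : ℝ × ℝ → ℂ := fun p => (p.1 : ℂ) ^ (s - 1) *
    (((Real.exp (-(2 * π * p.1 * Real.cosh p.2)) : ℝ) : ℂ) * cexp (ν * p.2)) with hG
  have hGm : AEStronglyMeasurable G ((volume.restrict (Ioi (0 : ℝ))).prod (volume : Measure ℝ)) := by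
    refine Measurable.aestronglyMeasurable ?_
    refine Measurable.mul ?_ (Continuous.measurable ?_)
    · exact (Complex.measurable_ofReal.comp measurable_fst).pow_const _
    · exact Continuous.mul (Complex.continuous_ofReal.comp (by fun_prop)) (by fun_prop)
  -- pointwise norm
  have hnorm : ∀ u : ℝ, ∀ y ∈ Ioi (0 : ℝ), ‖G (y, u)‖ =
      y ^ (s.re - 1) * Real.exp (-((2 * π * Real.cosh u) * y)) * Real.exp (ν.re * u) := by
    intro u y hy
    have hy' : 0 < y := hy
    rw [hG]
    simp only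
    rw [norm_mul, norm_mul, Complex.norm_cpow_eq_rpow_re_of_pos hy', Complex.norm_real,
      Real.norm_of_nonneg (Real.exp_pos _).le, Complex.norm_exp, Complex.sub_re, Complex.one_re]
    have e1 : (ν * (u : ℂ)).re = ν.re * u := by simp
    have e2 : 2 * π * y * Real.cosh u = 2 * π * Real.cosh u * y := by ring
    rw [e1, e2, ← mul_assoc]
  have hbase : ∀ u : ℝ, ∫ y in Ioi (0 : ℝ), y ^ (s.re - 1) *
      Real.exp (-((2 * π * Real.cosh u) * y)) = (1 / (2 * π * Real.cosh u)) ^ s.re *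
        Real.Gamma s.re := by
    intro u
    have hc := Real.cosh_pos u
    exact Real.integral_rpow_mul_exp_neg_mul_Ioi hs0 (by positivity)
  have hbaseInt : ∀ u : ℝ, IntegrableOn (fun y : ℝ => y ^ (s.re - 1) *
      Real.exp (-((2 * π * Real.cosh u) * y))) (Ioi 0) := by
    intro u
    have hc := Real.cosh_pos u
    refine .of_integral_ne_zero ?_
    rw [hbase u]
    have := Real.Gamma_pos_of_pos hs0
    positivity
  have hGint : Integrable G ((volume.restrict (Ioi (0 : ℝ))).prod (volume : Measure ℝ)) := by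
    rw [integrable_prod_iff' hGm]
    constructor
    · refine ae_of_all _ fun u => ?_
      refine Integrable.mono' ((hbaseInt u).mul_const (Real.exp (ν.re * u))) ?_ ?_
      · refine Measurable.aestronglyMeasurable ?_
        refine Measurable.mul ?_ (Continuous.measurable ?_)
        · exact (Complex.measurable_ofReal).pow_const _
        · exact Continuous.mul (Complex.continuous_ofReal.comp (by fun_prop)) (by fun_prop)
      · refine (ae_restrict_iff' measurableSet_Ioi).mpr (ae_of_all _ fun y hy => ?_)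
        rw [hnorm u y hy]
    · have e : (fun u : ℝ => ∫ y in Ioi (0 : ℝ), ‖G (y, u)‖) = fun u : ℝ =>
          ((1 / (2 * π)) ^ s.re * Real.Gamma s.re) *
            ((Real.cosh u) ^ (-s.re) * Real.exp (ν.re * u)) := by
        funext u
        rw [setIntegral_congr_fun measurableSet_Ioi (hnorm u), integral_mul_const, hbase u]
        have hc := Real.cosh_pos u
        rw [one_div, mul_inv, Real.mul_rpow (by positivity) (by positivity),
          Real.inv_rpow hc.le, ← Real.rpow_neg hc.le, one_div]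
        ring
      rw [e]
      exact (integrable_cosh_rpow_mul_exp hs).const_mul _
  have hinner : ∀ y : ℝ, ∫ u : ℝ, G (y, u) = (y : ℂ) ^ (s - 1) • besselPhi ν y := by
    intro y
    rw [hG, smul_eq_mul, besselPhi, ← integral_const_mul]
  refine ⟨?_, ?_⟩
  · have h := hGint.integral_prod_left
    simp only [hinner] at h
    exact h
  · have hswap : ∫ y in Ioi (0 : ℝ), ∫ u : ℝ, G (y, u) =
        ∫ u : ℝ, ∫ y in Ioi (0 : ℝ), G (y, u) :=
      integral_integral_swap (f := fun y u => G (y, u)) hGint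
    simp only [hinner] at hswap
    rw [mellin, hswap]
    have hin : ∀ u : ℝ, ∫ y in Ioi (0 : ℝ), G (y, u) =
        Complex.Gamma s * (π : ℂ) ^ (-s) * (((2 * Real.cosh u : ℝ) : ℂ) ^ (-s) * cexp (ν * u)) := by
      intro u
      have hc := Real.cosh_pos u
      have h1 := Complex.integral_cpow_mul_exp_neg_mul_Ioi (a := s) (r := 2 * π * Real.cosh u) hs0
        (by positivity)
      have h2 : ∀ y : ℝ, G (y, u) = ((y : ℂ) ^ (s - 1) *
          cexp (-(((2 * π * Real.cosh u : ℝ) : ℂ) * y))) * cexp (ν * u) := by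
        intro y
        rw [hG]
        simp only
        rw [Complex.ofReal_exp, ← mul_assoc]
        have e3 : ((-(2 * π * y * Real.cosh u) : ℝ) : ℂ) =
            -(((2 * π * Real.cosh u : ℝ) : ℂ) * y) := by
          push_cast
          ring
        rw [e3]
      simp only [h2]
      rw [integral_mul_const, h1]
      have h3 : (1 / ((2 * π * Real.cosh u : ℝ) : ℂ)) ^ s =
          (π : ℂ) ^ (-s) * ((2 * Real.cosh u : ℝ) : ℂ) ^ (-s) := by
        have e1 : (1 / ((2 * π * Real.cosh u : ℝ) : ℂ)) =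
            ((1 / (2 * π * Real.cosh u) : ℝ) : ℂ) := by push_cast; ring
        rw [e1, cpow_ofReal_eq (by positivity), cpow_ofReal_eq hpi, cpow_ofReal_eq (by positivity),
          ← Complex.exp_add]
        congr 1
        have e2 : Real.log (1 / (2 * π * Real.cosh u)) =
            -(Real.log π + Real.log (2 * Real.cosh u)) := by
          rw [← Real.log_mul hpi.ne' (by positivity), ← Real.log_inv]
          congr 1
          rw [one_div]
          congr 1
          ring
        rw [e2]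
        push_cast
        ring
      rw [h3]
      ring
    simp only [hin]
    rw [integral_const_mul]
    have hbeta := betaIntegral_eq ((s + ν) / 2) ((s - ν) / 2)
    have e1 : (s + ν) / 2 + (s - ν) / 2 = s := by ring
    have e2 : (s + ν) / 2 - (s - ν) / 2 = ν := by ring
    rw [e1, e2] at hbeta
    have hG2 := Complex.Gamma_mul_Gamma_eq_betaIntegral ha hb
    rw [e1, hbeta] at hG2
    linear_combination (-(1 / 2) * (π : ℂ) ^ (-s)) * hG2

theorem exists_besselPhi_ne_zero (ν : ℂ) : ∃ y : ℝ, 0 < y ∧ besselPhi ν y ≠ 0 := by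
  by_contra hcon
  push Not at hcon
  have hs : |ν.re| < ((|ν.re| + 1 : ℝ) : ℂ).re := by
    rw [Complex.ofReal_re]; linarith
  set s : ℂ := ((|ν.re| + 1 : ℝ) : ℂ) with hsdef
  have hs0 : 0 < s.re := lt_of_le_of_lt (abs_nonneg _) hs
  have ha : 0 < ((s + ν) / 2).re := by
    simp only [Complex.div_ofNat_re, Complex.add_re]
    linarith [neg_abs_le ν.re]
  have hb : 0 < ((s - ν) / 2).re := by
    simp only [Complex.div_ofNat_re, Complex.sub_re]
    linarith [le_abs_self ν.re]
  obtain ⟨-, hm⟩ := besselPhi_mellin ν s hs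
  have h0 : mellin (besselPhi ν) s = 0 := by
    rw [mellin]
    have : ∀ y ∈ Ioi (0 : ℝ), (y : ℂ) ^ (s - 1) • besselPhi ν y = 0 := by
      intro y hy
      rw [hcon y hy, smul_zero]
    rw [setIntegral_congr_fun measurableSet_Ioi this]
    simp
  rw [h0] at hm
  have h1 := Complex.Gamma_ne_zero_of_re_pos ha
  have h2 := Complex.Gamma_ne_zero_of_re_pos hb
  have h3 : (π : ℂ) ^ (-s) ≠ 0 := by
    rw [cpow_ofReal_eq Real.pi_pos]
    exact Complex.exp_ne_zero _
  exact (mul_ne_zero (mul_ne_zero (mul_ne_zero (by norm_num) h3) h1) h2) hm.symm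

end

end Pool.Agent.Lib.Maass
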