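import Mathlib

/-!
# Hecke–Maass cusp forms of level one and their quadratic twists: definitions

A Hecke–Maass cusp form of level one is the classical form of the (unique up to scalars) spherical
vector of an everywhere unramified irreducible cuspidal automorphic representation of `PGL₂` over
the adeles of `ℚ` whose archimedean component is a principal series.
-/

open UpperHalfPlane Complex
open scoped MatrixGroups ContDiff

namespace Pool.Agent.Lib.Maass

noncomputable section

/-- The Hecke operator `T_p` (unitarily normalised) on functions on the upper half-plane: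
`(T_p f)(z) = p^{-1/2} (f (p z) + ∑_{0 ≤ b < p} f ((z + b) / p))`. -/
def heckeOp (p : ℕ) (f : ℍ → ℂ) (z : ℍ) : ℂ :=
  ((Real.sqrt p : ℝ) : ℂ)⁻¹ *
    (f (ofComplex (p * z)) + ∑ b ∈ Finset.range p, f (ofComplex ((z + b) / p)))

/-- A Hecke–Maass cusp form for `SL(2, ℤ)`: a smooth, bounded, nonzero function on the upper
half-plane, invariant under `SL(2, ℤ)`, an eigenfunction of the hyperbolic Laplacian
`- y ^ 2 (∂ ^ 2 / ∂ x ^ 2 + ∂ ^ 2 / ∂ y ^ 2)`, with vanishing constant term at the cusp,
even or odd under the reflection `J : z ↦ - conj z`, and an eigenfunction of all Hecke operators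
`T_p`, `p` prime. -/
structure HeckeMaassForm where
  /-- the underlying function -/
  toFun : ℍ → ℂ
  /-- the eigenvalue of the hyperbolic Laplacian -/
  lam : ℂ
  /-- the parity: `1` for an even form, `-1` for an odd form -/
  parity : ℤˣ
  /-- the Hecke eigenvalue at a prime `p` (the values at non-primes are irrelevant) -/
  hecke : ℕ → ℂ
  smooth' : ContDiffOn ℝ ∞ (toFun ∘ ofComplex) {z : ℂ | 0 < z.im}
  bounded' : ∃ C : ℝ, ∀ z : ℍ, ‖toFun z‖ ≤ C
  ne_zero' : ∃ z : ℍ, toFun z ≠ 0
  map_smul' : ∀ (γ : SL(2, ℤ)) (z : ℍ), toFun (γ • z) = toFun z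
  laplace' : ∀ z : ℍ,
    -(z.im : ℂ) ^ 2 * Laplacian.laplacian (toFun ∘ ofComplex) (z : ℂ) = lam * toFun z
  cuspidal' : ∀ y : ℝ, 0 < y → ∫ x in (0 : ℝ)..1, toFun (ofComplex (x + y * Complex.I)) = 0
  map_J' : ∀ z : ℍ, toFun (J • z) = ((parity : ℤ) : ℂ) * toFun z
  hecke' : ∀ p : ℕ, p.Prime → ∀ z : ℍ, heckeOp p toFun z = hecke p * toFun z

/-- The Euler factor at a prime `p` of the standard `L`-function of `π_F ⊗ χ`, for `χ` a Dirichlet
character with `χ ^ 2 = 1` (trivial central character):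
`(1 - λ_p χ(p) p^{-s} + χ(p)^2 p^{-2s})⁻¹`. -/
def HeckeMaassForm.eulerFactor (F : HeckeMaassForm) {q : ℕ} (χ : DirichletCharacter ℂ q)
    (s : ℂ) (p : Nat.Primes) : ℂ :=
  (1 - F.hecke p * χ (p : ℕ) * ((p : ℕ) : ℂ) ^ (-s) +
    χ (p : ℕ) ^ 2 * (((p : ℕ) : ℂ) ^ (-s)) ^ 2)⁻¹

/-- `L` is the (entire) standard `L`-function of the twist `π_F ⊗ χ`: it is entire, and for
`Re s > 3/2` it is given by the (unconditionally convergent) Euler product. By the identity
theorem there is at most one such `L`. -/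
def HeckeMaassForm.IsTwistedLFunction (F : HeckeMaassForm) {q : ℕ} (χ : DirichletCharacter ℂ q)
    (L : ℂ → ℂ) : Prop :=
  Differentiable ℂ L ∧ ∀ s : ℂ, 3 / 2 < s.re → HasProd (F.eulerFactor χ s) (L s)

end

end Pool.Agent.Lib.Maass
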