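import Pool.Agent.Lib.Maass.PointPair

/-!
# Hecke operators on `SL(2, ℤ)`-invariant functions (chunk H)
-/

open UpperHalfPlane Complex MeasureTheory ModularGroup
open scoped MatrixGroups ContDiff

namespace Pool.Agent.Lib.Maass

noncomputable section

/-- Invariance under `SL(2, ℤ)`. -/
def IsInv (f : ℍ → ℂ) : Prop := ∀ (γ : SL(2, ℤ)) (z : ℍ), f (γ • z) = f z

/-- Oddness under the reflection `J`. -/
def IsOddFn (f : ℍ → ℂ) : Prop := ∀ z : ℍ, f (J • z) = - f z

/-- Invariance under Möbius transformations with integral coefficients, in terms of complex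
coordinates. -/
lemma IsInv.mobius {f : ℍ → ℂ} (hf : IsInv f) {a b c d : ℤ} (h : a * d - b * c = 1) {w : ℂ}
    (hw : 0 < w.im) : f (ofComplex ((a * w + b) / (c * w + d))) = f (ofComplex w) := by
  let γ : SL(2, ℤ) := ⟨!![a, b; c, d], by rw [Matrix.det_fin_two_of]; exact h⟩
  have h1 : ((γ • (⟨w, hw⟩ : ℍ) : ℍ) : ℂ) = (a * w + b) / (c * w + d) := by
    rw [coe_specialLinearGroup_apply]
    simp [γ]
  rw [← h1, ofComplex_apply, hf, ofComplex_apply_of_im_pos hw]

lemma IsInv.add_int {f : ℍ → ℂ} (hf : IsInv f) (n : ℤ) {w : ℂ} (hw : 0 < w.im) :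
    f (ofComplex (w + n)) = f (ofComplex w) := by
  have h := hf.mobius (a := 1) (b := n) (c := 0) (d := 1) (by ring) hw
  simpa using h

lemma IsInv.neg_inv {f : ℍ → ℂ} (hf : IsInv f) {w : ℂ} (hw : 0 < w.im) :
    f (ofComplex (-1 / w)) = f (ofComplex w) := by
  have h := hf.mobius (a := 0) (b := -1) (c := 1) (d := 0) (by ring) hw
  simpa using h

lemma isInv_of_S_T {f : ℍ → ℂ} (hS : ∀ z : ℍ, f (ofComplex (-1 / z)) = f z)
    (hT : ∀ z : ℍ, f (ofComplex (z + 1)) = f z) : IsInv f := by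
  let K : Subgroup SL(2, ℤ) :=
    { carrier := {γ | ∀ z : ℍ, f (γ • z) = f z}
      mul_mem' := fun {a b} ha hb z => by rw [mul_smul, ha, hb]
      one_mem' := fun z => by rw [one_smul]
      inv_mem' := fun {a} ha z => by
        have := ha (a⁻¹ • z)
        rw [smul_inv_smul] at this
        exact this.symm }
  have hK : K = ⊤ := by
    rw [eq_top_iff, ← SpecialLinearGroup.SL2Z_generators, Subgroup.closure_le]
    rintro γ (rfl | rfl)
    · intro z
      have h1 : ((ModularGroup.S • z : ℍ) : ℂ) = -1 / z := by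
        rw [coe_specialLinearGroup_apply]
        simp [ModularGroup.S]
      rw [← hS z, ← h1, ofComplex_apply]
    · intro z
      have h1 : ((ModularGroup.T • z : ℍ) : ℂ) = z + 1 := by
        rw [coe_specialLinearGroup_apply]
        simp [ModularGroup.T]
      rw [← hT z, ← h1, ofComplex_apply]
  intro γ z
  have : γ ∈ K := by rw [hK]; trivial
  exact this z

lemma im_add_div_pos {p : ℕ} (hp : p.Prime) {w : ℂ} (hw : 0 < w.im) (r : ℝ) :
    0 < ((w + r) / p).im := by
  have h : (w + r) / p = ((1 / p : ℝ) : ℂ) * (w + r) := by push_cast; ring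
  rw [h, Complex.im_ofReal_mul]
  have : (0 : ℝ) < p := by exact_mod_cast hp.pos
  simp only [Complex.add_im, Complex.ofReal_im, add_zero]
  positivity

lemma im_mul_pos' {p : ℕ} (hp : p.Prime) {w : ℂ} (hw : 0 < w.im) :
    0 < ((p : ℂ) * w).im := by
  have h : ((p : ℂ) * w) = ((p : ℝ) : ℂ) * w := by push_cast; ring
  rw [h, Complex.im_ofReal_mul]
  have : (0 : ℝ) < p := by exact_mod_cast hp.pos
  positivity

/-- `f((w + n)/p)` only depends on `n` modulo `p`. -/
lemma IsInv.zmod {f : ℍ → ℂ} (hf : IsInv f) {p : ℕ} (hp : p.Prime) {w : ℂ} (hw : 0 < w.im)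
    (n : ℤ) : f (ofComplex ((w + n) / p)) =
      f (ofComplex ((w + ((n : ZMod p).val : ℂ)) / p)) := by
  have hp0 : (p : ℂ) ≠ 0 := by exact_mod_cast hp.ne_zero
  have : NeZero p := ⟨hp.ne_zero⟩
  have h1 : (((n : ZMod p).val : ℤ) : ℂ) = ((n % (p : ℤ) : ℤ) : ℂ) := by
    rw [ZMod.val_intCast]
  have h2 : (n : ℂ) = ((n : ZMod p).val : ℂ) + p * ((n / (p : ℤ) : ℤ) : ℂ) := by
    have h3 : n = n % (p : ℤ) + p * (n / (p : ℤ)) := (Int.emod_add_mul_ediv n p).symm
    have h4 : (n : ℂ) = ((n % (p : ℤ) + p * (n / (p : ℤ)) : ℤ) : ℂ) := by rw [← h3]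
    rw [h4]
    push_cast at h1 ⊢
    rw [h1]
  have h5 : (w + n) / p = (w + ((n : ZMod p).val : ℂ)) / p + ((n / (p : ℤ) : ℤ) : ℂ) := by
    rw [h2]
    field_simp
    push_cast
    ring
  rw [h5]
  refine hf.add_int _ ?_
  exact_mod_cast im_add_div_pos hp hw (((n : ZMod p).val : ℕ) : ℝ)

lemma sum_range_zmod {p : ℕ} (hp : p.Prime) (g : ℕ → ℂ) :
    haveI : NeZero p := ⟨hp.ne_zero⟩
    ∑ b ∈ Finset.range p, g b = ∑ x : ZMod p, g x.val := by
  have : NeZero p := ⟨hp.ne_zero⟩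
  refine Finset.sum_nbij' (fun b => (b : ZMod p)) (fun x => x.val) ?_ ?_ ?_ ?_ ?_
  · intro b _; simp
  · intro x _
    simp [ZMod.val_lt x]
  · intro b hb
    exact ZMod.val_cast_of_lt (Finset.mem_range.mp hb)
  · intro x _
    exact ZMod.natCast_zmod_val x
  · intro b hb
    rw [ZMod.val_cast_of_lt (Finset.mem_range.mp hb)]

lemma heckeOp_isInv {p : ℕ} (hp : p.Prime) {f : ℍ → ℂ} (hf : IsInv f) :
    IsInv (heckeOp p f) := by
  have : NeZero p := ⟨hp.ne_zero⟩
  have : Fact p.Prime := ⟨hp⟩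
  have hp0 : (p : ℂ) ≠ 0 := by exact_mod_cast hp.ne_zero
  apply isInv_of_S_T
  · intro z
    have hz : 0 < (z : ℂ).im := z.im_pos
    have hz0 : (z : ℂ) ≠ 0 := z.ne_zero
    have hSz : 0 < (-1 / (z : ℂ)).im := by
      have : (-1 / (z : ℂ)) = ((ModularGroup.S • z : ℍ) : ℂ) := by
        rw [coe_specialLinearGroup_apply]
        simp [ModularGroup.S]
      rw [this]
      exact (ModularGroup.S • z : ℍ).im_pos
    unfold heckeOp
    rw [UpperHalfPlane.ofComplex_apply_of_im_pos hSz]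
    congr 1
    rw [sum_range_zmod hp (fun b => f (ofComplex ((-1 / (z : ℂ) + b) / p))),
      sum_range_zmod hp (fun b => f (ofComplex (((z : ℂ) + b) / p)))]
    set G : ZMod p → ℂ := fun x => f (ofComplex (((z : ℂ) + (x.val : ℂ)) / p)) with hG
    set H : ZMod p → ℂ := fun x => f (ofComplex ((-1 / (z : ℂ) + (x.val : ℂ)) / p)) with hH
    have hH0 : H 0 = f (ofComplex (p * z)) := by
      simp only [hH, ZMod.val_zero, Nat.cast_zero, add_zero]
      rw [← hf.neg_inv (im_mul_pos' hp hz)]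
      congr 2
      field_simp
    have hG0 : G 0 = f (ofComplex (p * (-1 / z))) := by
      simp only [hG, ZMod.val_zero, Nat.cast_zero, add_zero]
      have him : 0 < ((z : ℂ) / p).im := by
        have := im_add_div_pos hp hz 0
        simpa using this
      rw [← hf.neg_inv him]
      congr 2
      field_simp
    have hHG : ∀ x : ZMod p, x ≠ 0 → H x = G (-x⁻¹) := by
      intro x hx
      have h1 : ((x.val : ℤ) * ((-x⁻¹ : ZMod p).val : ℤ) + 1 : ℤ) ≡ 0 [ZMOD p] := by
        rw [← ZMod.intCast_eq_intCast_iff]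
        push_cast
        rw [ZMod.natCast_zmod_val, ZMod.natCast_zmod_val]
        field_simp
        ring
      obtain ⟨k, hk⟩ := (Int.modEq_zero_iff_dvd.mp h1)
      have hmob := hf.mobius (a := x.val) (b := -k) (c := p) (d := -((-x⁻¹ : ZMod p).val : ℤ))
        (by linarith) (im_add_div_pos hp hz (((-x⁻¹ : ZMod p).val : ℕ) : ℝ))
      have hk' : ((x.val : ℂ) * ((-x⁻¹ : ZMod p).val : ℂ) + 1) = p * k := by exact_mod_cast hk
      simp only [hG, hH]
      push_cast at hmob ⊢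
      rw [← hmob]
      congr 2
      have e1 : (p : ℂ) * (((z : ℂ) + ((-x⁻¹ : ZMod p).val : ℂ)) / p) +
          -((-x⁻¹ : ZMod p).val : ℂ) = z := by
        rw [mul_div_cancel₀ _ hp0]; ring
      rw [e1, eq_div_iff hz0, div_mul_eq_mul_div, div_eq_iff hp0]
      have e2 : (-1 / (z : ℂ) + (x.val : ℂ)) * z = -1 + x.val * z := by
        field_simp
      rw [e2]
      have e3 : ((x.val : ℂ) * (((z : ℂ) + ((-x⁻¹ : ZMod p).val : ℂ)) / p) + -(k : ℂ)) * p =
          x.val * (z + ((-x⁻¹ : ZMod p).val : ℂ)) - k * p := by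
        field_simp
        ring
      rw [e3]
      linear_combination -hk'
    have hsum : ∑ x, H x = ∑ x, G (-x⁻¹) + (H 0 - G 0) := by
      have h1 : ∀ x ∈ (Finset.univ : Finset (ZMod p)), H x = G (-x⁻¹) +
          (if x = 0 then H 0 - G 0 else 0) := by
        intro x _
        by_cases hx : x = 0
        · subst hx; simp
        · rw [if_neg hx, add_zero, hHG x hx]
      rw [Finset.sum_congr rfl h1, Finset.sum_add_distrib]
      simp
    have hinv : ∑ x, G (-x⁻¹) = ∑ x, G x := by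
      have hi : Function.Involutive (fun x : ZMod p => -x⁻¹) := by
        intro x
        simp [inv_neg]
      exact Equiv.sum_comp (hi.toPerm _) G
    rw [hsum, hinv, hH0, ← hG0]
    ring
  · intro z
    have hz : 0 < (z : ℂ).im := z.im_pos
    have hz1 : 0 < ((z : ℂ) + 1).im := by simpa using hz
    unfold heckeOp
    rw [UpperHalfPlane.ofComplex_apply_of_im_pos hz1]
    congr 1
    have h1 : f (ofComplex (p * ((z : ℂ) + 1))) = f (ofComplex (p * z)) := by
      have := hf.add_int (p : ℤ) (im_mul_pos' hp hz)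
      rw [← this]
      congr 2
      push_cast
      ring
    rw [h1, sum_range_zmod hp (fun b => f (ofComplex (((z : ℂ) + 1 + b) / p))),
      sum_range_zmod hp (fun b => f (ofComplex (((z : ℂ) + b) / p)))]
    congr 1
    have h2 : ∀ x : ZMod p, f (ofComplex (((z : ℂ) + 1 + (x.val : ℂ)) / p)) =
        f (ofComplex (((z : ℂ) + ((x + 1 : ZMod p).val : ℂ)) / p)) := by
      intro x
      have := hf.zmod hp hz ((x.val : ℤ) + 1)
      have h3 : (((x.val : ℤ) + 1 : ℤ) : ZMod p) = x + 1 := by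
        push_cast
        rw [ZMod.natCast_zmod_val]
      rw [h3] at this
      rw [← this]
      congr 2
      push_cast
      ring
    simp only [h2]
    exact Equiv.sum_comp (Equiv.addRight (1 : ZMod p))
      (fun x => f (ofComplex (((z : ℂ) + (x.val : ℂ)) / p)))

/-- Oddness in terms of complex coordinates. -/
lemma IsOddFn.coord {f : ℍ → ℂ} (hf : IsOddFn f) {w : ℂ} (hw : 0 < w.im) :
    f (ofComplex (-(starRingEnd ℂ) w)) = - f (ofComplex w) := by
  rw [← hf (ofComplex w)]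
  congr 1
  have h1 : ((J • ofComplex w : ℍ) : ℂ) = -(starRingEnd ℂ) w := by
    rw [coe_J_smul, ofComplex_apply_of_im_pos hw]
  rw [← h1, ofComplex_apply]

lemma heckeOp_isOdd {p : ℕ} (hp : p.Prime) {f : ℍ → ℂ} (hf : IsInv f) (hf' : IsOddFn f) :
    IsOddFn (heckeOp p f) := by
  have : NeZero p := ⟨hp.ne_zero⟩
  intro z
  have hz : 0 < (z : ℂ).im := z.im_pos
  have hJ : ((J • z : ℍ) : ℂ) = -(starRingEnd ℂ) (z : ℂ) := coe_J_smul z
  unfold heckeOp
  rw [hJ, ← mul_neg]
  congr 1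
  have h1 : f (ofComplex (p * -(starRingEnd ℂ) (z : ℂ))) = - f (ofComplex (p * z)) := by
    rw [← hf'.coord (im_mul_pos' hp hz)]
    congr 2
    simp
  rw [h1, neg_add]
  congr 1
  rw [sum_range_zmod hp (fun b => f (ofComplex ((-(starRingEnd ℂ) (z : ℂ) + b) / p))),
    sum_range_zmod hp (fun b => f (ofComplex (((z : ℂ) + b) / p))), ← Finset.sum_neg_distrib]
  have h2 : ∀ x : ZMod p, f (ofComplex ((-(starRingEnd ℂ) (z : ℂ) + (x.val : ℂ)) / p)) =
      - f (ofComplex (((z : ℂ) + ((-x : ZMod p).val : ℂ)) / p)) := by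
    intro x
    have h3 := hf.zmod hp hz (-(x.val : ℤ))
    have h4 : ((-(x.val : ℤ) : ℤ) : ZMod p) = -x := by
      push_cast
      rw [ZMod.natCast_zmod_val]
    rw [h4] at h3
    rw [← h3, ← hf'.coord]
    · congr 2
      push_cast
      rw [map_div₀, map_add, map_neg, Complex.conj_natCast, Complex.conj_natCast]
      ring
    · have := im_add_div_pos hp hz (-((x.val : ℕ) : ℝ))
      push_cast at this ⊢
      exact this
  simp only [h2]
  exact Equiv.sum_comp (Equiv.neg (ZMod p))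
    (fun x => - f (ofComplex (((z : ℂ) + (x.val : ℂ)) / p)))

/-- The matrix `[[p, 0], [0, 1]]`. -/
def gInf (p : ℕ) (hp : p.Prime) : GL (Fin 2) ℝ :=
  Matrix.GeneralLinearGroup.mkOfDetNeZero !![(p : ℝ), 0; 0, 1] (by
    rw [Matrix.det_fin_two_of]
    have : (p : ℝ) ≠ 0 := by exact_mod_cast hp.ne_zero
    simpa using this)

/-- The matrix `[[1, b], [0, p]]`. -/
def gFin (p : ℕ) (hp : p.Prime) (b : ℕ) : GL (Fin 2) ℝ :=
  Matrix.GeneralLinearGroup.mkOfDetNeZero !![(1 : ℝ), b; 0, p] (by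
    rw [Matrix.det_fin_two_of]
    have : (p : ℝ) ≠ 0 := by exact_mod_cast hp.ne_zero
    simpa using this)

lemma gInf_smul (p : ℕ) (hp : p.Prime) (z : ℍ) : gInf p hp • z = ofComplex (p * z) := by
  have hdet : 0 < (gInf p hp).det.val := by
    have : (0 : ℝ) < p := by exact_mod_cast hp.pos
    simp only [Matrix.GeneralLinearGroup.val_det_apply]
    change 0 < Matrix.det !![(p : ℝ), 0; 0, 1]
    rw [Matrix.det_fin_two_of]
    simpa using this
  have h1 : ((gInf p hp • z : ℍ) : ℂ) = p * z := by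
    rw [coe_smul_of_det_pos hdet]
    simp [num, denom, gInf, Matrix.GeneralLinearGroup.mkOfDetNeZero]
  rw [← h1, ofComplex_apply]

lemma gFin_smul (p : ℕ) (hp : p.Prime) (b : ℕ) (z : ℍ) :
    gFin p hp b • z = ofComplex ((z + b) / p) := by
  have hdet : 0 < (gFin p hp b).det.val := by
    have : (0 : ℝ) < p := by exact_mod_cast hp.pos
    simp only [Matrix.GeneralLinearGroup.val_det_apply]
    change 0 < Matrix.det !![(1 : ℝ), b; 0, p]
    rw [Matrix.det_fin_two_of]
    simpa using this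
  have h1 : ((gFin p hp b • z : ℍ) : ℂ) = (z + b) / p := by
    rw [coe_smul_of_det_pos hdet]
    simp [num, denom, gFin, Matrix.GeneralLinearGroup.mkOfDetNeZero]
  rw [← h1, ofComplex_apply]

lemma heckeOp_eq {p : ℕ} (hp : p.Prime) (f : ℍ → ℂ) : heckeOp p f = fun z =>
    ((Real.sqrt p : ℝ) : ℂ)⁻¹ *
      (f (gInf p hp • z) + ∑ b ∈ Finset.range p, f (gFin p hp b • z)) := by
  ext z
  unfold heckeOp
  rw [gInf_smul]
  simp only [gFin_smul]

lemma IsBM.comp_smul {f : ℍ → ℂ} (hf : IsBM f) (g : GL (Fin 2) ℝ) :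
    IsBM (fun z => f (g • z)) := by
  refine ⟨hf.meas.comp (measurable_const_smul g), ?_⟩
  obtain ⟨C, hC⟩ := hf.bdd
  exact ⟨C, fun z => hC _⟩

lemma IsBM.add {f g : ℍ → ℂ} (hf : IsBM f) (hg : IsBM g) : IsBM (fun z => f z + g z) := by
  obtain ⟨C, hC⟩ := hf.bdd
  obtain ⟨D, hD⟩ := hg.bdd
  exact ⟨hf.meas.add hg.meas, C + D, fun z => (norm_add_le _ _).trans (add_le_add (hC z) (hD z))⟩

lemma IsBM.const_mul {f : ℍ → ℂ} (hf : IsBM f) (c : ℂ) : IsBM (fun z => c * f z) := by
  obtain ⟨C, hC⟩ := hf.bdd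
  refine ⟨hf.meas.const_mul c, ‖c‖ * C, fun z => ?_⟩
  rw [norm_mul]
  exact mul_le_mul_of_nonneg_left (hC z) (norm_nonneg _)

lemma IsBM.sum {ι : Type*} (s : Finset ι) {f : ι → ℍ → ℂ} (hf : ∀ i ∈ s, IsBM (f i)) :
    IsBM (fun z => ∑ i ∈ s, f i z) := by
  classical
  induction s using Finset.induction_on with
  | empty => exact ⟨by simp only [Finset.sum_empty]; exact measurable_const, 0, by simp⟩
  | insert a s ha ih =>
    simp only [Finset.sum_insert ha]
    exact (hf a (Finset.mem_insert_self _ _)).add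
      (ih (fun i hi => hf i (Finset.mem_insert_of_mem hi)))

lemma heckeOp_isBM {p : ℕ} (hp : p.Prime) {f : ℍ → ℂ} (hf : IsBM f) : IsBM (heckeOp p f) := by
  rw [heckeOp_eq hp]
  exact ((hf.comp_smul _).add (IsBM.sum _ (fun b _ => hf.comp_smul _))).const_mul _

lemma pp_add {φ : ℝ → ℝ} (hφ : IsTest φ) {f g : ℍ → ℂ} (hf : IsBM f) (hg : IsBM g) (z : ℍ) :
    pp φ (fun w => f w + g w) z = pp φ f z + pp φ g z := by
  unfold pp
  rw [← integral_add (pp_integrable hφ hf z) (pp_integrable hφ hg z)]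
  congr 1
  ext w
  ring

lemma pp_const_mul (φ : ℝ → ℝ) (f : ℍ → ℂ) (c : ℂ) (z : ℍ) :
    pp φ (fun w => c * f w) z = c * pp φ f z := by
  unfold pp
  rw [← integral_const_mul]
  congr 1
  ext w
  ring

lemma pp_sum {φ : ℝ → ℝ} (hφ : IsTest φ) {ι : Type*} (s : Finset ι) {f : ι → ℍ → ℂ}
    (hf : ∀ i ∈ s, IsBM (f i)) (z : ℍ) :
    pp φ (fun w => ∑ i ∈ s, f i w) z = ∑ i ∈ s, pp φ (f i) z := by
  classical
  induction s using Finset.induction_on with
  | empty => simp [pp]
  | insert a s ha ih =>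
    simp only [Finset.sum_insert ha]
    rw [pp_add hφ (hf a (Finset.mem_insert_self _ _))
      (IsBM.sum s (fun i hi => hf i (Finset.mem_insert_of_mem hi))),
      ih (fun i hi => hf i (Finset.mem_insert_of_mem hi))]

lemma heckeOp_pp {p : ℕ} (hp : p.Prime) {φ : ℝ → ℝ} (hφ : IsTest φ) {f : ℍ → ℂ}
    (hf : IsBM f) : pp φ (heckeOp p f) = heckeOp p (pp φ f) := by
  rw [heckeOp_eq hp, heckeOp_eq hp]
  ext z
  rw [pp_const_mul, pp_add hφ (hf.comp_smul _) (IsBM.sum _ (fun b _ => hf.comp_smul _)),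
    pp_sum hφ _ (fun b _ => hf.comp_smul _), pp_smul]
  simp only [pp_smul]

lemma heckeOp_coord {q : ℕ} {f : ℍ → ℂ} {w : ℂ} (hw : 0 < w.im) :
    heckeOp q f (ofComplex w) = ((Real.sqrt q : ℝ) : ℂ)⁻¹ *
      (f (ofComplex (q * w)) + ∑ c ∈ Finset.range q, f (ofComplex ((w + c) / q))) := by
  unfold heckeOp
  rw [ofComplex_apply_of_im_pos hw]

/-- The symmetric expression for `T_p T_q f`. -/
lemma heckeOp_heckeOp {p q : ℕ} (hp : p.Prime) (hq : q.Prime) (hpq : p ≠ q) {f : ℍ → ℂ}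
    (hf : IsInv f) (z : ℍ) : heckeOp p (heckeOp q f) z =
      ((Real.sqrt p : ℝ) : ℂ)⁻¹ * (((Real.sqrt q : ℝ) : ℂ)⁻¹ *
        (f (ofComplex (p * q * z)) + ∑ c ∈ Finset.range q, f (ofComplex ((p * z + c) / q)) +
          ∑ b ∈ Finset.range p, f (ofComplex ((q * z + b) / p)) +
          ∑ d ∈ Finset.range (p * q), f (ofComplex ((z + d) / (p * q))))) := by
  have hz : 0 < (z : ℂ).im := z.im_pos
  have hp0 : (p : ℂ) ≠ 0 := by exact_mod_cast hp.ne_zero
  have hq0 : (q : ℂ) ≠ 0 := by exact_mod_cast hq.ne_zero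
  have : NeZero p := ⟨hp.ne_zero⟩
  have : Fact p.Prime := ⟨hp⟩
  have e0 : heckeOp p (heckeOp q f) z = ((Real.sqrt p : ℝ) : ℂ)⁻¹ *
      (heckeOp q f (ofComplex (p * z)) +
        ∑ b ∈ Finset.range p, heckeOp q f (ofComplex ((z + b) / p))) := rfl
  rw [e0, heckeOp_coord (im_mul_pos' hp hz)]
  have e1 : ∀ b ∈ Finset.range p, heckeOp q f (ofComplex (((z : ℂ) + b) / p)) =
      ((Real.sqrt q : ℝ) : ℂ)⁻¹ * (f (ofComplex (q * (((z : ℂ) + b) / p))) +
        ∑ c ∈ Finset.range q, f (ofComplex ((((z : ℂ) + b) / p + c) / q))) := by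
    intro b _
    apply heckeOp_coord
    exact_mod_cast im_add_div_pos hp hz ((b : ℕ) : ℝ)
  rw [Finset.sum_congr rfl e1, ← Finset.mul_sum, ← mul_add, Finset.sum_add_distrib]
  congr 2
  have e2 : ∑ b ∈ Finset.range p, f (ofComplex (q * (((z : ℂ) + b) / p))) =
      ∑ b ∈ Finset.range p, f (ofComplex ((q * z + b) / p)) := by
    rw [sum_range_zmod hp (fun b => f (ofComplex (q * (((z : ℂ) + b) / p)))),
      sum_range_zmod hp (fun b => f (ofComplex ((q * (z : ℂ) + b) / p)))]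
    have e3 : ∀ x : ZMod p, f (ofComplex (q * (((z : ℂ) + (x.val : ℂ)) / p))) =
        f (ofComplex ((q * (z : ℂ) + (((q : ZMod p) * x : ZMod p).val : ℂ)) / p)) := by
      intro x
      have h3 := hf.zmod hp (im_mul_pos' hq hz) ((q : ℤ) * (x.val : ℤ))
      have h4 : (((q : ℤ) * (x.val : ℤ) : ℤ) : ZMod p) = q * x := by
        push_cast
        rw [ZMod.natCast_zmod_val]
      rw [h4] at h3
      rw [← h3]
      congr 2
      push_cast
      ring
    simp only [e3]
    have hqp : (q : ZMod p) ≠ 0 := by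
      intro h
      rw [ZMod.natCast_eq_zero_iff] at h
      exact hpq ((Nat.prime_dvd_prime_iff_eq hp hq).mp h)
    exact Equiv.sum_comp (Equiv.mulLeft₀ (q : ZMod p) hqp)
      (fun x => f (ofComplex ((q * (z : ℂ) + (x.val : ℂ)) / p)))
  have e4 : ∑ b ∈ Finset.range p, ∑ c ∈ Finset.range q,
      f (ofComplex ((((z : ℂ) + b) / p + c) / q)) =
      ∑ d ∈ Finset.range (p * q), f (ofComplex ((z + d) / (p * q))) := by
    have hgen : ∀ (g : ℕ → ℂ) (n : ℕ), ∑ d ∈ Finset.range (p * n), g d =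
        ∑ c ∈ Finset.range n, ∑ b ∈ Finset.range p, g (p * c + b) := by
      intro g n
      induction n with
      | zero => simp
      | succ n ih =>
        rw [Nat.mul_succ, Finset.sum_range_add, ih, Finset.sum_range_succ]
    rw [hgen, Finset.sum_comm]
    refine Finset.sum_congr rfl fun c _ => Finset.sum_congr rfl fun b _ => ?_
    congr 2
    push_cast
    field_simp
    ring
  rw [e2, e4, ← mul_assoc, mul_comm (q : ℂ) p]
  ring

lemma heckeOp_comm {p q : ℕ} (hp : p.Prime) (hq : q.Prime) {f : ℍ → ℂ} (hf : IsInv f) :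
    heckeOp p (heckeOp q f) = heckeOp q (heckeOp p f) := by
  rcases eq_or_ne p q with rfl | hpq
  · rfl
  ext z
  rw [heckeOp_heckeOp hp hq hpq hf, heckeOp_heckeOp hq hp hpq.symm hf, mul_left_comm,
    mul_comm (q : ℂ) (p : ℂ), mul_comm q p]
  congr 2
  ring

end

end Pool.Agent.Lib.Maass
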