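import Pool.Agent.Lib.Maass.Smooth
import Pool.Agent.Lib.Maass.AutKernel
import Pool.Agent.Lib.Maass.CompactKernel
import Pool.Agent.Lib.Maass.HeckeOp

/-!
# Existence of odd Hecke–Maass cusp forms of level one (chunk E, owner helper60)
-/

open UpperHalfPlane Complex MeasureTheory ModularGroup
open scoped MatrixGroups ContDiff Modular

namespace Pool.Agent.Lib.Maass

noncomputable section

/-- A pairwise commuting family of endomorphisms of a nonzero finite-dimensional complex vector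
space has a common eigenvector. -/
theorem exists_joint_eigenvector {V : Type*} [AddCommGroup V] [Module ℂ V]
    [FiniteDimensional ℂ V] [Nontrivial V] {ι : Type*} (A : ι → Module.End ℂ V)
    (hA : ∀ i j, Commute (A i) (A j)) :
    ∃ v : V, v ≠ 0 ∧ ∀ i, ∃ c : ℂ, A i v = c • v := by
  classical
  let P : ℕ → Prop := fun n => ∃ W : Submodule ℂ V, W ≠ ⊥ ∧ (∀ i, ∀ v ∈ W, A i v ∈ W) ∧
    Module.finrank ℂ W = n
  have hP : ∃ n, P n := ⟨_, ⊤, top_ne_bot, fun i v _ => Submodule.mem_top, rfl⟩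
  obtain ⟨W, hW0, hWinv, hWdim⟩ := Nat.find_spec hP
  have hscalar : ∀ i, ∃ c : ℂ, ∀ v ∈ W, A i v = c • v := by
    intro i
    have hnt : Nontrivial W := (Submodule.nontrivial_iff_ne_bot).mpr hW0
    let Ai : Module.End ℂ W := (A i).restrict (hWinv i)
    obtain ⟨c, hc⟩ := Module.End.exists_eigenvalue Ai
    obtain ⟨w, hw⟩ := hc.exists_hasEigenvector
    refine ⟨c, ?_⟩
    let W' : Submodule ℂ V := W ⊓ Module.End.eigenspace (A i) c
    have hwW' : (w : V) ∈ W' := by
      refine ⟨w.2, Module.End.mem_eigenspace_iff.mpr ?_⟩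
      have := hw.apply_eq_smul
      have h2 := congrArg (Subtype.val) this
      simpa [Ai] using h2
    have hW'0 : W' ≠ ⊥ := by
      intro h
      rw [h, Submodule.mem_bot] at hwW'
      exact hw.2 (Subtype.ext hwW')
    have hW'inv : ∀ j, ∀ v ∈ W', A j v ∈ W' := by
      intro j v hv
      have hv2 : A i v = c • v := Module.End.mem_eigenspace_iff.mp hv.2
      refine ⟨hWinv j v hv.1, Module.End.mem_eigenspace_iff.mpr ?_⟩
      have hcomm : A i (A j v) = A j (A i v) := by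
        have := congrArg (fun (B : Module.End ℂ V) => B v) (hA i j).eq
        simpa using this
      rw [hcomm, hv2, map_smul]
    have hle : W' ≤ W := inf_le_left
    have hmin : Module.finrank ℂ W ≤ Module.finrank ℂ W' := by
      rw [hWdim]
      exact Nat.find_min' hP ⟨W', hW'0, hW'inv, rfl⟩
    have heq : W' = W := Submodule.eq_of_le_of_finrank_le hle hmin
    intro v hv
    rw [← heq] at hv
    exact Module.End.mem_eigenspace_iff.mp hv.2
  obtain ⟨v, hvW, hv0⟩ := Submodule.exists_mem_ne_zero_of_ne_bot hW0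
  exact ⟨v, hv0, fun i => ⟨_, (hscalar i).choose_spec v hvW⟩⟩

/-- The space of odd automorphic eigenfunctions of `pp φ`. -/
def eigV (φ : ℝ → ℝ) (hφ : IsTest φ) (c : ℂ) : Submodule ℂ (ℍ → ℂ) where
  carrier := {f | IsBM f ∧ IsInv f ∧ IsOddFn f ∧ pp φ f = c • f}
  zero_mem' := by
    refine ⟨⟨measurable_const, 0, by simp⟩, fun γ z => rfl, fun z => by simp, ?_⟩
    ext z
    simp [pp]
  add_mem' := by
    rintro f g ⟨hf1, hf2, hf3, hf4⟩ ⟨hg1, hg2, hg3, hg4⟩
    refine ⟨⟨hf1.meas.add hg1.meas, ?_⟩, ?_, ?_, ?_⟩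
    · obtain ⟨C, hC⟩ := hf1.bdd
      obtain ⟨D, hD⟩ := hg1.bdd
      exact ⟨C + D, fun z => (norm_add_le _ _).trans (add_le_add (hC z) (hD z))⟩
    · intro γ z
      simp only [Pi.add_apply, hf2 γ z, hg2 γ z]
    · intro z
      simp only [Pi.add_apply, hf3 z, hg3 z]
      ring
    · ext z
      have h1 := congrFun hf4 z
      have h2 := congrFun hg4 z
      simp only [Pi.smul_apply, Pi.add_apply, smul_eq_mul] at h1 h2 ⊢
      rw [mul_add, ← h1, ← h2]
      unfold pp
      rw [← integral_add (pp_integrable hφ hf1 z) (pp_integrable hφ hg1 z)]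
      congr 1
      ext w
      simp only [Pi.add_apply]
      ring
  smul_mem' := by
    rintro a f ⟨hf1, hf2, hf3, hf4⟩
    refine ⟨⟨hf1.meas.const_smul a, ?_⟩, ?_, ?_, ?_⟩
    · obtain ⟨C, hC⟩ := hf1.bdd
      exact ⟨‖a‖ * C, fun z => by
        simp only [Pi.smul_apply, smul_eq_mul, norm_mul]
        exact mul_le_mul_of_nonneg_left (hC z) (norm_nonneg _)⟩
    · intro γ z
      simp only [Pi.smul_apply, hf2 γ z]
    · intro z
      simp only [Pi.smul_apply, hf3 z, smul_neg]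
    · ext z
      have h1 := congrFun hf4 z
      simp only [Pi.smul_apply, smul_eq_mul] at h1 ⊢
      rw [mul_left_comm, ← h1]
      unfold pp
      rw [← integral_const_mul]
      congr 1
      ext w
      simp only [Pi.smul_apply, smul_eq_mul]
      ring

lemma pp_add_fun {ψ : ℝ → ℝ} (hψ : IsTest ψ) {f g : ℍ → ℂ} (hf : IsBM f) (hg : IsBM g) :
    pp ψ (f + g) = pp ψ f + pp ψ g := by
  ext z
  unfold pp
  rw [Pi.add_apply, ← integral_add (pp_integrable hψ hf z) (pp_integrable hψ hg z)]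
  congr 1
  ext w
  simp only [Pi.add_apply]
  ring

lemma pp_const_smul_fun (ψ : ℝ → ℝ) (a : ℂ) (f : ℍ → ℂ) :
    pp ψ (a • f) = a • pp ψ f := by
  ext z
  unfold pp
  rw [Pi.smul_apply, smul_eq_mul, ← integral_const_mul]
  congr 1
  ext w
  simp only [Pi.smul_apply, smul_eq_mul]
  ring

lemma heckeOp_add_fun (p : ℕ) (f g : ℍ → ℂ) : heckeOp p (f + g) = heckeOp p f + heckeOp p g := by
  ext z
  simp only [heckeOp, Pi.add_apply, Finset.sum_add_distrib]
  ring

lemma heckeOp_const_smul_fun (p : ℕ) (a : ℂ) (f : ℍ → ℂ) :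
    heckeOp p (a • f) = a • heckeOp p f := by
  ext z
  simp only [heckeOp, Pi.smul_apply, smul_eq_mul, ← Finset.mul_sum]
  ring

lemma pp_isInv_fun {ψ : ℝ → ℝ} {f : ℍ → ℂ} (hf : IsInv f) : IsInv (pp ψ f) := by
  intro γ z
  have h := pp_smul ψ f (Matrix.SpecialLinearGroup.mapGL ℝ γ) z
  rw [show γ • z = (Matrix.SpecialLinearGroup.mapGL ℝ γ) • z from rfl, ← h]
  congr 1
  ext w
  exact hf γ w

lemma pp_isOdd_fun {ψ : ℝ → ℝ} {f : ℍ → ℂ} (hf : IsOddFn f) : IsOddFn (pp ψ f) := by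
  intro z
  rw [← pp_smul ψ f J z]
  have : (fun w => f (J • w)) = (-1 : ℂ) • f := by
    ext w
    rw [hf w]
    simp
  rw [this, pp_const_smul_fun]
  simp

/-- `eigV` as the source of a linear map to `L²`. -/
lemma memLp_of_isBM {f : ℍ → ℂ} (hf : IsBM f) :
    MemLp f 2 (volume.restrict (𝒟 : Set ℍ)) := by
  have : IsFiniteMeasure (volume.restrict (𝒟 : Set ℍ)) :=
    ⟨by rw [Measure.restrict_apply_univ]; exact volume_fd_lt_top⟩
  obtain ⟨C, hC⟩ := hf.bdd
  exact MemLp.of_bound hf.meas.aestronglyMeasurable C (Filter.Eventually.of_forall hC)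

lemma eigV_eq_zero {φ : ℝ → ℝ} (hφ : IsTest φ) {c : ℂ} (hc : c ≠ 0) {f : ℍ → ℂ}
    (hf : f ∈ eigV φ hφ c) (h0 : f =ᵐ[volume.restrict (𝒟 : Set ℍ)] 0) : f = 0 := by
  obtain ⟨hf1, hf2, hf3, hf4⟩ := hf
  have h1 : ∀ z, pp φ f z = 0 := by
    intro z
    have h2 := integral_autK_mul hφ hf1 hf2 hf3 z
    have h3 : ∫ w in 𝒟, (autK φ z w : ℂ) * f w = 0 := by
      rw [← integral_zero ℍ ℂ (μ := volume.restrict (𝒟 : Set ℍ))]
      refine integral_congr_ae ?_
      filter_upwards [h0] with w hw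
      rw [hw]
      simp
    rw [h3] at h2
    have : (4 : ℂ) ≠ 0 := by norm_num
    exact (mul_eq_zero.mp h2.symm).resolve_left this
  ext z
  have h5 := congrFun hf4 z
  rw [h1 z] at h5
  simp only [Pi.smul_apply, smul_eq_mul] at h5
  exact (mul_eq_zero.mp h5.symm).resolve_left hc

theorem exists_eigV : ∃ (φ : ℝ → ℝ) (hφ : IsTest φ) (c : ℂ), c ≠ 0 ∧
    Nontrivial (eigV φ hφ c) ∧ FiniteDimensional ℂ (eigV φ hφ c) := by
  obtain ⟨φ, hφ, hne⟩ := exists_test_autK_ne_zero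
  obtain ⟨C, hC⟩ := autK_bounded hφ
  have hfin : IsFiniteMeasure (volume.restrict (𝒟 : Set ℍ)) :=
    ⟨by rw [Measure.restrict_apply_univ]; exact volume_fd_lt_top⟩
  obtain ⟨T, hT, c0, hc0, ⟨g, hg0, hTg⟩, hfd⟩ :=
    exists_eigenfunction_of_kernel (volume.restrict (𝒟 : Set ℍ)) (autK φ)
      (autK_continuous hφ).measurable C hC (autK_symm hφ) hne
  have hc : c0 / 4 ≠ 0 := by
    simp [hc0]
  refine ⟨φ, hφ, c0 / 4, hc, ?_, ?_⟩
  · -- nontriviality
    obtain ⟨f0, hf0⟩ : ∃ f0 : ℍ → ℂ, f0 = fun z => c0⁻¹ * ∫ w in 𝒟, (autK φ z w : ℂ) * g w :=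
      ⟨_, rfl⟩
    have hgint : Integrable g (volume.restrict (𝒟 : Set ℍ)) := (Lp.memLp g).integrable (by norm_num)
    have hf0g : f0 =ᵐ[volume.restrict (𝒟 : Set ℍ)] g := by
      have h1 := hT g
      rw [hTg] at h1
      filter_upwards [h1, Lp.coeFn_smul c0 g] with z hz hz2
      rw [hf0]
      simp only
      rw [← hz, hz2, Pi.smul_apply, smul_eq_mul, ← mul_assoc, inv_mul_cancel₀ hc0, one_mul]
    have hBM : IsBM f0 := by
      constructor
      · have h : StronglyMeasurable (fun p : ℍ × ℍ => (autK φ p.1 p.2 : ℂ) * g p.2) :=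
          ((Complex.continuous_ofReal.comp (autK_continuous hφ)).stronglyMeasurable).mul
            ((Lp.stronglyMeasurable g).comp_measurable measurable_snd)
        rw [hf0]
        exact (h.integral_prod_right' (ν := volume.restrict (𝒟 : Set ℍ))).measurable.const_mul _
      · refine ⟨‖c0⁻¹‖ * (C * ∫ w in 𝒟, ‖g w‖), fun z => ?_⟩
        rw [hf0]
        simp only [norm_mul]
        refine mul_le_mul_of_nonneg_left ?_ (norm_nonneg _)
        rw [← integral_const_mul]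
        refine norm_integral_le_of_norm_le (hgint.norm.const_mul C)
          (Filter.Eventually.of_forall fun w => ?_)
        rw [norm_mul, Complex.norm_real]
        exact mul_le_mul_of_nonneg_right (hC z w) (norm_nonneg _)
    have hInv : IsInv f0 := by
      intro γ z
      simp only [hf0, autK_smul_left hφ]
    have hOdd : IsOddFn f0 := by
      intro z
      simp only [hf0, autK_J_left hφ]
      rw [← mul_neg, ← integral_neg]
      congr 2
      ext w
      push_cast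
      ring
    have hmem : f0 ∈ eigV φ hφ (c0 / 4) := by
      refine ⟨hBM, hInv, hOdd, ?_⟩
      ext z
      have h2 := integral_autK_mul hφ hBM hInv hOdd z
      have h3 : ∫ w in 𝒟, (autK φ z w : ℂ) * f0 w = c0 * f0 z := by
        have h4 : ∫ w in 𝒟, (autK φ z w : ℂ) * f0 w = ∫ w in 𝒟, (autK φ z w : ℂ) * g w := by
          refine integral_congr_ae ?_
          filter_upwards [hf0g] with w hw
          rw [hw]
        rw [h4]
        simp only [hf0]
        rw [← mul_assoc, mul_inv_cancel₀ hc0, one_mul]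
      rw [h3] at h2
      simp only [Pi.smul_apply, smul_eq_mul]
      linear_combination (-1 / 4 : ℂ) * h2
    refine ⟨⟨⟨f0, hmem⟩, 0, fun h => ?_⟩⟩
    have h0 : f0 = 0 := congrArg Subtype.val h
    apply hg0
    rw [Lp.eq_zero_iff_ae_eq_zero]
    filter_upwards [hf0g] with z hz
    rw [← hz, h0]
  · -- finite dimensionality
    let Φ0 : eigV φ hφ (c0 / 4) →ₗ[ℂ] Lp ℂ 2 (volume.restrict (𝒟 : Set ℍ)) :=
      { toFun := fun f => (memLp_of_isBM f.2.1).toLp f.1
        map_add' := fun f g => rfl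
        map_smul' := fun a f => rfl }
    have hΦ0 : ∀ f : eigV φ hφ (c0 / 4), Φ0 f ∈
        Module.End.eigenspace (T : Lp ℂ 2 (volume.restrict (𝒟 : Set ℍ)) →ₗ[ℂ]
          Lp ℂ 2 (volume.restrict (𝒟 : Set ℍ))) c0 := by
      intro f
      rw [Module.End.mem_eigenspace_iff]
      apply Lp.ext
      have h1 := hT ((memLp_of_isBM f.2.1).toLp f.1)
      have h2 := (memLp_of_isBM f.2.1).coeFn_toLp
      have h3 := Lp.coeFn_smul c0 ((memLp_of_isBM f.2.1).toLp f.1)
      refine (h1.trans ?_).trans h3.symm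
      filter_upwards [h2] with z hz
      have h4 : ∫ w in 𝒟, (autK φ z w : ℂ) * ((memLp_of_isBM f.2.1).toLp f.1) w =
          ∫ w in 𝒟, (autK φ z w : ℂ) * f.1 w := by
        refine integral_congr_ae ?_
        filter_upwards [h2] with w hw
        rw [hw]
      rw [h4, integral_autK_mul hφ f.2.1 f.2.2.1 f.2.2.2.1 z, Pi.smul_apply, hz]
      have h5 := congrFun f.2.2.2.2 z
      rw [h5]
      simp only [Pi.smul_apply, smul_eq_mul]
      ring
    let Φ := Φ0.codRestrict _ hΦ0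
    refine FiniteDimensional.of_injective Φ ?_
    rw [← LinearMap.ker_eq_bot, LinearMap.ker_eq_bot']
    intro f hf
    have h1 : (memLp_of_isBM f.2.1).toLp f.1 = 0 := congrArg Subtype.val hf
    apply Subtype.ext
    apply eigV_eq_zero hφ hc f.2
    have h2 := (memLp_of_isBM f.2.1).coeFn_toLp
    rw [h1] at h2
    exact h2.symm.trans (Lp.coeFn_zero _ _ _)

/-- `pp ψ` as an endomorphism of `eigV`. -/
def ppEnd {φ : ℝ → ℝ} (hφ : IsTest φ) (c : ℂ) {ψ : ℝ → ℝ} (hψ : IsTest ψ) :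
    Module.End ℂ (eigV φ hφ c) where
  toFun f := ⟨pp ψ f.1, pp_isBM hψ f.2.1, pp_isInv_fun f.2.2.1, pp_isOdd_fun f.2.2.2.1, by
    rw [pp_comm hφ hψ f.2.1, f.2.2.2.2, pp_const_smul_fun]⟩
  map_add' f g := Subtype.ext (pp_add_fun hψ f.2.1 g.2.1)
  map_smul' a f := Subtype.ext (pp_const_smul_fun ψ a f.1)

/-- `heckeOp p` as an endomorphism of `eigV`. -/
def heckeEnd {φ : ℝ → ℝ} (hφ : IsTest φ) (c : ℂ) (p : {p : ℕ // p.Prime}) :
    Module.End ℂ (eigV φ hφ c) where
  toFun f := ⟨heckeOp p f.1, heckeOp_isBM p.2 f.2.1, heckeOp_isInv p.2 f.2.2.1,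
    heckeOp_isOdd p.2 f.2.2.1 f.2.2.2.1, by
    rw [heckeOp_pp p.2 hφ f.2.1, f.2.2.2.2, heckeOp_const_smul_fun]⟩
  map_add' f g := Subtype.ext (heckeOp_add_fun p f.1 g.1)
  map_smul' a f := Subtype.ext (heckeOp_const_smul_fun p a f.1)

/-- The family of commuting operators. -/
def opFam {φ : ℝ → ℝ} (hφ : IsTest φ) (c : ℂ) {ψ : ℝ → ℝ} (hψ : IsTest ψ) :
    Option {p : ℕ // p.Prime} → Module.End ℂ (eigV φ hφ c)
  | none => ppEnd hφ c hψ
  | some p => heckeEnd hφ c p

lemma opFam_comm {φ : ℝ → ℝ} (hφ : IsTest φ) (c : ℂ) {ψ : ℝ → ℝ} (hψ : IsTest ψ)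
    (i j : Option {p : ℕ // p.Prime}) :
    Commute (opFam hφ c hψ i) (opFam hφ c hψ j) := by
  have h1 : ∀ p : {p : ℕ // p.Prime}, ∀ f : eigV φ hφ c,
      ppEnd hφ c hψ (heckeEnd hφ c p f) = heckeEnd hφ c p (ppEnd hφ c hψ f) := by
    intro p f
    exact Subtype.ext (heckeOp_pp p.2 hψ f.2.1)
  have h2 : ∀ p q : {p : ℕ // p.Prime}, ∀ f : eigV φ hφ c,
      heckeEnd hφ c p (heckeEnd hφ c q f) = heckeEnd hφ c q (heckeEnd hφ c p f) := by
    intro p q f
    exact Subtype.ext (heckeOp_comm p.2 q.2 f.2.2.1)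
  rcases i with _ | p <;> rcases j with _ | q
  · exact Commute.refl _
  · exact LinearMap.ext fun f => h1 q f
  · exact LinearMap.ext fun f => (h1 p f).symm
  · exact LinearMap.ext fun f => h2 p q f

lemma coe_add_one (x y : ℝ) (hy : 0 < y) (f : ℍ → ℂ) (hf : IsInv f) :
    f (ofComplex ((x + 1 : ℝ) + y * Complex.I)) = f (ofComplex (x + y * Complex.I)) := by
  have him : 0 < ((x : ℂ) + y * Complex.I).im := by simpa using hy
  have him' : 0 < (((x + 1 : ℝ) : ℂ) + y * Complex.I).im := by simpa using hy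
  rw [ofComplex_apply_of_im_pos him, ofComplex_apply_of_im_pos him',
    ← hf ModularGroup.T ⟨(x : ℂ) + y * Complex.I, him⟩]
  congr 1
  ext
  rw [modular_T_smul]
  simp
  ring

lemma coe_neg (x y : ℝ) (hy : 0 < y) (f : ℍ → ℂ) (hf : IsOddFn f) :
    f (ofComplex ((-x : ℝ) + y * Complex.I)) = - f (ofComplex (x + y * Complex.I)) := by
  have him : 0 < ((x : ℂ) + y * Complex.I).im := by simpa using hy
  have him' : 0 < (((-x : ℝ) : ℂ) + y * Complex.I).im := by simpa using hy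
  rw [ofComplex_apply_of_im_pos him, ofComplex_apply_of_im_pos him',
    ← hf ⟨(x : ℂ) + y * Complex.I, him⟩]
  congr 1
  ext
  rw [coe_J_smul]
  simp
  ring

lemma cuspidal_of_odd {f : ℍ → ℂ} (hf : IsInv f) (hf' : IsOddFn f) (y : ℝ) (hy : 0 < y) :
    ∫ x in (0 : ℝ)..1, f (ofComplex (x + y * Complex.I)) = 0 := by
  set g : ℝ → ℂ := fun x => f (ofComplex ((x : ℂ) + y * Complex.I)) with hg
  have h1 : ∫ x in (0 : ℝ)..1, g (1 - x) = ∫ x in (0 : ℝ)..1, g x := by
    rw [intervalIntegral.integral_comp_sub_left]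
    simp
  have h2 : ∀ x : ℝ, g (1 - x) = - g x := by
    intro x
    simp only [hg]
    have e1 := coe_add_one (-x) y hy f hf
    have e2 := coe_neg x y hy f hf'
    rw [e2] at e1
    rw [← e1]
    congr 3
    push_cast
    ring
  simp only [h2, intervalIntegral.integral_neg] at h1
  have h3 : (2 : ℂ) * ∫ x in (0 : ℝ)..1, g x = 0 := by linear_combination -h1
  exact (mul_eq_zero.mp h3).resolve_left two_ne_zero

theorem exists_odd_heckeMaassForm : ∃ F : HeckeMaassForm, F.parity = -1 := by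
  classical
  obtain ⟨φ, hφ, c, hc, hnt, hfd⟩ := exists_eigV
  obtain ⟨f, hf0, hf⟩ := exists_joint_eigenvector (opFam hφ c hφ.radLap)
    (opFam_comm hφ c hφ.radLap)
  obtain ⟨d, hd⟩ := hf none
  have hd' : pp (Maass.radLap φ) f.1 = d • f.1 := congrArg Subtype.val hd
  have hp : ∀ p : {p : ℕ // p.Prime}, ∃ a : ℂ, heckeOp p f.1 = a • f.1 := by
    intro p
    obtain ⟨a, ha⟩ := hf (some p)
    exact ⟨a, congrArg Subtype.val ha⟩
  choose a ha using hp
  obtain ⟨hf1, hf2, hf3, hf4⟩ := f.2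
  have hfe : f.1 = c⁻¹ • pp φ f.1 := by
    rw [hf4, smul_smul, inv_mul_cancel₀ hc, one_smul]
  have hfeC : (f.1 ∘ ofComplex : ℂ → ℂ) = c⁻¹ • (pp φ f.1 ∘ ofComplex) := by
    conv_lhs => rw [hfe]
    rfl
  have hsmooth : ContDiffOn ℝ ∞ (f.1 ∘ ofComplex) {z : ℂ | 0 < z.im} := by
    rw [hfeC]
    exact (pp_contDiffOn hφ hf1).const_smul c⁻¹
  refine ⟨⟨f.1, -(d / c), -1, fun p => if h : p.Prime then a ⟨p, h⟩ else 0, hsmooth, hf1.bdd,
    ?_, hf2, ?_, ?_, ?_, ?_⟩, rfl⟩
  · by_contra hcon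
    push Not at hcon
    exact hf0 (Subtype.ext (funext hcon))
  · intro z
    have hopen : IsOpen {z : ℂ | 0 < z.im} := isOpen_upperHalfPlaneSet
    have h1 : ContDiffAt ℝ 2 (pp φ f.1 ∘ ofComplex) (z : ℂ) :=
      ((pp_contDiffOn hφ hf1).contDiffAt (hopen.mem_nhds z.im_pos)).of_le (by norm_cast)
    rw [hfeC, InnerProductSpace.laplacian_smul _ h1]
    have h2 := pp_laplacian hφ hf1 z
    rw [hd'] at h2
    simp only [Pi.smul_apply, smul_eq_mul] at h2 ⊢
    field_simp
    linear_combination -h2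
  · exact fun y hy => cuspidal_of_odd hf2 hf3 y hy
  · intro z
    rw [hf3 z]
    simp
  · intro p hp z
    have := congrFun (ha ⟨p, hp⟩) z
    simpa [hp] using this

end

end Pool.Agent.Lib.Maass
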