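import Pool.Agent.Lib.Maass.FourierA

/-!
# Fourier coefficients of periodic functions under `x ↦ p x` and `x ↦ (x + b) / p` (part of chunk F)
-/

open UpperHalfPlane Complex MeasureTheory
open scoped MatrixGroups Real ContDiff Topology

namespace Pool.Agent.Lib.Maass

noncomputable section

lemma ech_zero (x : ℝ) : ech 0 x = 1 := by simp [ech]

lemma ech_add (n : ℤ) (x y : ℝ) : ech n (x + y) = ech n x * ech n y := by
  unfold ech
  rw [← Complex.exp_add]
  congr 1
  push_cast
  ring

lemma ech_mul_left (n : ℤ) (p : ℤ) (x : ℝ) : ech n (p * x) = ech (p * n) x := by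
  unfold ech
  congr 1
  push_cast
  ring

lemma ech_inv_ne_one {n : ℤ} {p : ℕ} (hp : 0 < p) (h : ¬ (p : ℤ) ∣ n) : ech n (1 / p) ≠ 1 := by
  unfold ech
  rw [Ne, Complex.exp_eq_one_iff]
  rintro ⟨k, hk⟩
  apply h
  have hp' : (p : ℂ) ≠ 0 := by exact_mod_cast hp.ne'
  have h2 : (2 * (π : ℂ) * Complex.I) ≠ 0 := Complex.two_pi_I_ne_zero
  have : (n : ℂ) = p * (-k) := by
    have h3 : (2 * (π : ℂ) * Complex.I) * ((n : ℂ)) = (2 * (π : ℂ) * Complex.I) * (p * (-k)) := by
      push_cast at hk
      field_simp at hk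
      linear_combination (-(2 * (π : ℂ) * Complex.I)) * hk
    exact mul_left_cancel₀ h2 h3
  refine ⟨-k, ?_⟩
  exact_mod_cast this

/-- The sum over the shifts. -/
lemma sum_shift {ψ : ℝ → ℂ} (hψ : Continuous ψ) (n : ℤ) {p : ℕ} (hp : 0 < p) :
    ∑ b ∈ Finset.range p, ∫ x in (0 : ℝ)..1, ψ ((x + b) / p) * ech n x =
      p * ∫ t in (0 : ℝ)..1, ψ t * ech (p * n) t := by
  have hp' : (p : ℝ) ≠ 0 := by exact_mod_cast hp.ne'
  set Φ : ℝ → ℂ := fun u => ψ (u / p) * ech n u with hΦ
  have hΦc : Continuous Φ := by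
    have := continuous_ech n
    fun_prop
  have h1 : ∀ b : ℕ, ∫ x in (0 : ℝ)..1, ψ ((x + b) / p) * ech n x = ∫ x in (b : ℝ)..((b + 1 : ℕ) : ℝ), Φ x := by
    intro b
    have : ∀ x : ℝ, ψ ((x + b) / p) * ech n x = Φ (x + b) := by
      intro x
      rw [hΦ]
      simp only
      have := ech_add_int n x (b : ℤ)
      push_cast at this
      rw [this]
    simp_rw [this]
    rw [intervalIntegral.integral_comp_add_right]
    congr 1
    · ring
    · push_cast; ring
  simp_rw [h1]
  rw [intervalIntegral.sum_integral_adjacent_intervals (a := fun k : ℕ => (k : ℝ))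
    (fun k _ => hΦc.intervalIntegrable _ _)]
  have h2 : ∀ u : ℝ, Φ u = (fun t => ψ t * ech (p * n) t) (u / p) := by
    intro u
    simp only [hΦ]
    have : ech n u = ech (p * n) (u / p) := by
      have := ech_mul_left n p (u / p)
      rw [← this]
      congr 1
      push_cast
      field_simp
    rw [this]
  simp_rw [h2]
  rw [intervalIntegral.integral_comp_div (fun t => ψ t * ech (p * n) t) hp']
  simp [hp'] 

/-- The Fourier coefficients of `x ↦ φ (p x)`. -/
lemma coeff_mul {φ : ℝ → ℂ} (hφ : Continuous φ) (hper : ∀ x, φ (x + 1) = φ x) (n : ℤ) {p : ℕ}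
    (hp : 0 < p) :
    ∫ x in (0 : ℝ)..1, φ (p * x) * ech n x =
      if (p : ℤ) ∣ n then ∫ t in (0 : ℝ)..1, φ t * ech (n / p) t else 0 := by
  have hp' : (p : ℝ) ≠ 0 := by exact_mod_cast hp.ne'
  split_ifs with h
  · obtain ⟨m, rfl⟩ := h
    have hpz : (p : ℤ) ≠ 0 := by exact_mod_cast hp.ne'
    rw [Int.mul_ediv_cancel_left _ hpz]
    have h1 : ∀ x : ℝ, φ (p * x) * ech (p * m) x = (fun t => φ t * ech m t) (p * x) := by
      intro x
      simp only
      have := ech_mul_left m p x
      push_cast at this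
      rw [this]
    simp_rw [h1]
    rw [intervalIntegral.integral_comp_mul_left (fun t => φ t * ech m t) hp']
    have hperΦ : Function.Periodic (fun t => φ t * ech m t) 1 := by
      intro t
      simp only
      rw [hper]
      have := ech_add_int m t 1
      push_cast at this
      rw [this]
    have hc : Continuous (fun t => φ t * ech m t) := hφ.mul (continuous_ech m)
    have h2 := hperΦ.intervalIntegral_add_zsmul_eq (n := (p : ℤ)) (t := 0)
      (fun t₁ t₂ => hc.intervalIntegrable _ _)
    simp only [zero_add, mul_zero, mul_one] at h2 ⊢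
    have h3 : ((p : ℤ) • (1 : ℝ)) = p := by simp
    rw [h3] at h2
    rw [h2]
    have hpc : (p : ℂ) ≠ 0 := by exact_mod_cast hp.ne'
    simp [hpc]
  · set Ψ : ℝ → ℂ := fun x => φ (p * x) * ech n x with hΨ
    have hperΨ : Function.Periodic Ψ 1 := by
      intro t
      rw [hΨ]
      simp only
      have e1 : φ (p * (t + 1)) = φ (p * t) := by
        have : ∀ k : ℕ, ∀ x, φ (x + k) = φ x := by
          intro k
          induction k with
          | zero => intro x; simp
          | succ k ih => intro x; push_cast; rw [← add_assoc, hper, ih]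
        rw [mul_add, mul_one, this]
      have e2 := ech_add_int n t 1
      push_cast at e2
      rw [e1, e2]
    have h1 : ∫ x in (0 : ℝ)..1, Ψ (x + 1 / p) = ∫ x in (0 : ℝ)..1, Ψ x := by
      rw [intervalIntegral.integral_comp_add_right]
      have := hperΨ.intervalIntegral_add_eq (1 / p) 0
      rw [zero_add] at this ⊢
      rw [← this, add_comm]
    have h2 : ∀ x : ℝ, Ψ (x + 1 / p) = ech n (1 / p) * Ψ x := by
      intro x
      rw [hΨ]
      simp only
      rw [ech_add, mul_add, mul_one_div_cancel hp', hper]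
      ring
    simp_rw [h2] at h1
    rw [intervalIntegral.integral_const_mul] at h1
    have h3 : (ech n (1 / p) - 1) * ∫ x in (0 : ℝ)..1, Ψ x = 0 := by
      rw [sub_mul, h1]; ring
    rcases mul_eq_zero.1 h3 with h4 | h4
    · exact absurd (sub_eq_zero.1 h4) (ech_inv_ne_one hp h)
    · exact h4

instance : Fact ((0 : ℝ) < 1) := ⟨one_pos⟩

/-- Pointwise convergence of the Fourier series of a continuous periodic function with summable
Fourier coefficients. -/
lemma hasSum_fourier {φ : ℝ → ℂ} (hφ : Continuous φ) (hper : ∀ x, φ (x + 1) = φ x)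
    (hs : Summable (fun n : ℤ => ∫ t in (0 : ℝ)..1, φ t * ech n t)) (x : ℝ) :
    HasSum (fun n : ℤ => (∫ t in (0 : ℝ)..1, φ t * ech n t) * ech (-n) x) (φ x) := by
  have hper' : Function.Periodic φ 1 := hper
  let Φ : C(AddCircle (1 : ℝ), ℂ) := ⟨hper'.lift, continuous_coinduced_dom.mpr hφ⟩
  have hΦ : ∀ x : ℝ, Φ (x : AddCircle (1 : ℝ)) = φ x := fun x => hper'.lift_coe x
  have hco : ∀ n : ℤ, fourierCoeff Φ n = ∫ t in (0 : ℝ)..1, φ t * ech n t := by
    intro n
    rw [fourierCoeff_eq_intervalIntegral Φ n 0]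
    simp only [zero_add, one_div, inv_one, one_smul]
    congr 1
    ext t
    rw [hΦ, fourier_coe_apply, smul_eq_mul, mul_comm]
    congr 1
    unfold ech
    congr 1
    push_cast
    ring
  have hs' : Summable (fourierCoeff Φ) := by
    have : fourierCoeff Φ = fun n : ℤ => ∫ t in (0 : ℝ)..1, φ t * ech n t := funext hco
    rw [this]; exact hs
  have h := has_pointwise_sum_fourier_series_of_summable hs' (x : AddCircle (1 : ℝ))
  rw [hΦ] at h
  convert h using 1
  ext n
  rw [hco, fourier_coe_apply, smul_eq_mul]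
  congr 1
  unfold ech
  congr 1
  push_cast
  ring

end

end Pool.Agent.Lib.Maass
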