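import Pool.Agent.Lib.Maass.Bessel

/-!
# Uniqueness of the bounded solution of the Whittaker differential equation (chunk ODE)
-/

open Complex MeasureTheory Set Filter
open scoped Real Topology

namespace Pool.Agent.Lib.Maass

/-- Uniqueness of the zero solution of `D'' = (4 π² - λ / y²) D`. -/
theorem whittaker_zero {lam : ℂ} {D D1 : ℝ → ℂ} {y₀ : ℝ} (hy₀ : 0 < y₀)
    (h1 : ∀ y : ℝ, 0 < y → HasDerivAt D (D1 y) y)
    (h2 : ∀ y : ℝ, 0 < y → HasDerivAt D1 ((4 * (π : ℂ) ^ 2 - lam / (y : ℂ) ^ 2) * D y) y)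
    (h0 : D y₀ = 0) (h0' : D1 y₀ = 0) : ∀ y : ℝ, 0 < y → D y = 0 := by
  intro y hy
  set a : ℝ := min y y₀ / 2 with ha
  set b : ℝ := max y y₀ + 1 with hb
  have hmin : 0 < min y y₀ := lt_min hy hy₀
  have ha0 : 0 < a := by positivity
  have hmem : ∀ t, min y y₀ ≤ t → t ≤ max y y₀ → t ∈ Ioo a b := fun t ht1 ht2 =>
    ⟨by rw [ha]; linarith, by rw [hb]; linarith⟩
  set M : ℝ := 4 * π ^ 2 + ‖lam‖ / a ^ 2 with hM
  have hM0 : 0 ≤ M := by positivity
  set K : NNReal := ⟨max 1 M, le_trans zero_le_one (le_max_left _ _)⟩ with hK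
  set v : ℝ → ℂ × ℂ → ℂ × ℂ := fun t p => (p.2, (4 * (π : ℂ) ^ 2 - lam / (t : ℂ) ^ 2) * p.1) with hv
  have hq : ∀ t ∈ Ioo a b, ‖4 * (π : ℂ) ^ 2 - lam / (t : ℂ) ^ 2‖ ≤ M := by
    intro t ht
    have ht0 : 0 < t := ha0.trans ht.1
    refine (norm_sub_le _ _).trans ?_
    rw [norm_div, norm_pow, norm_mul, norm_pow, Complex.norm_real, Complex.norm_real,
      Real.norm_of_nonneg Real.pi_pos.le, Real.norm_of_nonneg ht0.le]
    have : ‖lam‖ / t ^ 2 ≤ ‖lam‖ / a ^ 2 := by
      have := ht.1.le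
      gcongr
    have h4 : ‖(4 : ℂ)‖ = 4 := by simp
    rw [h4, hM]
    linarith
  have hlip : ∀ t ∈ Ioo a b, LipschitzOnWith K (v t) univ := by
    intro t ht
    refine (LipschitzWith.of_dist_le_mul fun p p' => ?_).lipschitzOnWith
    rw [dist_eq_norm, dist_eq_norm, hv]
    simp only [Prod.mk_sub_mk, ← mul_sub]
    rw [Prod.norm_mk]
    have e1 : ‖p.2 - p'.2‖ ≤ ‖p - p'‖ := norm_snd_le (p - p')
    have e2 : ‖p.1 - p'.1‖ ≤ ‖p - p'‖ := norm_fst_le (p - p')
    have hKc : (K : ℝ) = max 1 M := rfl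
    rw [hKc]
    refine max_le ?_ ?_
    · refine e1.trans (le_mul_of_one_le_left (norm_nonneg _) (le_max_left _ _))
    · rw [norm_mul]
      exact mul_le_mul ((hq t ht).trans (le_max_right _ _)) e2 (norm_nonneg _) (by positivity)
  have hEq := ODE_solution_unique_of_mem_Ioo (K := K) (v := v) (s := fun _ => univ) (a := a)
    (b := b) (t₀ := y₀) (f := fun t => (D t, D1 t)) (g := fun _ => (0, 0)) hlip
    (hmem y₀ (min_le_right _ _) (le_max_right _ _))
    (fun t ht => ⟨(h1 t (ha0.trans ht.1)).prodMk (h2 t (ha0.trans ht.1)), mem_univ _⟩)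
    (fun t _ => ⟨by
      have : v t (0, 0) = 0 := by simp [hv]
      rw [this]
      exact hasDerivAt_const t _, mem_univ _⟩)
    (by simp [h0, h0'])
  have := hEq (hmem y (min_le_left _ _) (le_max_left _ _))
  simpa using congrArg Prod.fst this

/-- A bounded solution of `y² W'' = (4 π² y² - λ) W` on `(0, ∞)` is a multiple of
`√y Φ_ν(y)`, where `ν² = 1/4 - λ`. -/
theorem whittaker_unique {lam ν : ℂ} (hν : ν ^ 2 = 1 / 4 - lam) {W W1 W2 : ℝ → ℂ}
    (h1 : ∀ y : ℝ, 0 < y → HasDerivAt W (W1 y) y)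
    (h2 : ∀ y : ℝ, 0 < y → HasDerivAt W1 (W2 y) y)
    (hode : ∀ y : ℝ, 0 < y → (y : ℂ) ^ 2 * W2 y = (4 * (π : ℂ) ^ 2 * (y : ℂ) ^ 2 - lam) * W y)
    (hb : ∃ C : ℝ, ∀ y : ℝ, 0 < y → ‖W y‖ ≤ C) :
    ∃ c : ℂ, ∀ y : ℝ, 0 < y → W y = c * (Real.sqrt y : ℝ) * besselPhi ν y := by
  obtain ⟨Φ1, Φ2, hΦ1, hΦ2, hΦode, ⟨C1, hC1⟩⟩ := besselPhi_ode ν
  obtain ⟨C0, hC0⟩ := besselPhi_decay ν
  obtain ⟨C, hC⟩ := hb
  have hCnn : 0 ≤ C := (norm_nonneg _).trans (hC 1 one_pos)
  -- the second derivatives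
  have hW2 : ∀ y : ℝ, 0 < y → W2 y = (4 * (π : ℂ) ^ 2 - lam / (y : ℂ) ^ 2) * W y := by
    intro y hy
    have hy' : (y : ℂ) ≠ 0 := by exact_mod_cast hy.ne'
    have := hode y hy
    field_simp
    linear_combination this
  -- the comparison solution
  set s : ℝ → ℝ := fun y => Real.sqrt y with hs
  set V : ℝ → ℂ := fun y => ((Real.sqrt y : ℝ) : ℂ) * besselPhi ν y with hV
  set V1 : ℝ → ℂ := fun y => ((1 / (2 * Real.sqrt y) : ℝ) : ℂ) * besselPhi ν y +
    ((Real.sqrt y : ℝ) : ℂ) * Φ1 y with hV1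
  have hVd : ∀ y : ℝ, 0 < y → HasDerivAt V (V1 y) y := by
    intro y hy
    exact ((Real.hasDerivAt_sqrt hy.ne').ofReal_comp).mul (hΦ1 y hy)
  have hsd : ∀ y : ℝ, 0 < y → HasDerivAt (fun y => 1 / (2 * Real.sqrt y))
      (-(1 / (4 * (y * Real.sqrt y)))) y := by
    intro y hy
    have hsq : 0 < Real.sqrt y := Real.sqrt_pos.mpr hy
    have h := ((Real.hasDerivAt_sqrt hy.ne').const_mul 2).inv (by positivity)
    have e : (fun y => 1 / (2 * Real.sqrt y)) = (fun y => 2 * Real.sqrt y)⁻¹ := by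
      funext z; simp [one_div]
    rw [e]
    refine h.congr_deriv ?_
    have hy2 : y = Real.sqrt y ^ 2 := (Real.sq_sqrt hy.le).symm
    have : y * Real.sqrt y = Real.sqrt y ^ 3 := by
      nth_rw 1 [hy2]; ring
    rw [this]
    field_simp
    ring
  have hV1d : ∀ y : ℝ, 0 < y →
      HasDerivAt V1 ((4 * (π : ℂ) ^ 2 - lam / (y : ℂ) ^ 2) * V y) y := by
    intro y hy
    have hsq : 0 < Real.sqrt y := Real.sqrt_pos.mpr hy
    have h := (((hsd y hy).ofReal_comp).mul (hΦ1 y hy)).add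
      (((Real.hasDerivAt_sqrt hy.ne').ofReal_comp).mul (hΦ2 y hy))
    refine HasDerivAt.congr_deriv h ?_
    have hode' := hΦode y hy
    have hsc : ((Real.sqrt y : ℝ) : ℂ) ≠ 0 := by exact_mod_cast hsq.ne'
    have hy2 : (y : ℂ) = ((Real.sqrt y : ℝ) : ℂ) ^ 2 := by
      exact_mod_cast (Real.sq_sqrt hy.le).symm
    rw [hν, hy2] at hode'
    rw [hV]
    push_cast
    rw [hy2]
    generalize ((Real.sqrt y : ℝ) : ℂ) = r at *
    field_simp
    linear_combination 8 * hode'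
  -- the Wronskian
  set w : ℝ → ℂ := fun y => W y * V1 y - W1 y * V y with hw
  have hwd : ∀ y : ℝ, 0 < y → HasDerivAt w 0 y := by
    intro y hy
    have h := ((h1 y hy).mul (hV1d y hy)).sub ((h2 y hy).mul (hVd y hy))
    refine HasDerivAt.congr_deriv h ?_
    rw [hW2 y hy]
    ring
  have hwconst : ∀ y : ℝ, 0 < y → w y = w 1 := by
    intro y hy
    have hconv : Convex ℝ (Ioi (0 : ℝ)) := convex_Ioi 0
    refine hconv.is_const_of_fderivWithin_eq_zero (𝕜 := ℝ)
      (fun z hz => (hwd z hz).differentiableAt.differentiableWithinAt) (fun z hz => ?_) hy (mem_Ioi.mpr one_pos)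
    rw [fderivWithin_of_isOpen isOpen_Ioi hz]
    exact (hwd z hz).hasFDerivAt.fderiv.trans (by ext; simp)
  -- growth of `W1`
  set M : ℝ := (4 * π ^ 2 + ‖lam‖) * C with hM
  have hM0 : 0 ≤ M := by positivity
  have hW1 : ∀ y : ℝ, 1 ≤ y → ‖W1 y‖ ≤ ‖W1 1‖ + M * (y - 1) := by
    intro y hy
    have hbd : ∀ z ∈ Icc (1 : ℝ) y, ‖W2 z‖ ≤ M := by
      intro z hz
      have hz0 : 0 < z := one_pos.trans_le hz.1
      rw [hW2 z hz0, norm_mul, hM]
      refine mul_le_mul ?_ (hC z hz0) (norm_nonneg _) (by positivity)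
      refine (norm_sub_le _ _).trans ?_
      rw [norm_div, norm_pow, norm_mul, norm_pow, Complex.norm_real, Complex.norm_real,
        Real.norm_of_nonneg Real.pi_pos.le, Real.norm_of_nonneg hz0.le]
      have h4 : ‖(4 : ℂ)‖ = 4 := by simp
      have : ‖lam‖ / z ^ 2 ≤ ‖lam‖ := by
        apply div_le_self (norm_nonneg _)
        exact one_le_pow₀ hz.1
      rw [h4]
      linarith
    have h := (convex_Icc (1 : ℝ) y).norm_image_sub_le_of_norm_hasDerivWithin_le
      (fun z hz => (h2 z (one_pos.trans_le hz.1)).hasDerivWithinAt) hbd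
      (left_mem_Icc.mpr hy) (right_mem_Icc.mpr hy)
    have h' : ‖W1 y‖ ≤ ‖W1 1‖ + ‖W1 y - W1 1‖ := by
      have := norm_add_le (W1 1) (W1 y - W1 1)
      simpa using this
    rw [Real.norm_of_nonneg (by linarith : (0:ℝ) ≤ y - 1)] at h
    linarith
  -- decay of `w`
  have hw0 : w 1 = 0 := by
    have hC0' : 0 ≤ C0 := by
      have := (norm_nonneg _).trans (hC0 1 le_rfl)
      exact nonneg_of_mul_nonneg_left this (Real.exp_pos _)
    have hC1' : 0 ≤ C1 := by
      have := (norm_nonneg _).trans (hC1 1 le_rfl)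
      exact nonneg_of_mul_nonneg_left this (Real.exp_pos _)
    set A : ℝ := C * (C0 + C1) + (‖W1 1‖ + M) * C0 with hA
    have hA0 : 0 ≤ A := by positivity
    have hbound : ∀ y : ℝ, 1 ≤ y → ‖w 1‖ ≤ A * (y ^ 2 * Real.exp (-(5 * y))) := by
      intro y hy
      have hy0 : 0 < y := by linarith
      rw [← hwconst y hy0]
      have hs1 : 1 ≤ Real.sqrt y := Real.one_le_sqrt.mpr hy
      have hsy : Real.sqrt y ≤ y := by
        rw [Real.sqrt_le_left hy0.le]
        nlinarith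
      have hs2 : 1 / (2 * Real.sqrt y) ≤ y := by
        rw [div_le_iff₀ (by positivity)]
        nlinarith
      have hVn : ‖V y‖ ≤ y * (C0 * Real.exp (-(5 * y))) := by
        rw [hV]
        simp only
        rw [norm_mul, Complex.norm_real, Real.norm_of_nonneg (Real.sqrt_nonneg y)]
        exact mul_le_mul hsy (hC0 y hy) (norm_nonneg _) hy0.le
      have hV1n : ‖V1 y‖ ≤ y * (C0 * Real.exp (-(5 * y))) + y * (C1 * Real.exp (-(5 * y))) := by
        rw [hV1]
        simp only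
        refine (norm_add_le _ _).trans ?_
        rw [norm_mul, norm_mul, Complex.norm_real, Complex.norm_real,
          Real.norm_of_nonneg (Real.sqrt_nonneg y), Real.norm_of_nonneg (by positivity)]
        exact add_le_add (mul_le_mul hs2 (hC0 y hy) (norm_nonneg _) hy0.le)
          (mul_le_mul hsy (hC1 y hy) (norm_nonneg _) hy0.le)
      have hW1n : ‖W1 y‖ ≤ (‖W1 1‖ + M) * y := by
        refine (hW1 y hy).trans ?_
        nlinarith [norm_nonneg (W1 1)]
      rw [hw]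
      simp only
      refine (norm_sub_le _ _).trans ?_
      rw [norm_mul, norm_mul]
      have hE := Real.exp_pos (-(5 * y))
      calc ‖W y‖ * ‖V1 y‖ + ‖W1 y‖ * ‖V y‖
          ≤ C * (y * (C0 * Real.exp (-(5 * y))) + y * (C1 * Real.exp (-(5 * y)))) +
            ((‖W1 1‖ + M) * y) * (y * (C0 * Real.exp (-(5 * y)))) := by
            gcongr
            exact hC y hy0
        _ = (C * (C0 + C1)) * (y * Real.exp (-(5 * y))) +
            ((‖W1 1‖ + M) * C0) * (y ^ 2 * Real.exp (-(5 * y))) := by ring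
        _ ≤ (C * (C0 + C1)) * (y ^ 2 * Real.exp (-(5 * y))) +
            ((‖W1 1‖ + M) * C0) * (y ^ 2 * Real.exp (-(5 * y))) := by
            have : y ≤ y ^ 2 := by nlinarith
            gcongr
        _ = A * (y ^ 2 * Real.exp (-(5 * y))) := by rw [hA]; ring
    have hlim : Tendsto (fun y : ℝ => A * (y ^ 2 * Real.exp (-(5 * y)))) atTop (𝓝 0) := by
      have h := Real.tendsto_pow_mul_exp_neg_atTop_nhds_zero 2
      have h' : Tendsto (fun y : ℝ => y ^ 2 * Real.exp (-(5 * y))) atTop (𝓝 0) := by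
        refine squeeze_zero' (Eventually.of_forall fun y => by positivity) ?_ h
        filter_upwards [eventually_ge_atTop 0] with y hy
        gcongr
        linarith
      simpa using h'.const_mul A
    have h0 : ‖w 1‖ ≤ 0 := ge_of_tendsto hlim
      ((eventually_ge_atTop 1).mono fun y hy => hbound y hy)
    simpa using h0
  -- conclusion
  obtain ⟨y₀, hy₀, hΦ0⟩ := exists_besselPhi_ne_zero ν
  have hV0 : V y₀ ≠ 0 := by
    have hsq : 0 < Real.sqrt y₀ := Real.sqrt_pos.mpr hy₀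
    exact mul_ne_zero (by exact_mod_cast hsq.ne') hΦ0
  set c : ℂ := W y₀ / V y₀ with hc
  have hwy : W y₀ * V1 y₀ - W1 y₀ * V y₀ = 0 := by
    have := hwconst y₀ hy₀
    rw [hw0] at this
    exact this
  have hz := whittaker_zero (lam := lam) (D := fun y => W y - c * V y)
    (D1 := fun y => W1 y - c * V1 y) hy₀
    (fun y hy => (h1 y hy).sub ((hVd y hy).const_mul c))
    (fun y hy => by
      refine HasDerivAt.congr_deriv ((h2 y hy).sub ((hV1d y hy).const_mul c)) ?_
      rw [hW2 y hy]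
      ring)
    (by simp only [hc]; field_simp; ring)
    (by simp only [hc]; field_simp; linear_combination -hwy)
  refine ⟨c, fun y hy => ?_⟩
  have h := hz y hy
  simp only [hV] at h
  linear_combination h

end Pool.Agent.Lib.Maass
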