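import Pool.Agent.Lib.Maass.Defs

/-!
# Differentiation of Fourier coefficients of a function on the upper half-plane (part of chunk F)
-/

open UpperHalfPlane Complex MeasureTheory
open scoped MatrixGroups Real ContDiff Topology

namespace Pool.Agent.Lib.Maass

noncomputable section

/-- The character `x ↦ e(-n x)`. -/
def ech (n : ℤ) (x : ℝ) : ℂ := cexp (-(2 * π * Complex.I * n * x))

lemma norm_ech (n : ℤ) (x : ℝ) : ‖ech n x‖ = 1 := by
  unfold ech
  rw [Complex.norm_exp]
  have : (-(2 * (π : ℂ) * Complex.I * n * x)).re = 0 := by simp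
  rw [this, Real.exp_zero]

lemma continuous_ech (n : ℤ) : Continuous (ech n) := by
  unfold ech
  fun_prop

lemma ech_eq (n : ℤ) (x : ℝ) : ech n x = cexp (-(2 * π * Complex.I * n) * x) := by
  unfold ech; congr 1; ring

lemma hasDerivAt_ech (n : ℤ) (x : ℝ) :
    HasDerivAt (ech n) (-(2 * π * Complex.I * n) * ech n x) x := by
  have h0 : ech n = fun x : ℝ => cexp (-(2 * π * Complex.I * n) * x) := funext (ech_eq n)
  have h1 : HasDerivAt (fun x : ℝ => -(2 * (π : ℂ) * Complex.I * n) * x)
      (-(2 * π * Complex.I * n) * 1) x :=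
    (Complex.ofRealCLM.hasDerivAt (x := x)).const_mul (-(2 * (π : ℂ) * Complex.I * n))
  have h2 := h1.cexp
  rw [h0]
  refine h2.congr_deriv ?_
  ring

lemma ech_int (n : ℤ) (m : ℤ) : ech n m = 1 := by
  unfold ech
  rw [Complex.exp_eq_one_iff]
  exact ⟨-(n * m), by push_cast; ring⟩

lemma ech_add_int (n : ℤ) (x : ℝ) (m : ℤ) : ech n (x + m) = ech n x := by
  have h := ech_int n m
  unfold ech at h ⊢
  rw [← mul_one (cexp (-(2 * π * Complex.I * n * x))), ← h, ← Complex.exp_add]
  congr 1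
  push_cast
  ring

/-- The point `x + i y`. -/
def pt (x y : ℝ) : ℂ := x + y * Complex.I

lemma pt_im (x y : ℝ) : (pt x y).im = y := by simp [pt]

lemma pt_re (x y : ℝ) : (pt x y).re = x := by simp [pt]

lemma continuous_pt_left (y : ℝ) : Continuous (fun x : ℝ => pt x y) := by
  unfold pt; fun_prop

lemma continuous_pt : Continuous (fun q : ℝ × ℝ => pt q.1 q.2) := by
  unfold pt; fun_prop

lemma hasDerivAt_pt_right (x y : ℝ) : HasDerivAt (fun y : ℝ => pt x y) Complex.I y := by
  have := ((Complex.ofRealCLM.hasDerivAt (x := y)).mul_const Complex.I).const_add (x : ℂ)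
  simpa [pt] using this

lemma hasDerivAt_pt_left (x y : ℝ) : HasDerivAt (fun x : ℝ => pt x y) 1 x := by
  have := ((Complex.ofRealCLM.hasDerivAt (x := x))).add_const ((y : ℂ) * Complex.I)
  simpa [pt] using this

/-- The open upper half plane in `ℂ`. -/
def UH : Set ℂ := {z : ℂ | 0 < z.im}

lemma isOpen_UH : IsOpen UH := isOpen_lt continuous_const Complex.continuous_im

lemma pt_mem {x y : ℝ} (hy : 0 < y) : pt x y ∈ UH := by
  change 0 < (pt x y).im
  rw [pt_im]; exact hy

/-- Fourier coefficient at height `y` of a function on `ℂ`. -/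
def cf (h : ℂ → ℂ) (n : ℤ) (y : ℝ) : ℂ := ∫ x in (0 : ℝ)..1, h (pt x y) * ech n x

lemma contOn_left {h : ℂ → ℂ} (hh : ContinuousOn h UH) {y : ℝ} (hy : 0 < y) :
    Continuous (fun x : ℝ => h (pt x y)) :=
  hh.comp_continuous (continuous_pt_left y) (fun _ => pt_mem hy)

/-- Differentiation in `y` of a Fourier coefficient. -/
lemma hasDerivAt_cf {h : ℂ → ℂ} (hh : ContDiffOn ℝ 1 h UH) (n : ℤ) {y : ℝ} (hy : 0 < y) :
    HasDerivAt (cf h n) (cf (fun z => fderiv ℝ h z Complex.I) n y) y := by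
  have hd : DifferentiableOn ℝ h UH := hh.differentiableOn (by norm_num)
  have hc : ContinuousOn h UH := hh.continuousOn
  have hc' : ContinuousOn (fun z => fderiv ℝ h z Complex.I) UH :=
    (hh.continuousOn_fderiv_of_isOpen isOpen_UH (by norm_num)).clm_apply continuousOn_const
  set s : Set ℝ := Set.Ioo (y / 2) (2 * y) with hs
  have hsn : s ∈ 𝓝 y := Ioo_mem_nhds (by linarith) (by linarith)
  -- bound of the derivative
  have hK : IsCompact (Set.Icc (0 : ℝ) 1 ×ˢ Set.Icc (y / 2) (2 * y)) :=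
    isCompact_Icc.prod isCompact_Icc
  have hcont2 : ContinuousOn (fun q : ℝ × ℝ => fderiv ℝ h (pt q.1 q.2) Complex.I)
      (Set.Icc (0 : ℝ) 1 ×ˢ Set.Icc (y / 2) (2 * y)) := by
    refine hc'.comp continuous_pt.continuousOn ?_
    rintro ⟨a, b⟩ ⟨_, hb⟩
    exact pt_mem (by linarith [hb.1])
  obtain ⟨M, hM⟩ := hK.exists_bound_of_continuousOn hcont2
  have h1 := intervalIntegral.hasDerivAt_integral_of_dominated_loc_of_deriv_le (μ := volume)
    (a := 0) (b := 1) (x₀ := y) (s := s) (bound := fun _ => M)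
    (F := fun (y : ℝ) (x : ℝ) => h (pt x y) * ech n x)
    (F' := fun (y : ℝ) (x : ℝ) => fderiv ℝ h (pt x y) Complex.I * ech n x) hsn
    (by
      filter_upwards [hsn] with t ht
      exact ((contOn_left hc (show 0 < t by linarith [ht.1])).mul
        (continuous_ech n)).aestronglyMeasurable)
    (((contOn_left hc hy).mul (continuous_ech n)).intervalIntegrable _ _)
    (((contOn_left hc' hy).mul (continuous_ech n)).aestronglyMeasurable)
    (by
      refine Filter.Eventually.of_forall fun x hx t ht => ?_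
      rw [Set.uIoc_of_le zero_le_one] at hx
      rw [norm_mul, norm_ech, mul_one]
      exact hM (x, t) ⟨⟨hx.1.le, hx.2⟩, ⟨ht.1.le, ht.2.le⟩⟩)
    intervalIntegrable_const
    (by
      refine Filter.Eventually.of_forall fun x hx t ht => ?_
      have ht0 : 0 < t := by linarith [ht.1]
      have hz := (hd.differentiableAt (isOpen_UH.mem_nhds (pt_mem (x := x) ht0))).hasFDerivAt
      exact (hz.comp_hasDerivAt t (hasDerivAt_pt_right x t)).mul_const _)
  exact h1.2

/-- Integration by parts in `x` for periodic functions. -/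
lemma cf_dx {h : ℂ → ℂ} (hh : ContDiffOn ℝ 1 h UH) (hper : ∀ z ∈ UH, h (z + 1) = h z) (n : ℤ)
    {y : ℝ} (hy : 0 < y) :
    cf (fun z => fderiv ℝ h z 1) n y = 2 * π * Complex.I * n * cf h n y := by
  have hd : DifferentiableOn ℝ h UH := hh.differentiableOn (by norm_num)
  have hc : ContinuousOn h UH := hh.continuousOn
  have hc' : ContinuousOn (fun z => fderiv ℝ h z 1) UH :=
    (hh.continuousOn_fderiv_of_isOpen isOpen_UH (by norm_num)).clm_apply continuousOn_const
  have h1 := intervalIntegral.integral_mul_deriv_eq_deriv_mul (a := 0) (b := 1)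
    (u := ech n) (u' := fun x => -(2 * π * Complex.I * n) * ech n x)
    (v := fun x => h (pt x y)) (v' := fun x => fderiv ℝ h (pt x y) 1)
    (fun x _ => hasDerivAt_ech n x)
    (fun x _ => (hd.differentiableAt (isOpen_UH.mem_nhds (pt_mem (x := x) hy))).hasFDerivAt.comp_hasDerivAt
      x (hasDerivAt_pt_left x y))
    ((continuous_const.mul (continuous_ech n)).intervalIntegrable _ _)
    ((contOn_left hc' hy).intervalIntegrable _ _)
  have e1 : h (pt 1 y) = h (pt 0 y) := by
    rw [← hper (pt 0 y) (pt_mem hy)]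
    congr 1
    simp [pt]
    ring
  have e2 : ech n 1 = 1 := by simpa using ech_int n 1
  have e3 : ech n 0 = 1 := by simpa using ech_int n 0
  rw [e1, e2, e3, sub_self, zero_sub] at h1
  unfold cf
  rw [← intervalIntegral.integral_const_mul]
  have e4 : ∫ x in (0:ℝ)..1, fderiv ℝ h (pt x y) 1 * ech n x =
      ∫ x in (0:ℝ)..1, ech n x * fderiv ℝ h (pt x y) 1 := by
    congr 1; ext x; ring
  rw [e4, h1, ← intervalIntegral.integral_neg]
  congr 1
  ext x
  ring

lemma fderiv_per {h : ℂ → ℂ} (hper : ∀ z ∈ UH, h (z + 1) = h z) :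
    ∀ z ∈ UH, fderiv ℝ h (z + 1) = fderiv ℝ h z := by
  intro z hz
  have h1 : fderiv ℝ (fun w => h (w + 1)) z = fderiv ℝ h (z + 1) := fderiv_comp_add_right 1
  rw [← h1]
  refine Filter.EventuallyEq.fderiv_eq ?_
  filter_upwards [isOpen_UH.mem_nhds hz] with w hw using hper w hw

/-- The differential equation of the Fourier coefficients of an eigenfunction of the Laplacian. -/
lemma cf_ode {g : ℂ → ℂ} (hg : ContDiffOn ℝ ∞ g UH) (hper : ∀ z ∈ UH, g (z + 1) = g z) {lam : ℂ}
    (hlap : ∀ z ∈ UH, -(z.im : ℂ) ^ 2 * Laplacian.laplacian g z = lam * g z) (n : ℤ) :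
    ∃ W1 W2 : ℝ → ℂ, (∀ y : ℝ, 0 < y → HasDerivAt (cf g n) (W1 y) y) ∧
      (∀ y : ℝ, 0 < y → HasDerivAt W1 (W2 y) y) ∧
      (∀ y : ℝ, 0 < y → (y : ℂ) ^ 2 * W2 y =
        (4 * (π : ℂ) ^ 2 * (n : ℂ) ^ 2 * (y : ℂ) ^ 2 - lam) * cf g n y) := by
  have hfd : ContDiffOn ℝ ∞ (fderiv ℝ g) UH := hg.fderiv_of_isOpen isOpen_UH (by simp)
  have hI : ContDiffOn ℝ ∞ (fun z => fderiv ℝ g z Complex.I) UH := hfd.clm_apply contDiffOn_const
  have h1 : ContDiffOn ℝ ∞ (fun z => fderiv ℝ g z 1) UH := hfd.clm_apply contDiffOn_const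
  refine ⟨cf (fun z => fderiv ℝ g z Complex.I) n,
    cf (fun z => fderiv ℝ (fun z => fderiv ℝ g z Complex.I) z Complex.I) n,
    fun y hy => hasDerivAt_cf (hg.of_le (by simp)) n hy,
    fun y hy => hasDerivAt_cf (hI.of_le (by simp)) n hy, fun y hy => ?_⟩
  have hxx : cf (fun z => fderiv ℝ (fun z => fderiv ℝ g z 1) z 1) n y =
      2 * π * Complex.I * n * (2 * π * Complex.I * n * cf g n y) := by
    rw [cf_dx (h1.of_le (by simp)) (fun z hz => by rw [fderiv_per hper z hz]) n hy,
      cf_dx (hg.of_le (by simp)) hper n hy]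
  have hlap' : ∀ z ∈ UH, Laplacian.laplacian g z =
      fderiv ℝ (fun z => fderiv ℝ g z 1) z 1 + fderiv ℝ (fun z => fderiv ℝ g z Complex.I) z Complex.I := by
    intro z hz
    have hdz : DifferentiableAt ℝ (fderiv ℝ g) z :=
      (hfd.differentiableOn (by simp)).differentiableAt (isOpen_UH.mem_nhds hz)
    rw [InnerProductSpace.laplacian_eq_iteratedFDeriv_complexPlane]
    simp only [iteratedFDeriv_two_apply]
    have e : ∀ v : ℂ, fderiv ℝ (fun z => fderiv ℝ g z v) z v = fderiv ℝ (fderiv ℝ g) z v v := by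
      intro v
      rw [fderiv_clm_apply hdz (differentiableAt_const v)]
      simp
    rw [e, e]
    rfl
  have hcI : ContinuousOn (fun z => fderiv ℝ (fun z => fderiv ℝ g z Complex.I) z Complex.I) UH :=
    ((hI.of_le (by simp) : ContDiffOn ℝ 1 _ UH).continuousOn_fderiv_of_isOpen isOpen_UH
      (by norm_num)).clm_apply continuousOn_const
  have hc1 : ContinuousOn (fun z => fderiv ℝ (fun z => fderiv ℝ g z 1) z 1) UH :=
    ((h1.of_le (by simp) : ContDiffOn ℝ 1 _ UH).continuousOn_fderiv_of_isOpen isOpen_UH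
      (by norm_num)).clm_apply continuousOn_const
  have hsum : (y : ℂ) ^ 2 * (cf (fun z => fderiv ℝ (fun z => fderiv ℝ g z 1) z 1) n y +
      cf (fun z => fderiv ℝ (fun z => fderiv ℝ g z Complex.I) z Complex.I) n y) =
      -lam * cf g n y := by
    have i1 : IntervalIntegrable (fun x : ℝ =>
        fderiv ℝ (fun z => fderiv ℝ g z 1) (pt x y) 1 * ech n x) volume 0 1 :=
      ((contOn_left hc1 hy).mul (continuous_ech n)).intervalIntegrable _ _
    have i2 : IntervalIntegrable (fun x : ℝ =>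
        fderiv ℝ (fun z => fderiv ℝ g z Complex.I) (pt x y) Complex.I * ech n x) volume 0 1 :=
      ((contOn_left hcI hy).mul (continuous_ech n)).intervalIntegrable _ _
    unfold cf
    rw [← intervalIntegral.integral_add i1 i2,
      ← intervalIntegral.integral_const_mul, ← intervalIntegral.integral_const_mul]
    congr 1
    ext x
    have := hlap (pt x y) (pt_mem hy)
    rw [hlap' _ (pt_mem hy), pt_im] at this
    linear_combination (-ech n x) * this
  rw [hxx] at hsum
  linear_combination hsum + (-(4 * (π : ℂ) ^ 2 * (n : ℂ) ^ 2 * (y : ℂ) ^ 2) * cf g n y) * Complex.I_sq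

end

end Pool.Agent.Lib.Maass
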