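import Pool.Agent.Lib.Maass.Defs

/-!
# Point-pair invariants on the upper half-plane and the associated integral operators
(chunk A, owner helper60)
-/

open UpperHalfPlane Complex MeasureTheory
open scoped MatrixGroups ContDiff Pointwise

namespace Pool.Agent.Lib.Maass

noncomputable section

/-- `u(z, w) = |z - w|² / (4 Im z Im w) = sinh² (d(z, w) / 2)`. -/
def upt (z w : ℍ) : ℝ := Complex.normSq ((z : ℂ) - w) / (4 * z.im * w.im)

lemma upt_nonneg (z w : ℍ) : 0 ≤ upt z w := by
  unfold upt
  have := z.im_pos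
  have := w.im_pos
  have := Complex.normSq_nonneg ((z : ℂ) - w)
  positivity

lemma upt_symm (z w : ℍ) : upt z w = upt w z := by
  unfold upt
  rw [← Complex.normSq_neg, neg_sub, mul_right_comm]

lemma upt_eq_sinh (z w : ℍ) : upt z w = Real.sinh (dist z w / 2) ^ 2 := by
  rw [sinh_half_dist, upt, div_pow, mul_pow, Real.sq_sqrt (mul_pos z.im_pos w.im_pos).le,
    Complex.dist_eq, ← Complex.normSq_eq_norm_sq]
  ring

lemma upt_smul (g : GL (Fin 2) ℝ) (z w : ℍ) : upt (g • z) (g • w) = upt z w := by
  unfold upt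
  have hz := denom_ne_zero g z
  have hw := denom_ne_zero g w
  have hdet : g.det.val ≠ 0 := g.det_ne_zero
  have key : Complex.normSq (((g • z : ℍ) : ℂ) - ((g • w : ℍ) : ℂ)) =
      g.det.val ^ 2 * Complex.normSq ((z : ℂ) - w) /
        (Complex.normSq (denom g z) * Complex.normSq (denom g w)) := by
    have h1 : ((g • z : ℍ) : ℂ) - ((g • w : ℍ) : ℂ) =
        σ g (num g z / denom g z - num g w / denom g w) := by
      rw [coe_smul, coe_smul, map_sub]
    have h2 : num g z / denom g z - num g w / denom g w =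
        (g.det.val : ℂ) * ((z : ℂ) - w) / (denom g z * denom g w) := by
      rw [div_sub_div _ _ hz hw]
      congr 1
      simp only [num, denom, Matrix.GeneralLinearGroup.val_det_apply, Matrix.det_fin_two]
      push_cast
      ring
    rw [h1, Complex.normSq_eq_norm_sq, norm_σ, h2, ← Complex.normSq_eq_norm_sq,
      Complex.normSq_div, Complex.normSq_mul, Complex.normSq_mul, Complex.normSq_ofReal]
    ring
  rw [key, im_smul_eq_div_normSq, im_smul_eq_div_normSq]
  have h1 : Complex.normSq (denom g z) ≠ 0 := by simp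
  have h2 : Complex.normSq (denom g w) ≠ 0 := by simp
  have h3 : |g.det.val| ≠ 0 := by simpa using hdet
  have h4 := z.im_ne_zero
  have h5 := w.im_ne_zero
  rw [← sq_abs (g.det.val)]
  field_simp

lemma continuous_upt : Continuous (fun p : ℍ × ℍ => upt p.1 p.2) := by
  unfold upt
  refine Continuous.div ?_ ?_ ?_
  · exact Complex.continuous_normSq.comp
      ((continuous_coe.comp continuous_fst).sub (continuous_coe.comp continuous_snd))
  · exact (continuous_const.mul (UpperHalfPlane.continuous_im.comp continuous_fst)).mul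
      (UpperHalfPlane.continuous_im.comp continuous_snd)
  · intro p
    have := p.1.im_pos
    have := p.2.im_pos
    positivity

lemma swap_aux {g : GL (Fin 2) ℝ} (hg : g.det.val < 0) (z : ℍ) :
    ((g • z : ℍ) : ℂ) = (starRingEnd ℂ) (num g z / denom g z) := by
  have h : σ g = Complex.conjCAE := by
    simp only [σ]
    rw [if_neg (not_lt.mpr hg.le)]
  rw [coe_smul, h]
  simp

/-- Any two points of `ℍ` are swapped by an isometry in `GL(2, ℝ)`. -/
lemma exists_swap (z w : ℍ) : ∃ g : GL (Fin 2) ℝ, g • z = w ∧ g • w = z := by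
  have hz := z.im_pos
  have hw := w.im_pos
  by_cases h : z.im = w.im
  · have key : ∀ a b : ℍ, a.im = b.im →
      (Matrix.GeneralLinearGroup.mkOfDetNeZero !![(-1 : ℝ), a.re + b.re; 0, 1] (by simp) :
        GL (Fin 2) ℝ) • a = b := by
      intro a b hab
      ext
      rw [swap_aux (by simp)]
      apply Complex.ext
      · simp [num, denom]
      · simp [num, denom, hab]
    refine ⟨_, key z w h, ?_⟩
    rw [add_comm z.re w.re]
    exact key w z h.symm
  · set c : ℝ := (z.re * w.im - w.re * z.im) / (w.im - z.im) with hc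
    have hne : w.im - z.im ≠ 0 := sub_ne_zero.mpr (Ne.symm h)
    obtain ⟨r2, hr2⟩ : ∃ r2 : ℝ, r2 = w.im / z.im * ((z.re - c) ^ 2 + z.im ^ 2) := ⟨_, rfl⟩
    have hr2pos : 0 < r2 := by rw [hr2]; positivity
    have hcz : (z.re - c) * w.im = (w.re - c) * z.im := by
      rw [hc]; field_simp; ring
    obtain ⟨e, he⟩ : ∃ e : ℝ, e = r2 - c ^ 2 := ⟨_, rfl⟩
    have hdet0 : (!![c, e; 1, -c] : Matrix (Fin 2) (Fin 2) ℝ).det = -r2 := by
      rw [Matrix.det_fin_two_of, he]; ring
    have hdet : (!![c, e; 1, -c] : Matrix (Fin 2) (Fin 2) ℝ).det ≠ 0 := by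
      rw [hdet0]; exact (neg_neg_iff_pos.mpr hr2pos).ne
    set g : GL (Fin 2) ℝ := Matrix.GeneralLinearGroup.mkOfDetNeZero _ hdet with hg
    have hgdet : g.det.val < 0 := by
      rw [hg]
      simp only [Matrix.GeneralLinearGroup.val_det_apply]
      change Matrix.det !![c, e; 1, -c] < 0
      rw [hdet0]; exact (neg_neg_iff_pos.mpr hr2pos)
    have hgz : g • z = w := by
      ext
      rw [swap_aux hgdet]
      have hnum : num g z = c * z + e := by
        simp [num, hg, Matrix.GeneralLinearGroup.mkOfDetNeZero]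
      have hden : denom g z = z - c := by
        simp [denom, hg, Matrix.GeneralLinearGroup.mkOfDetNeZero, sub_eq_add_neg]
      have hden0 : (z : ℂ) - c ≠ 0 := by
        intro h0
        have := congrArg Complex.im h0
        simp at this
        exact z.im_ne_zero this
      rw [hnum, hden, map_div₀, div_eq_iff ((map_ne_zero _).mpr hden0)]
      apply Complex.ext
      · simp
        have : c * z.re + e = w.re * (z.re - c) + w.im * z.im := by
          have : r2 * z.im = w.im * ((z.re - c) ^ 2 + z.im ^ 2) := by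
            rw [hr2]; field_simp
          have h2 : z.im * (c * z.re + e) = z.im * (w.re * (z.re - c) + w.im * z.im) := by
            rw [he]
            linear_combination this + (z.re - c) * hcz
          exact mul_left_cancel₀ z.im_ne_zero h2
        linarith
      · simp
        linarith
    refine ⟨g, hgz, ?_⟩
    have hgg : g * g = Matrix.GeneralLinearGroup.scalar (Fin 2) (Units.mk0 r2 hr2pos.ne') := by
      ext i j
      simp [hg, Matrix.GeneralLinearGroup.mkOfDetNeZero]
      fin_cases i <;> fin_cases j <;> simp [he] <;> ring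
    rw [← hgz, ← mul_smul, hgg, glScalar_smul]

/-- Test functions: smooth functions on `ℝ` vanishing on `[1, ∞)`. -/
structure IsTest (φ : ℝ → ℝ) : Prop where
  smooth : ContDiff ℝ ∞ φ
  supp : ∀ u : ℝ, 1 ≤ u → φ u = 0

/-- Bounded measurable functions on `ℍ`. -/
structure IsBM (f : ℍ → ℂ) : Prop where
  meas : Measurable f
  bdd : ∃ C : ℝ, ∀ z : ℍ, ‖f z‖ ≤ C

/-- The integral operator attached to the point-pair invariant `φ(u(z, w))`. -/
def pp (φ : ℝ → ℝ) (f : ℍ → ℂ) (z : ℍ) : ℂ := ∫ w : ℍ, (φ (upt z w) : ℂ) * f w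

lemma IsTest.bdd {φ : ℝ → ℝ} (hφ : IsTest φ) : ∃ M : ℝ, 0 ≤ M ∧ ∀ u : ℝ, 0 ≤ u → |φ u| ≤ M := by
  obtain ⟨M, hM⟩ := isCompact_Icc.exists_bound_of_continuousOn
    (s := Set.Icc (0 : ℝ) 1) hφ.smooth.continuous.continuousOn
  refine ⟨max M 0, le_max_right _ _, fun u hu => ?_⟩
  by_cases h : u ≤ 1
  · exact (hM u ⟨hu, h⟩).trans (le_max_left _ _)
  · rw [hφ.supp u (le_of_not_ge h)]
    simp

/-- The hyperbolic radius corresponding to `u = 1`. -/
def R0 : ℝ := 2 * Real.arsinh 1

lemma upt_lt_one_dist {z w : ℍ} (h : upt z w < 1) : dist z w ≤ R0 := by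
  by_contra hlt
  push Not at hlt
  have h1 : Real.arsinh 1 < dist z w / 2 := by unfold R0 at hlt; linarith
  have h2 : (1 : ℝ) < Real.sinh (dist z w / 2) := by
    rw [← Real.sinh_arsinh 1]
    exact Real.sinh_lt_sinh.mpr h1
  rw [upt_eq_sinh] at h
  nlinarith

lemma mem_closedBall_of_ne_zero {φ : ℝ → ℝ} (hφ : IsTest φ) {z w : ℍ} (h : φ (upt z w) ≠ 0) :
    w ∈ Metric.closedBall z R0 := by
  rw [Metric.mem_closedBall, dist_comm]
  apply upt_lt_one_dist
  by_contra h1
  exact h (hφ.supp _ (not_lt.mp h1))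

lemma continuous_test_upt {φ : ℝ → ℝ} (hφ : IsTest φ) :
    Continuous (fun p : ℍ × ℍ => φ (upt p.1 p.2)) :=
  hφ.smooth.continuous.comp continuous_upt

lemma pp_norm_le_aux {φ : ℝ → ℝ} (hφ : IsTest φ) {M : ℝ} (hM : ∀ u : ℝ, 0 ≤ u → |φ u| ≤ M)
    {f : ℍ → ℂ} {C : ℝ} (hC : ∀ z : ℍ, ‖f z‖ ≤ C) (z w : ℍ) :
    ‖(φ (upt z w) : ℂ) * f w‖ ≤ (Metric.closedBall z R0).indicator (fun _ => M * C) w := by
  by_cases h : w ∈ Metric.closedBall z R0
  · rw [Set.indicator_of_mem h, norm_mul, Complex.norm_real]
    have h1 := hM (upt z w) (upt_nonneg z w)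
    have h2 := hC w
    have h3 : 0 ≤ M := (abs_nonneg _).trans h1
    exact mul_le_mul h1 h2 (norm_nonneg _) h3
  · rw [Set.indicator_of_notMem h]
    have : φ (upt z w) = 0 := by
      by_contra h1
      exact h (mem_closedBall_of_ne_zero hφ h1)
    simp [this]

lemma pp_integrable {φ : ℝ → ℝ} (hφ : IsTest φ) {f : ℍ → ℂ} (hf : IsBM f) (z : ℍ) :
    Integrable (fun w : ℍ => (φ (upt z w) : ℂ) * f w) := by
  obtain ⟨M, hM0, hM⟩ := hφ.bdd
  obtain ⟨C, hC⟩ := hf.bdd
  have hint : Integrable ((Metric.closedBall z R0).indicator (fun _ => M * C)) := by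
    rw [integrable_indicator_iff Metric.isClosed_closedBall.measurableSet]
    exact integrableOn_const (isCompact_closedBall z R0).measure_lt_top.ne
  refine hint.mono' ?_ (Filter.Eventually.of_forall fun w => pp_norm_le_aux hφ hM hC z w)
  have h1 : Continuous (fun w : ℍ => φ (upt z w)) :=
    (continuous_test_upt hφ).comp (Continuous.prodMk_right z)
  exact ((Complex.continuous_ofReal.comp h1).measurable.mul hf.meas).aestronglyMeasurable

lemma volume_closedBall (z : ℍ) (r : ℝ) :
    volume (Metric.closedBall z r) = volume (Metric.closedBall UpperHalfPlane.I r) := by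
  have h : Metric.closedBall z r = z.toSL2R • Metric.closedBall UpperHalfPlane.I r := by
    rw [Metric.smul_closedBall, toSL2R_smul_I]
  rw [h]
  change volume ((fun x : ℍ => (Matrix.SpecialLinearGroup.mapGL ℝ z.toSL2R) • x) '' _) = _
  rw [Set.image_smul, measure_smul]

lemma pp_isBM {φ : ℝ → ℝ} (hφ : IsTest φ) {f : ℍ → ℂ} (hf : IsBM f) : IsBM (pp φ f) := by
  constructor
  · unfold pp
    have h : Measurable (fun p : ℍ × ℍ => (φ (upt p.1 p.2) : ℂ) * f p.2) :=
      (Complex.continuous_ofReal.comp (continuous_test_upt hφ)).measurable.mul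
        (hf.meas.comp measurable_snd)
    exact (h.stronglyMeasurable.integral_prod_right).measurable
  · obtain ⟨M, hM0, hM⟩ := hφ.bdd
    obtain ⟨C, hC⟩ := hf.bdd
    refine ⟨(volume (Metric.closedBall UpperHalfPlane.I R0)).toReal * (M * C), fun z => ?_⟩
    refine (norm_integral_le_of_norm_le (g := (Metric.closedBall z R0).indicator (fun _ => M * C))
      ?_ (Filter.Eventually.of_forall fun w => pp_norm_le_aux hφ hM hC z w)).trans ?_
    · rw [integrable_indicator_iff Metric.isClosed_closedBall.measurableSet]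
      exact integrableOn_const (isCompact_closedBall z R0).measure_lt_top.ne
    · rw [integral_indicator Metric.isClosed_closedBall.measurableSet, setIntegral_const,
        Measure.real, volume_closedBall, smul_eq_mul]

lemma pp_smul (φ : ℝ → ℝ) (f : ℍ → ℂ) (g : GL (Fin 2) ℝ) (z : ℍ) :
    pp φ (fun w => f (g • w)) z = pp φ f (g • z) := by
  unfold pp
  have h := (measurePreserving_smul g (volume : Measure ℍ)).integral_comp
    (measurableEmbedding_const_smul g) (fun w => (φ (upt (g • z) w) : ℂ) * f w)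
  rw [← h]
  simp only [upt_smul]

/-- The convolution of two point-pair invariants is symmetric. -/
lemma conv_symm (φ ψ : ℝ → ℝ) (z w : ℍ) :
    ∫ v : ℍ, φ (upt z v) * ψ (upt v w) = ∫ v : ℍ, ψ (upt z v) * φ (upt v w) := by
  obtain ⟨g, hgz, hgw⟩ := exists_swap z w
  have h := (measurePreserving_smul g (volume : Measure ℍ)).integral_comp
    (measurableEmbedding_const_smul g) (fun v => φ (upt z v) * ψ (upt v w))
  rw [← h]
  congr 1
  ext v
  have h1 : upt z (g • v) = upt w v := by rw [← hgw, upt_smul]
  have h2 : upt (g • v) w = upt v z := by rw [← hgz, upt_smul]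
  rw [h1, h2, upt_symm w v, upt_symm v z, mul_comm]

lemma pp_comm {φ ψ : ℝ → ℝ} (hφ : IsTest φ) (hψ : IsTest ψ) {f : ℍ → ℂ} (hf : IsBM f) :
    pp φ (pp ψ f) = pp ψ (pp φ f) := by
  have key : ∀ {φ ψ : ℝ → ℝ} (hφ : IsTest φ) (hψ : IsTest ψ) (z : ℍ),
      pp φ (pp ψ f) z = ∫ w : ℍ, ((∫ v : ℍ, φ (upt z v) * ψ (upt v w) : ℝ) : ℂ) * f w := by
    intro φ ψ hφ hψ z
    obtain ⟨M, hM0, hM⟩ := hφ.bdd
    obtain ⟨N, hN0, hN⟩ := hψ.bdd
    obtain ⟨C, hC⟩ := hf.bdd
    have hint : Integrable (fun p : ℍ × ℍ =>
        ((φ (upt z p.1) : ℂ) * (ψ (upt p.1 p.2) : ℂ)) * f p.2)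
        ((volume : Measure ℍ).prod volume) := by
      set S : Set (ℍ × ℍ) := Metric.closedBall z R0 ×ˢ Metric.closedBall z (R0 + R0)
      have hScomp : IsCompact S := (isCompact_closedBall _ _).prod (isCompact_closedBall _ _)
      have hSint : Integrable (S.indicator (fun _ => M * (N * C)))
          ((volume : Measure ℍ).prod volume) := by
        rw [integrable_indicator_iff hScomp.isClosed.measurableSet]
        exact integrableOn_const hScomp.measure_lt_top.ne
      refine hSint.mono' ?_ (Filter.Eventually.of_forall fun p => ?_)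
      · have m1 : Measurable (fun p : ℍ × ℍ => (φ (upt z p.1) : ℂ)) :=
          (Complex.continuous_ofReal.comp ((continuous_test_upt hφ).comp
            (Continuous.prodMk continuous_const continuous_fst))).measurable
        have m2 : Measurable (fun p : ℍ × ℍ => (ψ (upt p.1 p.2) : ℂ)) :=
          (Complex.continuous_ofReal.comp (continuous_test_upt hψ)).measurable
        exact ((m1.mul m2).mul (hf.meas.comp measurable_snd)).aestronglyMeasurable
      · by_cases hp : p ∈ S
        · rw [Set.indicator_of_mem hp, norm_mul, norm_mul, Complex.norm_real, Complex.norm_real,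
            mul_assoc]
          have h1 := hM _ (upt_nonneg z p.1)
          have h2 := hN _ (upt_nonneg p.1 p.2)
          have h3 := hC p.2
          have h4 : 0 ≤ C := (norm_nonneg _).trans h3
          exact mul_le_mul h1 (mul_le_mul h2 h3 (norm_nonneg _) hN0) (by positivity) hM0
        · rw [Set.indicator_of_notMem hp]
          have : φ (upt z p.1) = 0 ∨ ψ (upt p.1 p.2) = 0 := by
            by_contra hcon
            push Not at hcon
            apply hp
            have a1 := mem_closedBall_of_ne_zero hφ hcon.1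
            have a2 := mem_closedBall_of_ne_zero hψ hcon.2
            refine ⟨a1, ?_⟩
            rw [Metric.mem_closedBall] at a1 a2 ⊢
            exact (dist_triangle _ _ _).trans (add_le_add a2 a1)
          rcases this with h | h <;> simp [h]
    calc pp φ (pp ψ f) z
        = ∫ v : ℍ, ∫ w : ℍ, ((φ (upt z v) : ℂ) * (ψ (upt v w) : ℂ)) * f w := by
          unfold pp
          congr 1
          ext v
          rw [← integral_const_mul]
          simp only [mul_assoc]
      _ = ∫ w : ℍ, ∫ v : ℍ, ((φ (upt z v) : ℂ) * (ψ (upt v w) : ℂ)) * f w :=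
          integral_integral_swap hint
      _ = _ := by
          congr 1
          ext w
          rw [integral_mul_const]
          congr 1
          rw [← integral_complex_ofReal]
          simp
  ext z
  rw [key hφ hψ z, key hψ hφ z]
  simp_rw [conv_symm φ ψ z]

end

end Pool.Agent.Lib.Maass
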