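import Pool.Agent.Lib.Maass.PointPair

/-!
# Smoothness of `pp φ f` and its Laplacian (chunk S)
-/

open UpperHalfPlane Complex MeasureTheory
open scoped MatrixGroups ContDiff Topology

namespace Pool.Agent.Lib.Maass

noncomputable section

/-- The radial part of the hyperbolic Laplacian in the variable `u`:
`Δ_z (φ (u(z, w))) = (Lφ)(u(z, w))` with `Lφ = u (u + 1) φ'' + (2 u + 1) φ'`. -/
def radLap (φ : ℝ → ℝ) (u : ℝ) : ℝ :=
  u * (u + 1) * deriv (deriv φ) u + (2 * u + 1) * deriv φ u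

lemma IsTest.derivTest {φ : ℝ → ℝ} (hφ : IsTest φ) : IsTest (deriv φ) := by
  have hs : ContDiff ℝ ∞ (deriv φ) := (contDiff_infty_iff_deriv.1 hφ.smooth).2
  refine ⟨hs, ?_⟩
  have h1 : ∀ u : ℝ, 1 < u → deriv φ u = 0 := by
    intro u hu
    have : φ =ᶠ[𝓝 u] fun _ => 0 := by
      filter_upwards [lt_mem_nhds hu] with v hv using hφ.supp v hv.le
    rw [this.deriv_eq]
    simp
  intro u hu
  rcases eq_or_lt_of_le hu with rfl | hu
  · -- continuity at `1`
    have hc : ContinuousWithinAt (deriv φ) (Set.Ioi 1) 1 := hs.continuous.continuousWithinAt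
    have hz : Filter.Tendsto (deriv φ) (𝓝[>] 1) (𝓝 0) := by
      refine (tendsto_const_nhds (x := (0 : ℝ))).congr' ?_
      filter_upwards [self_mem_nhdsWithin] with v hv using (h1 v hv).symm
    exact tendsto_nhds_unique hc hz
  · exact h1 u hu

lemma IsTest.radLap {φ : ℝ → ℝ} (hφ : IsTest φ) : IsTest (radLap φ) := by
  have h1 := hφ.derivTest
  have h2 := h1.derivTest
  constructor
  · unfold Maass.radLap
    have := h1.smooth
    have := h2.smooth
    fun_prop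
  · intro u hu
    unfold Maass.radLap
    rw [h1.supp u hu, h2.supp u hu]
    ring

/-- The upper half-plane as a subset of `ℂ`. -/
def UU : Set ℂ := {z : ℂ | 0 < z.im}

lemma isOpen_UU : IsOpen UU := isOpen_lt continuous_const Complex.continuous_im

set_option linter.unusedSectionVars false

section kernel

variable {E : Type} [NormedAddCommGroup E] [NormedSpace ℝ E] [NormedSpace ℂ E] [SMulCommClass ℝ ℂ E]

/-- Smooth kernels on the upper half-plane, supported near the diagonal. -/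
structure GoodKer (K : ℂ × ℂ → E) : Prop where
  smooth : ContDiffOn ℝ ∞ K (UU ×ˢ UU)
  supp : ∀ z w : ℍ, R0 < dist z w → K ((z : ℂ), (w : ℂ)) = 0

/-- The partial derivative in the first variable. -/
def D1 (K : ℂ × ℂ → E) (p : ℂ × ℂ) : ℂ →L[ℝ] E :=
  (fderiv ℝ K p).comp (ContinuousLinearMap.inl ℝ ℂ ℂ)

lemma isOpen_UU_prod : IsOpen (UU ×ˢ UU) := isOpen_UU.prod isOpen_UU

lemma GoodKer.D1 {K : ℂ × ℂ → E} (hK : GoodKer K) : GoodKer (D1 K) := by
  constructor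
  · unfold Maass.D1
    have h1 : ContDiffOn ℝ ∞ (fderiv ℝ K) (UU ×ˢ UU) :=
      hK.smooth.fderiv_of_isOpen isOpen_UU_prod (by simp)
    exact h1.clm_comp contDiffOn_const
  · intro z w h
    have hev : K =ᶠ[𝓝 ((z : ℂ), (w : ℂ))] fun _ => 0 := by
      have hopen : IsOpenMap (Prod.map ((↑) : ℍ → ℂ) ((↑) : ℍ → ℂ)) :=
        isOpenEmbedding_coe.isOpenMap.prodMap isOpenEmbedding_coe.isOpenMap
      have hset : IsOpen {q : ℍ × ℍ | R0 < dist q.1 q.2} :=
        isOpen_lt continuous_const (continuous_fst.dist continuous_snd)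
      have := (hopen _ hset).mem_nhds (x := ((z : ℂ), (w : ℂ))) ⟨(z, w), h, rfl⟩
      filter_upwards [this] with q hq
      obtain ⟨⟨z', w'⟩, h', rfl⟩ := hq
      exact hK.supp z' w' h'
    unfold Maass.D1
    rw [hev.fderiv_eq]
    simp

lemma GoodKer.hasFDerivAt {K : ℂ × ℂ → E} (hK : GoodKer K) (z w : ℍ) :
    HasFDerivAt (fun z' : ℂ => K (z', (w : ℂ))) (Maass.D1 K ((z : ℂ), (w : ℂ))) (z : ℂ) := by
  have h1 : DifferentiableAt ℝ K ((z : ℂ), (w : ℂ)) :=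
    (hK.smooth.differentiableOn (by simp)).differentiableAt
      (isOpen_UU_prod.mem_nhds ⟨z.im_pos, w.im_pos⟩)
  exact h1.hasFDerivAt.comp (z : ℂ) (hasFDerivAt_prodMk_left (z : ℂ) (w : ℂ))

/-- Local bound of a kernel. -/
lemma GoodKer.exists_bound {K : ℂ × ℂ → E} (hK : GoodKer K) (z₀ : ℍ) :
    ∃ M : ℝ, 0 ≤ M ∧ ∀ z ∈ Metric.closedBall z₀ 1, ∀ w : ℍ,
      ‖K ((z : ℂ), (w : ℂ))‖ ≤ (Metric.closedBall z₀ (R0 + 1)).indicator (fun _ => M) w := by
  have hc : IsCompact (Metric.closedBall z₀ 1 ×ˢ Metric.closedBall z₀ (R0 + 1)) :=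
    (isCompact_closedBall _ _).prod (isCompact_closedBall _ _)
  have hcont : Continuous (fun q : ℍ × ℍ => K ((q.1 : ℂ), (q.2 : ℂ))) := by
    have h1 : Continuous (fun q : ℍ × ℍ => ((q.1 : ℂ), (q.2 : ℂ))) :=
      (continuous_coe.comp continuous_fst).prodMk (continuous_coe.comp continuous_snd)
    exact hK.smooth.continuousOn.comp_continuous h1 (fun q => ⟨q.1.im_pos, q.2.im_pos⟩)
  obtain ⟨M, hM⟩ := hc.exists_bound_of_continuousOn hcont.continuousOn
  refine ⟨max M 0, le_max_right _ _, fun z hz w => ?_⟩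
  by_cases hw : w ∈ Metric.closedBall z₀ (R0 + 1)
  · rw [Set.indicator_of_mem hw]
    exact (hM (z, w) ⟨hz, hw⟩).trans (le_max_left _ _)
  · rw [Set.indicator_of_notMem hw]
    have : R0 < dist z w := by
      rw [Metric.mem_closedBall] at hz
      rw [Metric.mem_closedBall, not_le] at hw
      have := dist_triangle w z z₀
      rw [dist_comm w z] at this
      linarith
    rw [hK.supp z w this, norm_zero]

lemma GoodKer.measurable {K : ℂ × ℂ → E} (hK : GoodKer K) {f : ℍ → ℂ} (hf : IsBM f) (z : ℍ) :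
    AEStronglyMeasurable (fun w : ℍ => f w • K ((z : ℂ), (w : ℂ))) := by
  have h1 : Continuous (fun w : ℍ => K ((z : ℂ), (w : ℂ))) := by
    have h1 : Continuous (fun w : ℍ => ((z : ℂ), (w : ℂ))) := continuous_const.prodMk continuous_coe
    exact hK.smooth.continuousOn.comp_continuous h1 (fun w => ⟨z.im_pos, w.im_pos⟩)
  exact (hf.meas.stronglyMeasurable.smul h1.stronglyMeasurable).aestronglyMeasurable

/-- The integral of a kernel against a bounded measurable function. -/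
def kint (K : ℂ × ℂ → E) (f : ℍ → ℂ) (z : ℂ) : E := ∫ w : ℍ, f w • K (z, (w : ℂ))

lemma GoodKer.integrable {K : ℂ × ℂ → E} (hK : GoodKer K) {f : ℍ → ℂ} (hf : IsBM f) (z : ℍ) :
    Integrable (fun w : ℍ => f w • K ((z : ℂ), (w : ℂ))) := by
  obtain ⟨M, hM0, hM⟩ := hK.exists_bound z
  obtain ⟨C, hC⟩ := hf.bdd
  have hint : Integrable ((Metric.closedBall z (R0 + 1)).indicator (fun _ => C * M)) := by
    rw [integrable_indicator_iff Metric.isClosed_closedBall.measurableSet]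
    exact integrableOn_const (isCompact_closedBall z (R0 + 1)).measure_lt_top.ne
  refine hint.mono' (hK.measurable hf z) (Filter.Eventually.of_forall fun w => ?_)
  have h1 := hM z (Metric.mem_closedBall_self (by norm_num)) w
  have h2 := hC w
  have hC0 : 0 ≤ C := (norm_nonneg _).trans h2
  rw [norm_smul]
  by_cases hw : w ∈ Metric.closedBall z (R0 + 1)
  · rw [Set.indicator_of_mem hw] at h1 ⊢
    exact mul_le_mul h2 h1 (norm_nonneg _) hC0
  · rw [Set.indicator_of_notMem hw] at h1 ⊢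
    have : ‖K ((z : ℂ), (w : ℂ))‖ = 0 := le_antisymm h1 (norm_nonneg _)
    rw [this, mul_zero]

lemma GoodKer.hasFDerivAt_kint {K : ℂ × ℂ → E} (hK : GoodKer K) {f : ℍ → ℂ} (hf : IsBM f)
    (z : ℍ) : HasFDerivAt (kint K f) (kint (Maass.D1 K) f (z : ℂ)) (z : ℂ) := by
  obtain ⟨M, hM0, hM⟩ := hK.D1.exists_bound z
  obtain ⟨C, hC⟩ := hf.bdd
  have hint : Integrable ((Metric.closedBall z (R0 + 1)).indicator (fun _ => C * M)) := by
    rw [integrable_indicator_iff Metric.isClosed_closedBall.measurableSet]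
    exact integrableOn_const (isCompact_closedBall z (R0 + 1)).measure_lt_top.ne
  have hs : ((↑) : ℍ → ℂ) '' Metric.ball z 1 ∈ 𝓝 (z : ℂ) :=
    (isOpenEmbedding_coe.isOpenMap _ Metric.isOpen_ball).mem_nhds
      ⟨z, Metric.mem_ball_self (by norm_num), rfl⟩
  have hC0 : 0 ≤ C := (norm_nonneg _).trans (hC z)
  refine hasFDerivAt_integral_of_dominated_of_fderiv_le (𝕜 := ℝ)
    (F := fun (z' : ℂ) (w : ℍ) => f w • K (z', (w : ℂ)))
    (F' := fun (z' : ℂ) (w : ℍ) => f w • Maass.D1 K (z', (w : ℂ))) hs ?_ (hK.integrable hf z)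
    (hK.D1.measurable hf z) ?_ hint ?_
  · filter_upwards [hs] with z' hz'
    obtain ⟨z'', _, rfl⟩ := hz'
    exact hK.measurable hf z''
  · refine Filter.Eventually.of_forall fun w z' hz' => ?_
    obtain ⟨z'', hz'', rfl⟩ := hz'
    have h1 := hM z'' (Metric.ball_subset_closedBall hz'') w
    rw [norm_smul]
    by_cases hw : w ∈ Metric.closedBall z (R0 + 1)
    · rw [Set.indicator_of_mem hw] at h1 ⊢
      exact mul_le_mul (hC w) h1 (norm_nonneg _) hC0
    · rw [Set.indicator_of_notMem hw] at h1 ⊢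
      have : ‖Maass.D1 K ((z'' : ℂ), (w : ℂ))‖ = 0 := le_antisymm h1 (norm_nonneg _)
      rw [this, mul_zero]
  · refine Filter.Eventually.of_forall fun w z' hz' => ?_
    obtain ⟨z'', _, rfl⟩ := hz'
    exact (hK.hasFDerivAt z'' w).const_smul (f w)

end kernel

/-- Smoothness of kernel integrals. -/
lemma GoodKer.contDiffOn_nat (n : ℕ) : ∀ {E : Type} [NormedAddCommGroup E] [NormedSpace ℝ E]
    [NormedSpace ℂ E] [SMulCommClass ℝ ℂ E] {K : ℂ × ℂ → E} (_ : GoodKer K) {f : ℍ → ℂ}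
    (_ : IsBM f), ContDiffOn ℝ n (kint K f) UU := by
  induction n with
  | zero =>
    intro E _ _ _ _ K hK f hf
    rw [Nat.cast_zero, contDiffOn_zero]
    intro z hz
    exact (hK.hasFDerivAt_kint hf ⟨z, hz⟩).continuousAt.continuousWithinAt
  | succ n ih =>
    intro E _ _ _ _ K hK f hf
    rw [Nat.cast_add, Nat.cast_one, contDiffOn_succ_iff_fderiv_of_isOpen isOpen_UU]
    refine ⟨fun z hz => (hK.hasFDerivAt_kint hf ⟨z, hz⟩).differentiableAt.differentiableWithinAt,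
      by simp, ?_⟩
    refine (ih hK.D1 hf).congr fun z hz => ?_
    exact (hK.hasFDerivAt_kint hf ⟨z, hz⟩).fderiv

/-- The kernel `φ(u(z, w))` on `ℂ × ℂ`. -/
def KK (φ : ℝ → ℝ) (p : ℂ × ℂ) : ℂ :=
  ((φ (Complex.normSq (p.1 - p.2) / (4 * p.1.im * p.2.im)) : ℝ) : ℂ)

lemma KK_coe (φ : ℝ → ℝ) (z w : ℍ) : KK φ ((z : ℂ), (w : ℂ)) = (φ (upt z w) : ℂ) := rfl

lemma IsTest.goodKer {φ : ℝ → ℝ} (hφ : IsTest φ) : GoodKer (KK φ) := by
  constructor
  · unfold KK
    have h1 : ContDiffOn ℝ ∞ (fun p : ℂ × ℂ =>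
        Complex.normSq (p.1 - p.2) / (4 * p.1.im * p.2.im)) (UU ×ˢ UU) := by
      have hn : ContDiff ℝ ∞ (fun p : ℂ × ℂ => Complex.normSq (p.1 - p.2)) := by
        have : (fun p : ℂ × ℂ => Complex.normSq (p.1 - p.2)) =
            fun p : ℂ × ℂ => (Complex.reCLM (p.1 - p.2)) * (Complex.reCLM (p.1 - p.2))
              + (Complex.imCLM (p.1 - p.2)) * (Complex.imCLM (p.1 - p.2)) := by
          ext p
          simp [Complex.normSq_apply]
        rw [this]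
        fun_prop
      have hd : ContDiff ℝ ∞ (fun p : ℂ × ℂ => 4 * p.1.im * p.2.im) := by
        have : (fun p : ℂ × ℂ => 4 * p.1.im * p.2.im) =
            fun p : ℂ × ℂ => 4 * Complex.imCLM p.1 * Complex.imCLM p.2 := by
          ext p
          simp
        rw [this]
        fun_prop
      refine hn.contDiffOn.div hd.contDiffOn ?_
      rintro ⟨z, w⟩ ⟨hz, hw⟩
      have hz' : 0 < z.im := hz
      have hw' : 0 < w.im := hw
      simp only
      positivity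
    exact (Complex.ofRealCLM.contDiff.comp hφ.smooth).comp_contDiffOn h1
  · intro z w h
    rw [KK_coe]
    by_contra h1
    have h2 : φ (upt z w) ≠ 0 := fun h0 => h1 (by rw [h0]; simp)
    have h3 := mem_closedBall_of_ne_zero hφ h2
    rw [Metric.mem_closedBall, dist_comm] at h3
    linarith

lemma pp_eq_kint (φ : ℝ → ℝ) (f : ℍ → ℂ) {z : ℂ} (hz : z ∈ UU) :
    (pp φ f ∘ ofComplex) z = kint (KK φ) f z := by
  have hz' : 0 < z.im := hz
  rw [Function.comp_apply, ofComplex_apply_of_im_pos hz']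
  unfold pp kint
  congr 1
  ext w
  have : KK φ (z, (w : ℂ)) = (φ (upt ⟨z, hz'⟩ w) : ℂ) := KK_coe φ ⟨z, hz'⟩ w
  rw [this, smul_eq_mul, mul_comm]

lemma pp_contDiffOn {φ : ℝ → ℝ} (hφ : IsTest φ) {f : ℍ → ℂ} (hf : IsBM f) :
    ContDiffOn ℝ ∞ (pp φ f ∘ ofComplex) {z : ℂ | 0 < z.im} := by
  have h1 : ContDiffOn ℝ ∞ (kint (KK φ) f) UU :=
    contDiffOn_infty.2 fun n => GoodKer.contDiffOn_nat n hφ.goodKer hf
  exact h1.congr fun z hz => pp_eq_kint φ f hz

lemma upt_eq (z w : ℍ) :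
    upt z w = ((z.re - w.re) ^ 2 + (z.im - w.im) ^ 2) / (4 * z.im * w.im) := by
  unfold upt
  rw [Complex.normSq_apply]
  simp
  ring

/-- The derivative of `t ↦ ψ (u(z + t, w))` at `0`. -/
lemma hasDerivAt_dir_one {ψ : ℝ → ℝ} {z w : ℍ} {ψ' : ℝ} (hψ : HasDerivAt ψ ψ' (upt z w)) :
    HasDerivAt (fun t : ℝ => ψ (((z.re + t - w.re) ^ 2 + (z.im - w.im) ^ 2) / (4 * z.im * w.im)))
      (ψ' * ((z.re - w.re) / (2 * z.im * w.im))) 0 := by
  have hz := z.im_pos
  have hw := w.im_pos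
  have h3 : HasDerivAt (fun t : ℝ => ((z.re + t - w.re) ^ 2 + (z.im - w.im) ^ 2) / (4 * z.im * w.im))
      ((z.re - w.re) / (2 * z.im * w.im)) 0 := by
    have h4 : HasDerivAt (fun t : ℝ => ((z.re + t - w.re) ^ 2 + (z.im - w.im) ^ 2) / (4 * z.im * w.im))
        ((2 * (z.re + 0 - w.re) ^ (2 - 1) * 1) / (4 * z.im * w.im)) 0 :=
      ((((hasDerivAt_id (0 : ℝ)).const_add z.re).sub_const w.re).pow 2 |>.add_const _).div_const _
    convert h4 using 1
    field_simp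
    ring
  have h6 : HasDerivAt ψ ψ' (((z.re + 0 - w.re) ^ 2 + (z.im - w.im) ^ 2) / (4 * z.im * w.im)) := by
    rw [add_zero, ← upt_eq]
    exact hψ
  exact h6.comp (0 : ℝ) h3

/-- The derivative of `t ↦ ψ (u(z + t I, w))` at `0`. -/
lemma hasDerivAt_dir_I {ψ : ℝ → ℝ} {z w : ℍ} {ψ' : ℝ} (hψ : HasDerivAt ψ ψ' (upt z w)) :
    HasDerivAt (fun t : ℝ => ψ (((z.re - w.re) ^ 2 + (z.im + t - w.im) ^ 2) /
      (4 * (z.im + t) * w.im)))
      (ψ' * ((z.im ^ 2 - w.im ^ 2 - (z.re - w.re) ^ 2) / (4 * z.im ^ 2 * w.im))) 0 := by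
  have hz := z.im_pos
  have hw := w.im_pos
  have h3 : HasDerivAt (fun t : ℝ => ((z.re - w.re) ^ 2 + (z.im + t - w.im) ^ 2) /
      (4 * (z.im + t) * w.im))
      ((z.im ^ 2 - w.im ^ 2 - (z.re - w.re) ^ 2) / (4 * z.im ^ 2 * w.im)) 0 := by
    have hn : HasDerivAt (fun t : ℝ => (z.re - w.re) ^ 2 + (z.im + t - w.im) ^ 2)
        (2 * (z.im + 0 - w.im) ^ (2 - 1) * 1) 0 :=
      ((((hasDerivAt_id (0 : ℝ)).const_add z.im).sub_const w.im).pow 2).const_add _
    have hd : HasDerivAt (fun t : ℝ => 4 * (z.im + t) * w.im) (4 * 1 * w.im) 0 :=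
      (((hasDerivAt_id (0 : ℝ)).const_add z.im).const_mul 4).mul_const _
    have h4 := hn.div hd (by simp; exact ⟨hz.ne', hw.ne'⟩)
    refine h4.congr_deriv ?_
    simp only [add_zero]
    rw [div_eq_div_iff (by positivity) (by positivity)]
    ring
  have h6 : HasDerivAt ψ ψ' (((z.re - w.re) ^ 2 + (z.im + 0 - w.im) ^ 2) /
      (4 * (z.im + 0) * w.im)) := by
    rw [add_zero, ← upt_eq]
    exact hψ
  exact h6.comp (0 : ℝ) h3

lemma GoodKer.hasDerivAt_line {E : Type} [NormedAddCommGroup E] [NormedSpace ℝ E]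
    {K : ℂ × ℂ → E} (hK : ∀ z w : ℍ,
      HasFDerivAt (fun z' : ℂ => K (z', (w : ℂ))) (Maass.D1 K ((z : ℂ), (w : ℂ))) (z : ℂ))
    (z w : ℍ) (v : ℂ) :
    HasDerivAt (fun t : ℝ => K ((z : ℂ) + t * v, (w : ℂ))) (Maass.D1 K ((z : ℂ), (w : ℂ)) v) 0 := by
  have hl : HasDerivAt (fun t : ℝ => (z : ℂ) + t * v) v 0 := by
    have := ((Complex.ofRealCLM.hasDerivAt (x := (0 : ℝ))).mul_const v).const_add (z : ℂ)
    simpa using this
  have h1' : HasFDerivAt (fun z' : ℂ => K (z', (w : ℂ))) (Maass.D1 K ((z : ℂ), (w : ℂ)))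
      ((z : ℂ) + ((0 : ℝ) : ℂ) * v) := by simpa using hK z w
  exact HasFDerivAt.comp_hasDerivAt (l := fun z' : ℂ => K (z', (w : ℂ))) (0 : ℝ) h1' hl

lemma KK_dir_one (φ : ℝ → ℝ) (z w : ℍ) : (fun t : ℝ => KK φ ((z : ℂ) + t * 1, (w : ℂ))) =
      fun t : ℝ => ((φ (((z.re + t - w.re) ^ 2 + (z.im - w.im) ^ 2) / (4 * z.im * w.im)) : ℝ) : ℂ) := by
  ext t
  unfold KK
  congr 2
  rw [Complex.normSq_apply]
  simp
  ring

lemma KK_dir_I (φ : ℝ → ℝ) (z w : ℍ) : (fun t : ℝ => KK φ ((z : ℂ) + t * Complex.I, (w : ℂ))) =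
      fun t : ℝ => ((φ (((z.re - w.re) ^ 2 + (z.im + t - w.im) ^ 2) /
        (4 * (z.im + t) * w.im)) : ℝ) : ℂ) := by
  ext t
  unfold KK
  congr 2
  rw [Complex.normSq_apply]
  simp
  ring

lemma D1_one {φ : ℝ → ℝ} (hφ : IsTest φ) (z w : ℍ) :
    D1 (KK φ) ((z : ℂ), (w : ℂ)) 1 =
      ((deriv φ (upt z w) * ((z.re - w.re) / (2 * z.im * w.im)) : ℝ) : ℂ) := by
  have h2 := GoodKer.hasDerivAt_line hφ.goodKer.hasFDerivAt z w 1
  have h6 : HasDerivAt φ (deriv φ (upt z w)) (upt z w) :=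
    (hφ.smooth.differentiable (by simp)).differentiableAt.hasDerivAt
  have h7 := (hasDerivAt_dir_one h6).ofReal_comp
  rw [KK_dir_one] at h2
  exact h2.unique h7

lemma D1_I {φ : ℝ → ℝ} (hφ : IsTest φ) (z w : ℍ) :
    D1 (KK φ) ((z : ℂ), (w : ℂ)) Complex.I =
      ((deriv φ (upt z w) *
        ((z.im ^ 2 - w.im ^ 2 - (z.re - w.re) ^ 2) / (4 * z.im ^ 2 * w.im)) : ℝ) : ℂ) := by
  have h2 := GoodKer.hasDerivAt_line hφ.goodKer.hasFDerivAt z w Complex.I
  have h6 : HasDerivAt φ (deriv φ (upt z w)) (upt z w) :=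
    (hφ.smooth.differentiable (by simp)).differentiableAt.hasDerivAt
  have h7 := (hasDerivAt_dir_I h6).ofReal_comp
  rw [KK_dir_I] at h2
  exact h2.unique h7

lemma D1_D1_one {φ : ℝ → ℝ} (hφ : IsTest φ) (z w : ℍ) :
    D1 (D1 (KK φ)) ((z : ℂ), (w : ℂ)) 1 1 =
      ((deriv (deriv φ) (upt z w) * ((z.re - w.re) / (2 * z.im * w.im)) *
          ((z.re - w.re) / (2 * z.im * w.im)) +
        deriv φ (upt z w) * (1 / (2 * z.im * w.im)) : ℝ) : ℂ) := by
  have h2 := GoodKer.hasDerivAt_line hφ.goodKer.D1.hasFDerivAt z w 1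
  have h3 : HasDerivAt (fun t : ℝ => Maass.D1 (KK φ) ((z : ℂ) + t * 1, (w : ℂ)) 1)
      (Maass.D1 (Maass.D1 (KK φ)) ((z : ℂ), (w : ℂ)) 1 1) 0 :=
    (ContinuousLinearMap.apply ℝ ℂ (1 : ℂ)).hasFDerivAt.comp_hasDerivAt (0 : ℝ) h2
  have h6 : HasDerivAt (deriv φ) (deriv (deriv φ) (upt z w)) (upt z w) :=
    (hφ.derivTest.smooth.differentiable (by simp)).differentiableAt.hasDerivAt
  have h7 := hasDerivAt_dir_one h6
  have h8 : HasDerivAt (fun t : ℝ => (z.re + t - w.re) / (2 * z.im * w.im))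
      (1 / (2 * z.im * w.im)) 0 :=
    (((hasDerivAt_id (0 : ℝ)).const_add z.re).sub_const w.re).div_const _
  have h9 := (h7.mul h8).ofReal_comp
  have h10 : (fun t : ℝ => Maass.D1 (KK φ) ((z : ℂ) + t * 1, (w : ℂ)) 1) =
      fun t : ℝ => ((deriv φ (((z.re + t - w.re) ^ 2 + (z.im - w.im) ^ 2) / (4 * z.im * w.im)) *
        ((z.re + t - w.re) / (2 * z.im * w.im)) : ℝ) : ℂ) := by
    ext t
    have h11 : 0 < ((z : ℂ) + t * 1).im := by simp [z.im_pos]
    have h12 := D1_one hφ ⟨_, h11⟩ w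
    rw [upt_eq] at h12
    have e1 : (⟨_, h11⟩ : ℍ).re = z.re + t := by
      change ((z : ℂ) + t * 1).re = _
      simp
    have e2 : (⟨_, h11⟩ : ℍ).im = z.im := by
      change ((z : ℂ) + t * 1).im = _
      simp
    rw [e1, e2] at h12
    exact h12
  rw [h10] at h3
  have := h3.unique h9
  rw [this, add_zero, ← upt_eq]

lemma D1_D1_I {φ : ℝ → ℝ} (hφ : IsTest φ) (z w : ℍ) :
    D1 (D1 (KK φ)) ((z : ℂ), (w : ℂ)) Complex.I Complex.I =
      ((deriv (deriv φ) (upt z w) *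
          ((z.im ^ 2 - w.im ^ 2 - (z.re - w.re) ^ 2) / (4 * z.im ^ 2 * w.im)) *
          ((z.im ^ 2 - w.im ^ 2 - (z.re - w.re) ^ 2) / (4 * z.im ^ 2 * w.im)) +
        deriv φ (upt z w) *
          ((w.im ^ 2 + (z.re - w.re) ^ 2) / (2 * z.im ^ 3 * w.im)) : ℝ) : ℂ) := by
  have hz := z.im_pos
  have hw := w.im_pos
  have h2 := GoodKer.hasDerivAt_line hφ.goodKer.D1.hasFDerivAt z w Complex.I
  have h3 : HasDerivAt (fun t : ℝ => Maass.D1 (KK φ) ((z : ℂ) + t * Complex.I, (w : ℂ)) Complex.I)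
      (Maass.D1 (Maass.D1 (KK φ)) ((z : ℂ), (w : ℂ)) Complex.I Complex.I) 0 :=
    (ContinuousLinearMap.apply ℝ ℂ (Complex.I : ℂ)).hasFDerivAt.comp_hasDerivAt (0 : ℝ) h2
  have h6 : HasDerivAt (deriv φ) (deriv (deriv φ) (upt z w)) (upt z w) :=
    (hφ.derivTest.smooth.differentiable (by simp)).differentiableAt.hasDerivAt
  have h7 := hasDerivAt_dir_I h6
  have h8 : HasDerivAt (fun t : ℝ => ((z.im + t) ^ 2 - w.im ^ 2 - (z.re - w.re) ^ 2) /
      (4 * (z.im + t) ^ 2 * w.im))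
      ((w.im ^ 2 + (z.re - w.re) ^ 2) / (2 * z.im ^ 3 * w.im)) 0 := by
    have hn : HasDerivAt (fun t : ℝ => (z.im + t) ^ 2 - w.im ^ 2 - (z.re - w.re) ^ 2)
        (2 * (z.im + 0) ^ (2 - 1) * 1) 0 :=
      ((((hasDerivAt_id (0 : ℝ)).const_add z.im).pow 2).sub_const _).sub_const _
    have hd : HasDerivAt (fun t : ℝ => 4 * (z.im + t) ^ 2 * w.im)
        (4 * (2 * (z.im + 0) ^ (2 - 1) * 1) * w.im) 0 :=
      ((((hasDerivAt_id (0 : ℝ)).const_add z.im).pow 2).const_mul 4).mul_const _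
    have h4 := hn.div hd (by simp; exact ⟨hz.ne', hw.ne'⟩)
    refine h4.congr_deriv ?_
    simp only [add_zero]
    rw [div_eq_div_iff (by positivity) (by positivity)]
    ring
  have h9 := (h7.mul h8).ofReal_comp
  have h10 : (fun t : ℝ => Maass.D1 (KK φ) ((z : ℂ) + t * Complex.I, (w : ℂ)) Complex.I) =ᶠ[𝓝 0]
      fun t : ℝ => ((deriv φ (((z.re - w.re) ^ 2 + (z.im + t - w.im) ^ 2) /
        (4 * (z.im + t) * w.im)) *
        (((z.im + t) ^ 2 - w.im ^ 2 - (z.re - w.re) ^ 2) /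
      (4 * (z.im + t) ^ 2 * w.im)) : ℝ) : ℂ) := by
    filter_upwards [lt_mem_nhds (show -z.im < 0 by linarith)] with t ht
    have h11 : 0 < ((z : ℂ) + t * Complex.I).im := by simp; linarith
    have h12 := D1_I hφ ⟨_, h11⟩ w
    rw [upt_eq] at h12
    have e1 : (⟨_, h11⟩ : ℍ).re = z.re := by
      change ((z : ℂ) + t * Complex.I).re = _
      simp
    have e2 : (⟨_, h11⟩ : ℍ).im = z.im + t := by
      change ((z : ℂ) + t * Complex.I).im = _
      simp
    rw [e1, e2] at h12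
    exact h12
  have := (h3.congr_of_eventuallyEq h10.symm).unique h9
  rw [this, add_zero, ← upt_eq]

/-- The pointwise identity behind `Δ_z φ(u(z, w)) = (L φ)(u(z, w))`. -/
lemma laplace_KK {φ : ℝ → ℝ} (hφ : IsTest φ) (z w : ℍ) :
    (z.im : ℂ) ^ 2 * (D1 (D1 (KK φ)) ((z : ℂ), (w : ℂ)) 1 1 +
      D1 (D1 (KK φ)) ((z : ℂ), (w : ℂ)) Complex.I Complex.I) = (Maass.radLap φ (upt z w) : ℂ) := by
  rw [D1_D1_one hφ, D1_D1_I hφ]
  norm_cast
  unfold Maass.radLap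
  have hz := z.im_pos
  have hw := w.im_pos
  generalize deriv (deriv φ) (upt z w) = A
  generalize deriv φ (upt z w) = B
  rw [upt_eq]
  field_simp
  ring

section eval

variable {E : Type} [NormedAddCommGroup E] [NormedSpace ℝ E] [NormedSpace ℂ E]
  [SMulCommClass ℝ ℂ E] [CompleteSpace E]

lemma kint_apply {K : ℂ × ℂ → ℂ →L[ℝ] E} (hK : GoodKer K) {f : ℍ → ℂ} (hf : IsBM f) (z : ℍ)
    (v : ℂ) : kint K f (z : ℂ) v = kint (fun p => K p v) f (z : ℂ) := by
  unfold kint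
  rw [ContinuousLinearMap.integral_apply (hK.integrable hf z)]
  rfl

lemma GoodKer.apply {K : ℂ × ℂ → ℂ →L[ℝ] E} (hK : GoodKer K) (v : ℂ) :
    GoodKer (fun p => K p v) := by
  constructor
  · exact hK.smooth.clm_apply contDiffOn_const
  · intro z w h
    rw [hK.supp z w h]
    rfl

end eval

lemma pp_laplacian {φ : ℝ → ℝ} (hφ : IsTest φ) {f : ℍ → ℂ} (hf : IsBM f) (z : ℍ) :
    (z.im : ℂ) ^ 2 * Laplacian.laplacian (pp φ f ∘ ofComplex) (z : ℂ) =
      pp (Maass.radLap φ) f z := by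
  have hzU : UU ∈ 𝓝 (z : ℂ) := isOpen_UU.mem_nhds z.im_pos
  have h1 : (pp φ f ∘ ofComplex) =ᶠ[𝓝 (z : ℂ)] kint (KK φ) f := by
    filter_upwards [hzU] with z' hz' using pp_eq_kint φ f hz'
  rw [(InnerProductSpace.laplacian_congr_nhds h1).eq_of_nhds]
  rw [InnerProductSpace.laplacian_eq_iteratedFDeriv_complexPlane]
  have h2 : fderiv ℝ (kint (KK φ) f) =ᶠ[𝓝 (z : ℂ)] kint (D1 (KK φ)) f := by
    filter_upwards [hzU] with z' hz' 
    exact (hφ.goodKer.hasFDerivAt_kint hf ⟨z', hz'⟩).fderiv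
  have h3 : fderiv ℝ (fderiv ℝ (kint (KK φ) f)) (z : ℂ) = kint (D1 (D1 (KK φ))) f z := by
    rw [h2.fderiv_eq]
    exact (hφ.goodKer.D1.hasFDerivAt_kint hf z).fderiv
  have h4 := hφ.goodKer.D1.D1
  have h5 : ∀ v : ℂ, kint (D1 (D1 (KK φ))) f z v v =
      ∫ w : ℍ, f w * D1 (D1 (KK φ)) ((z : ℂ), (w : ℂ)) v v := by
    intro v
    rw [kint_apply h4 hf z v, kint_apply (h4.apply v) hf z v]
    rfl
  have h6 : ∀ v : ℂ, Integrable (fun w : ℍ => f w * D1 (D1 (KK φ)) ((z : ℂ), (w : ℂ)) v v) :=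
    fun v => ((h4.apply v).apply v).integrable hf z
  simp only [iteratedFDeriv_two_apply]
  rw [h3]
  have e3 : ∀ v : ℂ, kint (D1 (D1 (KK φ))) f z (![v, v] 0) (![v, v] 1) =
      kint (D1 (D1 (KK φ))) f z v v := fun v => rfl
  rw [e3, e3, h5, h5, ← integral_add (h6 _) (h6 _), ← integral_const_mul]
  unfold pp
  congr 1
  ext w
  rw [← laplace_KK hφ z w]
  ring

end

end Pool.Agent.Lib.Maass
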